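import Pool.Agent.H.MP_6c077c_gt.Al.Cls
import Pool.Agent.H.MP_6c077c_gt.IxB.FlipIdx

/-! Alexander theorem: the class of the induction. -/

set_option autoImplicit false

namespace Pool.Schoen

open Filter Set
open scoped Topology RealInnerProductSpace ContDiff

variable {V : Type*} [NormedAddCommGroup V] [InnerProductSpace ℝ V] [FiniteDimensional ℝ V]

/-- The class of the induction: `L` are the levels where the hypersurface is cut, `S` the markers. -/
structure ACls (f : V → ℝ) (e : V) (L : Set ℝ) (S : Finset V) : Prop where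
  smooth : ContDiff ℝ ∞ f
  bdd : Bornology.IsBounded {x | f x = 0}
  reg : ∀ x, f x = 0 → gradient f x ≠ 0
  conn : IsConnected {x | f x ≤ 0}
  conn' : IsConnected {x | 0 ≤ f x}
  lift : LiftS {x | f x ≤ 0} ∨ LiftS {x | 0 ≤ f x}
  crit : ∀ x, Crit f e x → ⟪e, x⟫ ∉ L ∧ ∃ k, Idx f e x k
  sep : ∀ x y, Crit f e x → Crit f e y → Idx f e x 1 → Idx f e y 1 → x ≠ y →
    ∃ c ∈ L, (⟪e, x⟫ < c ∧ c < ⟪e, y⟫) ∨ (⟪e, y⟫ < c ∧ c < ⟪e, x⟫)
  mark : Mark f e L S

variable {f : V → ℝ} {e : V} {L : Set ℝ} {S : Finset V}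

omit [FiniteDimensional ℝ V] in
theorem Rd.neg (h : Rd f) : Rd fun x => -f x := by
  rcases h with h | h
  · right
    have h1 : (fun x => - -f x) = f := by
      funext x
      exact neg_neg _
    rw [h1]
    exact h
  · exact Or.inl h

omit [FiniteDimensional ℝ V] in
theorem rd_neg : (Rd fun x => -f x) ↔ Rd f := by
  constructor
  · intro h
    have h1 : (fun x => - -f x) = f := by
      funext x
      exact neg_neg _
    have h2 := h.neg
    rwa [h1] at h2
  · exact Rd.neg

omit [FiniteDimensional ℝ V] in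
theorem Rd.of_hom {g : V → ℝ} (h : Hom f g) (hg : Rd g) : Rd f := by
  rcases hg with hg | hg
  · exact Or.inl (h.trans hg)
  · exact Or.inr (h.neg.trans hg)

omit [FiniteDimensional ℝ V] in
theorem Crit.congr' {g : V → ℝ} {x : V} (h : f =ᶠ[𝓝 x] g) (hf : Crit f e x) : Crit g e x := by
  refine ⟨by rw [← h.self_of_nhds, hf.1], fun w hw => ?_⟩
  rw [← h.fderiv_eq]
  exact hf.2 w hw

omit [FiniteDimensional ℝ V] in
theorem crit_neg {x : V} : Crit (fun y => -f y) e x ↔ Crit f e x := by
  have h1 : fderiv ℝ (fun y => -f y) x = -fderiv ℝ f x := fderiv_fun_neg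
  unfold Crit
  rw [neg_eq_zero, h1]
  refine and_congr_right fun _ => forall_congr' fun w => imp_congr_right fun _ => ?_
  rw [_root_.neg_apply, neg_eq_zero]

/-- The index of the opposite function. -/
theorem idx_neg (hn : Module.finrank ℝ V = 3) (he : ‖e‖ = 1) (hf : ContDiff ℝ ∞ f) {x : V} {k : ℕ}
    (h : Idx f e x k) :
    Idx (fun y => -f y) e x (2 - k) := by
  obtain ⟨N, P, hs, hk⟩ := h
  have h1 : fderiv ℝ (fderiv ℝ (fun y => -f y)) x = -fderiv ℝ (fderiv ℝ f) x := by
    have h2 : fderiv ℝ (fun y => -f y) = fun y => -fderiv ℝ f y := by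
      funext y
      exact fderiv_fun_neg
    rw [h2]
    exact fderiv_fun_neg
  have h3 := hs.finrank he
  refine ⟨P, N, ⟨hs.hP, hs.hN, fun a ha b hb => ?_, fun w hw => ?_, fun a ha b hb => ?_,
    fun a ha ha0 => ?_, fun b hb hb0 => ?_⟩, by omega⟩
  · rw [real_inner_comm]
    exact hs.orth b hb a ha
  · obtain ⟨a, ha, b, hb, hab⟩ := hs.span w hw
    exact ⟨b, hb, a, ha, by rw [hab, add_comm]⟩
  · rw [h1, _root_.neg_apply, _root_.neg_apply, ixHess_symm hf, hs.diag b hb a ha, neg_zero]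
  · rw [h1]
    have := hs.pos a ha ha0
    simp only [_root_.neg_apply]
    linarith
  · rw [h1]
    have := hs.neg b hb hb0
    simp only [_root_.neg_apply]
    linarith

/-- The class is symmetric in the two sides. -/
theorem ACls.neg (hn : Module.finrank ℝ V = 3) (he : ‖e‖ = 1) (h : ACls f e L S) :
    ACls (fun x => -f x) e L S := by
  have s1 : {x | -f x ≤ 0} = {x | 0 ≤ f x} := by
    ext x
    exact neg_nonpos (a := f x)
  have s2 : {x | 0 ≤ -f x} = {x | f x ≤ 0} := by
    ext x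
    exact neg_nonneg (a := f x)
  have hg : ∀ x, gradient (fun y => -f y) x = -gradient f x := by
    intro x
    have h1 : fderiv ℝ (fun y => -f y) x = -fderiv ℝ f x := fderiv_fun_neg
    unfold gradient
    rw [h1, map_neg]
  have hone : ∀ x, Idx (fun y => -f y) e x 1 → Idx f e x 1 := by
    intro x hx
    have h1 := idx_neg hn he h.smooth.neg hx
    have h2 : (fun x => - -f x) = f := by
      funext x
      exact neg_neg _
    rwa [h2] at h1
  refine ⟨h.smooth.neg, ?_, ?_, ?_, ?_, ?_, ?_, ?_, h.mark.neg⟩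
  · have h1 : {x | -f x = 0} = {x | f x = 0} := by
      ext x
      exact neg_eq_zero (a := f x)
    rw [h1]
    exact h.bdd
  · intro x hx h1
    rw [hg, neg_eq_zero] at h1
    exact h.reg x (neg_eq_zero.1 hx) h1
  · rw [s1]
    exact h.conn'
  · rw [s2]
    exact h.conn
  · rw [s1, s2]
    exact h.lift.symm
  · intro x hx
    obtain ⟨h1, k, hk⟩ := h.crit x (crit_neg.1 hx)
    exact ⟨h1, _, idx_neg hn he h.smooth hk⟩
  · intro x y hx hy h1 h2 hxy
    exact h.sep x y (crit_neg.1 hx) (crit_neg.1 hy) (hone x h1) (hone y h2) hxy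

theorem ACls.good (h : ACls f e L S) : Good f := by
  refine good_of_regular h.smooth h.bdd fun x hx h1 => h.reg x hx ?_
  rw [gradient, h1, map_zero]

theorem ACls.mo (h : ACls f e L S) : Mo f e :=
  ⟨h.smooth, h.bdd, h.reg, fun x hx => (h.crit x hx).2⟩

theorem ACls.topE (h : ACls f e L S) : TopE f := ⟨h.conn, h.conn', h.lift⟩

theorem ACls.of {L : Finset ℝ} (hm : Mo f e) (hl : Lev f e L S) (ht : TopE f) :
    ACls f e L S :=
  ⟨hm.smooth, hm.bdd, hm.reg, ht.conn, ht.out, ht.lift, fun x hx => ⟨hl.reg x hx, hm.nd x hx⟩,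
    hl.sep, hl.mark⟩

theorem ACls.lev {L : Finset ℝ} (h : ACls f e L S) : Lev f e L S :=
  ⟨fun x hx => (h.crit x hx).1, h.sep, h.mark⟩

end Pool.Schoen
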