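import Mathlib
import Pool.Agent.H.MP_6c077c_gt.IxB.FlipIdx
import Pool.Agent.H.MP_6c077c_gt.IxB.Unique
import Pool.Agent.H.MP_6c077c_gt.IxB.T1
import Pool.Agent.H.MP_6c077c_gt.IxB.Isol
import Pool.Agent.H.MP_6c077c_gt.Ix.Cap
import Pool.Agent.H.MP_6c077c_gt.Ix.ModC

/-! Alexander's theorem: domains without saddles are balls. -/

set_option autoImplicit false

namespace Pool.Schoen

open Filter Set
open scoped Topology RealInnerProductSpace ContDiff

variable {V : Type*} [NormedAddCommGroup V] [InnerProductSpace ℝ V] [FiniteDimensional ℝ V]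

/-- A lowest point of the body is one of the inward points. -/
theorem NoSad_low {f : V → ℝ} {e : V} {P : Finset V} (he : ‖e‖ = 1)
    (hf : Class f e P) (h : {x | f x ≤ 0}.Nonempty) :
    ∃ m ∈ P, ∀ x, f x ≤ 0 → ⟪e, m⟫ ≤ ⟪e, x⟫ := by
  have hcl : IsClosed {x | f x ≤ 0} := isClosed_le hf.good.cont continuous_const
  have hcomp : IsCompact {x | f x ≤ 0} := Metric.isCompact_of_isClosed_isBounded hcl hf.bdd
  obtain ⟨x, hx, hmin⟩ := hcomp.exists_isMinOn h (f := fun y => ⟪e, y⟫)
    (continuous_const.inner continuous_id).continuousOn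
  refine ⟨x, ?_, fun y hy => hmin hy⟩
  by_contra hne
  have key : ∃ v, ⟪e, v⟫ < 0 ∧ ∀ᶠ s in 𝓝[>] (0 : ℝ), f (x + s • v) ≤ 0 := by
    rcases eq_or_lt_of_le (show f x ≤ 0 from hx) with h0 | h0
    · obtain ⟨v, hv, hv'⟩ := hf.free x h0 hne
      obtain ⟨c, hc, d, hd, hu⟩ := hv.unif
      refine ⟨v, hv', ?_⟩
      filter_upwards [Ioo_mem_nhdsGT hd] with s hs
      have h1 := hu x (by simpa using hd) v (by simpa using hd) s hs.1 hs.2
      have h2 := mul_pos hc hs.1
      linarith
    · refine ⟨-e, ?_, ?_⟩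
      · rw [inner_neg_right, real_inner_self_eq_norm_sq, he]
        norm_num
      · have h1 : Continuous fun s : ℝ => f (x + s • -e) := hf.good.cont.comp (by fun_prop)
        have h2 : Tendsto (fun s : ℝ => f (x + s • -e)) (𝓝 0) (𝓝 (f x)) := by
          simpa using h1.tendsto 0
        have h3 := h2.eventually (gt_mem_nhds h0)
        exact (h3.filter_mono nhdsWithin_le_nhds).mono fun s hs => hs.le
  obtain ⟨v, hv, hs⟩ := key
  have h0 : ∀ᶠ s in 𝓝[>] (0 : ℝ), s ∈ Ioi (0 : ℝ) := self_mem_nhdsWithin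
  obtain ⟨s, hs1, hs2⟩ := (hs.and h0).exists
  have h1 : ⟪e, x⟫ ≤ ⟪e, x + s • v⟫ := hmin hs1
  rw [inner_add_right, real_inner_smul_right] at h1
  have h2 := mul_pos_of_neg_of_neg hv (neg_lt_zero.2 (mem_Ioi.1 hs2))
  nlinarith

/-- If the body is connected and there is only one inward point, the body is a ball. -/
theorem isBall_of_single {f : V → ℝ} {e p : V} (he : ‖e‖ = 1)
    (hf : Class f e {p}) (hconn : IsConnected {x | f x ≤ 0}) : IsBall f := by
  obtain ⟨g, μ, r, hfg, hg, hmod⟩ := model he hf (Finset.mem_singleton_self p)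
  have hgc := hfg.isConnected hf.bdd hconn
  refine Hom.trans hfg ?_
  rcases hmod with ⟨B, hm⟩ | ⟨u, B, a, hm⟩
  · refine cap hg (Finset.mem_singleton_self p) ?_ hm hgc
    intro p' hp'
    rw [Finset.mem_singleton.1 hp']
  · exfalso
    obtain ⟨m, hm1, hm2⟩ := NoSad_low he hg hgc.nonempty
    rw [Finset.mem_singleton] at hm1
    rw [hm1] at hm2
    -- the points `p + s u - s² (a / (4 μ)) e`
    obtain ⟨κ, hκ⟩ : ∃ κ : ℝ, κ = a / (4 * μ) := ⟨_, rfl⟩
    have hμ := hm.hμ
    have ha := hm.ha
    have hκ0 : 0 < κ := by rw [hκ]; positivity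
    have hκμ : μ * κ = a / 4 := by rw [hκ]; field_simp
    have hcont : Continuous fun s : ℝ => ‖p + s • u - (s ^ 2 * κ) • e - p‖ := by fun_prop
    have hev : ∀ᶠ s in 𝓝[>] (0 : ℝ), ‖p + s • u - (s ^ 2 * κ) • e - p‖ < r := by
      have h1 := hcont.tendsto 0
      simp only [zero_smul, add_zero, ne_eq, OfNat.ofNat_ne_zero, not_false_eq_true, zero_pow,
        zero_mul, sub_zero, sub_self, norm_zero] at h1
      exact (h1.mono_left nhdsWithin_le_nhds).eventually_lt_const hm.hr
    obtain ⟨s, hs1, hs2⟩ := (hev.and self_mem_nhdsWithin).exists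
    have hs0 : 0 < s := hs2
    have hee : ⟪e, e⟫ = 1 := by rw [real_inner_self_eq_norm_sq, he]; norm_num
    have huu : ⟪u, u⟫ = 1 := by rw [real_inner_self_eq_norm_sq, hm.hu]; norm_num
    have hue : ⟪u, e⟫ = 0 := by rw [real_inner_comm]; exact hm.heu
    have e1 : p + s • u - (s ^ 2 * κ) • e - p = s • u - (s ^ 2 * κ) • e := by abel
    have e2 : ⟪e, s • u - (s ^ 2 * κ) • e⟫ = -(s ^ 2 * κ) := by
      rw [inner_sub_right, inner_smul_right, inner_smul_right, hm.heu, hee]
      ring
    have e3 : ⟪u, s • u - (s ^ 2 * κ) • e⟫ = s := by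
      rw [inner_sub_right, inner_smul_right, inner_smul_right, hue, huu]
      ring
    have e4 : wc e u (s • u - (s ^ 2 * κ) • e) = 0 := by
      unfold wc
      rw [e2, e3]
      module
    have hle : g (p + s • u - (s ^ 2 * κ) • e) ≤ 0 := by
      rw [hm.hf _ hs1]
      unfold mdl1
      rw [e1, e2, e3, e4]
      simp only [map_zero, zero_div, add_zero]
      have h1 : 0 < s ^ 2 := by positivity
      nlinarith
    have h2 := hm2 _ hle
    rw [inner_sub_right, inner_add_right, inner_smul_right, inner_smul_right, hm.heu, hee] at h2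
    have h3 : 0 < s ^ 2 * κ := by positivity
    linarith

omit [FiniteDimensional ℝ V] in
/-- The retraction onto the closed ball carries the outer side to its part in the ball. -/
theorem NoSad_outer {F : V → ℝ} {R : ℝ} (hR0 : 0 < R) (hR : ∀ x, F x ≤ 0 → ‖x‖ < R)
    (hO : IsPreconnected {x | 0 ≤ F x}) : IsPreconnected {x | 0 ≤ F x ∧ ‖x‖ ≤ R} := by
  obtain ⟨ρ, hρ⟩ : ∃ ρ : V → V, ρ = fun x => (R / max R ‖x‖) • x := ⟨_, rfl⟩
  have hmax : ∀ x : V, 0 < max R ‖x‖ := fun x => lt_max_of_lt_left hR0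
  have hρc : Continuous ρ := by
    rw [hρ]
    exact (continuous_const.div (continuous_const.max continuous_norm)
      (fun x => (hmax x).ne')).smul continuous_id
  have hρ1 : ∀ x : V, ‖x‖ ≤ R → ρ x = x := by
    intro x hx
    rw [hρ]
    show (R / max R ‖x‖) • x = x
    rw [max_eq_left hx, div_self hR0.ne', one_smul]
  have hρ2 : ∀ x : V, R < ‖x‖ → ‖ρ x‖ = R := by
    intro x hx
    rw [hρ]
    show ‖(R / max R ‖x‖) • x‖ = R
    have h0 : 0 < ‖x‖ := hR0.trans hx
    rw [max_eq_right hx.le, norm_smul, Real.norm_of_nonneg (by positivity)]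
    field_simp
  have himg : ρ '' {x | 0 ≤ F x} = {x | 0 ≤ F x ∧ ‖x‖ ≤ R} := by
    ext y
    constructor
    · rintro ⟨x, hx, rfl⟩
      have hx' : 0 ≤ F x := hx
      rcases le_or_gt ‖x‖ R with h | h
      · rw [hρ1 x h]
        exact ⟨hx', h⟩
      · have h1 := hρ2 x h
        refine ⟨?_, h1.le⟩
        by_contra hc
        have := hR _ (not_le.1 hc).le
        linarith
    · rintro ⟨h1, h2⟩
      exact ⟨y, h1, hρ1 y h2⟩
  rw [← himg]
  exact hO.image ρ hρc.continuousOn

/-- The closed side is preconnected if the open side is. -/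
theorem NoSad_closed {X : Type*} [TopologicalSpace X] {F : X → ℝ}
    (hcl : ∀ x, F x = 0 → x ∈ closure {y | 0 < F y})
    (hO : IsPreconnected {x | 0 < F x}) : IsPreconnected {x | 0 ≤ F x} := by
  have hsub : {x | 0 < F x} ⊆ {x | 0 ≤ F x} := by
    intro x hx
    have hx' : 0 < F x := hx
    exact hx'.le
  refine hO.subset_closure hsub ?_
  intro x hx
  have hx' : 0 ≤ F x := hx
  rcases eq_or_lt_of_le hx' with h | h
  · exact hcl x h.symm
  · exact subset_closure h

/-- Near a zero with nonzero gradient there are points where the function is positive. -/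
theorem NoSad_closure {F : V → ℝ} (hF : ContDiff ℝ ∞ F) {x : V} (hx : F x = 0)
    (hg : gradient F x ≠ 0) : x ∈ closure {y | 0 < F y} := by
  have hd : HasDerivAt (fun t : ℝ => F (x + t • gradient F x)) (‖gradient F x‖ ^ 2) 0 := by
    have h1 : HasFDerivAt F (fderiv ℝ F x) (x + (0 : ℝ) • gradient F x) := by
      rw [zero_smul, add_zero]
      exact ((hF.differentiable (by simp)) x).hasFDerivAt
    have h2 : HasDerivAt (fun t : ℝ => x + t • gradient F x) (gradient F x) 0 := by
      have := ((hasDerivAt_id (0 : ℝ)).smul_const (gradient F x)).const_add x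
      simpa using this
    have h3 := h1.comp_hasDerivAt (0 : ℝ) h2
    rwa [← inner_gradient_left, real_inner_self_eq_norm_sq] at h3
  have hpos : 0 < ‖gradient F x‖ ^ 2 := by
    have := norm_pos_iff.2 hg
    positivity
  have h3 : ∀ᶠ t in 𝓝[>] (0 : ℝ), 0 < F (x + t • gradient F x) := by
    have h5 := hasDerivAt_iff_tendsto_slope.1 hd
    have hsub : Ioi (0 : ℝ) ⊆ {0}ᶜ := fun t ht => ne_of_gt ht
    have h6 : ∀ᶠ t in 𝓝[>] (0 : ℝ), 0 < slope (fun t : ℝ => F (x + t • gradient F x)) 0 t :=
      (h5.eventually_const_lt hpos).filter_mono (nhdsWithin_mono _ hsub)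
    filter_upwards [h6, self_mem_nhdsWithin] with t ht ht0
    rw [slope_def_field] at ht
    have ht0' : 0 < t := ht0
    rw [zero_smul, add_zero, hx, sub_zero, sub_zero] at ht
    exact (div_pos_iff_of_pos_right ht0').1 ht
  rw [mem_closure_iff_nhds]
  intro U hU
  have hc : Continuous fun t : ℝ => x + t • gradient F x := by fun_prop
  have h4 : ∀ᶠ t in 𝓝[>] (0 : ℝ), x + t • gradient F x ∈ U := by
    have h5 := hc.tendsto 0
    rw [zero_smul, add_zero] at h5
    exact (h5.mono_left nhdsWithin_le_nhds).eventually hU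
  obtain ⟨t, ht1, ht2⟩ := (h4.and h3).exists
  exact ⟨_, ht1, ht2⟩

/-- No inward point of index `n`, if both sides are connected and all other indices are zero (or
at most `n - 2`). -/
theorem NoSad_top (n : ℕ) (hn : Module.finrank ℝ V = n + 1) {F : V → ℝ}
    (hF : ContDiff ℝ ∞ F) (hb : Bornology.IsBounded {x | F x ≤ 0})
    (hreg : ∀ x, F x = 0 → gradient F x ≠ 0) (hO : IsPreconnected {x | 0 ≤ F x}) {e : V}
    (he : ‖e‖ = 1) (hidx : ∀ x, Inward F e x → ∃ k, Idx F e x k ∧ (k + 2 ≤ n ∨ k = n)) :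
    ∀ x, Inward F e x → ∃ k, Idx F e x k ∧ k + 2 ≤ n := by
  obtain ⟨R, hR0, hR⟩ := hb.exists_pos_norm_lt
  have hR' : ∀ y, F y ≤ 0 → ‖y‖ < R := fun y hy => hR y hy
  have hset := cg_Y_set F R hR0 hR'
  obtain ⟨hY1, hY2, hYq⟩ := cg_Y_def F hF R hR0 hR' e he
  have hYin := cg_Y_inward F hF R hR0 hR' e he
  have hYb : Bornology.IsBounded {x | cgY F R x ≤ 0} := by
    rw [hset]
    refine (Metric.isBounded_closedBall (x := (0 : V)) (r := R)).subset fun y hy => ?_
    rw [mem_closedBall_zero_iff]
    exact hy.2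
  have hYc : IsPreconnected {x | cgY F R x ≤ 0} := by
    rw [hset]
    exact NoSad_outer hR0 hR' hO
  have hFq : 0 < F (R • e) := by
    by_contra hc
    have h1 := hR' _ (not_lt.1 hc)
    rw [norm_smul, he, mul_one, Real.norm_of_nonneg hR0.le] at h1
    exact lt_irrefl _ h1
  intro p hp
  obtain ⟨k, hk, hk1⟩ := hidx p hp
  rcases hk1 with hk1 | hk1
  · exact ⟨k, hk, hk1⟩
  exfalso
  rw [hk1] at hk
  have hpY : Idx (cgY F R) (-e) p 0 := by
    have := ix_flip n hn F hF R hR' e he p hp n hk
    rwa [Nat.sub_self] at this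
  have heq : p = R • e := by
    refine ix_unique (cgY F R) (cg_Y_smooth F hF R) hYb (cg_Y_reg F hF hreg R hR0 hR') hYc (-e)
      (by rw [norm_neg, he]) ?_ p (R • e)
      ((hYin p).2 (Or.inl hp)) ((hYin _).2 (Or.inr rfl)) hpY.posAt hYq
    intro x hx
    rcases (hYin x).1 hx with h | h
    · obtain ⟨j, hj, hj1⟩ := hidx x h
      have h2 := ix_flip n hn F hF R hR' e he x h j hj
      rcases hj1 with hj1 | hj1
      · exact Or.inr ⟨n - j, by omega, h2⟩
      · rw [hj1, Nat.sub_self] at h2
        exact Or.inl h2.posAt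
    · rw [h]
      exact Or.inl hYq
  rw [← heq, hp.1] at hFq
  exact lt_irrefl _ hFq

/-- A smooth domain whose body and closed complement are connected is a ball, if all its points
with normal `-e` are nondegenerate of index `0` or `n` (no saddles of the height). -/
theorem al_nosad (n : ℕ) (hn2 : 2 ≤ n) (hn : Module.finrank ℝ V = n + 1) {F : V → ℝ}
    (hF : ContDiff ℝ ∞ F) (hb : Bornology.IsBounded {x | F x ≤ 0})
    (hreg : ∀ x, F x = 0 → gradient F x ≠ 0) (hW : IsConnected {x | F x ≤ 0})
    (hO : IsPreconnected {x | 0 ≤ F x}) {e : V} (he : ‖e‖ = 1)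
    (hidx : ∀ x, Inward F e x → Idx F e x 0 ∨ Idx F e x n) : IsBall F := by
  have h0 : ∀ x, Inward F e x → Idx F e x 0 := by
    intro x hx
    -- the index `n` does not occur
    have h1 := NoSad_top n hn hF hb hreg hO he (fun y hy => by
      rcases hidx y hy with h | h
      · exact ⟨0, h, Or.inl (by omega)⟩
      · exact ⟨n, h, Or.inr rfl⟩) x hx
    obtain ⟨k, hk, hk2⟩ := h1
    rcases hidx x hx with h | h
    · exact h
    · exfalso
      -- the index is well defined: apply the statement with the index `n` only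
      have h3 := h.negAt hn he
      obtain ⟨N, P, hs, hN⟩ := hk
      have h4 := hs.finrank he
      have hP : P ≠ ⊥ := by
        intro hP
        rw [hP, finrank_bot] at h4
        omega
      obtain ⟨b, hb1, hb2⟩ := Submodule.exists_mem_ne_zero_of_ne_bot hP
      have h5 := hs.pos b hb1 hb2
      have h6 := h3 b (hs.hP b hb1) hb2
      linarith
  have hfin := ix_finite F hF hb hreg e he (fun x hx => ⟨0, h0 x hx⟩)
  have hcls : Class F e hfin.toFinset := by
    refine ⟨hb, ?_, ?_, ?_⟩
    · refine good_of_regular hF (hb.subset fun x hx => le_of_eq hx) (fun x hx h => hreg x hx ?_)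
      rw [gradient, h, map_zero]
    · intro p hp
      have hp' : Inward F e p := by simpa using hp
      exact inw_of_idx F hF e p hp' 0 (by omega) (h0 p hp')
    · intro x hx hxP
      refine free_of_not_inward F hF e he x hx (hreg x hx) ?_
      intro h
      apply hxP
      simpa using h
  obtain ⟨p, hp⟩ := Class.nonempty he hcls hW.nonempty
  have hp' : Inward F e p := by simpa using hp
  have hsing : hfin.toFinset = {p} := by
    refine Finset.eq_singleton_iff_unique_mem.2 ⟨hp, ?_⟩
    intro x hx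
    have hx' : Inward F e x := by simpa using hx
    exact ix_unique F hF hb hreg hW.isPreconnected e he
      (fun y hy => Or.inl (h0 y hy).posAt) x p hx' hp' (h0 x hx').posAt (h0 p hp').posAt
  rw [hsing] at hcls
  exact isBall_of_single he hcls hW

/-- The base case of Alexander's theorem: a smooth domain of three-dimensional space whose body and
closed complement are connected is a ball, if the height has only nondegenerate critical points on
the boundary and at most one saddle. -/
theorem al_base (hn : Module.finrank ℝ V = 3) {F : V → ℝ}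
    (hF : ContDiff ℝ ∞ F) (hb : Bornology.IsBounded {x | F x ≤ 0})
    (hreg : ∀ x, F x = 0 → gradient F x ≠ 0) (hW : IsConnected {x | F x ≤ 0})
    (hO : IsPreconnected {x | 0 ≤ F x}) {e : V} (he : ‖e‖ = 1)
    (hnd : ∀ x, Inward F e x ∨ Inward F (-e) x → ∃ k, Idx F e x k)
    (hsad : ∀ x y, (Inward F e x ∨ Inward F (-e) x) → (Inward F e y ∨ Inward F (-e) y) →
      Idx F e x 1 → Idx F e y 1 → x = y) : IsBall F := by
  have hneg : ∀ x k, Idx F e x k → Idx F (-e) x k := by
    rintro x k ⟨N, P, hs, hk⟩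
    refine ⟨N, P, ⟨?_, ?_, hs.orth, ?_, hs.diag, hs.neg, hs.pos⟩, hk⟩
    · intro a ha
      rw [inner_neg_right, hs.hN a ha, neg_zero]
    · intro a ha
      rw [inner_neg_right, hs.hP a ha, neg_zero]
    · intro w hw
      rw [inner_neg_right, neg_eq_zero] at hw
      exact hs.span w hw
  have hdim : ∀ x k, Idx F e x k → k = 0 ∨ k = 1 ∨ k = 2 := by
    rintro x k ⟨N, P, hs, hk⟩
    have := hs.finrank he
    omega
  by_cases h : ∃ x, Inward F e x ∧ Idx F e x 1
  · obtain ⟨x, hx, hx1⟩ := h
    refine al_nosad 2 le_rfl hn hF hb hreg hW hO (e := -e) (by rw [norm_neg, he]) ?_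
    intro y hy
    obtain ⟨k, hk⟩ := hnd y (Or.inr hy)
    rcases hdim y k hk with h0 | h1 | h2
    · rw [h0] at hk
      exact Or.inl (hneg y 0 hk)
    · exfalso
      rw [h1] at hk
      have hxy := hsad x y (Or.inl hx) (Or.inr hy) hx1 hk
      rw [← hxy] at hy
      obtain ⟨-, l, hl, hg⟩ := hx
      obtain ⟨-, l', hl', hg'⟩ := hy
      rw [hg] at hg'
      have h3 : (l + l') • e = 0 := by
        rw [smul_neg, neg_neg] at hg'
        rw [add_smul, ← hg']
        abel
      have he0 : e ≠ 0 := by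
        intro he0
        rw [he0, norm_zero] at he
        exact zero_ne_one he
      rcases smul_eq_zero.1 h3 with h4 | h4
      · linarith
      · exact he0 h4
    · rw [h2] at hk
      exact Or.inr (hneg y 2 hk)
  · push Not at h
    refine al_nosad 2 le_rfl hn hF hb hreg hW hO he ?_
    intro y hy
    obtain ⟨k, hk⟩ := hnd y (Or.inl hy)
    rcases hdim y k hk with h0 | h1 | h2
    · rw [h0] at hk
      exact Or.inl hk
    · rw [h1] at hk
      exact absurd hk (h y hy)
    · rw [h2] at hk
      exact Or.inr hk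

end Pool.Schoen
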