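import Pool.Agent.H.MP_6c077c_gt.Gd.Defs
import Pool.Agent.H.MP_6c077c_gt.Ix.TopC

/-! Alexander's theorem: invariance under diffeomorphisms. -/

set_option autoImplicit false

namespace Pool.Schoen

open Filter Set
open scoped Topology RealInnerProductSpace ContDiff

variable {V W : Type*} [NormedAddCommGroup V] [InnerProductSpace ℝ V]
  [NormedAddCommGroup W] [InnerProductSpace ℝ W]

/-- Descent directions and families of maps: the difference quotients of the maps tend to `v'`. -/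
theorem desc_comp_quot {X : Type*} {H : X → W → ℝ} {l : Filter X} {x' v' : W} {x v : V}
    (h : Desc H l x' v') (φ : X → V → W)
    (hφ : Tendsto (fun p : X × V => φ p.1 p.2) (l ×ˢ 𝓝 x) (𝓝 x'))
    (hq : Tendsto (fun q : X × (V × (V × ℝ)) =>
      q.2.2.2⁻¹ • (φ q.1 (q.2.1 + q.2.2.2 • q.2.2.1) - φ q.1 q.2.1))
      (l ×ˢ (𝓝 x ×ˢ (𝓝 v ×ˢ 𝓝[>] (0 : ℝ)))) (𝓝 v')) :
    Desc (fun t y => H t (φ t y)) l x v := by
  obtain ⟨c, hc, he⟩ := h
  refine ⟨c, hc, ?_⟩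
  have h1 : Tendsto (fun q : X × (V × (V × ℝ)) =>
      ((q.1, (φ q.1 q.2.1, (q.2.2.2⁻¹ • (φ q.1 (q.2.1 + q.2.2.2 • q.2.2.1) - φ q.1 q.2.1),
        q.2.2.2))) : X × (W × (W × ℝ))))
      (l ×ˢ (𝓝 x ×ˢ (𝓝 v ×ˢ 𝓝[>] (0 : ℝ)))) (l ×ˢ (𝓝 x' ×ˢ (𝓝 v' ×ˢ 𝓝[>] (0 : ℝ)))) := by
    refine tendsto_fst.prodMk (Tendsto.prodMk ?_ (Tendsto.prodMk hq ?_))
    · exact hφ.comp (tendsto_fst.prodMk (tendsto_fst.comp tendsto_snd))
    · exact tendsto_snd.comp (tendsto_snd.comp tendsto_snd)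
  filter_upwards [h1.eventually he, DescC_pos l x v] with q hq1 hq2
  have h2 : q.2.2.2 • (q.2.2.2⁻¹ • (φ q.1 (q.2.1 + q.2.2.2 • q.2.2.1) - φ q.1 q.2.1)) =
      φ q.1 (q.2.1 + q.2.2.2 • q.2.2.1) - φ q.1 q.2.1 := by
    rw [smul_smul, mul_inv_cancel₀ hq2.ne', one_smul]
  rw [h2, add_sub_cancel] at hq1
  exact hq1

/-- Descent directions and smooth families of maps. -/
theorem desc_comp_fam {H : ℝ → W → ℝ} {S : Set ℝ} {G : ℝ × V → W} {t : ℝ} {x v : V}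
    {G' : ℝ × V →L[ℝ] W} (hG : HasStrictFDerivAt G G' (t, x))
    (h : Desc H (𝓝[S] t) (G (t, x)) (G' (0, v))) :
    Desc (fun s y => H s (G (s, y))) (𝓝[S] t) x v := by
  refine desc_comp_quot h (fun s y => G (s, y)) ?_ ?_
  · have h1 := hG.continuousAt.tendsto
    rw [nhds_prod_eq] at h1
    exact h1.mono_left (Filter.prod_mono nhdsWithin_le_nhds le_rfl)
  · have h0 : Tendsto (fun q : ℝ × (V × (V × ℝ)) => q.1)
        (𝓝[S] t ×ˢ (𝓝 x ×ˢ (𝓝 v ×ˢ 𝓝[>] (0 : ℝ)))) (𝓝 t) :=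
      tendsto_fst.mono_right nhdsWithin_le_nhds
    have h1 : Tendsto (fun q : ℝ × (V × (V × ℝ)) =>
        (((q.1, q.2.1 + q.2.2.2 • q.2.2.1), (q.1, q.2.1)) : (ℝ × V) × (ℝ × V)))
        (𝓝[S] t ×ˢ (𝓝 x ×ˢ (𝓝 v ×ˢ 𝓝[>] (0 : ℝ)))) (𝓝 ((t, x), (t, x))) := by
      rw [nhds_prod_eq, nhds_prod_eq]
      refine Tendsto.prodMk (Tendsto.prodMk h0 ?_) (Tendsto.prodMk h0 ?_)
      · exact tendsto_snd.comp (tendsto_arg (𝓝[S] t) x v)
      · exact tendsto_snd.comp (tendsto_arg' (𝓝[S] t) x v)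
    have hv := DescC_dir (𝓝[S] t) x v
    have ho := (hG.isLittleO.comp_tendsto h1)
    -- the quotient minus its limit
    have h2 : Tendsto (fun q : ℝ × (V × (V × ℝ)) => G' (0, q.2.2.1))
        (𝓝[S] t ×ˢ (𝓝 x ×ˢ (𝓝 v ×ˢ 𝓝[>] (0 : ℝ)))) (𝓝 (G' (0, v))) := by
      have h3 : Continuous fun w : V => G' (0, w) := by fun_prop
      exact (h3.tendsto v).comp hv
    have h4 : Tendsto (fun q : ℝ × (V × (V × ℝ)) =>
        q.2.2.2⁻¹ • (G (q.1, q.2.1 + q.2.2.2 • q.2.2.1) - G (q.1, q.2.1)) - G' (0, q.2.2.1))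
        (𝓝[S] t ×ˢ (𝓝 x ×ˢ (𝓝 v ×ˢ 𝓝[>] (0 : ℝ)))) (𝓝 0) := by
      rw [← Asymptotics.isLittleO_one_iff ℝ]
      rw [Asymptotics.isLittleO_iff]
      intro ε hε
      have hb : ∀ᶠ q : ℝ × (V × (V × ℝ)) in 𝓝[S] t ×ˢ (𝓝 x ×ˢ (𝓝 v ×ˢ 𝓝[>] (0 : ℝ))),
          ‖q.2.2.1‖ < ‖v‖ + 1 := by
        have h5 := (continuous_norm.tendsto v).comp hv
        exact h5.eventually_lt_const (by linarith)
      have hε' : 0 < ε / (‖v‖ + 1) := by positivity
      filter_upwards [(Asymptotics.isLittleO_iff.1 ho) hε', hb, DescC_pos (𝓝[S] t) x v]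
        with q h5 h6 h7
      simp only [Function.comp_apply] at h5
      have e1 : ((q.1, q.2.1 + q.2.2.2 • q.2.2.1) : ℝ × V) - (q.1, q.2.1) =
          q.2.2.2 • ((0, q.2.2.1) : ℝ × V) := by
        ext <;> simp
      rw [e1, map_smul] at h5
      have e2 : q.2.2.2⁻¹ • (G (q.1, q.2.1 + q.2.2.2 • q.2.2.1) - G (q.1, q.2.1)) -
          G' (0, q.2.2.1) = q.2.2.2⁻¹ • (G (q.1, q.2.1 + q.2.2.2 • q.2.2.1) - G (q.1, q.2.1) -
          q.2.2.2 • G' (0, q.2.2.1)) := by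
        rw [smul_sub q.2.2.2⁻¹ (G _ - G _), smul_smul, inv_mul_cancel₀ h7.ne', one_smul]
      have e3 : ‖((0, q.2.2.1) : ℝ × V)‖ = ‖q.2.2.1‖ := by
        rw [Prod.norm_def]
        simp
      rw [e2, norm_smul, norm_inv, Real.norm_of_nonneg h7.le, norm_one, mul_one]
      rw [norm_smul, Real.norm_of_nonneg h7.le, e3] at h5
      rw [inv_mul_le_iff₀ h7]
      refine h5.trans ?_
      have h8 : ε / (‖v‖ + 1) * (q.2.2.2 * ‖q.2.2.1‖) ≤ ε / (‖v‖ + 1) * (q.2.2.2 * (‖v‖ + 1)) := by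
        gcongr
      refine h8.trans (le_of_eq ?_)
      field_simp
    have h5 := h4.add h2
    simp only [sub_add_cancel, zero_add] at h5
    exact h5

/-- A smooth diffeomorphism of `V` with its inverse. -/
structure Dif (Φ Ψ : V → V) : Prop where
  smooth : ContDiff ℝ ∞ Φ
  smooth' : ContDiff ℝ ∞ Ψ
  left : ∀ x, Ψ (Φ x) = x
  right : ∀ x, Φ (Ψ x) = x

theorem Dif.symm {Φ Ψ : V → V} (h : Dif Φ Ψ) : Dif Ψ Φ :=
  ⟨h.smooth', h.smooth, h.right, h.left⟩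

theorem Dif.strict {Φ Ψ : V → V} (h : Dif Φ Ψ) (x : V) :
    HasStrictFDerivAt Φ (fderiv ℝ Φ x) x :=
  h.smooth.contDiffAt.hasStrictFDerivAt (by simp)

theorem Dif.has {Φ Ψ : V → V} (h : Dif Φ Ψ) (x : V) : HasFDerivAt Φ (fderiv ℝ Φ x) x :=
  (h.strict x).hasFDerivAt

/-- The derivative of the inverse. -/
theorem Dif.fderiv_left {Φ Ψ : V → V} (h : Dif Φ Ψ) (x w : V) :
    fderiv ℝ Ψ (Φ x) (fderiv ℝ Φ x w) = w := by
  have h1 : HasFDerivAt (fun y => Ψ (Φ y)) ((fderiv ℝ Ψ (Φ x)).comp (fderiv ℝ Φ x)) x :=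
    (h.symm.has (Φ x)).comp x (h.has x)
  have h2 : HasFDerivAt (fun y => Ψ (Φ y)) (ContinuousLinearMap.id ℝ V) x := by
    have : (fun y => Ψ (Φ y)) = id := funext h.left
    rw [this]
    exact hasFDerivAt_id x
  exact DFunLike.congr_fun (h1.unique h2) w

theorem Dif.fderiv_right {Φ Ψ : V → V} (h : Dif Φ Ψ) (x w : V) :
    fderiv ℝ Φ x (fderiv ℝ Ψ (Φ x) w) = w := by
  have h1 := h.symm.fderiv_left (Φ x) w
  rwa [h.left] at h1

theorem Dif.continuous {Φ Ψ : V → V} (h : Dif Φ Ψ) : Continuous Φ := h.smooth.continuous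

/-- Descent directions of the composition with a diffeomorphism. -/
theorem Dif.desc {Φ Ψ : V → V} (h : Dif Φ Ψ) {H : ℝ → V → ℝ} {S : Set ℝ} {t : ℝ} {x v : V}
    (hd : Desc H (𝓝[S] t) (Φ x) v) :
    Desc (fun s y => H s (Φ y)) (𝓝[S] t) x (fderiv ℝ Ψ (Φ x) v) := by
  have h1 : HasStrictFDerivAt (fun p : ℝ × V => Φ p.2)
      ((fderiv ℝ Φ x).comp (ContinuousLinearMap.snd ℝ ℝ V)) (t, x) :=
    HasStrictFDerivAt.comp (g := Φ) (f := fun p : ℝ × V => p.2) (t, x) (h.strict x)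
      hasStrictFDerivAt_snd
  refine desc_comp_fam (G := fun p : ℝ × V => Φ p.2) h1 ?_
  show Desc H (𝓝[S] t) (Φ x) (fderiv ℝ Φ x (fderiv ℝ Ψ (Φ x) v))
  rw [h.fderiv_right]
  exact hd

theorem Dif.desc1 {Φ Ψ : V → V} (h : Dif Φ Ψ) {f : V → ℝ} {x v : V} (hd : Desc1 f (Φ x) v) :
    Desc1 (fun y => f (Φ y)) x (fderiv ℝ Ψ (Φ x) v) := by
  have h1 : Desc (fun (_ : ℝ) => f) (𝓝[univ] (0 : ℝ)) (Φ x) v := hd.const _
  have h2 := h.desc h1
  exact h2.static (t := 0) (pure_le_nhdsWithin (mem_univ _))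

variable [FiniteDimensional ℝ V]

theorem Dif.bounded {Φ Ψ : V → V} (h : Dif Φ Ψ) {A : Set V} (hA : Bornology.IsBounded A) :
    Bornology.IsBounded {x | Φ x ∈ A} := by
  have : ProperSpace V := FiniteDimensional.proper ℝ V
  have h1 : IsCompact (Ψ '' closure A) := hA.isCompact_closure.image h.symm.continuous
  refine h1.isBounded.subset fun x hx => ⟨Φ x, subset_closure hx, h.left x⟩

theorem Dif.bound {Φ Ψ : V → V} (h : Dif Φ Ψ) (R : ℝ) : ∃ R' : ℝ, ∀ x, ‖Φ x‖ ≤ R → ‖x‖ ≤ R' := by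
  obtain ⟨R', hR'⟩ := (h.bounded (Metric.isBounded_closedBall (x := (0 : V))
    (r := R))).exists_norm_le
  refine ⟨R', fun x hx => hR' x ?_⟩
  show Φ x ∈ Metric.closedBall (0 : V) R
  rw [Metric.mem_closedBall, dist_zero_right]
  exact hx

theorem Hom.comp_dif {Φ Ψ : V → V} (h : Dif Φ Ψ) {f g : V → ℝ} (hfg : Hom f g) :
    Hom (fun x => f (Φ x)) (fun x => g (Φ x)) := by
  obtain ⟨H, hc, h0, h1, ⟨R, hR⟩, hd⟩ := hfg
  subst h0
  subst h1
  obtain ⟨R', hR'⟩ := h.bound R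
  refine ⟨fun t x => H t (Φ x), ?_, rfl, rfl, ⟨R', fun t ht x hx => hR' x (hR t ht _ hx)⟩,
    fun t ht x hx => ?_⟩
  · exact hc.comp (Continuous.prodMk continuous_fst (h.continuous.comp continuous_snd))
  · obtain ⟨v, hv⟩ := hd t ht _ hx
    exact ⟨_, h.desc hv⟩

theorem Good.comp_dif {Φ Ψ : V → V} (h : Dif Φ Ψ) {f : V → ℝ} (hf : Good f) :
    Good (fun x => f (Φ x)) := (Hom.comp_dif h hf.refl).good_left

omit [FiniteDimensional ℝ V] in
/-- The square of a small diffeomorphic image of the ball. -/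
private theorem Diffeo_fd {Φ Ψ : V → V} (h : Dif Φ Ψ) (c : ℝ) (x v : V) :
    fderiv ℝ (fun y => ‖Φ y‖ ^ 2 - c) x v = 2 * ⟪Φ x, fderiv ℝ Φ x v⟫ := by
  have h1 : HasFDerivAt (fun y => ‖Φ y‖ ^ 2 - c)
      ((2 • (innerSL ℝ (Φ x))).comp (fderiv ℝ Φ x)) x := by
    have h2 := (hasStrictFDerivAt_norm_sq (Φ x)).hasFDerivAt
    exact (HasFDerivAt.comp (g := fun z : V => ‖z‖ ^ 2) x h2 (h.has x)).sub_const c
  rw [h1.fderiv]
  simp only [ContinuousLinearMap.comp_apply, smul_apply, innerSL_apply_apply, nsmul_eq_mul]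
  push_cast
  ring

/-- The ball composed with a diffeomorphism is a ball. -/
theorem isBall_dif {Φ Ψ : V → V} (h : Dif Φ Ψ) : IsBall (fun x => ‖Φ x‖ ^ 2 - 1) := by
  obtain ⟨p, hp⟩ : ∃ p, p = Ψ 0 := ⟨_, rfl⟩
  have hp0 : Φ p = 0 := by rw [hp, h.right]
  obtain ⟨A, hA⟩ : ∃ A : V →L[ℝ] V, A = fderiv ℝ Φ p := ⟨_, rfl⟩
  obtain ⟨A', hA'⟩ : ∃ A' : V →L[ℝ] V, A' = fderiv ℝ Ψ 0 := ⟨_, rfl⟩
  have hAA : ∀ w, A' (A w) = w := by
    intro w
    rw [hA, hA', ← hp0]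
    exact h.fderiv_left p w
  obtain ⟨m, hm0, hm⟩ : ∃ m : ℝ, 0 < m ∧ ∀ w, m * ‖w‖ ≤ ‖A w‖ := by
    refine ⟨(‖A'‖ + 1)⁻¹, by positivity, fun w => ?_⟩
    rw [inv_mul_le_iff₀ (by positivity)]
    calc ‖w‖ = ‖A' (A w)‖ := by rw [hAA]
      _ ≤ ‖A'‖ * ‖A w‖ := A'.le_opNorm _
      _ ≤ (‖A'‖ + 1) * ‖A w‖ := by nlinarith [norm_nonneg (A w)]
  -- closeness near `p`
  obtain ⟨r, hr0, hr⟩ : ∃ r : ℝ, 0 < r ∧ ∀ x, ‖x - p‖ < r →
      ‖Φ x - A (x - p)‖ ≤ m / 4 * ‖x - p‖ ∧ ‖fderiv ℝ Φ x - A‖ ≤ m / 4 := by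
    have h1 := (h.has p).isLittleO
    have h2 := (Asymptotics.isLittleO_iff.1 h1) (show 0 < m / 4 by positivity)
    have h3 : Continuous fun x => fderiv ℝ Φ x := h.smooth.continuous_fderiv (by simp)
    have h4 : ∀ᶠ x in 𝓝 p, ‖fderiv ℝ Φ x - A‖ < m / 4 := by
      have h5 : Continuous fun x => ‖fderiv ℝ Φ x - A‖ := (h3.sub continuous_const).norm
      have h6 := h5.tendsto p
      rw [← hA, sub_self, norm_zero] at h6
      exact h6.eventually_lt_const (by positivity)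
    obtain ⟨r, hr0, hr⟩ := Metric.eventually_nhds_iff.1 (h2.and h4)
    refine ⟨r, hr0, fun x hx => ?_⟩
    have h7 := hr (show dist x p < r by rwa [dist_eq_norm])
    refine ⟨?_, h7.2.le⟩
    have h8 := h7.1
    rw [hp0, sub_zero, ← hA] at h8
    exact h8
  have key : ∀ x, ‖x - p‖ < r → x ≠ p → 0 < ⟪Φ x, fderiv ℝ Φ x (x - p)⟫ ∧
      0 < ⟪A (x - p), A (x - p)⟫ := by
    intro x hx hxp
    obtain ⟨h1, h2⟩ := hr x hx
    have hh : 0 < ‖x - p‖ := norm_pos_iff.2 (sub_ne_zero.2 hxp)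
    have hq : m * ‖x - p‖ ≤ ‖A (x - p)‖ := hm _
    have hq0 : 0 < ‖A (x - p)‖ := lt_of_lt_of_le (by positivity) hq
    have h3 : ‖fderiv ℝ Φ x (x - p) - A (x - p)‖ ≤ m / 4 * ‖x - p‖ := by
      have h4 := (fderiv ℝ Φ x - A).le_opNorm (x - p)
      have h5 : (fderiv ℝ Φ x - A) (x - p) = fderiv ℝ Φ x (x - p) - A (x - p) := rfl
      rw [h5] at h4
      exact h4.trans (mul_le_mul_of_nonneg_right h2 (norm_nonneg _))
    obtain ⟨a, ha⟩ : ∃ a, a = Φ x - A (x - p) := ⟨_, rfl⟩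
    obtain ⟨b, hb⟩ : ∃ b, b = fderiv ℝ Φ x (x - p) - A (x - p) := ⟨_, rfl⟩
    have e1 : Φ x = A (x - p) + a := by rw [ha]; abel
    have e2 : fderiv ℝ Φ x (x - p) = A (x - p) + b := by rw [hb]; abel
    rw [← ha] at h1
    rw [← hb] at h3
    constructor
    · rw [e1, e2, inner_add_left, inner_add_right, inner_add_right, real_inner_self_eq_norm_sq]
      have c1 := abs_real_inner_le_norm (A (x - p)) b
      have c2 := abs_real_inner_le_norm a (A (x - p))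
      have c3 := abs_real_inner_le_norm a b
      have d1 : m / 4 * ‖x - p‖ ≤ ‖A (x - p)‖ / 4 := by linarith
      have c1' : ‖A (x - p)‖ * ‖b‖ ≤ ‖A (x - p)‖ * (‖A (x - p)‖ / 4) :=
        mul_le_mul_of_nonneg_left (h3.trans d1) hq0.le
      have c2' : ‖a‖ * ‖A (x - p)‖ ≤ (‖A (x - p)‖ / 4) * ‖A (x - p)‖ :=
        mul_le_mul_of_nonneg_right (h1.trans d1) hq0.le
      have c3' : ‖a‖ * ‖b‖ ≤ (‖A (x - p)‖ / 4) * (‖A (x - p)‖ / 4) :=
        mul_le_mul (h1.trans d1) (h3.trans d1) (norm_nonneg _) (by positivity)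
      have e3 := (abs_le.1 c1).1
      have e4 := (abs_le.1 c2).1
      have e5 := (abs_le.1 c3).1
      nlinarith
    · rw [real_inner_self_eq_norm_sq]
      positivity
  -- a small radius
  obtain ⟨ε, hε0, hε1, hε⟩ : ∃ ε : ℝ, 0 < ε ∧ ε ≤ 1 ∧ ∀ x, ‖Φ x‖ ≤ ε ∨ ‖A (x - p)‖ ≤ ε →
      ‖x - p‖ < r := by
    have h1 : ∀ᶠ y in 𝓝 (0 : V), ‖Ψ y - p‖ < r := by
      have h2 : Continuous fun y => ‖Ψ y - p‖ := (h.symm.continuous.sub continuous_const).norm
      have h3 := h2.tendsto 0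
      rw [← hp, sub_self, norm_zero] at h3
      exact h3.eventually_lt_const hr0
    obtain ⟨δ, hδ0, hδ⟩ := Metric.eventually_nhds_iff.1 h1
    refine ⟨min 1 (min (δ / 2) (m * (r / 2))), by positivity, min_le_left _ _, fun x hx => ?_⟩
    rcases hx with hx | hx
    · have h4 : ‖Φ x‖ ≤ δ / 2 := hx.trans ((min_le_right _ _).trans (min_le_left _ _))
      have h5 := hδ (show dist (Φ x) 0 < δ by rw [dist_zero_right]; linarith)
      rwa [h.left] at h5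
    · have h4 : ‖A (x - p)‖ ≤ m * (r / 2) := hx.trans ((min_le_right _ _).trans (min_le_right _ _))
      have h5 : m * ‖x - p‖ ≤ m * (r / 2) := (hm _).trans h4
      have h6 := le_of_mul_le_mul_left h5 hm0
      linarith
  -- the three steps
  have s1 : Hom (fun x => ‖Φ x‖ ^ 2 - 1) (fun x => ‖Φ x‖ ^ 2 - ε ^ 2) := by
    have h1 := Hom.comp_dif h (hom_balls (0 : V) (0 : V) one_pos hε0)
    simp only [sub_zero, one_pow] at h1
    exact h1
  have hgc : Continuous fun x => ‖A (x - p)‖ ^ 2 - ε ^ 2 := by fun_prop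
  have hfc : Continuous fun x => ‖Φ x‖ ^ 2 - ε ^ 2 :=
    (h.continuous.norm.pow 2).sub continuous_const
  have s2 : Hom (fun x => ‖Φ x‖ ^ 2 - ε ^ 2) (fun x => ‖A (x - p)‖ ^ 2 - ε ^ 2) := by
    have hz : ∀ t ∈ Icc (0 : ℝ) 1, ∀ x,
        (1 - t) * (‖Φ x‖ ^ 2 - ε ^ 2) + t * (‖A (x - p)‖ ^ 2 - ε ^ 2) = 0 → ‖x - p‖ < r := by
      intro t ht x hx
      refine hε x ?_
      by_contra hcon
      push Not at hcon
      have h1 : 0 < ‖Φ x‖ ^ 2 - ε ^ 2 := by nlinarith [hcon.1]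
      have h2 : 0 < ‖A (x - p)‖ ^ 2 - ε ^ 2 := by nlinarith [hcon.2]
      rcases eq_or_lt_of_le ht.1 with h3 | h3
      · rw [← h3] at hx
        linarith
      · have h4 := mul_pos h3 h2
        have h5 := mul_nonneg (sub_nonneg.2 ht.2) h1.le
        linarith
    refine Hom.lerp hfc hgc ⟨r + ‖p‖, fun t ht x hx => ?_⟩ fun t ht x hx => ?_
    · have h1 := hz t ht x hx
      have h2 := norm_add_le (x - p) p
      rw [sub_add_cancel] at h2
      linarith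
    · have h1 := hz t ht x hx
      have hxp : x ≠ p := by
        rintro rfl
        have e1 : ‖Φ x‖ = 0 := by rw [hp0, norm_zero]
        have e2 : ‖A (x - x)‖ = 0 := by rw [sub_self, map_zero, norm_zero]
        rw [e1, e2] at hx
        have : 0 < ε ^ 2 := by positivity
        nlinarith
      obtain ⟨h2, h3⟩ := key x h1 hxp
      refine ⟨-(x - p), ?_, ?_⟩
      · refine desc1_smooth ?_ ?_
        · exact (((contDiff_norm_sq ℝ).comp h.smooth).sub contDiff_const).contDiffAt.of_le (by simp)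
        · rw [Diffeo_fd h, map_neg, inner_neg_right]
          linarith
      · have hfd : HasFDerivAt (fun y => ‖A (y - p)‖ ^ 2 - ε ^ 2)
            ((2 • (innerSL ℝ (A (x - p)))).comp A) x := by
          have h4 := (hasStrictFDerivAt_norm_sq (A (x - p))).hasFDerivAt
          have h5 : HasFDerivAt (fun y : V => A (y - p)) A x :=
            A.hasFDerivAt.comp x ((hasFDerivAt_id x).sub_const p)
          exact (HasFDerivAt.comp (g := fun z : V => ‖z‖ ^ 2) x h4 h5).sub_const _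
        refine desc1_smooth ?_ ?_
        · have h6 : ContDiff ℝ ∞ fun y : V => A (y - p) :=
            A.contDiff.comp (contDiff_id.sub contDiff_const)
          exact (((contDiff_norm_sq ℝ).comp h6).sub contDiff_const).contDiffAt.of_le (by simp)
        · rw [hfd.fderiv]
          simp only [ContinuousLinearMap.comp_apply, smul_apply, innerSL_apply_apply,
            nsmul_eq_mul, map_neg]
          push_cast
          linarith
  have s3 : IsBall (fun x => ‖A (x - p)‖ ^ 2 - ε ^ 2) := by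
    refine isBall_convex (o := p) ?_ hgc ?_ ?_
    · have h1 : ConvexOn ℝ univ fun y : V => dist y (A p) ^ 2 + -(ε ^ 2) :=
        ((convexOn_univ_dist (A p)).pow (fun y _ => dist_nonneg) 2).add
          (convexOn_const _ convex_univ)
      have h3 := h1.comp_linearMap (A : V →ₗ[ℝ] V)
      rw [preimage_univ] at h3
      have h4 : ((fun y : V => dist y (A p) ^ 2 + -(ε ^ 2)) ∘ (A : V →ₗ[ℝ] V)) =
          fun x => ‖A (x - p)‖ ^ 2 - ε ^ 2 := by
        funext x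
        show dist (A x) (A p) ^ 2 + -(ε ^ 2) = ‖A (x - p)‖ ^ 2 - ε ^ 2
        rw [dist_eq_norm, ← map_sub]
        ring
      rwa [h4] at h3
    · simp only [sub_self, map_zero, norm_zero]
      have : 0 < ε ^ 2 := by positivity
      nlinarith
    · refine (Metric.isBounded_closedBall (x := (0 : V)) (r := r + ‖p‖)).subset fun x hx => ?_
      rw [Metric.mem_closedBall, dist_zero_right]
      have hx' : ‖A (x - p)‖ ^ 2 - ε ^ 2 ≤ 0 := hx
      have h1 : ‖A (x - p)‖ ≤ ε := by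
        rw [sub_nonpos, sq_le_sq₀ (norm_nonneg _) hε0.le] at hx'
        exact hx'
      have h2 := hε x (Or.inr h1)
      have h3 := norm_add_le (x - p) p
      rw [sub_add_cancel] at h3
      linarith
  exact (s1.trans s2).trans s3

theorem IsBall.comp_dif {Φ Ψ : V → V} (h : Dif Φ Ψ) {f : V → ℝ} (hf : IsBall f) :
    IsBall (fun x => f (Φ x)) := (Hom.comp_dif h hf).trans (isBall_dif h)

theorem isBall_comp_dif {Φ Ψ : V → V} (h : Dif Φ Ψ) {f : V → ℝ} :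
    IsBall (fun x => f (Φ x)) ↔ IsBall f := by
  refine ⟨fun hf => ?_, IsBall.comp_dif h⟩
  have h1 := IsBall.comp_dif h.symm hf
  simpa only [h.right] using h1

/-! ### Topology -/

omit [FiniteDimensional ℝ V] in
theorem Dif.preimage_eq {Φ Ψ : V → V} (h : Dif Φ Ψ) (A : Set V) : {x | Φ x ∈ A} = Ψ '' A := by
  ext x
  constructor
  · intro hx
    exact ⟨Φ x, hx, h.left x⟩
  · rintro ⟨y, hy, rfl⟩
    show Φ (Ψ y) ∈ A
    rwa [h.right]

omit [FiniteDimensional ℝ V] in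
theorem Dif.isConnected {Φ Ψ : V → V} (h : Dif Φ Ψ) {A : Set V} (hA : IsConnected A) :
    IsConnected {x | Φ x ∈ A} := by
  rw [h.preimage_eq]
  exact hA.image _ h.symm.continuous.continuousOn

omit [FiniteDimensional ℝ V] in
theorem Dif.isPreconnected {Φ Ψ : V → V} (h : Dif Φ Ψ) {A : Set V} (hA : IsPreconnected A) :
    IsPreconnected {x | Φ x ∈ A} := by
  rw [h.preimage_eq]
  exact hA.image _ h.symm.continuous.continuousOn

omit [FiniteDimensional ℝ V] in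
theorem Dif.liftS {Φ Ψ : V → V} (h : Dif Φ Ψ) {A : Set V} (hA : LiftS A) :
    LiftS {x | Φ x ∈ A} := by
  intro u hu hu1
  obtain ⟨v, hv, h1⟩ := hA (fun y => u (Ψ y))
    (hu.comp h.symm.continuous.continuousOn fun y hy => by
      show Φ (Ψ y) ∈ A
      rwa [h.right])
    (fun y hy => hu1 _ (by
      show Φ (Ψ y) ∈ A
      rwa [h.right]))
  refine ⟨fun x => v (Φ x), hv.comp h.continuous.continuousOn fun x hx => hx, fun x hx => ?_⟩
  have h2 := h1 (Φ x) hx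
  rwa [h.left] at h2

theorem Dif.reg {Φ Ψ : V → V} (h : Dif Φ Ψ) {F : V → ℝ} (hF : ContDiff ℝ ∞ F) {x : V}
    (hx : gradient F (Φ x) ≠ 0) : gradient (fun y => F (Φ y)) x ≠ 0 := by
  intro h0
  apply hx
  have h1 : HasFDerivAt (fun y => F (Φ y)) ((fderiv ℝ F (Φ x)).comp (fderiv ℝ Φ x)) x :=
    ((hF.differentiable (by simp)) (Φ x)).hasFDerivAt.comp x (h.has x)
  have h2 : fderiv ℝ (fun y => F (Φ y)) x = 0 := by
    have h3 := h0
    rw [gradient, LinearIsometryEquiv.map_eq_zero_iff] at h3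
    exact h3
  rw [h1.fderiv] at h2
  rw [gradient, LinearIsometryEquiv.map_eq_zero_iff]
  ext w
  have h4 := DFunLike.congr_fun h2 (fderiv ℝ Ψ (Φ x) w)
  rw [ContinuousLinearMap.comp_apply, h.fderiv_right] at h4
  exact h4

theorem Dom.comp_dif {Φ Ψ : V → V} (h : Dif Φ Ψ) {F : V → ℝ} (hD : Dom F) :
    Dom (fun x => F (Φ x)) where
  smooth := hD.smooth.comp h.smooth
  bdd := h.bounded hD.bdd
  reg _ hx := h.reg hD.smooth (hD.reg _ hx)
  conn := h.isConnected hD.conn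
  lift := h.liftS hD.lift

end Pool.Schoen
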