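import Pool.Agent.H.MP_6c077c_gt.Ix.LiftA
import Pool.Agent.H.MP_6c077c_gt.IxB.LiftBall

/-! Unicoherence (helper49). -/

set_option autoImplicit false

namespace Pool.Schoen

open Filter Set
open scoped Topology RealInnerProductSpace ContDiff

/-- A function with values in the multiples of `2 π` is constant on a connected set. -/
theorem alu_const {Y : Type*} [TopologicalSpace Y] {A : Set Y} (hA : IsPreconnected A)
    {f : Y → ℝ} (hf : ContinuousOn f A)
    (h1 : ∀ x ∈ A, Complex.exp (f x * Complex.I) = 1) {x x' : Y} (hx : x ∈ A) (hx' : x' ∈ A) :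
    f x = f x' := by
  have key : ∀ x ∈ A, ∃ n : ℤ, f x = n * (2 * Real.pi) := by
    intro x hx
    obtain ⟨n, hn⟩ := Complex.exp_eq_one_iff.1 (h1 x hx)
    refine ⟨n, ?_⟩
    have h2 : ((f x : ℂ)) * Complex.I = ((n * (2 * Real.pi) : ℝ) : ℂ) * Complex.I := by
      rw [hn]
      push_cast
      ring
    have h3 := mul_right_cancel₀ Complex.I_ne_zero h2
    exact_mod_cast h3
  have main : ∀ x ∈ A, ∀ x' ∈ A, f x ≤ f x' := by
    intro x hx x' hx'
    by_contra hlt
    push Not at hlt
    obtain ⟨n, hn⟩ := key x hx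
    obtain ⟨m, hm⟩ := key x' hx'
    have hpi := Real.pi_pos
    have hmn : m < n := by
      have : (m : ℝ) * (2 * Real.pi) < n * (2 * Real.pi) := by rw [← hn, ← hm]; exact hlt
      have := lt_of_mul_lt_mul_right this (by positivity)
      exact_mod_cast this
    have hle : (m : ℝ) + 1 ≤ n := by exact_mod_cast hmn
    have hmem : f x' + Real.pi ∈ f '' A := by
      have hord := (hA.image f hf).ordConnected
      refine hord.out (mem_image_of_mem f hx') (mem_image_of_mem f hx) ⟨by linarith, ?_⟩
      rw [hn, hm]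
      nlinarith
    obtain ⟨y, hy, hfy⟩ := hmem
    obtain ⟨k, hk⟩ := key y hy
    rw [hk, hm] at hfy
    have h4 : ((k - m : ℤ) : ℝ) * 2 = 1 := by
      push_cast
      have : ((k : ℝ) - m) * (2 * Real.pi) = Real.pi := by linarith
      field_simp at this
      linarith
    have h5 : (k - m) * 2 = 1 := by exact_mod_cast h4
    omega
  exact le_antisymm (main x hx x' hx') (main x' hx' x hx)

/-- Unicoherence: if every map to the circle lifts, two closed connected sets which cover the space
have a connected intersection. -/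
theorem alu_unicoherent {Y : Type*} [TopologicalSpace Y] [NormalSpace Y] (hY : LiftS (univ : Set Y))
    {A B : Set Y} (hA : IsClosed A) (hB : IsClosed B) (hcA : IsPreconnected A)
    (hcB : IsPreconnected B) (hAB : A ∪ B = univ) : IsPreconnected (A ∩ B) := by
  classical
  rw [isPreconnected_iff_subset_of_disjoint_closed]
  intro X Z hX hZ hXZ hd
  by_contra hne
  push Not at hne
  obtain ⟨h1, h2⟩ := hne
  obtain ⟨z, hz, hzX⟩ := Set.not_subset.1 h1
  obtain ⟨x, hx, hxZ⟩ := Set.not_subset.1 h2
  have hxX : x ∈ X := (hXZ hx).resolve_right hxZ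
  have hzZ : z ∈ Z := (hXZ hz).resolve_left hzX
  have hdis : Disjoint (A ∩ B ∩ X) (A ∩ B ∩ Z) := by
    rw [Set.disjoint_left]
    rintro y ⟨hy, hyX⟩ ⟨_, hyZ⟩
    have : y ∈ A ∩ B ∩ (X ∩ Z) := ⟨hy, hyX, hyZ⟩
    rw [hd] at this
    exact this
  obtain ⟨φ, hφ0, hφ1, -⟩ := exists_continuous_zero_one_of_isClosed
    ((hA.inter hB).inter hX) ((hA.inter hB).inter hZ) hdis
  let u : Y → ℂ := fun y => if y ∈ A then Complex.exp (((Real.pi * φ y : ℝ) : ℂ) * Complex.I)
    else Complex.exp (((-(Real.pi * φ y) : ℝ) : ℂ) * Complex.I)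
  have huB : ∀ y ∈ B, u y = Complex.exp (((-(Real.pi * φ y) : ℝ) : ℂ) * Complex.I) := by
    intro y hy
    by_cases hyA : y ∈ A
    · have h3 : u y = Complex.exp (((Real.pi * φ y : ℝ) : ℂ) * Complex.I) := if_pos hyA
      rw [h3]
      rcases hXZ ⟨hyA, hy⟩ with h4 | h4
      · have h5 : φ y = 0 := hφ0 ⟨⟨hyA, hy⟩, h4⟩
        rw [h5]
        simp
      · have h5 : φ y = 1 := hφ1 ⟨⟨hyA, hy⟩, h4⟩
        rw [h5, mul_one]
        push_cast
        rw [neg_mul, Complex.exp_neg, Complex.exp_pi_mul_I]
        norm_num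
    · exact if_neg hyA
  have huA : ∀ y ∈ A, u y = Complex.exp (((Real.pi * φ y : ℝ) : ℂ) * Complex.I) :=
    fun y hy => if_pos hy
  have hφc : Continuous fun y => Real.pi * φ y := continuous_const.mul φ.continuous
  have huc : ContinuousOn u univ := by
    rw [← hAB]
    refine ContinuousOn.union_of_isClosed ?_ ?_ hA hB
    · refine ContinuousOn.congr ?_ huA
      exact (Complex.continuous_exp.comp
        ((Complex.continuous_ofReal.comp hφc).mul continuous_const)).continuousOn
    · refine ContinuousOn.congr ?_ huB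
      exact (Complex.continuous_exp.comp
        ((Complex.continuous_ofReal.comp hφc.neg).mul continuous_const)).continuousOn
  obtain ⟨v, hv, hv1⟩ := hY u huc (by
    intro y _
    by_cases hyA : y ∈ A
    · rw [huA y hyA]
      exact Complex.norm_exp_ofReal_mul_I _
    · have h3 : u y = Complex.exp (((-(Real.pi * φ y) : ℝ) : ℂ) * Complex.I) := if_neg hyA
      rw [h3]
      exact Complex.norm_exp_ofReal_mul_I _)
  have hvc : Continuous v := continuousOn_univ.1 hv
  have e1 : v x - Real.pi * φ x = v z - Real.pi * φ z := by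
    refine alu_const hcA (f := fun y => v y - Real.pi * φ y) (hvc.sub hφc).continuousOn ?_
      hx.1 hz.1
    intro y hy
    have h3 := hv1 y (mem_univ y)
    rw [huA y hy] at h3
    rw [Complex.ofReal_sub, sub_mul, Complex.exp_sub, ← h3, div_self (Complex.exp_ne_zero _)]
  have e2 : v x + Real.pi * φ x = v z + Real.pi * φ z := by
    refine alu_const hcB (f := fun y => v y + Real.pi * φ y) (hvc.add hφc).continuousOn ?_
      hx.2 hz.2
    intro y hy
    have h3 := hv1 y (mem_univ y)
    rw [huB y hy] at h3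
    rw [Complex.ofReal_add, add_mul, Complex.exp_add, ← h3, ← Complex.exp_add]
    push_cast
    rw [show -((Real.pi : ℂ) * (φ y : ℂ)) * Complex.I + (Real.pi : ℂ) * (φ y : ℂ) * Complex.I = 0 by
      ring, Complex.exp_zero]
  have h5 : φ x = 0 := hφ0 ⟨hx, hxX⟩
  have h6 : φ z = 1 := hφ1 ⟨hz, hzZ⟩
  rw [h5, h6] at e1 e2
  have := Real.pi_pos
  linarith

end Pool.Schoen
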