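import Pool.Agent.H.MP_6c077c_gt.Al.Cls
import Pool.Agent.H.MP_6c077c_gt.Al.NoSad
import Pool.Agent.H.MP_6c077c_gt.Al.Diffeo
import Pool.Agent.H.MP_6c077c_gt.Ix.TopC
import Pool.Agent.H.MP_6c077c_gt.Ix.MollC
import Pool.Agent.H.MP_6c077c_gt.Al.Unico

/-! Alexander's theorem: first consequences of the definitions. -/

set_option autoImplicit false

namespace Pool.Schoen

open Filter Set
open scoped Topology RealInnerProductSpace ContDiff

variable {V : Type*} [NormedAddCommGroup V] [InnerProductSpace ℝ V] [FiniteDimensional ℝ V]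

omit [FiniteDimensional ℝ V] in
/-- PROOF. `Hom.trans`, `Hom.neg`. -/
theorem Rd.of_hom {f g : V → ℝ} (h : Hom f g) (hg : Rd g) : Rd f := by
  rcases hg with hg | hg
  · exact Or.inl (h.trans hg)
  · exact Or.inr (h.neg.trans hg)

omit [FiniteDimensional ℝ V] in
theorem Rd.neg {f : V → ℝ} (h : Rd f) : Rd fun x => -f x := by
  rcases h with h | h
  · refine Or.inr ?_
    have h1 : (fun x => -(-f x)) = f := by
      funext x
      exact neg_neg _
    rw [h1]
    exact h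
  · exact Or.inl h

/-- PROOF. `isBall_comp_dif`. -/
theorem Rd.comp_dif {Φ Ψ : V → V} (h : Dif Φ Ψ) {f : V → ℝ} : Rd (fun x => f (Φ x)) ↔ Rd f :=
  or_congr (isBall_comp_dif h) (isBall_comp_dif (f := fun x => -f x) h)

/-- PROOF. `Hom.bdd` for `Hom.symm` and the bounded set `{‖x‖ ^ 2 - 1 ≤ 0}`. -/
theorem IsBall.bdd {f : V → ℝ} (h : IsBall f) : Bornology.IsBounded {x | f x ≤ 0} := by
  refine Hom.bdd (Hom.symm h) ?_
  refine (Metric.isBounded_closedBall (x := (0 : V)) (r := 1)).subset fun x hx => ?_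
  have hx' : ‖x‖ ^ 2 - 1 ≤ 0 := hx
  rw [mem_closedBall_zero_iff]
  have := norm_nonneg x
  nlinarith

/-- PROOF. Otherwise `IsBall (-f)`, so `{-f ≤ 0}` is bounded (`IsBall.bdd`) and `V` is bounded. -/
theorem Rd.isBall [Nontrivial V] {f : V → ℝ} (h : Rd f) (hb : Bornology.IsBounded {x | f x ≤ 0}) :
    IsBall f := by
  rcases h with h | h
  · exact h
  · exfalso
    have h1 : Bornology.IsBounded ({x | f x ≤ 0} ∪ {x | -f x ≤ 0}) := hb.union h.bdd
    have h2 : {x | f x ≤ 0} ∪ {x | -f x ≤ 0} = univ := by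
      rw [Set.eq_univ_iff_forall]
      intro x
      rcases le_total (f x) 0 with h3 | h3
      · exact Or.inl h3
      · refine Or.inr ?_
        show -f x ≤ 0
        linarith
    rw [h2] at h1
    exact NormedSpace.unbounded_univ ℝ V h1

omit [FiniteDimensional ℝ V] in
private theorem Rd1_set1 (f : V → ℝ) : {x | -f x ≤ 0} = {x | 0 ≤ f x} := by
  ext x
  show -f x ≤ 0 ↔ 0 ≤ f x
  exact neg_nonpos

omit [FiniteDimensional ℝ V] in
private theorem Rd1_set2 (f : V → ℝ) : {x | 0 ≤ -f x} = {x | f x ≤ 0} := by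
  ext x
  show 0 ≤ -f x ↔ f x ≤ 0
  exact neg_nonneg

omit [FiniteDimensional ℝ V] in
/-- PROOF. Swap. -/
theorem TopE.neg {f : V → ℝ} (h : TopE f) : TopE fun x => -f x := by
  refine ⟨?_, ?_, ?_⟩
  · rw [Rd1_set1]
    exact h.out
  · rw [Rd1_set2]
    exact h.conn
  · rw [Rd1_set1, Rd1_set2]
    exact h.lift.symm

omit [FiniteDimensional ℝ V] in
/-- PROOF. `Dif.isConnected`, `Dif.liftS`. -/
theorem TopE.comp_dif {Φ Ψ : V → V} (h : Dif Φ Ψ) {f : V → ℝ} (ht : TopE f) :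
    TopE fun x => f (Φ x) :=
  ⟨h.isConnected ht.conn, h.isConnected ht.out, ht.lift.imp h.liftS h.liftS⟩

/-- PROOF. `Hom.carries` gives a homeomorphism of `V` mapping `{f = 0}` onto `{g = 0}` and `{f ≤ 0}`
onto `{g ≤ 0}`, so also `{0 ≤ f}` onto `{0 ≤ g}` (the complement of `{f ≤ 0}` together with `{f = 0}`);
`Dif.isConnected`, `Dif.liftS`. -/
theorem TopE.of_hom {f g : V → ℝ} (h : TopE f) (hh : Hom f g) (hf : ContDiff ℝ ∞ f)
    (hg : ContDiff ℝ ∞ g) : TopE g := by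
  obtain ⟨φ, ψ, h1, h2, h3, h4, -, h5, h6⟩ := hh.carries hf hg
  have hd : Dif ψ φ := ⟨h2, h1, h4, h3⟩
  have k1 : ∀ x, g x = 0 ↔ f (ψ x) = 0 := by
    intro x
    have : x ∈ {x | g x = 0} ↔ x ∈ φ '' {x | f x = 0} := by rw [h5]
    rw [← hd.preimage_eq] at this
    exact this
  have k2 : ∀ x, g x ≤ 0 ↔ f (ψ x) ≤ 0 := by
    intro x
    have : x ∈ {x | g x ≤ 0} ↔ x ∈ φ '' {x | f x ≤ 0} := by rw [h6]
    rw [← hd.preimage_eq] at this
    exact this
  have k3 : ∀ x, 0 ≤ g x ↔ 0 ≤ f (ψ x) := by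
    intro x
    constructor
    · intro hx
      rcases eq_or_lt_of_le hx with hx' | hx'
      · exact ((k1 x).1 hx'.symm).ge
      · by_contra hc
        exact absurd ((k2 x).2 (not_le.1 hc).le) (not_le.2 hx')
    · intro hx
      rcases eq_or_lt_of_le hx with hx' | hx'
      · exact ((k1 x).2 hx'.symm).ge
      · by_contra hc
        exact absurd ((k2 x).1 (not_le.1 hc).le) (not_le.2 hx')
  have e2 : {x | g x ≤ 0} = {x | f (ψ x) ≤ 0} := Set.ext k2
  have e3 : {x | 0 ≤ g x} = {x | 0 ≤ f (ψ x)} := Set.ext k3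
  have ht := h.comp_dif hd
  refine ⟨?_, ?_, ?_⟩
  · rw [e2]
    exact ht.conn
  · rw [e3]
    exact ht.out
  · rw [e2, e3]
    exact ht.lift

omit [FiniteDimensional ℝ V] in
/-- PROOF. `alu_unicoherent` (`Al/Unico.lean`) for the two sides, `liftS_univ`; nonempty because `V` is
connected. -/
theorem TopE.zero {f : V → ℝ} (h : TopE f) (hf : Continuous f) : IsConnected {x | f x = 0} := by
  have e1 : {x | f x ≤ 0} ∩ {x | 0 ≤ f x} = {x | f x = 0} := by
    ext x
    exact ⟨fun hx => le_antisymm hx.1 hx.2, fun hx => ⟨hx.le, hx.ge⟩⟩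
  have e2 : {x | f x ≤ 0} ∪ {x | 0 ≤ f x} = univ := by
    rw [Set.eq_univ_iff_forall]
    exact fun x => le_total (f x) 0
  refine ⟨?_, ?_⟩
  · obtain ⟨a, ha⟩ := h.conn.nonempty
    obtain ⟨b, hb⟩ := h.out.nonempty
    have ha' : f a ≤ 0 := ha
    have hb' : 0 ≤ f b := hb
    obtain ⟨z, -, hz⟩ := (isPreconnected_univ (α := V)).intermediate_value (f := f) (mem_univ a)
      (mem_univ b) hf.continuousOn ⟨ha', hb'⟩
    exact ⟨z, hz⟩
  · rw [← e1]
    exact alu_unicoherent (liftS_univ V) (isClosed_le hf continuous_const)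
      (isClosed_le continuous_const hf) h.conn.isPreconnected h.out.isPreconnected e2

/-- PROOF. `conn`, `lift`: from `Dom`. `out`: `NoSad_closed`, `NoSad_closure`; nonempty since `{F ≤ 0}` is
bounded. -/
theorem Dom.topE [Nontrivial V] {F : V → ℝ} (hD : Dom F) (hc : IsPreconnected {x | 0 < F x}) :
    TopE F := by
  refine ⟨hD.conn, ⟨?_, NoSad_closed (fun x hx => NoSad_closure hD.smooth hx (hD.reg x hx)) hc⟩,
    Or.inl hD.lift⟩
  by_contra hn
  have h2 : {x | F x ≤ 0} = univ := by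
    rw [Set.eq_univ_iff_forall]
    intro x
    by_contra hx
    have hx' : ¬ F x ≤ 0 := hx
    exact hn ⟨x, (show 0 ≤ F x from (not_le.1 hx').le)⟩
  have h1 := hD.bdd
  rw [h2] at h1
  exact NormedSpace.unbounded_univ ℝ V h1

end Pool.Schoen
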