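import Pool.Agent.H.MP_6c077c_gt.Al.Cls2
import Pool.Agent.H.MP_6c077c_gt.Al.Rd1
import Pool.Agent.H.MP_6c077c_gt.Al.NoSad

/-! Alexander's theorem: the base case. -/

set_option autoImplicit false

namespace Pool.Schoen

open Filter Set
open scoped Topology RealInnerProductSpace ContDiff

variable {V : Type*} [NormedAddCommGroup V] [InnerProductSpace ℝ V] [FiniteDimensional ℝ V]

/-- The base case for a bounded body. -/
theorem BaseR_ball (hV : Module.finrank ℝ V = 3) {f : V → ℝ} {e : V} (he : ‖e‖ = 1)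
    {L : Finset ℝ} {S : Finset V} (hm : Mo f e) (hl : Lev f e L S) (ht : TopE f)
    (hne : ∀ c ∈ L, ∀ x, f x = 0 → ⟪e, x⟫ ≠ c) (hb : Bornology.IsBounded {x | f x ≤ 0}) :
    IsBall f := by
  have hcr : ∀ x, Inward f e x ∨ Inward f (-e) x → Crit f e x :=
    fun x hx => (crit_iff he hm.reg x).2 hx
  refine al_base hV hm.smooth hb hm.reg ht.conn ht.out.isPreconnected he
    (fun x hx => hm.nd x (hcr x hx)) ?_
  intro x y hx hy hx1 hy1
  by_contra hxy
  have h0 := (hcr x hx).1
  have h2 := (hcr y hy).1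
  obtain ⟨c, hc, hcc⟩ := hl.sep x y (hcr x hx) (hcr y hy) hx1 hy1 hxy
  -- the connected zero set crosses the level `c`
  have hcon := (ht.zero hm.smooth.continuous).isPreconnected
  have himg : IsPreconnected ((fun z : V => ⟪e, z⟫) '' {z | f z = 0}) :=
    hcon.image _ (by fun_prop : Continuous fun z : V => ⟪e, z⟫).continuousOn
  have hord := himg.ordConnected
  have hmem : c ∈ (fun z : V => ⟪e, z⟫) '' {z | f z = 0} := by
    rcases hcc with h | h
    · exact hord.out ⟨x, h0, rfl⟩ ⟨y, h2, rfl⟩ ⟨h.1.le, h.2.le⟩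
    · exact hord.out ⟨y, h2, rfl⟩ ⟨x, h0, rfl⟩ ⟨h.1.le, h.2.le⟩
  obtain ⟨z, hz, hzc⟩ := hmem
  exact hne c hc z hz hzc

omit [FiniteDimensional ℝ V] in
/-- A function with bounded zero set is positive or negative outside of a large ball. -/
theorem BaseR_side (hV : Module.finrank ℝ V = 3) {f : V → ℝ} (hf : Continuous f)
    (hb : Bornology.IsBounded {x | f x = 0}) :
    Bornology.IsBounded {x | f x ≤ 0} ∨ Bornology.IsBounded {x | 0 ≤ f x} := by
  obtain ⟨R, hR0, hR⟩ := hb.exists_pos_norm_lt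
  have hrank : 1 < Module.rank ℝ V := by
    have h1 : (1 : ℕ) < Module.finrank ℝ V := by omega
    have h2 := Module.lt_rank_of_lt_finrank h1
    exact_mod_cast h2
  have hcomp : IsPreconnected {x : V | R < ‖x‖} := by
    have h3 : {x : V | R < ‖x‖} = (fun p : V × ℝ => p.2 • p.1) ''
        (Metric.sphere (0 : V) 1 ×ˢ Ioi R) := by
      ext x
      constructor
      · intro hx
        have hx' : R < ‖x‖ := hx
        have h0 : ‖x‖ ≠ 0 := (hR0.trans hx').ne'
        refine ⟨(‖x‖⁻¹ • x, ‖x‖), ⟨?_, hx'⟩, ?_⟩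
        · rw [mem_sphere_zero_iff_norm, norm_smul, norm_inv, norm_norm, inv_mul_cancel₀ h0]
        · show ‖x‖ • ‖x‖⁻¹ • x = x
          rw [smul_smul, mul_inv_cancel₀ h0, one_smul]
      · rintro ⟨⟨u, r⟩, ⟨hu, hr⟩, rfl⟩
        have hu' : ‖u‖ = 1 := mem_sphere_zero_iff_norm.1 hu
        have hr' : R < r := hr
        show R < ‖r • u‖
        rw [norm_smul, hu', mul_one, Real.norm_of_nonneg (hR0.le.trans hr'.le)]
        exact hr'
    rw [h3]
    refine ((isPreconnected_sphere hrank 0 1).prod isPreconnected_Ioi).image _ ?_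
    exact (continuous_snd.smul continuous_fst).continuousOn
  have hne0 : ∀ x : V, R < ‖x‖ → f x ≠ 0 := fun x hx h0 => by
    have := hR x h0
    linarith
  by_cases hpos : ∀ x : V, R < ‖x‖ → 0 < f x
  · left
    refine (Metric.isBounded_closedBall (x := (0 : V)) (r := R)).subset fun x hx => ?_
    rw [mem_closedBall_zero_iff]
    by_contra h
    have := hpos x (not_le.1 h)
    have hx' : f x ≤ 0 := hx
    linarith
  · right
    push Not at hpos
    obtain ⟨y, hy, hy0⟩ := hpos
    refine (Metric.isBounded_closedBall (x := (0 : V)) (r := R)).subset fun x hx => ?_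
    rw [mem_closedBall_zero_iff]
    by_contra h
    have h1 : IsPreconnected (f '' {x : V | R < ‖x‖}) := hcomp.image _ hf.continuousOn
    obtain ⟨z, hz, hz0⟩ := h1.ordConnected.out ⟨y, hy, rfl⟩ ⟨x, not_le.1 h, rfl⟩ ⟨hy0, hx⟩
    exact hne0 z hz hz0

/-- The base case: the zero set misses the levels. -/
theorem base_rd (hV : Module.finrank ℝ V = 3) {f : V → ℝ} {e : V} (he : ‖e‖ = 1)
    {L : Finset ℝ} {S : Finset V} (hm : Mo f e) (hl : Lev f e L S) (ht : TopE f)
    (hne : ∀ c ∈ L, ∀ x, f x = 0 → ⟪e, x⟫ ≠ c) : Rd f := by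
  rcases BaseR_side hV hm.smooth.continuous hm.bdd with hb | hb
  · exact Or.inl (BaseR_ball hV he hm hl ht hne hb)
  · refine Or.inr (BaseR_ball hV he (hm.neg hV he) (hl.neg hV hm.smooth he) ht.neg
      (fun c hc x hx => hne c hc x (neg_eq_zero.1 hx)) ?_)
    refine hb.subset fun x hx => ?_
    have hx' : -f x ≤ 0 := hx
    show 0 ≤ f x
    linarith

end Pool.Schoen
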