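import Pool.Agent.H.MP_6c077c_gt.Al.Neck
import Pool.Agent.H.MP_6c077c_gt.Ix.LiftB
import Pool.Agent.H.MP_6c077c_gt.Ix.Trunc
import Pool.Agent.H.MP_6c077c_gt.Ix.Glue

/-! Alexander theorem: the flat cut along a straight cylinder. -/

set_option autoImplicit false

namespace Pool.Schoen

open Filter Set
open scoped Topology RealInnerProductSpace ContDiff

variable {V : Type*} [NormedAddCommGroup V] [InnerProductSpace ℝ V]

/-- The closed cylinder of radius one between the levels `a` and `b` (relative to `q`). -/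
def cylS (e q : V) (a b : ℝ) : Set V :=
  {x | a ≤ ⟪e, x - q⟫ ∧ ⟪e, x - q⟫ ≤ b ∧ ‖orth e (x - q)‖ ≤ 1}

theorem cylS_convex (e q : V) (a b : ℝ) : Convex ℝ (cylS e q a b) := by
  intro x hx y hy s t hs ht hst
  obtain ⟨x1, x2, x3⟩ := hx
  obtain ⟨y1, y2, y3⟩ := hy
  have e0 : s • x + t • y - q = s • (x - q) + t • (y - q) := by
    rw [smul_sub, smul_sub]
    have : q = s • q + t • q := by rw [← add_smul, hst, one_smul]
    nth_rewrite 1 [this]
    abel
  have e1 : ⟪e, s • x + t • y - q⟫ = s * ⟪e, x - q⟫ + t * ⟪e, y - q⟫ := by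
    rw [e0, inner_add_right, real_inner_smul_right, real_inner_smul_right]
  have e2 : orth e (s • x + t • y - q) = s • orth e (x - q) + t • orth e (y - q) := by
    unfold orth
    rw [e1, e0]
    module
  refine ⟨?_, ?_, ?_⟩
  · rw [e1]
    have h1 := mul_le_mul_of_nonneg_left x1 hs
    have h2 := mul_le_mul_of_nonneg_left y1 ht
    have h3 : a = s * a + t * a := by rw [← add_mul, hst, one_mul]
    linarith
  · rw [e1]
    have h1 := mul_le_mul_of_nonneg_left x2 hs
    have h2 := mul_le_mul_of_nonneg_left y2 ht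
    have h3 : b = s * b + t * b := by rw [← add_mul, hst, one_mul]
    linarith
  · rw [e2]
    refine (norm_add_le _ _).trans ?_
    rw [norm_smul, norm_smul, Real.norm_of_nonneg hs, Real.norm_of_nonneg ht]
    have h1 := mul_le_mul_of_nonneg_left x3 hs
    have h2 := mul_le_mul_of_nonneg_left y3 ht
    linarith

theorem cylS_closed (e q : V) (a b : ℝ) : IsClosed (cylS e q a b) := by
  have h1 : IsClosed {x : V | a ≤ ⟪e, x - q⟫} := isClosed_le continuous_const (by fun_prop)
  have h2 : IsClosed {x : V | ⟪e, x - q⟫ ≤ b} := isClosed_le (by fun_prop) continuous_const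
  have h3 : IsClosed {x : V | ‖orth e (x - q)‖ ≤ 1} := by
    refine isClosed_le ?_ continuous_const
    unfold orth
    fun_prop
  exact h1.inter (h2.inter h3)

theorem cylS_compact [FiniteDimensional ℝ V] {e : V} (he : ‖e‖ = 1) (q : V) (a b : ℝ) :
    IsCompact (cylS e q a b) := by
  have hb : cylS e q a b ⊆ Metric.closedBall q (|a| + |b| + 1) := by
    rintro x ⟨h1, h2, h3⟩
    rw [mem_closedBall_iff_norm]
    have h4 : x - q = ⟪e, x - q⟫ • e + orth e (x - q) := by
      unfold orth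
      abel
    have h5 : |⟪e, x - q⟫| ≤ |a| + |b| := by
      rw [abs_le]
      have a1 := neg_abs_le a
      have a2 := le_abs_self b
      have a3 := abs_nonneg a
      have a4 := abs_nonneg b
      constructor <;> linarith
    rw [h4]
    refine (norm_add_le _ _).trans ?_
    rw [norm_smul, he, mul_one, Real.norm_eq_abs]
    linarith
  exact (isCompact_closedBall q _).of_isClosed_subset (cylS_closed e q a b) hb

theorem cylS_mem {e : V} (he : ‖e‖ = 1) (q : V) {a b s : ℝ} (h1 : a ≤ s) (h2 : s ≤ b) :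
    q + s • e ∈ cylS e q a b := by
  have e2 : ⟪e, q + s • e - q⟫ = s := by
    rw [add_sub_cancel_left, real_inner_smul_right, real_inner_self_eq_norm_sq, he]
    ring
  have e3 : orth e (q + s • e - q) = 0 := by
    unfold orth
    rw [e2, add_sub_cancel_left, sub_self]
  refine ⟨by rw [e2]; exact h1, by rw [e2]; exact h2, ?_⟩
  rw [e3, norm_zero]
  exact zero_le_one

/-- As `cut_parts`, where the cut set is not preconnected by assumption. -/
theorem cut_parts' {Dc S Wm Wp : Set V} (hDc : IsClosed Dc) (hS : IsClosed S)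
    (hW : Dc ∩ S = Wm ∪ Wp) (hmc : IsConnected Wm) (hpc : IsConnected Wp)
    (hconn : IsConnected (Dc ∪ S)) (hnc : ¬ IsPreconnected Dc) :
    ∃ A C : Set V, IsClosed A ∧ IsClosed C ∧ Disjoint A C ∧ A ∪ C = Dc ∧ Wm ⊆ A ∧ Wp ⊆ C ∧
      IsConnected A ∧ IsConnected C := by
  have hsplit : ∀ {D : Set V}, IsClosed D → ¬ IsPreconnected D →
      ∃ A C : Set V, IsClosed A ∧ IsClosed C ∧ Disjoint A C ∧ A ∪ C = D ∧ A.Nonempty ∧
        C.Nonempty := by
    intro D hD h
    rw [isPreconnected_closed_iff] at h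
    push Not at h
    obtain ⟨t, t', ht, ht', hsub, h1, h2, h3⟩ := h
    refine ⟨D ∩ t, D ∩ t', hD.inter ht, hD.inter ht', ?_, ?_, h1, h2⟩
    · rw [disjoint_iff_inter_eq_empty]
      rw [← h3]
      ext x
      simp only [mem_inter_iff]
      tauto
    · rw [← inter_union_distrib_left, inter_eq_left]
      exact hsub
  have hside : ∀ {W A C : Set V}, IsPreconnected W → IsClosed A → IsClosed C → Disjoint A C →
      W ⊆ A ∪ C → W ⊆ A ∨ W ⊆ C := by
    intro W A C hW hA hC hd h
    refine isPreconnected_iff_subset_of_disjoint_closed.1 hW A C hA hC h ?_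
    rw [hd.inter_eq, inter_empty]
  obtain ⟨A, C, hA, hC, hd, hAC, hA0, hC0⟩ := hsplit hDc hnc
  have hWm : Wm ⊆ Dc := fun x hx => (show x ∈ Dc ∩ S from hW ▸ Or.inl hx).1
  have hWp : Wp ⊆ Dc := fun x hx => (show x ∈ Dc ∩ S from hW ▸ Or.inr hx).1
  have hW' : Dc ∩ S = Wp ∪ Wm := by rw [hW, union_comm]
  -- two closed disjoint pieces: the walls are in different ones
  have key : ∀ A C : Set V, IsClosed A → IsClosed C → Disjoint A C → A ∪ C = Dc → A.Nonempty →
      C.Nonempty → (Wm ⊆ A ∧ Wp ⊆ C) ∨ (Wm ⊆ C ∧ Wp ⊆ A) := by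
    intro A C hA hC hd hAC hA0 hC0
    have hm' := hside hmc.isPreconnected hA hC hd (hAC.symm ▸ hWm)
    have hp' := hside hpc.isPreconnected hA hC hd (hAC.symm ▸ hWp)
    have hCA : C ∪ A = Dc := by rw [union_comm, hAC]
    rcases hm' with h1 | h1
    · rcases hp' with h2 | h2
      · exact (walls_not_both hS hW hmc.nonempty hconn hA hC hAC hd hC0 h1 h2).elim
      · exact Or.inl ⟨h1, h2⟩
    · rcases hp' with h2 | h2
      · exact Or.inr ⟨h1, h2⟩
      · exact (walls_not_both hS hW hmc.nonempty hconn hC hA hCA hd.symm hA0 h1 h2).elim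
  -- a closed piece containing exactly one wall is preconnected
  have conn : ∀ A C W : Set V, IsClosed A → IsClosed C → Disjoint A C → A ∪ C = Dc →
      C.Nonempty → ((W = Wm ∧ Wm ⊆ A ∧ Wp ⊆ C) ∨ (W = Wp ∧ Wp ⊆ A ∧ Wm ⊆ C)) →
      IsPreconnected A := by
    intro A C W hA hC hd hAC hC0 hW0
    by_contra hA'
    obtain ⟨A1, A2, h1, h2, h12, hu, hA1, hA2⟩ := hsplit hA hA'
    have d1 : Disjoint (A1 ∪ C) A2 := by
      rw [disjoint_union_left]
      exact ⟨h12, (hd.mono_left (hu ▸ subset_union_right)).symm⟩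
    have d2 : Disjoint (A2 ∪ C) A1 := by
      rw [disjoint_union_left]
      exact ⟨h12.symm, (hd.mono_left (hu ▸ subset_union_left)).symm⟩
    have u1 : (A1 ∪ C) ∪ A2 = Dc := by rw [← hAC, ← hu]; ext x; simp only [mem_union]; tauto
    have u2 : (A2 ∪ C) ∪ A1 = Dc := by rw [← hAC, ← hu]; ext x; simp only [mem_union]; tauto
    have k1 := key (A1 ∪ C) A2 (h1.union hC) h2 d1 u1 (hC0.mono subset_union_right) hA2
    have k2 := key (A2 ∪ C) A1 (h2.union hC) h1 d2 u2 (hC0.mono subset_union_right) hA1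
    obtain ⟨m, hm⟩ := hmc.nonempty
    obtain ⟨p, hp⟩ := hpc.nonempty
    rcases hW0 with ⟨_, ha, hb⟩ | ⟨_, ha, hb⟩
    · have hpC := hb hp
      rcases k1 with ⟨c1, c2⟩ | ⟨c1, c2⟩
      · exact d1.le_bot ⟨Or.inr hpC, c2 hp⟩
      · rcases k2 with ⟨c3, c4⟩ | ⟨c3, c4⟩
        · exact d2.le_bot ⟨Or.inr hpC, c4 hp⟩
        · exact h12.le_bot ⟨c3 hm, c1 hm⟩
    · have hmC := hb hm
      rcases k1 with ⟨c1, c2⟩ | ⟨c1, c2⟩
      · rcases k2 with ⟨c3, c4⟩ | ⟨c3, c4⟩
        · exact h12.le_bot ⟨c4 hp, c2 hp⟩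
        · exact d2.le_bot ⟨Or.inr hmC, c3 hm⟩
      · exact d1.le_bot ⟨Or.inr hmC, c1 hm⟩
  rcases key A C hA hC hd hAC hA0 hC0 with ⟨h1, h2⟩ | ⟨h1, h2⟩
  · refine ⟨A, C, hA, hC, hd, hAC, h1, h2, ⟨hA0, conn A C Wm hA hC hd hAC hC0
      (Or.inl ⟨rfl, h1, h2⟩)⟩, ⟨hC0, conn C A Wp hC hA hd.symm (by rw [union_comm, hAC]) hA0
      (Or.inr ⟨rfl, h2, h1⟩)⟩⟩
  · refine ⟨C, A, hC, hA, hd.symm, by rw [union_comm, hAC], h1, h2, ⟨hC0,
      conn C A Wm hC hA hd.symm (by rw [union_comm, hAC]) hA0 (Or.inl ⟨rfl, h1, h2⟩)⟩, ⟨hA0,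
      conn A C Wp hA hC hd hAC hC0 (Or.inr ⟨rfl, h2, h1⟩)⟩⟩

variable {f : V → ℝ} {e q : V} {ζ R η r : ℝ}

theorem CylN.fcut_union (h : CylN f e q ζ R) (hη : 0 < η) (hηζ : η < ζ) (hr : 1 < r) (hrR : r < R) :
    {x | fcutC f e q η r x ≤ 0} ∪ cylS e q (-η) η = {x | f x ≤ 0} := by
  ext x
  constructor
  · rintro (h1 | ⟨h1, h2, h3⟩)
    · have h1' : max (f x) (lamC e q η r x) ≤ 0 := h1
      exact (max_le_iff.1 h1').1
    · have h4 : |⟪e, x - q⟫| < ζ := by
        rw [abs_lt]
        constructor <;> linarith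
      have h5 := h.hf x h4 (by linarith)
      show f x ≤ 0
      rw [h5]
      have h6 := norm_nonneg (orth e (x - q))
      nlinarith
  · intro h1
    have h1' : f x ≤ 0 := h1
    rcases le_total (lamC e q η r x) 0 with h2 | h2
    · exact Or.inl (max_le h1' h2)
    · obtain ⟨h3, h4, _⟩ := h.near hηζ hrR h1' h2
      have h5 := abs_le.1 h3
      exact Or.inr ⟨h5.1, h5.2, h4⟩

theorem CylN.fcut_inter (h : CylN f e q ζ R) (hη : 0 < η) (hηζ : η < ζ) (hr : 1 < r) (hrR : r < R) :
    {x | fcutC f e q η r x ≤ 0} ∩ cylS e q (-η) η = cylS e q (-η) (-η) ∪ cylS e q η η := by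
  have hlam : ∀ x ∈ cylS e q (-η) η, lamC e q η r x ≤ 0 → |⟪e, x - q⟫| = η := by
    rintro x ⟨h1, h2, h3⟩ h4
    unfold lamC at h4
    have h5 : |⟪e, x - q⟫| ≤ η := abs_le.2 ⟨h1, h2⟩
    rcases min_le_iff.1 h4 with h6 | h6
    · linarith
    · linarith
  have hf : ∀ x ∈ cylS e q (-η) η, f x ≤ 0 := fun x hx => by
    have h1 : x ∈ {x | f x ≤ 0} := (h.fcut_union hη hηζ hr hrR) ▸ Or.inr hx
    exact h1
  ext x
  constructor
  · rintro ⟨h1, h2⟩
    have h1' : max (f x) (lamC e q η r x) ≤ 0 := h1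
    have h3 := hlam x h2 (max_le_iff.1 h1').2
    rcases (abs_eq hη.le).1 h3 with h4 | h4
    · exact Or.inr ⟨h4.ge, h4.le, h2.2.2⟩
    · exact Or.inl ⟨h4.ge, h4.le, h2.2.2⟩
  · rintro (⟨h1, h2, h3⟩ | ⟨h1, h2, h3⟩)
    · have h4 : x ∈ cylS e q (-η) η := ⟨h1, by linarith, h3⟩
      refine ⟨max_le (hf x h4) ((min_le_left _ _).trans ?_), h4⟩
      have h5 : ⟪e, x - q⟫ = -η := le_antisymm h2 h1
      rw [h5, abs_neg, abs_of_pos hη, sub_self]
    · have h4 : x ∈ cylS e q (-η) η := ⟨by linarith, h2, h3⟩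
      refine ⟨max_le (hf x h4) ((min_le_left _ _).trans ?_), h4⟩
      have h5 : ⟪e, x - q⟫ = η := le_antisymm h2 h1
      rw [h5, abs_of_pos hη, sub_self]

/-- The flat cut function is good. -/
theorem CylN.fcut_good (h : CylN f e q ζ R) (hg : Good f) (hη : 0 < η) (hηζ : η < ζ) (hr : 1 < r)
    (hrR : r < R) : Good (fcutC f e q η r) := by
  have hlc := lamC_continuous e q η r
  refine ⟨hg.cont.max hlc, ?_, ?_⟩
  · obtain ⟨R0, hR0⟩ := hg.bdd.exists_norm_le
    refine (Metric.isBounded_closedBall (x := (0 : V)) (r := max R0 (‖q‖ + (η + 1)))).subset ?_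
    intro x hx
    rw [Metric.mem_closedBall, dist_zero_right]
    have hx' : max (f x) (lamC e q η r x) = 0 := hx
    have hf0 : f x ≤ 0 := (le_max_left _ _).trans hx'.le
    by_cases hfz : f x = 0
    · exact (hR0 x hfz).trans (le_max_left _ _)
    · have hl : 0 ≤ lamC e q η r x := by
        rcases max_choice (f x) (lamC e q η r x) with h2 | h2
        · rw [h2] at hx'
          exact absurd hx' hfz
        · rw [h2] at hx'
          exact hx'.ge
      obtain ⟨h1, h2, _⟩ := h.near hηζ hrR hf0 hl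
      refine le_trans ?_ (le_max_right _ _)
      have h3 : x = q + (⟪e, x - q⟫ • e + orth e (x - q)) := by
        unfold orth
        abel
      calc ‖x‖ = ‖q + (⟪e, x - q⟫ • e + orth e (x - q))‖ := by rw [← h3]
        _ ≤ ‖q‖ + (‖⟪e, x - q⟫ • e‖ + ‖orth e (x - q)‖) :=
            (norm_add_le _ _).trans (add_le_add le_rfl (norm_add_le _ _))
        _ ≤ ‖q‖ + (η + 1) := by
            rw [norm_smul, h.he, mul_one, Real.norm_eq_abs]
            linarith
  · intro x hx
    have hx' : max (f x) (lamC e q η r x) = 0 := hx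
    have hf0 : f x ≤ 0 := (le_max_left _ _).trans hx'.le
    by_cases hl : lamC e q η r x < 0
    · have hfz : f x = 0 := by
        rcases max_choice (f x) (lamC e q η r x) with h2 | h2
        · rw [← h2]
          exact hx'
        · rw [h2] at hx'
          exact absurd hx' hl.ne
      obtain ⟨v, hv⟩ := hg.desc x hfz
      exact ⟨v, dz1_max hg.cont hlc (fun _ => hv) (dz1_of_ne hl.ne) hx⟩
    · have hl' := not_lt.1 hl
      obtain ⟨n1, n2, n3⟩ := h.near hηζ hrR hf0 hl'
      obtain ⟨v1, v2⟩ := cyl_dir h.he q x ⟪e, x - q⟫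
      obtain ⟨v, hv⟩ : ∃ v, v = ⟪e, x - q⟫ • e - orth e (x - q) := ⟨_, rfl⟩
      rw [← hv] at v1 v2
      have d1 : DZ1 f x v := by
        intro hfx
        have h1 : ‖orth e (x - q)‖ ^ 2 = 1 := by linarith
        have h2 := desc1_lateral (q := q) h.he 1 (x := x) (v := v) (by rw [v1, h1]; norm_num)
        refine h2.congr ?_
        filter_upwards [h.eq_near (x := x) (by linarith) (by linarith)] with y hy
        rw [hy, one_pow]
      have d2 : DZ1 (lamC e q η r) x v := by
        refine lamC_dz h.he hη hr n2 ?_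
        intro h1
        rw [v2]
        refine mul_self_pos.2 ?_
        intro h3
        rw [h3, abs_zero] at h1
        linarith
      exact ⟨v, dz1_max hg.cont hlc d1 d2 hx⟩

theorem partF_cont (hf : Continuous f) (A C : Set V) : Continuous (partF f A C) :=
  hf.max ((Metric.continuous_infDist_pt A).sub (Metric.continuous_infDist_pt C))

theorem partF_zero {A C : Set V} (hA : IsClosed A) (hC : IsClosed C)
    (hd : Disjoint A C) (hA0 : A.Nonempty) (hC0 : C.Nonempty) (h : A ∪ C = {x | f x ≤ 0}) {x : V}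
    (hx : partF f A C x = 0) : x ∈ A ∧ f x = 0 := by
  have h1 : x ∈ A := (partF_le hA hC hd hA0 hC0 h x).1 hx.le
  refine ⟨h1, ?_⟩
  have h2 : Metric.infDist x A = 0 := Metric.infDist_zero_of_mem h1
  have h3 : 0 < Metric.infDist x C :=
    (hC.notMem_iff_infDist_pos hC0).1 fun h4 => hd.le_bot ⟨h1, h4⟩
  unfold partF at hx
  rcases max_choice (f x) (Metric.infDist x A - Metric.infDist x C) with h4 | h4
  · rw [h4] at hx
    exact hx
  · rw [h4] at hx
    linarith

theorem partF_good (hg : Good f) {A C : Set V} (hA : IsClosed A) (hC : IsClosed C)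
    (hd : Disjoint A C) (hA0 : A.Nonempty) (hC0 : C.Nonempty) (h : A ∪ C = {x | f x ≤ 0}) :
    Good (partF f A C) := by
  refine ⟨partF_cont hg.cont A C, ?_, ?_⟩
  · exact hg.bdd.subset fun x hx => (partF_zero hA hC hd hA0 hC0 h hx).2
  · intro x hx
    obtain ⟨h1, h2⟩ := partF_zero hA hC hd hA0 hC0 h hx
    obtain ⟨v, hv⟩ := hg.desc x h2
    exact ⟨v, hv.congr ((partF_near hg.cont hC hd hC0 h1 h2).mono fun y hy => hy.symm)⟩

/-- On the axis. -/
theorem CylN.axis (h : CylN f e q ζ R) {s : ℝ} (hs : |s| < ζ) :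
    ⟪e, q + s • e - q⟫ = s ∧ orth e (q + s • e - q) = 0 ∧ f (q + s • e) = -1 := by
  have e2 : ⟪e, q + s • e - q⟫ = s := by
    rw [add_sub_cancel_left, real_inner_smul_right, real_inner_self_eq_norm_sq, h.he]
    ring
  have e3 : orth e (q + s • e - q) = 0 := by
    unfold orth
    rw [e2, add_sub_cancel_left, sub_self]
  refine ⟨e2, e3, ?_⟩
  rw [h.hf _ (by rw [e2]; exact hs) (by rw [e3, norm_zero]; linarith [h.hR]), e3, norm_zero]
  norm_num

/-- The flat parts of the cut. -/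
theorem CylN.flat_parts [FiniteDimensional ℝ V] (h : CylN f e q ζ R) (hg : Good f) (hη : 0 < η)
    (hηζ : η < ζ) (hr : 1 < r) (hrR : r < R) {A C : Set V} (hA : IsClosed A) (hC : IsClosed C)
    (hd : Disjoint A C) (hAC : A ∪ C = {x | fcutC f e q η r x ≤ 0})
    (hm : cylS e q (-η) (-η) ⊆ A) (hp : cylS e q η η ⊆ C) :
    Good (partF (fcutC f e q η r) A C) ∧ Good (partF (fcutC f e q η r) C A) ∧
      (∀ x, partF (fcutC f e q η r) A C x ≤ 0 → 0 < partF (fcutC f e q η r) C A x) ∧
      (∀ᶠ x in 𝓝 (q + (-η) • e), partF (fcutC f e q η r) A C x = ⟪e, x - (q + (-η) • e)⟫) ∧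
      (∀ᶠ x in 𝓝 (q + (-η) • e + (2 * η) • e), partF (fcutC f e q η r) C A x =
        -⟪e, x - (q + (-η) • e + (2 * η) • e)⟫) ∧
      (∀ s ∈ Ioo (0 : ℝ) (2 * η), 0 < partF (fcutC f e q η r) A C (q + (-η) • e + s • e) ∧
        0 < partF (fcutC f e q η r) C A (q + (-η) • e + s • e)) ∧
      ∀ᶠ ρ in 𝓝[>] (0 : ℝ), Hom f (fun x => min (min (partF (fcutC f e q η r) A C x)
        (partF (fcutC f e q η r) C A x)) (tau (q + (-η) • e) e (2 * η) ρ x)) := by
  have he := h.he
  have hcg : Good (fcutC f e q η r) := h.fcut_good hg hη hηζ hr hrR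
  have hcont := hcg.cont
  have hCA : C ∪ A = {x | fcutC f e q η r x ≤ 0} := (Set.union_comm _ _).trans hAC
  have hqm : q + (-η) • e ∈ A := hm (cylS_mem he q le_rfl le_rfl)
  have hqp : q + η • e ∈ C := hp (cylS_mem he q le_rfl le_rfl)
  have hA0 : A.Nonempty := ⟨_, hqm⟩
  have hC0 : C.Nonempty := ⟨_, hqp⟩
  have hend : q + (-η) • e + (2 * η) • e = q + η • e := by module
  -- the value of `lamC` on the axis
  have hlam : ∀ s : ℝ, lamC e q η r (q + s • e) = min (η - |s|) r := by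
    intro s
    have e2 : ⟪e, q + s • e - q⟫ = s := by
      rw [add_sub_cancel_left, real_inner_smul_right, real_inner_self_eq_norm_sq, he]
      ring
    have e3 : orth e (q + s • e - q) = 0 := by
      unfold orth
      rw [e2, add_sub_cancel_left, sub_self]
    unfold lamC
    rw [e2, e3, norm_zero, sub_zero]
  -- flatness
  have hflat : ∀ s : ℝ, |s| = η → ∀ᶠ x in 𝓝 (q + s • e), fcutC f e q η r x = η - |⟪e, x - q⟫| := by
    intro s hs
    obtain ⟨a1, a2, a3⟩ := h.axis (s := s) (by rw [hs]; exact hηζ)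
    have hn : ∀ᶠ x in 𝓝 (q + s • e), lamC e q η r x = η - |⟪e, x - q⟫| := by
      refine lamC_near hη hr ?_ ?_
      · rw [a2, norm_zero]
        exact zero_le_one
      · rw [a1, hs]
    have hlt : ∀ᶠ x in 𝓝 (q + s • e), f x < lamC e q η r x := by
      refine hg.cont.continuousAt.eventually_lt (lamC_continuous e q η r).continuousAt ?_
      rw [hlam, hs, a3, sub_self, min_eq_left (by linarith : (0 : ℝ) ≤ r)]
      norm_num
    filter_upwards [hn, hlt] with x h1 h2
    rw [← h1]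
    exact max_eq_right h2.le
  have hz : ∀ s : ℝ, |s| = η → fcutC f e q η r (q + s • e) = 0 := by
    intro s hs
    rw [(hflat s hs).self_of_nhds]
    obtain ⟨a1, _, _⟩ := h.axis (s := s) (by rw [hs]; exact hηζ)
    rw [a1, hs, sub_self]
  have hm1 : |(-η)| = η := by rw [abs_neg, abs_of_pos hη]
  have hp1 : |η| = η := abs_of_pos hη
  refine ⟨partF_good hcg hA hC hd hA0 hC0 hAC, partF_good hcg hC hA hd.symm hC0 hA0 hCA, ?_, ?_,
    ?_, ?_, ?_⟩
  · intro x hx
    have hxA : x ∈ A := (partF_le hA hC hd hA0 hC0 hAC x).1 hx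
    exact partF_pos hC hd hC0 hxA
  · have h2 : ∀ᶠ x in 𝓝 (q + (-η) • e), ⟪e, x - q⟫ < 0 := by
      have h3 : Continuous fun x : V => ⟪e, x - q⟫ := by fun_prop
      refine h3.continuousAt.eventually_lt_const ?_
      beta_reduce
      rw [(h.axis (s := -η) (by rw [hm1]; exact hηζ)).1]
      linarith
    filter_upwards [hflat (-η) hm1, h2, partF_near hcont hC hd hC0 hqm (hz _ hm1)] with x h3 h4 h5
    rw [h5, h3, abs_of_neg h4, inner_shift he]
    ring
  · rw [hend]
    have h2 : ∀ᶠ x in 𝓝 (q + η • e), 0 < ⟪e, x - q⟫ := by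
      have h3 : Continuous fun x : V => ⟪e, x - q⟫ := by fun_prop
      refine h3.continuousAt.eventually_const_lt ?_
      beta_reduce
      rw [(h.axis (s := η) (by rw [hp1]; exact hηζ)).1]
      exact hη
    filter_upwards [hflat η hp1, h2, partF_near hcont hA hd.symm hA0 hqp (hz _ hp1)] with x h3 h4 h5
    rw [h5, h3, abs_of_pos h4, inner_shift he]
    ring
  · intro s hs
    have e1 : q + (-η) • e + s • e = q + (s - η) • e := by module
    have h2 : 0 < lamC e q η r (q + (s - η) • e) := by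
      rw [hlam]
      have h3 : |s - η| < η := by
        rw [abs_lt]
        exact ⟨by linarith [hs.1], by linarith [hs.2]⟩
      exact lt_min (by linarith) (by linarith)
    have h3 : 0 < fcutC f e q η r (q + (s - η) • e) := lt_max_of_lt_right h2
    rw [e1]
    exact ⟨lt_max_of_lt_left h3, lt_max_of_lt_left h3⟩
  · filter_upwards [h.neck hg hη hηζ hr hrR] with ρ h1
    exact h1.trans (part_hom hcont (tau_continuous _ e (2 * η) ρ) h1.good_right
      hA hC hd hA0 hC0 hAC)

/-- If one of the flat parts is a ball, the function is homotopic to the other one. -/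
theorem CylN.flat_glue [FiniteDimensional ℝ V] (h : CylN f e q ζ R) (hg : Good f) (hη : 0 < η)
    (hηζ : η < ζ) (hr : 1 < r) (hrR : r < R) {A C : Set V} (hA : IsClosed A) (hC : IsClosed C)
    (hd : Disjoint A C) (hAC : A ∪ C = {x | fcutC f e q η r x ≤ 0})
    (hm : cylS e q (-η) (-η) ⊆ A) (hp : cylS e q η η ⊆ C)
    (hball : IsBall (partF (fcutC f e q η r) A C)) : Hom f (partF (fcutC f e q η r) C A) := by
  obtain ⟨h1, h2, h3, h4, h5, h6, h7⟩ := h.flat_parts hg hη hηζ hr hrR hA hC hd hAC hm hp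
  have h8 := glue hball h2 h3 h.he (by linarith : (0 : ℝ) < 2 * η) h4 h5 h6
  obtain ⟨ρ, h9, h10⟩ := (h7.and h8).exists
  exact h9.trans h10

/-- The cylinder upside down. -/
theorem CylN.flip (h : CylN f e q ζ R) : CylN f (-e) q ζ R := by
  have ho : ∀ x : V, orth (-e) x = orth e x := by
    intro x
    unfold orth
    rw [inner_neg_left]
    module
  refine ⟨by rw [norm_neg]; exact h.he, h.hζ, h.hR, fun x h1 h2 => ?_⟩
  rw [ho] at h2 ⊢
  rw [inner_neg_left, abs_neg] at h1
  exact h.hf x h1 h2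

theorem lamC_flip (e q : V) (η r : ℝ) (x : V) : lamC (-e) q η r x = lamC e q η r x := by
  unfold lamC orth
  rw [inner_neg_left, abs_neg]
  congr 3
  module

theorem cylS_flip (e q : V) (a b : ℝ) : cylS (-e) q a b = cylS e q (-b) (-a) := by
  ext x
  have ho : orth (-e) (x - q) = orth e (x - q) := by
    unfold orth
    rw [inner_neg_left]
    module
  unfold cylS
  simp only [mem_ofPred_eq]
  rw [ho, inner_neg_left]
  constructor
  · rintro ⟨h1, h2, h3⟩
    exact ⟨by linarith, by linarith, h3⟩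
  · rintro ⟨h1, h2, h3⟩
    exact ⟨by linarith, by linarith, h3⟩

/-- The same with the roles of the parts exchanged. -/
theorem CylN.flat_glue' [FiniteDimensional ℝ V] (h : CylN f e q ζ R) (hg : Good f) (hη : 0 < η)
    (hηζ : η < ζ) (hr : 1 < r) (hrR : r < R) {A C : Set V} (hA : IsClosed A) (hC : IsClosed C)
    (hd : Disjoint A C) (hAC : A ∪ C = {x | fcutC f e q η r x ≤ 0})
    (hm : cylS e q (-η) (-η) ⊆ A) (hp : cylS e q η η ⊆ C)
    (hball : IsBall (partF (fcutC f e q η r) C A)) : Hom f (partF (fcutC f e q η r) A C) := by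
  have hfe : fcutC f (-e) q η r = fcutC f e q η r := by
    funext x
    unfold fcutC
    rw [lamC_flip]
  have h1 := h.flip.flat_glue hg hη hηζ hr hrR (A := C) (C := A) hC hA hd.symm
    (by rw [hfe, union_comm]; exact hAC) (by rw [cylS_flip, neg_neg]; exact hp)
    (by rw [cylS_flip]; exact hm) (by rw [hfe]; exact hball)
  rw [hfe] at h1
  exact h1

end Pool.Schoen
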