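import Mathlib
import Pool.Agent.H.MP_6c077c_gt.CG.Defs

/-! Alexander theorem: finite sets which meet all pieces of the curves at given levels. -/

set_option autoImplicit false

namespace Pool.Schoen

open Filter Set
open scoped Topology RealInnerProductSpace ContDiff

variable {V : Type*} [NormedAddCommGroup V] [InnerProductSpace ℝ V]

/-- The finite set `S` meets every nonempty relatively clopen part of the curves `f = 0` at the
levels of `L`. -/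
def Mark (f : V → ℝ) (e : V) (L : Set ℝ) (S : Finset V) : Prop :=
  ∀ c ∈ L, ∀ K : Set V, K.Nonempty → IsClosed K → (∀ x ∈ K, f x = 0 ∧ ⟪e, x⟫ = c) →
    (∃ O : Set V, IsOpen O ∧ K ⊆ O ∧ ∀ x ∈ O, f x = 0 → ⟪e, x⟫ = c → x ∈ K) → ∃ m ∈ S, m ∈ K

variable {f g : V → ℝ} {e : V} {L : Set ℝ} {S : Finset V}

/-- Only the zeros at the levels matter. -/
theorem Mark.congr (h : Mark f e L S) (hz : ∀ x, ⟪e, x⟫ ∈ L → (g x = 0 ↔ f x = 0)) :
    Mark g e L S := by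
  intro c hc K hK hKc hKz hO
  refine h c hc K hK hKc (fun x hx => ?_) ?_
  · obtain ⟨h1, h2⟩ := hKz x hx
    exact ⟨(hz x (by rw [h2]; exact hc)).1 h1, h2⟩
  · obtain ⟨O, hO, hKO, hO'⟩ := hO
    exact ⟨O, hO, hKO, fun x hx h1 h2 => hO' x hx ((hz x (by rw [h2]; exact hc)).2 h1) h2⟩

theorem Mark.neg (h : Mark f e L S) : Mark (fun x => -f x) e L S :=
  h.congr fun _ _ => neg_eq_zero

theorem Mark.mono_levels {L' : Set ℝ} (h : Mark f e L S) (hL : L' ⊆ L) : Mark f e L' S :=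
  fun c hc => h c (hL hc)

/-- The opposite direction. -/
theorem Mark.flip (h : Mark f e L S) : Mark f (-e) {c | -c ∈ L} S := by
  intro c hc K hK hKc hKz hO
  refine h (-c) hc K hK hKc (fun x hx => ?_) ?_
  · obtain ⟨h1, h2⟩ := hKz x hx
    refine ⟨h1, ?_⟩
    rw [inner_neg_left] at h2
    linarith
  · obtain ⟨O, hO, hKO, hO'⟩ := hO
    refine ⟨O, hO, hKO, fun x hx h1 h2 => hO' x hx h1 ?_⟩
    rw [inner_neg_left]
    linarith

/-- If the zeros of `g` at the levels are locally those of `f`, the markers on the zeros of `g`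
are enough. -/
theorem Mark.part (h : Mark f e L S)
    (hz : ∀ x, ⟪e, x⟫ ∈ L → g x = 0 → ∃ O : Set V, IsOpen O ∧ x ∈ O ∧
      ∀ y ∈ O, ⟪e, y⟫ = ⟪e, x⟫ → (g y = 0 ↔ f y = 0)) [DecidablePred fun x => g x = 0] :
    Mark g e L (S.filter fun x => g x = 0) := by
  intro c hc K hK hKc hKz hO
  obtain ⟨O, hO, hKO, hO'⟩ := hO
  have hz' : ∀ x : K, ∃ O : Set V, IsOpen O ∧ (x : V) ∈ O ∧
      ∀ y ∈ O, ⟪e, y⟫ = c → (g y = 0 ↔ f y = 0) := by
    intro x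
    obtain ⟨h1, h2⟩ := hKz x x.2
    obtain ⟨Ox, h3, h4, h5⟩ := hz x (by rw [h2]; exact hc) h1
    exact ⟨Ox, h3, h4, fun y hy hy' => h5 y hy (by rw [hy', h2])⟩
  choose W hW hxW hWz using hz'
  have k1 : ∀ x ∈ K, f x = 0 ∧ ⟪e, x⟫ = c := by
    intro x hx
    obtain ⟨h1, h2⟩ := hKz x hx
    exact ⟨(hWz ⟨x, hx⟩ x (hxW ⟨x, hx⟩) h2).1 h1, h2⟩
  have k2 : ∀ x ∈ O ∩ ⋃ x : K, W x, f x = 0 → ⟪e, x⟫ = c → x ∈ K := by
    rintro x ⟨hx, hx'⟩ h1 h2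
    obtain ⟨y, hy⟩ := mem_iUnion.1 hx'
    exact hO' x hx ((hWz y x hy h2).2 h1) h2
  obtain ⟨m, hm, hmK⟩ := h c hc K hK hKc k1 ⟨O ∩ ⋃ x : K, W x,
    hO.inter (isOpen_iUnion hW), fun x hx => ⟨hKO hx, mem_iUnion.2 ⟨⟨x, hx⟩, hxW ⟨x, hx⟩⟩⟩, k2⟩
  exact ⟨m, Finset.mem_filter.2 ⟨hm, (hKz m hmK).1⟩, hmK⟩

/-- A clopen piece of the curve of `f` which contains no zeros of `g` carries a lost marker. -/
theorem Mark.card_lt (h : Mark f e L S) {c : ℝ} (hc : c ∈ L) {K : Set V} (hK : K.Nonempty)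
    (hKc : IsClosed K) (hKz : ∀ x ∈ K, f x = 0 ∧ ⟪e, x⟫ = c)
    (hO : ∃ O : Set V, IsOpen O ∧ K ⊆ O ∧ ∀ x ∈ O, f x = 0 → ⟪e, x⟫ = c → x ∈ K)
    (hg : ∀ x ∈ K, g x ≠ 0) [DecidablePred fun x => g x = 0] :
    (S.filter fun x => g x = 0).card < S.card := by
  obtain ⟨m, hm, hmK⟩ := h c hc K hK hKc hKz hO
  exact Finset.card_lt_card (Finset.filter_ssubset.2 ⟨m, hm, hg m hmK⟩)

/-- Transport by a homeomorphism which preserves the height. -/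
theorem Mark.transport [DecidableEq V] (h : Mark f e L S) {Φ Ψ : V → V} (hΨ : Continuous Ψ)
    (h1 : ∀ x, Ψ (Φ x) = x) (h2 : ∀ x, Φ (Ψ x) = x)
    (hh : ∀ x, ⟪e, Φ x⟫ = ⟪e, x⟫) : Mark (fun x => f (Φ x)) e L (S.image Ψ) := by
  have hh' : ∀ x, ⟪e, Ψ x⟫ = ⟪e, x⟫ := by
    intro x
    rw [← hh, h2]
  intro c hc K hK hKc hKz hO
  obtain ⟨O, hO, hKO, hO'⟩ := hO
  have k0 : (Ψ ⁻¹' K).Nonempty := by
    obtain ⟨x, hx⟩ := hK
    exact ⟨Φ x, by rw [mem_preimage, h1]; exact hx⟩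
  have k1 : ∀ x ∈ Ψ ⁻¹' K, f x = 0 ∧ ⟪e, x⟫ = c := by
    intro x hx
    obtain ⟨h3, h4⟩ := hKz _ hx
    have h3' : f (Φ (Ψ x)) = 0 := h3
    rw [h2] at h3'
    rw [hh'] at h4
    exact ⟨h3', h4⟩
  have k2 : ∀ x ∈ Ψ ⁻¹' O, f x = 0 → ⟪e, x⟫ = c → x ∈ Ψ ⁻¹' K := by
    intro x hx h3 h4
    refine hO' _ hx ?_ (by rw [hh', h4])
    show f (Φ (Ψ x)) = 0
    rw [h2, h3]
  obtain ⟨m, hm, hmK⟩ := h c hc (Ψ ⁻¹' K) k0 (hKc.preimage hΨ) k1 ⟨Ψ ⁻¹' O, hO.preimage hΨ,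
    fun x hx => hKO hx, k2⟩
  exact ⟨Ψ m, Finset.mem_image_of_mem Ψ hm, hmK⟩

/-- Local connectedness of a regular level set. -/
theorem local_level {E F : Type*} [NormedAddCommGroup E] [NormedSpace ℝ E] [CompleteSpace E]
    [NormedAddCommGroup F] [NormedSpace ℝ F] [FiniteDimensional ℝ F] {G : E → F} {x : E}
    {G' : E →L[ℝ] F} (hG : HasStrictFDerivAt G G' x) (hs : G'.range = ⊤) :
    ∃ U : Set E, IsOpen U ∧ x ∈ U ∧ IsPreconnected (U ∩ {y | G y = G x}) := by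
  obtain ⟨Φ, hΦ⟩ : ∃ Φ, Φ = hG.implicitToOpenPartialHomeomorph G G' hs := ⟨_, rfl⟩
  have hfst : ∀ y, (Φ y).1 = G y := fun y => by rw [hΦ]; simp
  have hself : Φ x = (G x, 0) := by rw [hΦ]; simp
  have hsrc : x ∈ Φ.source := by rw [hΦ]; exact hG.mem_implicitToOpenPartialHomeomorph_source hs
  have htgt : (G x, (0 : G'.ker)) ∈ Φ.target := by
    rw [← hself]
    exact Φ.map_source hsrc
  obtain ⟨ε, hε, hball⟩ := Metric.isOpen_iff.1 Φ.open_target _ htgt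
  have hprod : Metric.ball (G x) ε ×ˢ Metric.ball (0 : G'.ker) ε ⊆ Φ.target := by
    rw [ball_prod_same]
    exact hball
  refine ⟨Φ.source ∩ Φ ⁻¹' (Metric.ball (G x) ε ×ˢ Metric.ball (0 : G'.ker) ε),
    Φ.isOpen_inter_preimage (Metric.isOpen_ball.prod Metric.isOpen_ball), ⟨hsrc, ?_⟩, ?_⟩
  · rw [mem_preimage, hself]
    exact ⟨Metric.mem_ball_self hε, Metric.mem_ball_self hε⟩
  · have h1 : Φ.source ∩ Φ ⁻¹' (Metric.ball (G x) ε ×ˢ Metric.ball (0 : G'.ker) ε) ∩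
        {y | G y = G x} = Φ.symm '' ({G x} ×ˢ Metric.ball (0 : G'.ker) ε) := by
      ext y
      constructor
      · rintro ⟨⟨hy1, hy2⟩, hy3⟩
        refine ⟨Φ y, ⟨?_, hy2.2⟩, Φ.left_inv hy1⟩
        rw [mem_singleton_iff, hfst]
        exact hy3
      · rintro ⟨z, ⟨hz1, hz2⟩, rfl⟩
        have hz3 : z ∈ Φ.target := hprod ⟨by rw [hz1]; exact Metric.mem_ball_self hε, hz2⟩
        refine ⟨⟨Φ.map_target hz3, ?_⟩, ?_⟩
        · rw [mem_preimage, Φ.right_inv hz3]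
          exact ⟨by rw [hz1]; exact Metric.mem_ball_self hε, hz2⟩
        · rw [mem_ofPred_eq, ← hfst, Φ.right_inv hz3, hz1]
    rw [h1]
    refine IsPreconnected.image ?_ _ (Φ.continuousOn_symm.mono ?_)
    · exact isPreconnected_singleton.prod (convex_ball _ _).isPreconnected
    · rintro z ⟨hz1, hz2⟩
      exact hprod ⟨by rw [hz1]; exact Metric.mem_ball_self hε, hz2⟩

/-- Existence of markers. -/
theorem mark_exists [FiniteDimensional ℝ V] (he : ‖e‖ = 1) (hf : ContDiff ℝ ∞ f)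
    (hb : Bornology.IsBounded {x | f x = 0}) (hL : L.Finite)
    (hreg : ∀ x, f x = 0 → ⟪e, x⟫ ∈ L → ∀ l : ℝ, gradient f x ≠ l • e) :
    ∃ S : Finset V, Mark f e L S := by
  classical
  have hcont := hf.continuous
  have hcl : IsClosed {x : V | f x = 0 ∧ ⟪e, x⟫ ∈ L} := by
    refine (isClosed_eq hcont continuous_const).inter ?_
    exact hL.isClosed.preimage (continuous_const.inner continuous_id)
  have hK : IsCompact {x : V | f x = 0 ∧ ⟪e, x⟫ ∈ L} :=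
    Metric.isCompact_of_isClosed_isBounded hcl (hb.subset fun x hx => hx.1)
  have hloc : ∀ x ∈ {x : V | f x = 0 ∧ ⟪e, x⟫ ∈ L}, ∃ U : Set V, IsOpen U ∧ x ∈ U ∧
      IsPreconnected (U ∩ {y | f y = 0 ∧ ⟪e, y⟫ = ⟪e, x⟫}) := by
    rintro x ⟨hx, hxL⟩
    have h1 : HasStrictFDerivAt f (fderiv ℝ f x) x :=
      hf.contDiffAt.hasStrictFDerivAt (by simp)
    have h2 : HasStrictFDerivAt (fun y : V => ⟪e, y⟫) (innerSL ℝ e) x :=
      (innerSL ℝ e).hasStrictFDerivAt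
    have hs : ((fderiv ℝ f x).prod (innerSL ℝ e)).range = ⊤ := by
      rw [LinearMap.range_eq_top]
      obtain ⟨v, hv1, hv2⟩ : ∃ v : V, ⟪e, v⟫ = 0 ∧ fderiv ℝ f x v ≠ 0 := by
        by_contra hcon
        push Not at hcon
        refine hreg x hx hxL ⟪e, gradient f x⟫ ?_
        refine ext_inner_right ℝ fun v => ?_
        have h4 := hcon (v - ⟪e, v⟫ • e) (by
          rw [inner_sub_right, real_inner_smul_right, real_inner_self_eq_norm_sq, he]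
          ring)
        rw [map_sub, map_smul, smul_eq_mul, ← inner_gradient_left, ← inner_gradient_left] at h4
        rw [real_inner_smul_left, real_inner_comm (gradient f x) e]
        linarith
      rintro ⟨a, b⟩
      refine ⟨b • e + ((a - b * fderiv ℝ f x e) / fderiv ℝ f x v) • v, ?_⟩
      ext
      · simp
        field_simp
        ring
      · simp [inner_add_right, real_inner_smul_right, he, hv1]
    obtain ⟨U, hU, hxU, hc⟩ := local_level (h1.prodMk h2) hs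
    refine ⟨U, hU, hxU, ?_⟩
    have h3 : {y : V | f y = 0 ∧ ⟪e, y⟫ = ⟪e, x⟫} = {y | (f y, ⟪e, y⟫) = (f x, ⟪e, x⟫)} := by
      ext y
      simp [hx]
    rw [h3]
    exact hc
  choose! U hU hxU hUc using hloc
  have hW : ∀ x : V, IsOpen {y : V | ⟪e, y⟫ ∉ L \ {⟪e, x⟫}} := fun x =>
    ((hL.subset sdiff_subset).isClosed.preimage (continuous_const.inner continuous_id)).isOpen_compl
  obtain ⟨t, htK, ht⟩ := hK.elim_nhds_subcover (fun x => U x ∩ {y : V | ⟪e, y⟫ ∉ L \ {⟪e, x⟫}})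
    fun x hx => Filter.inter_mem ((hU x hx).mem_nhds (hxU x hx))
      ((hW x).mem_nhds fun h => h.2 rfl)
  refine ⟨t, ?_⟩
  rintro c hc K ⟨y, hy⟩ hKc hKz ⟨O, hO, hKO, hO'⟩
  obtain ⟨hy1, hy2⟩ := hKz y hy
  have hyK : y ∈ {x : V | f x = 0 ∧ ⟪e, x⟫ ∈ L} := ⟨hy1, by rw [hy2]; exact hc⟩
  obtain ⟨x, hxt, hyx⟩ := mem_iUnion₂.1 (ht hyK)
  have hxK := htK x hxt
  have hlev : ⟪e, x⟫ = c := by
    by_contra hne
    exact hyx.2 ⟨by rw [hy2]; exact hc, fun h => hne (by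
      rw [← hy2]
      exact (mem_singleton_iff.1 h).symm)⟩
  refine ⟨x, hxt, ?_⟩
  -- the connected set does not leave `K`
  have hconn := hUc x hxK
  rw [hlev] at hconn
  by_contra hxn
  have h1 : (U x ∩ {y | f y = 0 ∧ ⟪e, y⟫ = c}) ⊆ O ∪ Kᶜ := by
    intro z _
    by_cases hz : z ∈ K
    · exact Or.inl (hKO hz)
    · exact Or.inr hz
  obtain ⟨z, ⟨hz1, hz2, hz3⟩, hz4, hz5⟩ := hconn O Kᶜ hO hKc.isOpen_compl h1
    ⟨y, ⟨hyx.1, hy1, hy2⟩, hKO hy⟩ ⟨x, ⟨hxU x hxK, hxK.1, hlev⟩, hxn⟩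
  exact hz5 (hO' z hz4 hz2 hz3)

end Pool.Schoen
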