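import Pool.Agent.H.MP_6c077c_gt.Al.SCutB

/-! Alexander theorem: the smooth cut of a straight cylinder, regularity and index. -/

set_option autoImplicit false

namespace Pool.Schoen

open Filter Set
open scoped Topology RealInnerProductSpace ContDiff

variable {V : Type*} [NormedAddCommGroup V] [InnerProductSpace ℝ V] [FiniteDimensional ℝ V]
variable {f : V → ℝ} {e q : V} {ζ R d : ℝ}

private theorem scutC_grad {F G : V → ℝ} {x : V} (h : F =ᶠ[𝓝 x] G) :
    gradient F x = gradient G x := by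
  unfold gradient
  rw [h.fderiv_eq]

theorem Inward.congr' {F G : V → ℝ} {e x : V} (h : F =ᶠ[𝓝 x] G) (hF : Inward F e x) :
    Inward G e x := by
  obtain ⟨h1, l, hl, h2⟩ := hF
  exact ⟨by rw [← h.self_of_nhds, h1], l, hl, by rw [← scutC_grad h, h2]⟩

omit [FiniteDimensional ℝ V] in
theorem Idx.congr' {F G : V → ℝ} {e x : V} {k : ℕ} (h : F =ᶠ[𝓝 x] G) (hF : Idx F e x k) :
    Idx G e x k := by
  obtain ⟨N, P, hs, hk⟩ := hF
  have h1 : fderiv ℝ (fderiv ℝ G) x = fderiv ℝ (fderiv ℝ F) x := by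
    have h2 : fderiv ℝ F =ᶠ[𝓝 x] fderiv ℝ G := h.fderiv
    exact h2.fderiv_eq.symm
  refine ⟨N, P, ⟨hs.hN, hs.hP, hs.orth, hs.span, ?_, ?_, ?_⟩, hk⟩
  · intro a ha b hb
    rw [h1]
    exact hs.diag a ha b hb
  · intro a ha ha0
    rw [h1]
    exact hs.neg a ha ha0
  · intro b hb hb0
    rw [h1]
    exact hs.pos b hb hb0

/-- Regularity of the cut. -/
theorem CylN.scut_reg (h : CylN f e q ζ R) (hd : 0 < d) (hdζ : 2 * d ≤ ζ)
    (hreg : ∀ x, f x = 0 → gradient f x ≠ 0) :
    ∀ x, scut f e q d R x = 0 → gradient (scut f e q d R) x ≠ 0 := by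
  intro x hx
  rcases h.scut_zero hd hdζ hx with ⟨-, h2, h3⟩ | ⟨-, -, h3⟩
  · rw [scutC_grad h3]
    exact hreg x h2
  · rw [scutC_grad h3]
    exact scutM_reg h.he q hd (by rw [← h3.self_of_nhds, hx])

omit [FiniteDimensional ℝ V] in
/-- The model has index `0` at its poles (with respect to every direction which is a multiple of
the axis). -/
theorem scutM_idx (he : ‖e‖ = 1) (q x : V) : Idx (scutM e q d) e x 0 := by
  refine ⟨⊥, (ℝ ∙ e)ᗮ, ⟨?_, ?_, ?_, ?_, ?_, ?_, ?_⟩, finrank_bot ℝ V⟩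
  · intro a ha
    rw [Submodule.mem_bot] at ha
    rw [ha, inner_zero_left]
  · intro b hb
    rw [real_inner_comm]
    exact Submodule.mem_orthogonal_singleton_iff_inner_right.1 hb
  · intro a ha b _
    rw [Submodule.mem_bot] at ha
    rw [ha, inner_zero_left]
  · intro w hw
    refine ⟨0, Submodule.zero_mem _, w, ?_, (zero_add w).symm⟩
    rw [Submodule.mem_orthogonal_singleton_iff_inner_right, real_inner_comm]
    exact hw
  · intro a ha b _
    rw [Submodule.mem_bot] at ha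
    rw [ha, map_zero]
    rfl
  · intro a ha ha0
    rw [Submodule.mem_bot] at ha
    exact absurd ha ha0
  · intro b hb hb0
    rw [scutM_hess he q x (Submodule.mem_orthogonal_singleton_iff_inner_right.1 hb)]
    have h1 : 0 < ‖b‖ := norm_pos_iff.2 hb0
    positivity

omit [FiniteDimensional ℝ V] in
private theorem scutC_height (he : ‖e‖ = 1) (q : V) (t : ℝ) : ⟪e, q + t • e - q⟫ = t := by
  rw [add_sub_cancel_left, real_inner_smul_right, real_inner_self_eq_norm_sq, he]
  ring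

/-- The points with normal `-e` of the cut: the old ones off the cylinder and the upper pole. -/
theorem CylN.scut_inward (h : CylN f e q ζ R) (hd : 0 < d) (hdζ : 2 * d ≤ ζ) {x : V}
    (hx : Inward (scut f e q d R) e x) :
    ((ζ ≤ |⟪e, x - q⟫| ∨ R ≤ ‖orth e (x - q)‖) ∧ Inward f e x ∧ scut f e q d R =ᶠ[𝓝 x] f) ∨
      (x = q + d • e ∧ Idx (scut f e q d R) e x 0) := by
  rcases h.scut_zero hd hdζ hx.1 with ⟨h1, h2, h3⟩ | ⟨h1, h2, h3⟩
  · exact Or.inl ⟨h1, hx.congr' h3, h3⟩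
  · right
    refine ⟨?_, (scutM_idx h.he q x).congr' h3.symm⟩
    obtain ⟨h4, l, hl, h5⟩ := hx.congr' h3
    obtain ⟨h6, h7, h8⟩ := scutM_pole h.he q hd h4 h5
    obtain ⟨D, hD, hD1, hD2⟩ := wb_deriv hd ⟪e, x - q⟫
    rcases h7 with h7 | h7
    · exact h7
    · exfalso
      have h9 := h8 D hD
      have h10 : ⟪e, x - q⟫ = -d := by
        rw [h7, sub_eq_add_neg q, ← neg_smul]
        exact scutC_height h.he q _
      rw [h10, h9] at hD1
      nlinarith

/-- The points with normal `e` of the cut: the old ones off the cylinder and the lower pole. -/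
theorem CylN.scut_inward_neg (h : CylN f e q ζ R) (hd : 0 < d) (hdζ : 2 * d ≤ ζ) {x : V}
    (hx : Inward (scut f e q d R) (-e) x) :
    ((ζ ≤ |⟪e, x - q⟫| ∨ R ≤ ‖orth e (x - q)‖) ∧ Inward f (-e) x ∧ scut f e q d R =ᶠ[𝓝 x] f) ∨
      (x = q - d • e ∧ Idx (scut f e q d R) e x 0) := by
  rcases h.scut_zero hd hdζ hx.1 with ⟨h1, h2, h3⟩ | ⟨h1, h2, h3⟩
  · exact Or.inl ⟨h1, hx.congr' h3, h3⟩
  · right
    refine ⟨?_, (scutM_idx h.he q x).congr' h3.symm⟩
    obtain ⟨h4, l, hl, h5⟩ := hx.congr' h3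
    have h5' : gradient (scutM e q d) x = -((-l) • e) := by
      rw [h5, smul_neg, neg_smul]
    obtain ⟨h6, h7, h8⟩ := scutM_pole h.he q hd h4 h5'
    obtain ⟨D, hD, hD1, hD2⟩ := wb_deriv hd ⟪e, x - q⟫
    rcases h7 with h7 | h7
    · exfalso
      have h9 := h8 D hD
      have h10 : ⟪e, x - q⟫ = d := by
        rw [h7]
        exact scutC_height h.he q _
      rw [h10, h9] at hD1
      nlinarith
    · exact h7

end Pool.Schoen
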