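import Pool.Agent.H.MP_6c077c_gt.Al.Start
import Pool.Agent.H.MP_6c077c_gt.Al.Mark
import Pool.Agent.H.MP_6c077c_gt.Al.Flat
import Pool.Agent.H.MP_6c077c_gt.Al.SCutC

/-! Alexander's theorem: the class of functions of the induction. -/

set_option autoImplicit false

namespace Pool.Schoen

open Filter Set
open scoped Topology RealInnerProductSpace ContDiff

section basic

variable {V : Type*} [NormedAddCommGroup V] [InnerProductSpace ℝ V]

/-- The bounded side of `{f = 0}` is a ball. -/
def Rd (f : V → ℝ) : Prop := IsBall f ∨ IsBall fun x => -f x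

/-- The topological invariant: both sides are connected, and one of them has the lifting
property. -/
structure TopE (f : V → ℝ) : Prop where
  conn : IsConnected {x | f x ≤ 0}
  out : IsConnected {x | 0 ≤ f x}
  lift : LiftS {x | f x ≤ 0} ∨ LiftS {x | 0 ≤ f x}

/-- The parts of the body of the flat cut, only closed and disjoint. -/
structure SplitC (f : V → ℝ) (e q : V) (d r : ℝ) (A C : Set V) : Prop where
  clA : IsClosed A
  clC : IsClosed C
  disj : Disjoint A C
  un : A ∪ C = {x | fcutC f e q d r x ≤ 0}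

/-- The two parts of the body of the flat cut. -/
structure PartsC (f : V → ℝ) (e q : V) (d r : ℝ) (A C : Set V) : Prop where
  clA : IsClosed A
  clC : IsClosed C
  disj : Disjoint A C
  un : A ∪ C = {x | fcutC f e q d r x ≤ 0}
  wm : cylS e q (-d) (-d) ⊆ A
  wp : cylS e q d d ⊆ C
  connA : IsConnected A
  connC : IsConnected C

theorem PartsC.split {f : V → ℝ} {e q : V} {d r : ℝ} {A C : Set V} (h : PartsC f e q d r A C) :
    SplitC f e q d r A C := ⟨h.clA, h.clC, h.disj, h.un⟩

theorem PartsC.split' {f : V → ℝ} {e q : V} {d r : ℝ} {A C : Set V} (h : PartsC f e q d r A C) :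
    SplitC f e q d r C A := ⟨h.clC, h.clA, h.disj.symm, by rw [union_comm]; exact h.un⟩

/-- A function which is zero near `A` and one near `C`. -/
structure Sepr (κ : V → ℝ) (A C : Set V) : Prop where
  smooth : ContDiff ℝ ∞ κ
  mem : ∀ x, 0 ≤ κ x ∧ κ x ≤ 1
  zero : ∀ x ∈ A, ∀ᶠ y in 𝓝 x, κ y = 0
  one : ∀ x ∈ C, ∀ᶠ y in 𝓝 x, κ y = 1

/-- The function of the part `A`: equal to `F` near `A`, to one near `C`. -/
noncomputable def pc (κ F : V → ℝ) (x : V) : ℝ := (1 - κ x) * F x + κ x

end basic

variable {V : Type*} [NormedAddCommGroup V] [InnerProductSpace ℝ V] [FiniteDimensional ℝ V]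

/-- Smooth regular functions with bounded zero set, all horizontal zeros are nondegenerate. -/
structure Mo (f : V → ℝ) (e : V) : Prop where
  smooth : ContDiff ℝ ∞ f
  bdd : Bornology.IsBounded {x | f x = 0}
  reg : ∀ x, f x = 0 → gradient f x ≠ 0
  nd : ∀ x, Crit f e x → ∃ k, Idx f e x k

/-- The levels `L` are regular, different saddles are separated by a level, and `S` marks all
components of the slices of the zero set at these levels. -/
structure Lev (f : V → ℝ) (e : V) (L : Finset ℝ) (S : Finset V) : Prop where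
  reg : ∀ x, Crit f e x → ⟪e, x⟫ ∉ L
  sep : ∀ x y, Crit f e x → Crit f e y → Idx f e x 1 → Idx f e y 1 → x ≠ y →
    ∃ c ∈ L, (⟪e, x⟫ < c ∧ c < ⟪e, y⟫) ∨ (⟪e, y⟫ < c ∧ c < ⟪e, x⟫)
  mark : Mark f e (L : Set ℝ) S

end Pool.Schoen
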