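import Pool.Agent.H.MP_6c077c_gt.Al.Cls
import Pool.Agent.H.MP_6c077c_gt.IxB.FlipIdx
import Pool.Agent.H.MP_6c077c_gt.IxB.Unique

/-! Alexander's theorem: change of sign of the function and of the direction. -/

set_option autoImplicit false

namespace Pool.Schoen

open Filter Set
open scoped Topology RealInnerProductSpace ContDiff

variable {V : Type*} [NormedAddCommGroup V] [InnerProductSpace ℝ V] [FiniteDimensional ℝ V]

/-- PROOF. `Hom` needs a descent direction at each zero: `good_of_regular`. -/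
theorem Mo.good {f : V → ℝ} {e : V} (h : Mo f e) : Good f := by
  refine good_of_regular h.smooth h.bdd fun x hx h1 => h.reg x hx ?_
  rw [gradient, h1, map_zero]

/-- PROOF. `crit_iff_horG`. -/
theorem Crit.vert {f : V → ℝ} {e x : V} (he : ‖e‖ = 1) (h : Crit f e x) :
    ∃ l : ℝ, gradient f x = l • e := by
  have h1 := ((crit_iff_horG he x).1 h).2
  unfold horG at h1
  exact ⟨_, sub_eq_zero.1 h1⟩

theorem crit_of_vert {f : V → ℝ} {e x : V} (h0 : f x = 0) {l : ℝ} (h : gradient f x = l • e) :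
    Crit f e x := by
  refine ⟨h0, fun w hw => ?_⟩
  rw [fderiv_eq_inner_gradient, h, real_inner_smul_left, real_inner_comm, hw, mul_zero]

/-- Only the germ matters. -/
theorem Crit.congr {f g : V → ℝ} {e x : V} (h : Crit f e x) (hfg : f =ᶠ[𝓝 x] g) :
    Crit g e x := by
  refine ⟨by rw [← hfg.self_of_nhds, h.1], fun w hw => ?_⟩
  rw [← hfg.fderiv_eq]
  exact h.2 w hw

theorem crit_neg {f : V → ℝ} {e x : V} : Crit (fun y => -f y) e x ↔ Crit f e x := by
  have h1 : fderiv ℝ (fun y => -f y) x = -fderiv ℝ f x := fderiv_fun_neg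
  unfold Crit
  rw [neg_eq_zero, h1]
  refine and_congr_right fun _ => forall_congr' fun w => imp_congr_right fun _ => ?_
  rw [_root_.neg_apply, neg_eq_zero]

theorem crit_flip {f : V → ℝ} {e x : V} : Crit f (-e) x ↔ Crit f e x := by
  unfold Crit
  simp only [inner_neg_right, neg_eq_zero]

/-- PROOF. Exchange `N` and `P`; the plane orthogonal to `e` is the direct sum of them. -/
theorem idx_neg_fun (hV : Module.finrank ℝ V = 3) {f : V → ℝ}
    (hf : ContDiff ℝ ∞ f) {e x : V} (he : ‖e‖ = 1) {k : ℕ} (h : Idx f e x k) : ∃ j, j + k = 2 ∧ Idx (fun y => -f y) e x j := by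
  obtain ⟨N, P, hs, hk⟩ := h
  have h1 : fderiv ℝ (fderiv ℝ (fun y => -f y)) x = -fderiv ℝ (fderiv ℝ f) x := by
    have h2 : fderiv ℝ (fun y => -f y) = fun y => -fderiv ℝ f y := by
      funext y
      exact fderiv_fun_neg
    rw [h2]
    exact fderiv_fun_neg
  have h3 := hs.finrank he
  refine ⟨Module.finrank ℝ P, by omega, P, N, ⟨hs.hP, hs.hN, fun a ha b hb => ?_, fun w hw => ?_,
    fun a ha b hb => ?_, fun a ha ha0 => ?_, fun b hb hb0 => ?_⟩, rfl⟩
  · rw [real_inner_comm]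
    exact hs.orth b hb a ha
  · obtain ⟨a, ha, b, hb, hab⟩ := hs.span w hw
    exact ⟨b, hb, a, ha, by rw [hab, add_comm]⟩
  · rw [h1, _root_.neg_apply, _root_.neg_apply, ixHess_symm hf, hs.diag b hb a ha, neg_zero]
  · rw [h1]
    have := hs.pos a ha ha0
    simp only [_root_.neg_apply]
    linarith
  · rw [h1]
    have := hs.neg b hb hb0
    simp only [_root_.neg_apply]
    linarith

theorem Mo.neg (hV : Module.finrank ℝ V = 3) {f : V → ℝ} {e : V} (he : ‖e‖ = 1) (h : Mo f e) :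
    Mo (fun x => -f x) e := by
  refine ⟨h.smooth.neg, ?_, ?_, ?_⟩
  · have h1 : {x | -f x = 0} = {x | f x = 0} := by
      ext x
      exact neg_eq_zero (a := f x)
    rw [h1]
    exact h.bdd
  · intro x hx h1
    have h2 : fderiv ℝ (fun y => -f y) x = -fderiv ℝ f x := fderiv_fun_neg
    unfold gradient at h1
    rw [h2, map_neg, neg_eq_zero] at h1
    exact h.reg x (neg_eq_zero.1 hx) h1
  · intro x hx
    obtain ⟨k, hk⟩ := h.nd x (crit_neg.1 hx)
    obtain ⟨j, -, hj⟩ := idx_neg_fun hV h.smooth he hk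
    exact ⟨j, hj⟩

/-- PROOF. `idx_neg_fun`, `Mark.neg`. -/
theorem Lev.neg (hV : Module.finrank ℝ V = 3) {f : V → ℝ} (hf : ContDiff ℝ ∞ f) {e : V}
    (he : ‖e‖ = 1) {L : Finset ℝ} {S : Finset V} (h : Lev f e L S) : Lev (fun x => -f x) e L S := by
  have hone : ∀ x, Idx (fun y => -f y) e x 1 → Idx f e x 1 := by
    intro x hx
    obtain ⟨j, hj, h1⟩ := idx_neg_fun hV hf.neg he hx
    have h2 : (fun x => - -f x) = f := by
      funext x
      exact neg_neg _
    have h3 : j = 1 := by omega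
    rw [h2, h3] at h1
    exact h1
  refine ⟨fun x hx => h.reg x (crit_neg.1 hx), ?_, h.mark.neg⟩
  intro x y hx hy h1 h2 hxy
  exact h.sep x y (crit_neg.1 hx) (crit_neg.1 hy) (hone x h1) (hone y h2) hxy

/-- PROOF. `crit_flip`, `idx_neg_dir`. -/
theorem Mo.flip {f : V → ℝ} {e : V} (h : Mo f e) : Mo f (-e) := by
  refine ⟨h.smooth, h.bdd, h.reg, fun x hx => ?_⟩
  obtain ⟨k, hk⟩ := h.nd x (crit_flip.1 hx)
  exact ⟨k, idx_neg_dir.2 hk⟩

/-- Transfer along equal germs at the critical zeros. -/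
theorem Mo.transfer {f g : V → ℝ} {e : V} (h : Mo f e) (hg : ContDiff ℝ ∞ g)
    (hb : Bornology.IsBounded {x | g x = 0}) (hr : ∀ x, g x = 0 → gradient g x ≠ 0)
    (hc : ∀ x, Crit g e x → g =ᶠ[𝓝 x] f) : Mo g e := by
  refine ⟨hg, hb, hr, fun x hx => ?_⟩
  obtain ⟨k, hk⟩ := h.nd x (hx.congr (hc x hx))
  exact ⟨k, Idx.congr' (hc x hx).symm hk⟩

/-- PROOF. `Mark.congr`. -/
theorem Lev.transfer {f g : V → ℝ} {e : V} {L : Finset ℝ} {S : Finset V} (h : Lev f e L S)
    (hz : ∀ x, ⟪e, x⟫ ∈ L → (g x = 0 ↔ f x = 0)) (hc : ∀ x, Crit g e x → g =ᶠ[𝓝 x] f) :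
    Lev g e L S := by
  refine ⟨fun x hx => h.reg x (hx.congr (hc x hx)), ?_, h.mark.congr fun x hx => hz x hx⟩
  intro x y hx hy h1 h2 hxy
  exact h.sep x y (hx.congr (hc x hx)) (hy.congr (hc y hy)) (Idx.congr' (hc x hx) h1)
    (Idx.congr' (hc y hy) h2) hxy

theorem CylN.mono {f : V → ℝ} {e q : V} {ζ ζ' R : ℝ} (h : CylN f e q ζ R) (h0 : 0 < ζ')
    (h1 : ζ' ≤ ζ) : CylN f e q ζ' R :=
  ⟨h.he, h0, h.hR, fun x hx hy => h.hf x (hx.trans_le h1) hy⟩

theorem fcutC_flip (f : V → ℝ) (e q : V) (d r : ℝ) : fcutC f (-e) q d r = fcutC f e q d r := by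
  funext x
  unfold fcutC
  rw [lamC_flip]

theorem scut_flip (f : V → ℝ) (e q : V) (d R : ℝ) : scut f (-e) q d R = scut f e q d R := by
  funext x
  unfold scut wcut
  have h1 : orth (-e) (x - q) = orth e (x - q) := by
    unfold orth
    rw [inner_neg_left, neg_smul, smul_neg, neg_neg]
  rw [h1, inner_neg_left, wb_neg]

theorem PartsC.flip {f : V → ℝ} {e q : V} {d r : ℝ} {A C : Set V} (h : PartsC f e q d r A C) :
    PartsC f (-e) q d r C A := by
  refine ⟨h.clC, h.clA, h.disj.symm, ?_, ?_, ?_, h.connC, h.connA⟩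
  · rw [fcutC_flip, union_comm]
    exact h.un
  · rw [cylS_flip, neg_neg]
    exact h.wp
  · rw [cylS_flip]
    exact h.wm

end Pool.Schoen
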