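import Pool.Agent.H.MP_6c077c_gt.Ix.TopC
import Pool.Agent.H.MP_6c077c_gt.Ix.HomB

/-! Connectedness of the complement of the body. -/

set_option autoImplicit false

namespace Pool.Schoen

open Filter Set
open scoped Topology RealInnerProductSpace ContDiff

variable {V : Type*} [NormedAddCommGroup V] [InnerProductSpace ℝ V]
variable {f g : V → ℝ}

/-- A connected set stays connected if connected sets through points of the closure are added. -/
theorem preconn_union_closure {O K : Set V} (hO : IsPreconnected O) (hK : IsPreconnected K) {y : V}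
    (hy : y ∈ closure O) (hyK : y ∈ K) : IsPreconnected (O ∪ K) := by
  have h1 : IsPreconnected (O ∪ {y}) := by
    refine hO.subset_closure subset_union_left (union_subset subset_closure ?_)
    rintro z rfl
    exact hy
  have h2 : O ∪ K = (O ∪ {y}) ∪ K := by
    ext z
    constructor
    · rintro (h | h)
      · exact Or.inl (Or.inl h)
      · exact Or.inr h
    · rintro ((h | h) | h)
      · exact Or.inl h
      · exact Or.inr (by rw [mem_singleton_iff.1 h]; exact hyK)
      · exact Or.inr h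
  rw [h2]
  exact h1.union y (Or.inr rfl) hyK hK

/-- The zeros of a good function are in the closure of the positive set. -/
theorem Good.zero_closure (h : Good f) {x : V} (hx : f x = 0) : x ∈ closure {x | 0 < f x} := by
  obtain ⟨v, hv⟩ := h.desc x hx
  rw [mem_closure_iff_frequently]
  have := hv.frequently.1
  rw [hx] at this
  exact this

theorem Good.closed_compl (h : Good f) (hc : IsPreconnected {x | 0 < f x}) :
    IsPreconnected {x | 0 ≤ f x} := by
  refine hc.subset_closure (fun x (hx : 0 < f x) => hx.le) fun x (hx : 0 ≤ f x) => ?_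
  rcases hx.eq_or_lt with h0 | h0
  · exact h.zero_closure h0.symm
  · exact subset_closure h0

/-- Near a zero of a good function the positive set is in one piece. -/
theorem Good.local_piece (h : Good f) {x : V} (hx : f x = 0) {U W : Set V} (hU : IsOpen U)
    (hW : IsOpen W) (hd : Disjoint U W) (hUW : {x | 0 < f x} ⊆ U ∪ W)
    (h1 : x ∈ closure (U ∩ {x | 0 < f x})) (h2 : x ∈ closure (W ∩ {x | 0 < f x})) : False := by
  obtain ⟨v, hv⟩ := h.desc x hx
  have hn : Desc1 (fun y => -f y) x (-v) := Desc.neg hv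
  obtain ⟨c, hc, d, hd0, hun⟩ := hn.unif
  have key : ∀ y, ‖y - x‖ < d → ∀ s, 0 < s → s < d → f y + c * s ≤ f (y + s • (-v)) := by
    intro y hy s hs hs'
    have := hun y hy (-v) (by rw [sub_self, norm_zero]; exact hd0) s hs hs'
    linarith
  obtain ⟨s0, hs0⟩ : ∃ s : ℝ, s = d / 2 := ⟨_, rfl⟩
  have hs0' : 0 < s0 := by linarith
  have hz : 0 < f (x + s0 • (-v)) := by
    have := key x (by rw [sub_self, norm_zero]; exact hd0) s0 hs0' (by linarith)
    rw [hx] at this
    have := mul_pos hc hs0'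
    linarith
  have hO : IsOpen {x | 0 < f x} := isOpen_lt continuous_const h.cont
  obtain ⟨r, hr, hball⟩ := Metric.isOpen_iff.1 hO _ hz
  have hbp : IsPreconnected (Metric.ball (x + s0 • (-v)) r) := (convex_ball _ _).isPreconnected
  -- from a point near `x` one gets to the ball
  have hreach : ∀ A C : Set V, IsOpen A → IsOpen C → Disjoint A C → {x | 0 < f x} ⊆ A ∪ C →
      x ∈ closure (A ∩ {x | 0 < f x}) → ∃ z ∈ Metric.ball (x + s0 • (-v)) r, z ∈ A := by
    intro A C hA hC hAC hsub hcl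
    obtain ⟨y, hy, hyd⟩ := Metric.mem_closure_iff.1 hcl (min d r) (lt_min hd0 hr)
    have hyx : ‖y - x‖ < min d r := by rw [← dist_eq_norm, dist_comm]; exact hyd
    have hy1 : ‖y - x‖ < d := hyx.trans_le (min_le_left _ _)
    have hpath : IsPreconnected ((fun s : ℝ => y + s • (-v)) '' Icc 0 s0) := by
      refine isPreconnected_Icc.image _ ?_
      fun_prop
    have hpO : (fun s : ℝ => y + s • (-v)) '' Icc 0 s0 ⊆ {x | 0 < f x} := by
      rintro z ⟨s, hs, rfl⟩
      change 0 < f (y + s • (-v))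
      have hy0 : 0 < f y := hy.2
      rcases hs.1.eq_or_lt with h0 | h0
      · rw [← h0, zero_smul, add_zero]
        exact hy0
      · have := key y hy1 s h0 (by linarith [hs.2])
        have := mul_pos hc h0
        linarith
    have hin : (fun s : ℝ => y + s • (-v)) '' Icc 0 s0 ⊆ A := by
      refine hpath.subset_left_of_subset_union hA hC hAC (hpO.trans hsub) ?_
      exact ⟨y, ⟨0, ⟨le_rfl, hs0'.le⟩, by simp⟩, hy.1⟩
    refine ⟨y + s0 • (-v), ?_, hin ⟨s0, ⟨hs0'.le, le_rfl⟩, rfl⟩⟩
    rw [Metric.mem_ball, dist_eq_norm, add_sub_add_right_eq_sub]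
    exact hyx.trans_le (min_le_right _ _)
  obtain ⟨z1, hz1, hz1U⟩ := hreach U W hU hW hd hUW h1
  obtain ⟨z2, hz2, hz2W⟩ := hreach W U hW hU hd.symm (by rwa [union_comm]) h2
  have h3 : Metric.ball (x + s0 • (-v)) r ⊆ U :=
    hbp.subset_left_of_subset_union hU hW hd (fun z hz => hUW (hball hz)) ⟨z1, hz1, hz1U⟩
  exact (Set.disjoint_left.1 hd) (h3 hz2) hz2W

theorem Good.open_compl (h : Good f) (hc : IsPreconnected {x | 0 ≤ f x}) :
    IsPreconnected {x | 0 < f x} := by
  have hO : IsOpen {x | 0 < f x} := isOpen_lt continuous_const h.cont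
  rw [isPreconnected_iff_subset_of_disjoint]
  intro u w hu hw hsub hdis
  by_contra hcon
  push Not at hcon
  obtain ⟨hcu, hcw⟩ := hcon
  -- points of the two pieces
  obtain ⟨a, ha, hau⟩ := not_subset.1 hcu
  obtain ⟨b, hb, hbw⟩ := not_subset.1 hcw
  have haw : a ∈ w := (hsub ha).resolve_left hau
  have hbu : b ∈ u := (hsub hb).resolve_right hbw
  obtain ⟨U, hU⟩ : ∃ U : Set V, U = u ∩ {x | 0 < f x} := ⟨_, rfl⟩
  obtain ⟨W, hW⟩ : ∃ W : Set V, W = w ∩ {x | 0 < f x} := ⟨_, rfl⟩
  have hUo : IsOpen U := by rw [hU]; exact hu.inter hO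
  have hWo : IsOpen W := by rw [hW]; exact hw.inter hO
  have hd : Disjoint U W := by
    rw [Set.disjoint_left, hU, hW]
    rintro x ⟨h1, h2⟩ ⟨h3, -⟩
    have : x ∈ {x | 0 < f x} ∩ (u ∩ w) := ⟨h2, h1, h3⟩
    rw [hdis] at this
    exact this
  have hUW : {x | 0 < f x} ⊆ U ∪ W := by
    intro x hx
    rcases hsub hx with h1 | h1
    · exact Or.inl (by rw [hU]; exact ⟨h1, hx⟩)
    · exact Or.inr (by rw [hW]; exact ⟨h1, hx⟩)
  have hUO : U ∩ {x | 0 < f x} = U := by
    rw [hU, inter_assoc, inter_self]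
  have hWO : W ∩ {x | 0 < f x} = W := by
    rw [hW, inter_assoc, inter_self]
  have hcl : {x | 0 ≤ f x} ⊆ closure U ∪ closure W := by
    intro x hx
    have h1 : x ∈ closure {x | 0 < f x} := by
      rcases (show (0 : ℝ) ≤ f x from hx).eq_or_lt with h0 | h0
      · exact h.zero_closure h0.symm
      · exact subset_closure h0
    have h2 := closure_mono hUW h1
    rwa [closure_union] at h2
  have hne := isPreconnected_closed_iff.1 hc _ _ isClosed_closure isClosed_closure hcl
    ⟨b, (show (0 : ℝ) < f b from hb).le, subset_closure (by rw [hU]; exact ⟨hbu, hb⟩)⟩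
    ⟨a, (show (0 : ℝ) < f a from ha).le, subset_closure (by rw [hW]; exact ⟨haw, ha⟩)⟩
  obtain ⟨x, hx0, hxU, hxW⟩ := hne
  rcases (show (0 : ℝ) ≤ f x from hx0).eq_or_lt with h0 | h0
  · exact h.local_piece h0.symm hUo hWo hd hUW (by rwa [hUO]) (by rwa [hWO])
  · rcases hUW h0 with h1 | h1
    · obtain ⟨z, hz1, hz2⟩ := mem_closure_iff.1 hxW U hUo h1
      exact (Set.disjoint_left.1 hd) hz1 hz2
    · obtain ⟨z, hz1, hz2⟩ := mem_closure_iff.1 hxU W hWo h1
      exact (Set.disjoint_left.1 hd) hz2 hz1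

variable [FiniteDimensional ℝ V]

omit [FiniteDimensional ℝ V] in
/-- The outside of a ball is connected in dimension at least two. -/
theorem outside_preconn (hdim : 2 ≤ Module.finrank ℝ V) {ρ : ℝ} (hρ : 0 < ρ) :
    IsPreconnected {x : V | ρ ≤ ‖x‖} := by
  have hr : 1 < Module.rank ℝ V := by
    have h1 : (1 : Cardinal) < (2 : ℕ) := by exact_mod_cast (by norm_num : (1 : ℕ) < 2)
    have h2 : ((2 : ℕ) : Cardinal) ≤ Module.rank ℝ V := by
      have : FiniteDimensional ℝ V := Module.finite_of_finrank_pos (by omega)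
      rw [← Module.finrank_eq_rank]
      exact_mod_cast hdim
    exact h1.trans_le h2
  have h1 : IsPreconnected (({0} : Set V)ᶜ) :=
    (isConnected_compl_singleton_of_one_lt_rank hr 0).isPreconnected
  have h2 : {x : V | ρ ≤ ‖x‖} = (fun x : V => (max ρ ‖x‖ / ‖x‖) • x) '' ({0} : Set V)ᶜ := by
    ext x
    constructor
    · intro (hx : ρ ≤ ‖x‖)
      have hx0 : ‖x‖ ≠ 0 := by
        intro h
        rw [h] at hx
        linarith
      refine ⟨x, ?_, ?_⟩
      · intro h
        exact hx0 (by rw [mem_singleton_iff.1 h, norm_zero])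
      · change (max ρ ‖x‖ / ‖x‖) • x = x
        rw [max_eq_right hx, div_self hx0, one_smul]
    · rintro ⟨y, hy, rfl⟩
      have hy0 : ‖y‖ ≠ 0 := by
        intro h
        exact hy (norm_eq_zero.1 h)
      change ρ ≤ ‖(max ρ ‖y‖ / ‖y‖) • y‖
      rw [norm_smul, norm_div, norm_norm, div_mul_cancel₀ _ hy0, Real.norm_eq_abs]
      exact (le_max_left _ _).trans (le_abs_self _)
  rw [h2]
  refine h1.image _ ?_
  intro x hx
  have hx0 : ‖x‖ ≠ 0 := by
    intro h
    exact hx (norm_eq_zero.1 h)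
  refine ContinuousAt.continuousWithinAt ?_
  refine ContinuousAt.smul (ContinuousAt.div ?_ continuous_norm.continuousAt hx0) continuousAt_id
  exact (continuous_const.max continuous_norm).continuousAt

/-- The complement within a big closed ball. -/
theorem compl_ball_iff (hdim : 2 ≤ Module.finrank ℝ V) (h : Good f) {ρ : ℝ} (hρ : 0 < ρ)
    (hb : ∀ x, f x ≤ 0 → ‖x‖ < ρ) :
    IsPreconnected {x | 0 < f x} ↔ IsConnected {x | max (-f x) (‖x‖ ^ 2 - ρ ^ 2) ≤ 0} := by
  have hmem : ∀ x, max (-f x) (‖x‖ ^ 2 - ρ ^ 2) ≤ 0 ↔ 0 ≤ f x ∧ ‖x‖ ≤ ρ := by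
    intro x
    rw [max_le_iff]
    constructor
    · rintro ⟨h1, h2⟩
      exact ⟨by linarith, by
        have := norm_nonneg x
        nlinarith⟩
    · rintro ⟨h1, h2⟩
      exact ⟨by linarith, by
        have := norm_nonneg x
        nlinarith⟩
  have hnt : Nontrivial V := Module.nontrivial_of_finrank_pos (R := ℝ) (by omega)
  obtain ⟨w, hw⟩ := exists_norm_eq V hρ.le
  have hwf : 0 < f w := by
    by_contra h1
    have := hb w (not_lt.1 h1)
    linarith
  constructor
  · intro hc
    have h1 := h.closed_compl hc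
    have h2 : {x | max (-f x) (‖x‖ ^ 2 - ρ ^ 2) ≤ 0} =
        (fun x : V => (ρ / max ρ ‖x‖) • x) '' {x | 0 ≤ f x} := by
      ext x
      constructor
      · intro hx
        obtain ⟨h3, h4⟩ := (hmem x).1 hx
        refine ⟨x, h3, ?_⟩
        change (ρ / max ρ ‖x‖) • x = x
        rw [max_eq_left h4, div_self hρ.ne', one_smul]
      · rintro ⟨y, (hy : 0 ≤ f y), rfl⟩
        refine (hmem _).2 ?_
        rcases le_or_gt ‖y‖ ρ with h5 | h5
        · change 0 ≤ f ((ρ / max ρ ‖y‖) • y) ∧ ‖(ρ / max ρ ‖y‖) • y‖ ≤ ρ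
          rw [max_eq_left h5, div_self hρ.ne', one_smul]
          exact ⟨hy, h5⟩
        · change 0 ≤ f ((ρ / max ρ ‖y‖) • y) ∧ ‖(ρ / max ρ ‖y‖) • y‖ ≤ ρ
          have h6 : ‖(ρ / max ρ ‖y‖) • y‖ = ρ := by
            rw [max_eq_right h5.le, norm_smul, norm_div, norm_norm,
              div_mul_cancel₀ _ (by linarith), Real.norm_of_nonneg hρ.le]
          refine ⟨?_, h6.le⟩
          by_contra h7
          have := hb _ (not_le.1 h7).le
          linarith
    rw [h2]
    refine ⟨⟨_, ⟨w, hwf.le, rfl⟩⟩, h1.image _ (Continuous.continuousOn ?_)⟩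
    refine Continuous.smul (Continuous.div continuous_const (continuous_const.max continuous_norm)
      fun x => ?_) continuous_id
    exact (hρ.trans_le (le_max_left _ _)).ne'
  · intro hc
    apply h.open_compl
    have h1 : {x | 0 ≤ f x} = {x | max (-f x) (‖x‖ ^ 2 - ρ ^ 2) ≤ 0} ∪ {x : V | ρ ≤ ‖x‖} := by
      ext x
      constructor
      · intro hx
        rcases le_total ‖x‖ ρ with h2 | h2
        · exact Or.inl ((hmem x).2 ⟨hx, h2⟩)
        · exact Or.inr h2
      · rintro (hx | hx)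
        · exact ((hmem x).1 hx).1
        · change 0 ≤ f x
          by_contra h2
          have h3 := hb x (not_le.1 h2).le
          have h4 : ρ ≤ ‖x‖ := hx
          linarith
    rw [h1]
    exact hc.isPreconnected.union w ((hmem w).2 ⟨hwf.le, hw.le⟩) hw.ge (outside_preconn hdim hρ)

/-- Connectedness of the complement is preserved by homotopies. -/
theorem Hom.compl (hdim : 2 ≤ Module.finrank ℝ V) (h : Hom f g)
    (hb : Bornology.IsBounded {x | f x ≤ 0}) (hc : IsPreconnected {x | 0 < f x}) :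
    IsPreconnected {x | 0 < g x} := by
  have hgf := h.good_left
  have hgg := h.good_right
  obtain ⟨H, hH, h0, h1, hz, hd⟩ := h
  subst h0
  subst h1
  obtain ⟨R, hR⟩ := hom_bdd H hH hz hb
  obtain ⟨ρ, hρ⟩ : ∃ ρ : ℝ, ρ = max R 0 + 1 := ⟨_, rfl⟩
  have hρ0 : 0 < ρ := by
    rw [hρ]
    linarith [le_max_right R 0]
  have hρR : ∀ t ∈ Icc (0 : ℝ) 1, ∀ x, H t x ≤ 0 → ‖x‖ < ρ := by
    intro t ht x hx
    have := hR t ht x hx
    rw [hρ]
    linarith [le_max_left R 0]
  have hK : Hom (fun x => max (-H 0 x) (‖x‖ ^ 2 - ρ ^ 2))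
      (fun x => max (-H 1 x) (‖x‖ ^ 2 - ρ ^ 2)) := by
    refine ⟨fun t x => max (-H t x) (‖x‖ ^ 2 - ρ ^ 2), ?_, rfl, rfl, ⟨ρ, ?_⟩, ?_⟩
    · exact hH.neg.max (((continuous_snd.norm).pow 2).sub continuous_const)
    · intro t ht x hx
      have h2 := le_max_right (-H t x) (‖x‖ ^ 2 - ρ ^ 2)
      have h3 := norm_nonneg x
      have hx' : max (-H t x) (‖x‖ ^ 2 - ρ ^ 2) = 0 := hx
      rw [hx'] at h2
      nlinarith
    · intro t ht x hx
      have hx' : max (-H t x) (‖x‖ ^ 2 - ρ ^ 2) = 0 := hx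
      have h2 := le_max_right (-H t x) (‖x‖ ^ 2 - ρ ^ 2)
      have h3 := le_max_left (-H t x) (‖x‖ ^ 2 - ρ ^ 2)
      rw [hx'] at h2 h3
      have hcq : Continuous fun p : ℝ × V => ‖p.2‖ ^ 2 - ρ ^ 2 :=
        ((continuous_snd.norm).pow 2).sub continuous_const
      have hle : 𝓝[Icc 0 1] t ×ˢ 𝓝 x ≤ 𝓝 (t, x) := by
        rw [nhds_prod_eq]
        exact Filter.prod_mono nhdsWithin_le_nhds le_rfl
      rcases lt_or_ge ‖x‖ ρ with h4 | h4
      · have h5 : ‖x‖ ^ 2 - ρ ^ 2 < 0 := by
          have := norm_nonneg x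
          nlinarith
        have h6 : H t x = 0 := by
          rcases max_choice (-H t x) (‖x‖ ^ 2 - ρ ^ 2) with h7 | h7
          · rw [hx'] at h7
            linarith
          · rw [hx'] at h7
            linarith
        obtain ⟨v, hv⟩ := hd t ht x h6
        refine ⟨-v, desc_max_left (H := fun t y => -H t y) (K := fun _ y => ‖y‖ ^ 2 - ρ ^ 2)
          hv.neg ?_⟩
        have h7 : ∀ᶠ p : ℝ × V in 𝓝 (t, x), ‖p.2‖ ^ 2 - ρ ^ 2 < -H p.1 p.2 := by
          refine hcq.continuousAt.eventually_lt hH.neg.continuousAt ?_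
          change ‖x‖ ^ 2 - ρ ^ 2 < -H t x
          rw [h6]
          linarith
        exact (h7.filter_mono hle).mono fun p hp => hp.le
      · have h5 : 0 < H t x := by
          by_contra h6
          have := hρR t ht x (not_lt.1 h6)
          linarith
        have h6 : ConvexOn ℝ univ fun y : V => ‖y‖ ^ 2 - ρ ^ 2 := by
          have h7 : ConvexOn ℝ univ fun y : V => ‖y‖ ^ 2 :=
            (convexOn_norm convex_univ).pow (fun y _ => norm_nonneg y) 2
          exact h7.sub (concaveOn_const _ convex_univ)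
        have h7 : Desc1 (fun y : V => ‖y‖ ^ 2 - ρ ^ 2) x (0 - x) := by
          refine desc1_convex h6 (by fun_prop) ?_
          have := norm_nonneg x
          simp only [norm_zero]
          nlinarith
        refine ⟨0 - x, desc_max_right (H := fun t y => -H t y) (K := fun _ y => ‖y‖ ^ 2 - ρ ^ 2)
          (h7.const _) ?_⟩
        have h8 : ∀ᶠ p : ℝ × V in 𝓝 (t, x), -H p.1 p.2 < ‖p.2‖ ^ 2 - ρ ^ 2 := by
          refine hH.neg.continuousAt.eventually_lt hcq.continuousAt ?_
          change -H t x < ‖x‖ ^ 2 - ρ ^ 2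
          have := norm_nonneg x
          nlinarith
        exact (h8.filter_mono hle).mono fun p hp => hp.le
  have hi0 := compl_ball_iff hdim hgf hρ0 (hρR 0 ⟨le_rfl, zero_le_one⟩)
  have hi1 := compl_ball_iff hdim hgg hρ0 (hρR 1 ⟨zero_le_one, le_rfl⟩)
  refine hi1.2 (hK.isConnected ?_ (hi0.1 hc))
  refine (Metric.isBounded_closedBall (x := (0 : V)) (r := ρ)).subset fun x hx => ?_
  rw [mem_closedBall_zero_iff]
  have h2 := (max_le_iff.1 (show max (-H 0 x) (‖x‖ ^ 2 - ρ ^ 2) ≤ 0 from hx)).2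
  have := norm_nonneg x
  nlinarith

end Pool.Schoen
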