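import Pool.Agent.H.MP_6c077c_gt.IxB.Basic

/-! Alexander's theorem: the index from a splitting which is not orthogonal. -/

set_option autoImplicit false

namespace Pool.Schoen

open scoped ContDiff RealInnerProductSpace
open Metric Set

variable {V : Type*} [NormedAddCommGroup V] [InnerProductSpace ℝ V] [FiniteDimensional ℝ V]

/-- The operator of the second derivative on the hyperplane orthogonal to `e`. -/
private noncomputable def Forms_T (F : V → ℝ) (e x : V) : (ℝ ∙ e)ᗮ →ₗ[ℝ] (ℝ ∙ e)ᗮ :=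
  (((ℝ ∙ e)ᗮ.orthogonalProjectionOnto : V →L[ℝ] (ℝ ∙ e)ᗮ) : V →ₗ[ℝ] (ℝ ∙ e)ᗮ) ∘ₗ
    (((InnerProductSpace.toDual ℝ V).symm.toContinuousLinearEquiv.toContinuousLinearMap.comp
      (fderiv ℝ (fderiv ℝ F) x) : V →L[ℝ] V) : V →ₗ[ℝ] V) ∘ₗ (ℝ ∙ e)ᗮ.subtype

private theorem Forms_inner (F : V → ℝ) (e x : V) (a b : (ℝ ∙ e)ᗮ) :
    ⟪Forms_T F e x a, b⟫ = fderiv ℝ (fderiv ℝ F) x a b := by
  have h1 : ⟪Forms_T F e x a, b⟫ =
      ⟪(InnerProductSpace.toDual ℝ V).symm (fderiv ℝ (fderiv ℝ F) x a), (b : V)⟫ := by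
    simp only [Forms_T, LinearMap.comp_apply]
    exact Submodule.inner_orthogonalProjectionOnto_eq_of_mem_right b _
  rw [h1, InnerProductSpace.toDual_symm_apply]

/-- If the hyperplane orthogonal to `e` is the sum of two subspaces on which the second derivative
is negative and positive, the index is the dimension of the first one. -/
theorem idx_of_forms {F : V → ℝ} (hF : ContDiff ℝ ∞ F) {e x : V}
    (N₀ P₀ : Submodule ℝ V) (hN : ∀ a ∈ N₀, ⟪a, e⟫ = 0) (hP : ∀ a ∈ P₀, ⟪a, e⟫ = 0)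
    (hs : ∀ w : V, ⟪w, e⟫ = 0 → ∃ a ∈ N₀, ∃ b ∈ P₀, w = a + b)
    (hneg : ∀ a ∈ N₀, a ≠ 0 → fderiv ℝ (fderiv ℝ F) x a a < 0)
    (hpos : ∀ a ∈ P₀, a ≠ 0 → 0 < fderiv ℝ (fderiv ℝ F) x a a) :
    Idx F e x (Module.finrank ℝ N₀) := by
  classical
  obtain ⟨Q, hQ⟩ : ∃ Q, Q = fderiv ℝ (fderiv ℝ F) x := ⟨_, rfl⟩
  rw [← hQ] at hneg hpos
  have hsym : ∀ a b, Q a b = Q b a := fun a b => by rw [hQ]; exact ixHess_symm hF x a b
  obtain ⟨T, hT⟩ : ∃ T, T = Forms_T F e x := ⟨_, rfl⟩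
  have hTi : ∀ a b : (ℝ ∙ e)ᗮ, ⟪T a, b⟫ = Q a b := by
    intro a b
    rw [hT, hQ, Forms_inner]
  have hTs : T.IsSymmetric := by
    intro a b
    rw [hTi, real_inner_comm, hTi, hsym]
  have hmem : ∀ w : V, w ∈ (ℝ ∙ e)ᗮ ↔ ⟪w, e⟫ = 0 := by
    intro w
    rw [Submodule.mem_orthogonal_singleton_iff_inner_left]
  obtain ⟨n, hn⟩ : ∃ n, Module.finrank ℝ (ℝ ∙ e)ᗮ = n := ⟨_, rfl⟩
  obtain ⟨b, hb⟩ : ∃ b, b = hTs.eigenvectorBasis hn := ⟨_, rfl⟩
  obtain ⟨κ, hκ⟩ : ∃ κ, κ = hTs.eigenvalues hn := ⟨_, rfl⟩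
  have hTb : ∀ i, T (b i) = κ i • b i := by
    intro i
    rw [hb, hκ]
    exact hTs.apply_eigenvectorBasis hn i
  have hκ0 : ∀ i, κ i ≠ 0 := by
    intro i hi
    have h1 : ∀ w : (ℝ ∙ e)ᗮ, Q (b i) w = 0 := by
      intro w
      rw [← hTi, hTb, hi, zero_smul, inner_zero_left]
    obtain ⟨a, ha, c, hc, hac⟩ := hs (b i) ((hmem _).1 (b i).2)
    have h2 := h1 ⟨a - c, (hmem _).2 (by rw [inner_sub_left, hN a ha, hP c hc, sub_zero])⟩
    have h3 : Q (a + c) (a - c) = Q a a - Q c c := by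
      rw [map_add, _root_.add_apply, map_sub, map_sub, hsym c a]
      ring
    rw [hac] at h2
    have h2' : Q (a + c) (a - c) = 0 := h2
    rw [h3] at h2'
    have h4 : a = 0 := by
      by_contra h0
      have h5 := hneg a ha h0
      by_cases h6 : c = 0
      · rw [h6] at h2'
        simp only [map_zero] at h2'
        linarith
      · have := hpos c hc h6
        linarith
    have h5 : c = 0 := by
      by_contra h0
      have h5 := hpos c hc h0
      rw [h4] at h2'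
      simp only [map_zero] at h2'
      linarith
    have h6 : ((b i : (ℝ ∙ e)ᗮ) : V) = 0 := by rw [hac, h4, h5, add_zero]
    have h7 : b i = 0 := Subtype.ext h6
    have h8 := b.orthonormal.1 i
    rw [h7, norm_zero] at h8
    exact zero_ne_one h8
  have hquad : ∀ a a' : (ℝ ∙ e)ᗮ, Q a a' = ∑ i, κ i * ⟪b i, a⟫ * ⟪b i, a'⟫ := by
    intro a a'
    rw [← hTi]
    conv_lhs => rw [← b.sum_repr' a]
    rw [map_sum, sum_inner]
    refine Finset.sum_congr rfl fun i _ => ?_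
    rw [map_smul, hTb, real_inner_smul_left, real_inner_smul_left]
    ring
  -- the two subspaces of the hyperplane
  obtain ⟨N₁, hN₁⟩ : ∃ N₁ : Submodule ℝ (ℝ ∙ e)ᗮ,
      N₁ = Submodule.span ℝ (range fun i : {i // κ i < 0} => b i.1) := ⟨_, rfl⟩
  obtain ⟨P₁, hP₁⟩ : ∃ P₁ : Submodule ℝ (ℝ ∙ e)ᗮ,
      P₁ = Submodule.span ℝ (range fun i : {i // 0 < κ i} => b i.1) := ⟨_, rfl⟩
  have hspan : ∀ (p : Fin n → Prop) (a : (ℝ ∙ e)ᗮ),
      a ∈ Submodule.span ℝ (range fun i : {i // p i} => b i.1) → ∀ j, ¬ p j → ⟪b j, a⟫ = 0 := by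
    intro p a ha j hj
    induction ha using Submodule.span_induction with
    | mem x hx =>
      obtain ⟨i, rfl⟩ := hx
      exact b.orthonormal.2 (fun h => hj (by rw [h]; exact i.2))
    | zero => exact inner_zero_right _
    | add x y _ _ hx hy => rw [inner_add_right, hx, hy, add_zero]
    | smul c x _ hx => rw [real_inner_smul_right, hx, mul_zero]
  have hN₁i : ∀ a ∈ N₁, ∀ i, 0 < κ i → ⟪b i, a⟫ = 0 := by
    intro a ha i hi
    rw [hN₁] at ha
    exact hspan _ a ha i (not_lt.2 hi.le)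
  have hP₁i : ∀ a ∈ P₁, ∀ i, κ i < 0 → ⟪b i, a⟫ = 0 := by
    intro a ha i hi
    rw [hP₁] at ha
    exact hspan _ a ha i (not_lt.2 hi.le)
  have hne : ∀ a : (ℝ ∙ e)ᗮ, a ≠ 0 → ∃ i, ⟪b i, a⟫ ≠ 0 := by
    intro a ha
    by_contra hc
    push Not at hc
    apply ha
    rw [← b.sum_repr' a]
    exact Finset.sum_eq_zero fun i _ => by rw [hc i, zero_smul]
  have hsplit : Split F e x (N₁.map (ℝ ∙ e)ᗮ.subtype) (P₁.map (ℝ ∙ e)ᗮ.subtype) := by
    refine ⟨?_, ?_, ?_, ?_, ?_, ?_, ?_⟩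
    · rintro _ ⟨a, -, rfl⟩
      exact (hmem _).1 a.2
    · rintro _ ⟨a, -, rfl⟩
      exact (hmem _).1 a.2
    · rintro _ ⟨a, ha, rfl⟩ _ ⟨c, hc, rfl⟩
      have h1 : ⟪a, c⟫ = ∑ i, ⟪a, b i⟫ * ⟪b i, c⟫ := (b.sum_inner_mul_inner a c).symm
      have h2 : ⟪a, c⟫ = 0 := by
        rw [h1]
        refine Finset.sum_eq_zero fun i _ => ?_
        rcases lt_or_gt_of_ne (hκ0 i) with h | h
        · rw [hP₁i c hc i h, mul_zero]
        · rw [real_inner_comm, hN₁i a ha i h, zero_mul]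
      exact h2
    · intro w hw
      obtain ⟨w', hw'⟩ : ∃ w' : (ℝ ∙ e)ᗮ, w' = ⟨w, (hmem w).2 hw⟩ := ⟨_, rfl⟩
      have h1 := b.sum_repr' w'
      have h2 : ∑ i, ⟪b i, w'⟫ • b i =
          (∑ i : Fin n, if κ i < 0 then ⟪b i, w'⟫ • b i else 0) +
            ∑ i : Fin n, if 0 < κ i then ⟪b i, w'⟫ • b i else 0 := by
        rw [← Finset.sum_add_distrib]
        refine Finset.sum_congr rfl fun i _ => ?_
        rcases lt_or_gt_of_ne (hκ0 i) with h | h
        · rw [if_pos h, if_neg (not_lt.2 h.le), add_zero]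
        · rw [if_neg (not_lt.2 h.le), if_pos h, zero_add]
      refine ⟨_, ⟨∑ i : Fin n, (if κ i < 0 then ⟪b i, w'⟫ • b i else 0), ?_, rfl⟩, _,
        ⟨∑ i : Fin n, (if 0 < κ i then ⟪b i, w'⟫ • b i else 0), ?_, rfl⟩, ?_⟩
      · refine Submodule.sum_mem _ fun i _ => ?_
        split_ifs with h
        · rw [hN₁]
          exact Submodule.smul_mem _ _ (Submodule.subset_span ⟨⟨i, h⟩, rfl⟩)
        · exact Submodule.zero_mem _
      · refine Submodule.sum_mem _ fun i _ => ?_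
        split_ifs with h
        · rw [hP₁]
          exact Submodule.smul_mem _ _ (Submodule.subset_span ⟨⟨i, h⟩, rfl⟩)
        · exact Submodule.zero_mem _
      · rw [h2] at h1
        have h3 := congrArg (fun z : (ℝ ∙ e)ᗮ => (z : V)) h1
        simp only [hw'] at h3
        rw [← map_add, Submodule.subtype_apply]
        rw [hw']
        exact h3.symm
    · rintro _ ⟨a, ha, rfl⟩ _ ⟨c, hc, rfl⟩
      rw [← hQ]
      show Q a c = 0
      rw [hquad]
      refine Finset.sum_eq_zero fun i _ => ?_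
      rcases lt_or_gt_of_ne (hκ0 i) with h | h
      · rw [hP₁i c hc i h, mul_zero]
      · rw [hN₁i a ha i h, mul_zero, zero_mul]
    · rintro _ ⟨a, ha, rfl⟩ ha0
      rw [← hQ]
      show Q a a < 0
      have ha1 : a ≠ 0 := by
        rintro rfl
        exact ha0 (map_zero _)
      rw [hquad]
      obtain ⟨i, hi⟩ := hne a ha1
      refine Finset.sum_neg' (fun j _ => ?_) ⟨i, Finset.mem_univ i, ?_⟩
      · rcases lt_or_gt_of_ne (hκ0 j) with h | h
        · rw [mul_assoc]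
          exact mul_nonpos_of_nonpos_of_nonneg h.le (mul_self_nonneg _)
        · rw [hN₁i a ha j h, mul_zero]
      · rcases lt_or_gt_of_ne (hκ0 i) with h | h
        · rw [mul_assoc]
          exact mul_neg_of_neg_of_pos h (mul_self_pos.2 hi)
        · exact absurd (hN₁i a ha i h) hi
    · rintro _ ⟨a, ha, rfl⟩ ha0
      rw [← hQ]
      show 0 < Q a a
      have ha1 : a ≠ 0 := by
        rintro rfl
        exact ha0 (map_zero _)
      rw [hquad]
      obtain ⟨i, hi⟩ := hne a ha1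
      refine Finset.sum_pos' (fun j _ => ?_) ⟨i, Finset.mem_univ i, ?_⟩
      · rcases lt_or_gt_of_ne (hκ0 j) with h | h
        · rw [hP₁i a ha j h, mul_zero]
        · rw [mul_assoc]
          exact mul_nonneg h.le (mul_self_nonneg _)
      · rcases lt_or_gt_of_ne (hκ0 i) with h | h
        · exact absurd (hP₁i a ha i h) hi
        · rw [mul_assoc]
          exact mul_pos h (mul_self_pos.2 hi)
  -- dimensions
  obtain ⟨N, hNd⟩ : ∃ N, N = N₁.map (ℝ ∙ e)ᗮ.subtype := ⟨_, rfl⟩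
  obtain ⟨P, hPd⟩ : ∃ P, P = P₁.map (ℝ ∙ e)ᗮ.subtype := ⟨_, rfl⟩
  rw [← hNd, ← hPd] at hsplit
  have hdis : ∀ A B : Submodule ℝ V, (∀ a ∈ A, a ≠ 0 → Q a a < 0) → (∀ a ∈ B, a ≠ 0 → 0 < Q a a) →
      (∀ a ∈ A, ⟪a, e⟫ = 0) → (∀ a ∈ B, ⟪a, e⟫ = 0) →
      Module.finrank ℝ A + Module.finrank ℝ B ≤ n := by
    intro A B hA hB hA' hB'
    have h1 : A ⊓ B = ⊥ := by
      rw [eq_bot_iff]
      rintro a ⟨ha, hb⟩
      rw [Submodule.mem_bot]
      by_contra h0
      have := hA a ha h0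
      have := hB a hb h0
      linarith
    have h2 := Submodule.finrank_sup_add_finrank_inf_eq A B
    rw [h1, finrank_bot, add_zero] at h2
    rw [← h2, ← hn]
    refine Submodule.finrank_mono (sup_le ?_ ?_)
    · intro a ha
      exact (hmem a).2 (hA' a ha)
    · intro a ha
      exact (hmem a).2 (hB' a ha)
  have hneg' : ∀ a ∈ N, a ≠ 0 → Q a a < 0 := by rw [hQ]; exact hsplit.neg
  have hpos' : ∀ a ∈ P, a ≠ 0 → 0 < Q a a := by rw [hQ]; exact hsplit.pos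
  have d1 := hdis N P₀ hneg' hpos hsplit.hN hP
  have d2 := hdis N₀ P hneg hpos' hN hsplit.hP
  have d3 : ∀ A B : Submodule ℝ V, (∀ w : V, ⟪w, e⟫ = 0 → ∃ a ∈ A, ∃ b ∈ B, w = a + b) →
      n ≤ Module.finrank ℝ A + Module.finrank ℝ B := by
    intro A B hAB
    have h1 : (ℝ ∙ e)ᗮ ≤ A ⊔ B := by
      intro w hw
      obtain ⟨a, ha, b, hb, rfl⟩ := hAB w ((hmem w).1 hw)
      exact Submodule.add_mem_sup ha hb
    have h2 := Submodule.finrank_mono h1
    have h3 := Submodule.finrank_add_le_finrank_add_finrank A B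
    omega
  have d4 := d3 N P hsplit.span
  have d5 := d3 N₀ P₀ hs
  exact ⟨N, P, hsplit, by omega⟩

end Pool.Schoen
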