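import Pool.Agent.H.MP_6c077c_gt.Al.Compl
import Pool.Agent.H.MP_6c077c_gt.IxB.LiftBall
import Pool.Agent.H.MP_6c077c_gt.IxB.LiftSphere

/-! Alexander theorem: homotopies preserve the topology of both sides, bounded or not. -/

set_option autoImplicit false

namespace Pool.Schoen

open Filter Set
open scoped Topology RealInnerProductSpace ContDiff

variable {V : Type*} [NormedAddCommGroup V] [InnerProductSpace ℝ V]
variable {f g : V → ℝ}

/-- The closed positive side cut off at a big sphere. -/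
theorem homTop_hom {H : ℝ → V → ℝ} (hH : Continuous fun p : ℝ × V => H p.1 p.2)
    (hd : ∀ t ∈ Icc (0 : ℝ) 1, ∀ x, H t x = 0 → ∃ v, Desc H (𝓝[Icc 0 1] t) x v) {ρ : ℝ}
    (hρ0 : 0 < ρ) (hρR : ∀ t ∈ Icc (0 : ℝ) 1, ∀ x, H t x ≤ 0 → ‖x‖ < ρ) :
    Hom (fun x => max (-H 0 x) (‖x‖ ^ 2 - ρ ^ 2))
      (fun x => max (-H 1 x) (‖x‖ ^ 2 - ρ ^ 2)) := by
  refine ⟨fun t x => max (-H t x) (‖x‖ ^ 2 - ρ ^ 2), ?_, rfl, rfl, ⟨ρ, ?_⟩, ?_⟩
  · exact hH.neg.max (((continuous_snd.norm).pow 2).sub continuous_const)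
  · intro t ht x hx
    have h2 := le_max_right (-H t x) (‖x‖ ^ 2 - ρ ^ 2)
    have h3 := norm_nonneg x
    have hx' : max (-H t x) (‖x‖ ^ 2 - ρ ^ 2) = 0 := hx
    rw [hx'] at h2
    nlinarith
  · intro t ht x hx
    have hx' : max (-H t x) (‖x‖ ^ 2 - ρ ^ 2) = 0 := hx
    have h2 := le_max_right (-H t x) (‖x‖ ^ 2 - ρ ^ 2)
    have h3 := le_max_left (-H t x) (‖x‖ ^ 2 - ρ ^ 2)
    rw [hx'] at h2 h3
    have hcq : Continuous fun p : ℝ × V => ‖p.2‖ ^ 2 - ρ ^ 2 :=
      ((continuous_snd.norm).pow 2).sub continuous_const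
    have hle : 𝓝[Icc 0 1] t ×ˢ 𝓝 x ≤ 𝓝 (t, x) := by
      rw [nhds_prod_eq]
      exact Filter.prod_mono nhdsWithin_le_nhds le_rfl
    rcases lt_or_ge ‖x‖ ρ with h4 | h4
    · have h5 : ‖x‖ ^ 2 - ρ ^ 2 < 0 := by
        have := norm_nonneg x
        nlinarith
      have h6 : H t x = 0 := by
        rcases max_choice (-H t x) (‖x‖ ^ 2 - ρ ^ 2) with h7 | h7
        · rw [hx'] at h7
          linarith
        · rw [hx'] at h7
          linarith
      obtain ⟨v, hv⟩ := hd t ht x h6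
      refine ⟨-v, desc_max_left (H := fun t y => -H t y) (K := fun _ y => ‖y‖ ^ 2 - ρ ^ 2)
        hv.neg ?_⟩
      have h7 : ∀ᶠ p : ℝ × V in 𝓝 (t, x), ‖p.2‖ ^ 2 - ρ ^ 2 < -H p.1 p.2 := by
        refine hcq.continuousAt.eventually_lt hH.neg.continuousAt ?_
        change ‖x‖ ^ 2 - ρ ^ 2 < -H t x
        rw [h6]
        linarith
      exact (h7.filter_mono hle).mono fun p hp => hp.le
    · have h5 : 0 < H t x := by
        by_contra h6
        have := hρR t ht x (not_lt.1 h6)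
        linarith
      have h6 : ConvexOn ℝ univ fun y : V => ‖y‖ ^ 2 - ρ ^ 2 := by
        have h7 : ConvexOn ℝ univ fun y : V => ‖y‖ ^ 2 :=
          (convexOn_norm convex_univ).pow (fun y _ => norm_nonneg y) 2
        exact h7.sub (concaveOn_const _ convex_univ)
      have h7 : Desc1 (fun y : V => ‖y‖ ^ 2 - ρ ^ 2) x (0 - x) := by
        refine desc1_convex h6 (by fun_prop) ?_
        have := norm_nonneg x
        simp only [norm_zero]
        nlinarith
      refine ⟨0 - x, desc_max_right (H := fun t y => -H t y) (K := fun _ y => ‖y‖ ^ 2 - ρ ^ 2)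
        (h7.const _) ?_⟩
      have h8 : ∀ᶠ p : ℝ × V in 𝓝 (t, x), -H p.1 p.2 < ‖p.2‖ ^ 2 - ρ ^ 2 := by
        refine hH.neg.continuousAt.eventually_lt hcq.continuousAt ?_
        change -H t x < ‖x‖ ^ 2 - ρ ^ 2
        have := norm_nonneg x
        nlinarith
      exact (h8.filter_mono hle).mono fun p hp => hp.le

variable [FiniteDimensional ℝ V]

/-- One of the two sides of a good function is bounded. -/
theorem Good.bdd_side (hdim : 2 ≤ Module.finrank ℝ V) (h : Good f) :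
    Bornology.IsBounded {x | f x ≤ 0} ∨ Bornology.IsBounded {x | 0 ≤ f x} := by
  obtain ⟨R0, hR0⟩ := h.bdd.exists_norm_le
  obtain ⟨ρ, hρ⟩ : ∃ ρ : ℝ, ρ = max R0 0 + 1 := ⟨_, rfl⟩
  have hρ0 : 0 < ρ := by
    rw [hρ]
    linarith [le_max_right R0 0]
  have hρR : R0 < ρ := by
    rw [hρ]
    linarith [le_max_left R0 0]
  have hne : ∀ x : V, ρ ≤ ‖x‖ → f x ≠ 0 := by
    intro x hx h0
    have := hR0 x h0
    linarith
  have hpre := outside_preconn (V := V) hdim hρ0
  have hsub : ∀ {S : Set V}, (∀ x ∈ S, ‖x‖ < ρ) → Bornology.IsBounded S := by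
    intro S hS
    refine (Metric.isBounded_closedBall (x := (0 : V)) (r := ρ)).subset fun x hx => ?_
    rw [mem_closedBall_zero_iff]
    exact (hS x hx).le
  by_cases hex : ∃ x : V, ρ ≤ ‖x‖ ∧ f x ≤ 0
  · right
    refine hsub fun x hx => ?_
    by_contra hc
    obtain ⟨a, ha, hfa⟩ := hex
    have hx' : 0 ≤ f x := hx
    obtain ⟨z, hz, hfz⟩ := hpre.intermediate_value (f := f) (show a ∈ {x : V | ρ ≤ ‖x‖} from ha)
      (show x ∈ {x : V | ρ ≤ ‖x‖} from not_lt.1 hc) h.cont.continuousOn ⟨hfa, hx'⟩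
    exact hne z hz hfz
  · left
    push Not at hex
    refine hsub fun x hx => ?_
    by_contra hc
    have := hex x (not_lt.1 hc)
    have hx' : f x ≤ 0 := hx
    linarith

/-- Homotopies preserve connectedness of the closed positive side. -/
theorem Hom.nonneg_conn (hdim : 2 ≤ Module.finrank ℝ V) (h : Hom f g)
    (hc : IsConnected {x | 0 ≤ f x}) : IsConnected {x | 0 ≤ g x} := by
  rcases h.good_left.bdd_side hdim with hb | hb
  · have h1 := h.good_left.open_compl hc.isPreconnected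
    have h2 := h.good_right.closed_compl (h.compl hdim hb h1)
    refine ⟨?_, h2⟩
    obtain ⟨R0, hR0⟩ := (h.bdd hb).exists_norm_le
    have hnt : Nontrivial V := Module.nontrivial_of_finrank_pos (R := ℝ) (by omega)
    obtain ⟨w, hw⟩ := exists_norm_eq V (show (0 : ℝ) ≤ max R0 0 + 1 by positivity)
    refine ⟨w, ?_⟩
    by_contra h3
    have h4 := hR0 w (show g w ≤ 0 from (not_le.1 h3).le)
    rw [hw] at h4
    linarith [le_max_left R0 0]
  · have e1 : ∀ k : V → ℝ, {x | 0 ≤ k x} = {x | -k x ≤ 0} := by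
      intro k
      ext x
      change 0 ≤ k x ↔ -k x ≤ 0
      exact neg_nonpos.symm
    rw [e1] at hb hc ⊢
    exact h.neg.isConnected hb hc

/-- The sphere of radius `ρ`. -/
theorem liftS_sphere_radius (hdim : 3 ≤ Module.finrank ℝ V) {ρ : ℝ} (hρ : 0 < ρ) :
    LiftS (Metric.sphere (0 : V) ρ) := by
  refine LiftS.homeo (A := Metric.sphere (0 : V) 1) ?_ (liftS_sphere hdim)
  refine
    { toFun := fun x => ⟨ρ • x.1, ?_⟩
      invFun := fun x => ⟨ρ⁻¹ • x.1, ?_⟩
      left_inv := fun x => ?_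
      right_inv := fun x => ?_
      continuous_toFun := ?_
      continuous_invFun := ?_ }
  · rw [mem_sphere_zero_iff_norm, norm_smul, Real.norm_of_nonneg hρ.le,
      mem_sphere_zero_iff_norm.1 x.2, mul_one]
  · rw [mem_sphere_zero_iff_norm, norm_smul, norm_inv, Real.norm_of_nonneg hρ.le,
      mem_sphere_zero_iff_norm.1 x.2, inv_mul_cancel₀ hρ.ne']
  · apply Subtype.ext
    change ρ⁻¹ • ρ • x.1 = x.1
    rw [smul_smul, inv_mul_cancel₀ hρ.ne', one_smul]
  · apply Subtype.ext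
    change ρ • ρ⁻¹ • x.1 = x.1
    rw [smul_smul, mul_inv_cancel₀ hρ.ne', one_smul]
  · exact (continuous_subtype_val.const_smul ρ).subtype_mk _
  · exact (continuous_subtype_val.const_smul ρ⁻¹).subtype_mk _

omit [FiniteDimensional ℝ V] in
private theorem homTop_cap (ρ : ℝ) :
    Metric.closedBall (0 : V) ρ ∩ {x : V | ρ ≤ ‖x‖} = Metric.sphere (0 : V) ρ := by
  ext x
  rw [mem_inter_iff, mem_closedBall_zero_iff, mem_sphere_zero_iff_norm]
  exact ⟨fun h => le_antisymm h.1 h.2, fun h => ⟨h.le, h.ge⟩⟩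

/-- The outside of a ball. -/
theorem liftS_outside (hdim : 3 ≤ Module.finrank ℝ V) {ρ : ℝ} (hρ : 0 < ρ) :
    LiftS {x : V | ρ ≤ ‖x‖} := by
  have hcl : IsClosed {x : V | ρ ≤ ‖x‖} := isClosed_le continuous_const continuous_norm
  have hun : {x : V | ρ ≤ ‖x‖} ∪ Metric.closedBall (0 : V) ρ = univ := by
    refine eq_univ_of_forall fun x => ?_
    rcases le_total ρ ‖x‖ with h | h
    · exact Or.inl h
    · exact Or.inr (mem_closedBall_zero_iff.2 h)
  refine LiftS.of_union hcl Metric.isClosed_closedBall (by rw [hun]; exact liftS_univ V) ?_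
  rw [inter_comm, homTop_cap]
  exact liftS_sphere_radius hdim hρ

/-- The positive side and its part in a big ball. -/
theorem homTop_iff (hdim : 3 ≤ Module.finrank ℝ V) (hf : Continuous f) {ρ : ℝ} (hρ : 0 < ρ)
    (hb : ∀ x, f x ≤ 0 → ‖x‖ < ρ) :
    LiftS {x | 0 ≤ f x} ↔ LiftS {x | max (-f x) (‖x‖ ^ 2 - ρ ^ 2) ≤ 0} := by
  have hmem : ∀ x, max (-f x) (‖x‖ ^ 2 - ρ ^ 2) ≤ 0 ↔ 0 ≤ f x ∧ ‖x‖ ≤ ρ := by
    intro x
    rw [max_le_iff]
    constructor
    · rintro ⟨h1, h2⟩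
      exact ⟨by linarith, by
        have := norm_nonneg x
        nlinarith⟩
    · rintro ⟨h1, h2⟩
      exact ⟨by linarith, by
        have := norm_nonneg x
        nlinarith⟩
  have hcl1 : IsClosed {x : V | ρ ≤ ‖x‖} := isClosed_le continuous_const continuous_norm
  have hcl2 : IsClosed {x | max (-f x) (‖x‖ ^ 2 - ρ ^ 2) ≤ 0} := by
    refine isClosed_le (hf.neg.max ?_) continuous_const
    fun_prop
  have hun : {x | max (-f x) (‖x‖ ^ 2 - ρ ^ 2) ≤ 0} ∪ {x : V | ρ ≤ ‖x‖} = {x | 0 ≤ f x} := by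
    ext x
    constructor
    · rintro (h1 | h1)
      · exact ((hmem x).1 h1).1
      · by_contra h2
        have h3 := hb x (not_le.1 h2).le
        have h1' : ρ ≤ ‖x‖ := h1
        linarith
    · intro h1
      rcases le_total ρ ‖x‖ with h2 | h2
      · exact Or.inr h2
      · exact Or.inl ((hmem x).2 ⟨h1, h2⟩)
  have hint : {x | max (-f x) (‖x‖ ^ 2 - ρ ^ 2) ≤ 0} ∩ {x : V | ρ ≤ ‖x‖} =
      Metric.sphere (0 : V) ρ := by
    ext x
    rw [mem_inter_iff, mem_sphere_zero_iff_norm]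
    constructor
    · rintro ⟨h1, h2⟩
      exact le_antisymm ((hmem x).1 h1).2 h2
    · intro h1
      refine ⟨(hmem x).2 ⟨?_, h1.le⟩, h1.ge⟩
      by_contra h2
      have := hb x (not_le.1 h2).le
      linarith
  constructor
  · intro h1
    refine LiftS.of_union hcl2 hcl1 (by rw [hun]; exact h1) ?_
    rw [hint]
    exact liftS_sphere_radius hdim hρ
  · intro h1
    rw [← hun]
    refine LiftS.union hcl2 hcl1 h1 (liftS_outside hdim hρ) ?_
    rw [hint]
    have hr : 1 < Module.rank ℝ V := by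
      have h1 : (1 : Cardinal) < (3 : ℕ) := by exact_mod_cast (by norm_num : (1 : ℕ) < 3)
      have h2 : ((3 : ℕ) : Cardinal) ≤ Module.rank ℝ V := by
        rw [← Module.finrank_eq_rank]
        exact_mod_cast hdim
      exact h1.trans_le h2
    exact isPreconnected_sphere hr _ _

/-- Homotopies preserve the lifting property of the closed positive side. -/
theorem Hom.nonneg_lift (hdim : 3 ≤ Module.finrank ℝ V) (h : Hom f g)
    (hc : LiftS {x | 0 ≤ f x}) : LiftS {x | 0 ≤ g x} := by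
  rcases h.good_left.bdd_side (by omega) with hb | hb
  · have hgf := h.good_left
    have hgg := h.good_right
    obtain ⟨H, hH, h0, h1, hz, hd⟩ := h
    subst h0
    subst h1
    obtain ⟨R, hR⟩ := hom_bdd H hH hz hb
    obtain ⟨ρ, hρ⟩ : ∃ ρ : ℝ, ρ = max R 0 + 1 := ⟨_, rfl⟩
    have hρ0 : 0 < ρ := by
      rw [hρ]
      linarith [le_max_right R 0]
    have hρR : ∀ t ∈ Icc (0 : ℝ) 1, ∀ x, H t x ≤ 0 → ‖x‖ < ρ := by
      intro t ht x hx
      have := hR t ht x hx
      rw [hρ]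
      linarith [le_max_left R 0]
    have hK := homTop_hom hH hd hρ0 hρR
    have hi0 := homTop_iff hdim hgf.cont hρ0 (hρR 0 ⟨le_rfl, zero_le_one⟩)
    have hi1 := homTop_iff hdim hgg.cont hρ0 (hρR 1 ⟨zero_le_one, le_rfl⟩)
    refine hi1.2 (hK.liftS ?_ (hi0.1 hc))
    refine (Metric.isBounded_closedBall (x := (0 : V)) (r := ρ)).subset fun x hx => ?_
    rw [mem_closedBall_zero_iff]
    have h2 := (max_le_iff.1 (show max (-H 0 x) (‖x‖ ^ 2 - ρ ^ 2) ≤ 0 from hx)).2
    have := norm_nonneg x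
    nlinarith
  · have e1 : ∀ k : V → ℝ, {x | 0 ≤ k x} = {x | -k x ≤ 0} := by
      intro k
      ext x
      change 0 ≤ k x ↔ -k x ≤ 0
      exact neg_nonpos.symm
    rw [e1] at hb hc ⊢
    exact h.neg.liftS hb hc

omit [FiniteDimensional ℝ V] in
private theorem homTop_neg (k : V → ℝ) : {x | 0 ≤ (fun x => -k x) x} = {x | k x ≤ 0} := by
  ext x
  change 0 ≤ -k x ↔ k x ≤ 0
  exact neg_nonneg

theorem Hom.nonpos_conn (hdim : 2 ≤ Module.finrank ℝ V) (h : Hom f g)
    (hc : IsConnected {x | f x ≤ 0}) : IsConnected {x | g x ≤ 0} := by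
  rw [← homTop_neg] at hc ⊢
  exact h.neg.nonneg_conn hdim hc

theorem Hom.nonpos_lift (hdim : 3 ≤ Module.finrank ℝ V) (h : Hom f g)
    (hc : LiftS {x | f x ≤ 0}) : LiftS {x | g x ≤ 0} := by
  rw [← homTop_neg] at hc ⊢
  exact h.neg.nonneg_lift hdim hc

end Pool.Schoen
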