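import Pool.Agent.H.MP_6c077c_gt.Al.Cls

/-! Alexander's theorem: regular slices. -/

set_option autoImplicit false

namespace Pool.Schoen

open Filter Set
open scoped Topology RealInnerProductSpace ContDiff

variable {V : Type*} [NormedAddCommGroup V] [InnerProductSpace ℝ V] [FiniteDimensional ℝ V]

/-- The slice of `f` at a regular level is smooth, regular, with bounded zero set. PROOF. The
derivative of the slice at `w` is `fderiv f (w + c • e)` on the horizontal plane. -/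
theorem slice_reg {f : V → ℝ} {e : V} (he : ‖e‖ = 1) (hm : Mo f e) {c : ℝ}
    (hc : ∀ x, Crit f e x → ⟪e, x⟫ ≠ c) :
    ContDiff ℝ ∞ (fun w : (ℝ ∙ e)ᗮ => f ((w : V) + c • e)) ∧
      Bornology.IsBounded {w : (ℝ ∙ e)ᗮ | f ((w : V) + c • e) = 0} ∧
      ∀ w : (ℝ ∙ e)ᗮ, f ((w : V) + c • e) = 0 →
        gradient (fun w : (ℝ ∙ e)ᗮ => f ((w : V) + c • e)) w ≠ 0 := by
  have hA : ContDiff ℝ ∞ (fun w : (ℝ ∙ e)ᗮ => (w : V) + c • e) :=
    ((ℝ ∙ e)ᗮ.subtypeL.contDiff).add contDiff_const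
  have hs : ContDiff ℝ ∞ (fun w : (ℝ ∙ e)ᗮ => f ((w : V) + c • e)) := hm.smooth.comp hA
  refine ⟨hs, ?_, ?_⟩
  · obtain ⟨C, hC⟩ := isBounded_iff_forall_norm_le.1 hm.bdd
    refine isBounded_iff_forall_norm_le.2 ⟨C + ‖c • e‖, fun w hw => ?_⟩
    have h1 := hC ((w : V) + c • e) hw
    have h2 : ‖(w : V)‖ ≤ ‖(w : V) + c • e‖ + ‖c • e‖ := by
      have := norm_sub_le ((w : V) + c • e) (c • e)
      rwa [add_sub_cancel_right] at this
    have h3 : ‖w‖ = ‖(w : V)‖ := rfl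
    rw [h3]
    linarith
  · intro w hw h0
    have hd : HasFDerivAt (fun w : (ℝ ∙ e)ᗮ => f ((w : V) + c • e))
        ((fderiv ℝ f ((w : V) + c • e)).comp (ℝ ∙ e)ᗮ.subtypeL) w := by
      have h1 : HasFDerivAt f (fderiv ℝ f ((w : V) + c • e)) ((w : V) + c • e) :=
        (hm.smooth.differentiable (by simp) _).hasFDerivAt
      have h2 : HasFDerivAt (fun y : (ℝ ∙ e)ᗮ => (y : V) + c • e) (ℝ ∙ e)ᗮ.subtypeL w :=
        ((ℝ ∙ e)ᗮ.subtypeL.hasFDerivAt).add_const (c • e)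
      exact h1.comp w h2
    have hz : (fderiv ℝ f ((w : V) + c • e)).comp (ℝ ∙ e)ᗮ.subtypeL = 0 := by
      rw [← hd.fderiv]
      unfold gradient at h0
      simpa using h0
    refine hc ((w : V) + c • e) ⟨hw, fun v hv => ?_⟩ ?_
    · have hv' : v ∈ (ℝ ∙ e)ᗮ := by
        rw [Submodule.mem_orthogonal_singleton_iff_inner_right, real_inner_comm]
        exact hv
      have := congrArg (fun T : (ℝ ∙ e)ᗮ →L[ℝ] ℝ => T ⟨v, hv'⟩) hz
      simpa using this
    · have hw' : ⟪e, (w : V)⟫ = 0 := Submodule.mem_orthogonal_singleton_iff_inner_right.1 w.2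
      rw [inner_add_right, hw', real_inner_smul_right, real_inner_self_eq_norm_sq, he]
      ring

end Pool.Schoen
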