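import Pool.Agent.H.MP_6c077c_gt.Al.Planar

/-! Alexander's theorem: normal form of a surface near a disc of a horizontal plane. -/

set_option autoImplicit false

namespace Pool.Schoen

open Filter Set
open scoped Topology RealInnerProductSpace ContDiff

/-- A planar domain becomes the unit disc; the two functions have the same signs near it. -/
theorem planar_normal {V : Type*} [NormedAddCommGroup V] [InnerProductSpace ℝ V]
    [FiniteDimensional ℝ V] (hn : Module.finrank ℝ V = 2) (g : V → ℝ) (hg : ContDiff ℝ ∞ g)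
    (hreg : ∀ w, g w = 0 → gradient g w ≠ 0) (G : V → ℝ) (hD : Dom G)
    (h1 : ∀ w, G w ≤ 0 → g w ≤ 0) (h2 : ∀ w, G w = 0 → G =ᶠ[𝓝 w] g) :
    ∃ (φ ψ : V → V) (d : ℝ), Dif φ ψ ∧ (∃ R : ℝ, ∀ w, R ≤ ‖w‖ → φ w = w) ∧ 0 < d ∧
      (∀ w, G (φ w) ≤ 0 ↔ ‖w‖ ≤ 1) ∧ (∀ w, ‖w‖ < 1 + d → (g (φ w) ≤ 0 ↔ ‖w‖ ≤ 1)) ∧
      (∀ w, ‖w‖ < 1 + d → (g (φ w) = 0 ↔ ‖w‖ = 1)) ∧
      (∀ w, ‖w‖ = 1 → fderiv ℝ (fun y => g (φ y)) w ≠ 0) := by
  obtain ⟨φ, ψ, hφ, hR, hle, heq⟩ := planar_dif hn G hD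
  have : ProperSpace V := FiniteDimensional.proper ℝ V
  -- negative values
  have hneg : ∀ w, G w < 0 → g w < 0 := by
    intro w hw
    refine lt_of_le_of_ne (h1 w hw.le) fun h0 => ?_
    have hgr := hreg w h0
    have ho : ∀ᶠ y in 𝓝 w, g y ≤ 0 := by
      filter_upwards [(hD.smooth.continuous.tendsto w).eventually (gt_mem_nhds hw)] with y hy
      exact h1 y hy.le
    have hmax : IsLocalMax g w := by
      filter_upwards [ho] with y hy
      rw [h0]
      exact hy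
    apply hgr
    rw [gradient, hmax.fderiv_eq_zero, map_zero]
  -- near the circle
  obtain ⟨d, hd, hdU⟩ : ∃ d : ℝ, 0 < d ∧ ∀ w, 1 ≤ ‖w‖ → ‖w‖ < 1 + d → G (φ w) = g (φ w) := by
    have hU : IsOpen {w | ∀ᶠ y in 𝓝 (φ w), G y = g y} :=
      (isOpen_setOfPred_eventually_nhds).preimage hφ.continuous
    have hK : IsCompact (Metric.sphere (0 : V) 1) := isCompact_sphere _ _
    have hKU : Metric.sphere (0 : V) 1 ⊆ {w | ∀ᶠ y in 𝓝 (φ w), G y = g y} := by
      intro w hw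
      exact h2 (φ w) ((heq w).2 (by simpa using hw))
    obtain ⟨d, hd, hdU⟩ := hK.exists_thickening_subset_open hU hKU
    refine ⟨d, hd, fun w hw1 hw2 => ?_⟩
    have h3 : w ∈ Metric.thickening d (Metric.sphere (0 : V) 1) := by
      rw [Metric.mem_thickening_iff]
      refine ⟨‖w‖⁻¹ • w, ?_, ?_⟩
      · rw [mem_sphere_zero_iff_norm, norm_smul, norm_inv, norm_norm]
        exact inv_mul_cancel₀ (by linarith : ‖w‖ ≠ 0)
      · rw [dist_eq_norm]
        have e1 : w - ‖w‖⁻¹ • w = (1 - ‖w‖⁻¹) • w := by rw [sub_smul, one_smul]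
        have h4 : ‖w‖⁻¹ ≤ 1 := inv_le_one_of_one_le₀ hw1
        rw [e1, norm_smul, Real.norm_of_nonneg (by linarith)]
        have h5 : ‖w‖⁻¹ * ‖w‖ = 1 := inv_mul_cancel₀ (by linarith : ‖w‖ ≠ 0)
        nlinarith
    exact (hdU h3 : ∀ᶠ y in 𝓝 (φ w), G y = g y).self_of_nhds
  refine ⟨φ, ψ, d, hφ, hR, hd, hle, ?_, ?_, ?_⟩
  · intro w hw
    refine ⟨fun h => ?_, fun h => h1 _ ((hle w).2 h)⟩
    by_contra hc
    push Not at hc
    have h3 := hdU w hc.le hw
    exact not_le.2 hc ((hle w).1 (by rw [h3]; exact h))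
  · intro w hw
    constructor
    · intro h
      by_cases hc : ‖w‖ < 1
      · have h3 : G (φ w) < 0 := by
          refine lt_of_le_of_ne ((hle w).2 hc.le) fun h0 => ?_
          exact hc.ne ((heq w).1 h0)
        exact absurd h (hneg _ h3).ne
      · push Not at hc
        have h3 := hdU w hc hw
        exact (heq w).1 (by rw [h3]; exact h)
    · intro h
      have h3 := (h2 (φ w) ((heq w).2 h)).self_of_nhds
      rw [← h3]
      exact (heq w).2 h
  · intro w hw h0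
    have h3 : g (φ w) = 0 := by
      have h3 := (h2 (φ w) ((heq w).2 hw)).self_of_nhds
      rw [← h3]
      exact (heq w).2 hw
    have h4 : HasFDerivAt (fun y => g (φ y)) ((fderiv ℝ g (φ w)).comp (fderiv ℝ φ w)) w :=
      HasFDerivAt.comp (g := g) w
        ((hg.differentiable (by simp)).differentiableAt.hasFDerivAt) (hφ.has w)
    rw [h4.fderiv] at h0
    apply hreg _ h3
    have h5 : fderiv ℝ g (φ w) = 0 := by
      ext v
      have h6 := DFunLike.congr_fun h0 (fderiv ℝ ψ (φ w) v)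
      rw [ContinuousLinearMap.comp_apply, hφ.fderiv_right] at h6
      exact h6
    rw [gradient, h5, map_zero]

private theorem Normal_functional {V : Type*} [NormedAddCommGroup V] [InnerProductSpace ℝ V]
    (L : V →L[ℝ] ℝ) (hL : L ≠ 0) (w : V) (hw : ‖w‖ = 1) (h : ∀ v, 0 < ⟪w, v⟫ → 0 ≤ L v) :
    ∃ l : ℝ, 0 < l ∧ ∀ v, L v = l * ⟪w, v⟫ := by
  have hww : ⟪w, w⟫ = 1 := by rw [real_inner_self_eq_norm_sq, hw]; norm_num
  have h0 : 0 ≤ L w := h w (by rw [hww]; norm_num)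
  have key : ∀ v, ⟪w, v⟫ = 0 → 0 ≤ L v := by
    intro v hv
    by_contra hc
    push Not at hc
    obtain ⟨s, hs, hs2⟩ : ∃ s : ℝ, 0 < s ∧ L v + s * L w < 0 := by
      refine ⟨-L v / (2 * (L w + 1)), div_pos (by linarith) (by linarith), ?_⟩
      have h3 : -L v / (2 * (L w + 1)) * L w ≤ -L v / 2 := by
        rw [div_mul_eq_mul_div, div_le_div_iff₀ (by positivity) (by positivity)]
        nlinarith
      linarith
    have h4 := h (v + s • w) (by
      rw [inner_add_right, hv, real_inner_smul_right, hww]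
      linarith)
    rw [map_add, map_smul, smul_eq_mul] at h4
    linarith
  have key2 : ∀ v, ⟪w, v⟫ = 0 → L v = 0 := by
    intro v hv
    have h1 := key v hv
    have h2 := key (-v) (by rw [inner_neg_right, hv, neg_zero])
    rw [map_neg] at h2
    linarith
  have key3 : ∀ v, L v = L w * ⟪w, v⟫ := by
    intro v
    have h1 := key2 (v - ⟪w, v⟫ • w) (by
      rw [inner_sub_right, real_inner_smul_right, hww]
      ring)
    rw [map_sub, map_smul, smul_eq_mul] at h1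
    linarith
  refine ⟨L w, lt_of_le_of_ne h0 fun h1 => hL ?_, key3⟩
  ext v
  rw [key3, ← h1, zero_mul]
  rfl

/-- The derivative of a function which has the signs of the unit disc is a positive multiple of the
radial one. -/
private theorem Normal_radial {V : Type*} [NormedAddCommGroup V] [InnerProductSpace ℝ V]
    {g : V → ℝ} {g' : V →L[ℝ] ℝ} {w : V} (hg : HasFDerivAt g g' w) (hne : g' ≠ 0) {d : ℝ}
    (hd : 0 < d) (hle : ∀ w, ‖w‖ < 1 + d → (g w ≤ 0 ↔ ‖w‖ ≤ 1)) (hw : ‖w‖ = 1) (h0 : g w = 0) :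
    ∃ l : ℝ, 0 < l ∧ ∀ v, g' v = l * ⟪w, v⟫ := by
  refine Normal_functional g' hne w hw fun v hv => ?_
  have hd1 : HasFDerivAt g g' (w + (0 : ℝ) • v) := by
    rw [zero_smul, add_zero]
    exact hg
  have hd2 : HasDerivAt (fun s : ℝ => w + s • v) v 0 := by
    have := ((hasDerivAt_id (0 : ℝ)).smul_const v).const_add w
    simpa using this
  have hd3 : HasDerivAt (fun s : ℝ => g (w + s • v)) (g' v) 0 := hd1.comp_hasDerivAt 0 hd2
  have hd4 := hd3.tendsto_slope_zero_right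
  refine ge_of_tendsto hd4 ?_
  have hc : ∀ᶠ s in 𝓝 (0 : ℝ), ‖w + s • v‖ < 1 + d := by
    have h1 : Continuous fun s : ℝ => ‖w + s • v‖ := by fun_prop
    have h2 := h1.tendsto 0
    simp only [zero_smul, add_zero, hw] at h2
    exact h2.eventually (gt_mem_nhds (by linarith))
  filter_upwards [self_mem_nhdsWithin, hc.filter_mono nhdsWithin_le_nhds] with s hs hs2
  have hs' : (0 : ℝ) < s := hs
  have h3 : 0 < g (w + s • v) := by
    by_contra hcon
    have h4 := (hle _ hs2).1 (not_lt.1 hcon)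
    have h5 : ‖w + s • v‖ ^ 2 = 1 + 2 * (s * ⟪w, v⟫) + ‖s • v‖ ^ 2 := by
      rw [norm_add_sq_real, hw, real_inner_smul_right]
      ring
    have h6 : 0 < s * ⟪w, v⟫ := mul_pos hs' hv
    nlinarith [norm_nonneg (w + s • v), sq_nonneg ‖s • v‖]
  simp only [zero_add, zero_smul, add_zero, h0, sub_zero, smul_eq_mul]
  exact mul_nonneg (inv_nonneg.2 hs'.le) h3.le

variable {V : Type*} [NormedAddCommGroup V] [InnerProductSpace ℝ V] [FiniteDimensional ℝ V]

/-- A smooth cutoff: `1` for `r ≤ A`, `0` for `B ≤ r`. -/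
private theorem Normal_cut {A B : ℝ} (h : A < B) : ∃ χ : ℝ → ℝ, ContDiff ℝ ∞ χ ∧
    (∀ r, r ≤ A → χ r = 1) ∧ (∀ r, B ≤ r → χ r = 0) ∧ ∀ r, 0 ≤ χ r ∧ χ r ≤ 1 := by
  have hBA : 0 < B - A := by linarith
  refine ⟨fun r => Real.smoothTransition ((B - r) / (B - A)), ?_, ?_, ?_, ?_⟩
  · exact (Real.smoothTransition.contDiff (n := ⊤)).comp
      ((contDiff_const.sub contDiff_id).div_const _)
  · intro r hr
    exact Real.smoothTransition.one_of_one_le (by rw [one_le_div hBA]; linarith)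
  · intro r hr
    exact Real.smoothTransition.zero_of_nonpos (div_nonpos_of_nonpos_of_nonneg (by linarith) hBA.le)
  · intro r
    exact ⟨Real.smoothTransition.nonneg _, Real.smoothTransition.le_one _⟩

/-- Normal form near a horizontal disc. -/
theorem normal_form {e : V} {f : V → ℝ} (hf : ContDiff ℝ ∞ f) (hgood : Good f)
    {g : (ℝ ∙ e)ᗮ → ℝ} (hg : ContDiff ℝ ∞ g) {c a d₀ : ℝ} (ha : 0 < a) (hd₀ : 0 < d₀)
    (hfg : ∀ x, |⟪e, x⟫ - c| < a → f x = g (hpr e x))
    (hle : ∀ w, ‖w‖ < 1 + d₀ → (g w ≤ 0 ↔ ‖w‖ ≤ 1))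
    (heq : ∀ w, ‖w‖ < 1 + d₀ → (g w = 0 ↔ ‖w‖ = 1))
    (hreg : ∀ w, ‖w‖ = 1 → fderiv ℝ g w ≠ 0) :
    ∃ (F : V → ℝ) (d : ℝ), 0 < d ∧ d < d₀ ∧ ContDiff ℝ ∞ F ∧ Hom f F ∧
      (∀ x, F x ≤ 0 ↔ f x ≤ 0) ∧ (∀ x, F x = 0 ↔ f x = 0) ∧
      (∀ x, f x = 0 → ∃ μ : ℝ, 0 < μ ∧ gradient F x = μ • gradient f x) ∧
      (∀ x, a ≤ |⟪e, x⟫ - c| ∨ 1 + d₀ ≤ ‖hpr e x‖ → F =ᶠ[𝓝 x] f) ∧
      (∃ G : (ℝ ∙ e)ᗮ → ℝ, ContDiff ℝ ∞ G ∧ ∀ x, |⟪e, x⟫ - c| < a / 2 → F x = G (hpr e x)) ∧
      (∀ x, ‖hpr e x‖ ≤ 1 + d → |⟪e, x⟫ - c| < a / 2 → F x = ‖hpr e x‖ ^ 2 - 1) := by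
  obtain ⟨d, hd⟩ : ∃ d, d = d₀ / 3 := ⟨_, rfl⟩
  have hd0 : 0 < d := by rw [hd]; linarith
  obtain ⟨χ₁, c1, c1a, c1b, c1c⟩ := Normal_cut (A := (1 + d) ^ 2) (B := (1 + 2 * d) ^ 2)
    (by nlinarith)
  obtain ⟨χ₂, c2, c2a, c2b, c2c⟩ := Normal_cut (A := (a / 2) ^ 2) (B := (3 * a / 4) ^ 2)
    (by nlinarith)
  obtain ⟨χ, hχ⟩ : ∃ χ : V → ℝ, χ = fun x => χ₁ (‖hpr e x‖ ^ 2) * χ₂ ((⟪e, x⟫ - c) ^ 2) := ⟨_, rfl⟩
  obtain ⟨q, hq⟩ : ∃ q : V → ℝ, q = fun x => ‖hpr e x‖ ^ 2 - 1 := ⟨_, rfl⟩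
  have hpc : Continuous fun x : V => hpr e x := (hprL e).continuous
  have hps : ContDiff ℝ ∞ fun x : V => ‖hpr e x‖ ^ 2 :=
    (contDiff_norm_sq ℝ).comp (hprL e).contDiff
  have hχs : ContDiff ℝ ∞ χ := by
    rw [hχ]
    refine (c1.comp hps).mul (c2.comp ?_)
    exact (((innerSL ℝ e).contDiff (n := ∞)).sub contDiff_const).pow 2
  have hqs : ContDiff ℝ ∞ q := by
    rw [hq]
    exact hps.sub contDiff_const
  have hχ0 : ∀ x, 0 ≤ χ x := fun x => by
    rw [hχ]
    exact mul_nonneg (c1c _).1 (c2c _).1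
  have hχ1 : ∀ x, χ x ≤ 1 := fun x => by
    rw [hχ]
    exact mul_le_one₀ (c1c _).2 (c2c _).1 (c2c _).2
  have hχn : ∀ x, χ x ≠ 0 → ‖hpr e x‖ < 1 + 2 * d ∧ |⟪e, x⟫ - c| < 3 * a / 4 := by
    intro x hx
    rw [hχ] at hx
    have h1 : χ₁ (‖hpr e x‖ ^ 2) ≠ 0 := left_ne_zero_of_mul hx
    have h2 : χ₂ ((⟪e, x⟫ - c) ^ 2) ≠ 0 := right_ne_zero_of_mul hx
    constructor
    · by_contra hc
      push Not at hc
      exact h1 (c1b _ (by gcongr))
    · by_contra hc
      push Not at hc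
      refine h2 (c2b _ ?_)
      rw [← sq_abs (⟪e, x⟫ - c)]
      gcongr
  have hsame : ∀ x, χ x ≠ 0 → ‖hpr e x‖ < 1 + d₀ ∧ f x = g (hpr e x) := by
    intro x hx
    obtain ⟨h1, h2⟩ := hχn x hx
    exact ⟨by linarith, hfg x (by linarith)⟩
  obtain ⟨F, hF⟩ : ∃ F : V → ℝ, F = fun x => f x + χ x * (q x - f x) := ⟨_, rfl⟩
  have hFs : ContDiff ℝ ∞ F := by
    rw [hF]
    exact hf.add (hχs.mul (hqs.sub hf))
  have hFx : ∀ x, F x = (1 - χ x) * f x + χ x * q x := fun x => by rw [hF]; ring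
  have hqle : ∀ x, χ x ≠ 0 → (q x ≤ 0 ↔ f x ≤ 0) ∧ (q x = 0 ↔ f x = 0) := by
    intro x hx
    obtain ⟨h1, h2⟩ := hsame x hx
    rw [h2, hle _ h1, heq _ h1, hq]
    constructor
    · constructor
      · intro h
        nlinarith [norm_nonneg (hpr e x)]
      · intro h
        show ‖hpr e x‖ ^ 2 - 1 ≤ 0
        nlinarith [norm_nonneg (hpr e x)]
    · constructor
      · intro h
        nlinarith [norm_nonneg (hpr e x)]
      · intro h
        show ‖hpr e x‖ ^ 2 - 1 = 0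
        rw [h]
        norm_num
  have htri : ∀ x, (f x < 0 ∧ F x < 0) ∨ (f x = 0 ∧ F x = 0) ∨ (0 < f x ∧ 0 < F x) := by
    intro x
    by_cases hx : χ x = 0
    · have h1 : F x = f x := by rw [hFx, hx]; ring
      rw [h1]
      rcases lt_trichotomy (f x) 0 with h | h | h
      · exact Or.inl ⟨h, h⟩
      · exact Or.inr (Or.inl ⟨h, h⟩)
      · exact Or.inr (Or.inr ⟨h, h⟩)
    · obtain ⟨h1, h2⟩ := hqle x hx
      have hp : 0 < χ x := lt_of_le_of_ne (hχ0 x) (Ne.symm hx)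
      have hp1 := hχ1 x
      rw [hFx]
      rcases lt_trichotomy (f x) 0 with h | h | h
      · have h3 : q x < 0 := lt_of_le_of_ne (h1.2 h.le) fun h4 => h.ne (h2.1 h4)
        refine Or.inl ⟨h, ?_⟩
        have h4 := mul_neg_of_pos_of_neg hp h3
        have h5 := mul_nonpos_of_nonneg_of_nonpos (sub_nonneg.2 hp1) h.le
        linarith
      · refine Or.inr (Or.inl ⟨h, ?_⟩)
        rw [h, h2.2 h]
        ring
      · have h3 : 0 < q x := by
          by_contra h4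
          exact absurd (h1.1 (not_lt.1 h4)) (not_le.2 h)
        refine Or.inr (Or.inr ⟨h, ?_⟩)
        have h4 := mul_pos hp h3
        have h5 := mul_nonneg (sub_nonneg.2 hp1) h.le
        linarith
  have hlt : ∀ x, f x < 0 ↔ F x < 0 := by
    intro x
    rcases htri x with h | h | h
    · exact ⟨fun _ => h.2, fun _ => h.1⟩
    · rw [h.1, h.2]
    · exact ⟨fun h' => absurd h' (not_lt.2 h.1.le), fun h' => absurd h' (not_lt.2 h.2.le)⟩
  have hFle : ∀ x, F x ≤ 0 ↔ f x ≤ 0 := by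
    intro x
    rcases htri x with h | h | h
    · exact ⟨fun _ => h.1.le, fun _ => h.2.le⟩
    · rw [h.1, h.2]
    · exact ⟨fun h' => absurd h' (not_le.2 h.2), fun h' => absurd h' (not_le.2 h.1)⟩
  have hFeq : ∀ x, F x = 0 ↔ f x = 0 := by
    intro x
    rcases htri x with h | h | h
    · exact ⟨fun h' => absurd h' h.2.ne, fun h' => absurd h' h.1.ne⟩
    · rw [h.1, h.2]
    · exact ⟨fun h' => absurd h' h.2.ne', fun h' => absurd h' h.1.ne'⟩
  -- the derivatives
  have hder : ∀ x, f x = 0 → ∃ μ : ℝ, 0 < μ ∧ fderiv ℝ F x = μ • fderiv ℝ f x := by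
    intro x hx
    have hfd : HasFDerivAt f (fderiv ℝ f x) x :=
      (hf.differentiable (by simp)).differentiableAt.hasFDerivAt
    have hqd : HasFDerivAt q (fderiv ℝ q x) x :=
      (hqs.differentiable (by simp)).differentiableAt.hasFDerivAt
    have hχd : HasFDerivAt χ (fderiv ℝ χ x) x :=
      (hχs.differentiable (by simp)).differentiableAt.hasFDerivAt
    have hFd : HasFDerivAt F (fderiv ℝ f x + (χ x • (fderiv ℝ q x - fderiv ℝ f x) +
        (q x - f x) • fderiv ℝ χ x)) x := by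
      rw [hF]
      exact hfd.add (hχd.mul (hqd.sub hfd))
    by_cases hx0 : χ x = 0
    · refine ⟨1, one_pos, ?_⟩
      have hmin : IsLocalMin χ x := Filter.Eventually.of_forall fun y => by
        rw [hx0]
        exact hχ0 y
      rw [hFd.fderiv, hmin.fderiv_eq_zero, hx0, zero_smul, smul_zero, one_smul, add_zero, add_zero]
    · obtain ⟨h1, h2⟩ := hsame x hx0
      have hq0 : q x = 0 := ((hqle x hx0).2).2 hx
      have hw : ‖hpr e x‖ = 1 := (heq _ h1).1 (by rw [← h2]; exact hx)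
      have hgd : HasFDerivAt g (fderiv ℝ g (hpr e x)) (hpr e x) :=
        (hg.differentiable (by simp)).differentiableAt.hasFDerivAt
      obtain ⟨l, hl, hlv⟩ := Normal_radial hgd (hreg _ hw) hd₀ hle hw (by rw [← h2]; exact hx)
      have hfv : ∀ v, fderiv ℝ f x v = l * ⟪hpr e x, hpr e v⟫ := by
        intro v
        have hgd' : HasFDerivAt g (fderiv ℝ g (hpr e x)) (hprL e x) := hgd
        have h3 : HasFDerivAt (fun y => g (hprL e y)) ((fderiv ℝ g (hpr e x)).comp (hprL e)) x :=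
          hgd'.comp x (hprL e).hasFDerivAt
        have h4 : f =ᶠ[𝓝 x] fun y => g (hprL e y) := by
          have h5 : ∀ᶠ y in 𝓝 x, |⟪e, y⟫ - c| < a := by
            have h6 : Continuous fun y : V => |⟪e, y⟫ - c| := by fun_prop
            have := (hχn x hx0).2
            exact (h6.tendsto x).eventually (gt_mem_nhds (by linarith))
          filter_upwards [h5] with y hy
          exact hfg y hy
        have h5 := (h3.congr_of_eventuallyEq h4).fderiv
        rw [h5, ContinuousLinearMap.comp_apply, hlv]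
        rfl
      have hqv : ∀ v, fderiv ℝ q x v = 2 * ⟪hpr e x, hpr e v⟫ := by
        intro v
        have h3 : HasFDerivAt q ((2 • (innerSL ℝ (hprL e x))).comp (hprL e)) x := by
          have h4 := (hasStrictFDerivAt_norm_sq (hprL e x)).hasFDerivAt
          rw [hq]
          exact (HasFDerivAt.comp (g := fun z : (ℝ ∙ e)ᗮ => ‖z‖ ^ 2) x h4
            (hprL e).hasFDerivAt).sub_const 1
        rw [h3.fderiv]
        simp only [ContinuousLinearMap.comp_apply, smul_apply, innerSL_apply_apply, nsmul_eq_mul]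
        push_cast
        rfl
      have hp : 0 < χ x := lt_of_le_of_ne (hχ0 x) (Ne.symm hx0)
      have hp1 := hχ1 x
      refine ⟨(1 - χ x) + 2 * χ x / l, ?_, ?_⟩
      · have := div_pos (mul_pos two_pos hp) hl
        have := sub_nonneg.2 hp1
        linarith
      · rw [hFd.fderiv, hq0, hx, sub_zero, zero_smul, add_zero]
        ext v
        simp only [_root_.add_apply, smul_apply, _root_.sub_apply, smul_eq_mul]
        rw [hfv, hqv]
        field_simp
        ring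
  have hgrad : ∀ x, f x = 0 → ∃ μ : ℝ, 0 < μ ∧ gradient F x = μ • gradient f x := by
    intro x hx
    obtain ⟨μ, hμ, h⟩ := hder x hx
    refine ⟨μ, hμ, ?_⟩
    rw [gradient, gradient, h]
    exact (InnerProductSpace.toDual ℝ V).symm.map_smulₛₗ μ (fderiv ℝ f x)
  have hnear : ∀ x, a ≤ |⟪e, x⟫ - c| ∨ 1 + d₀ ≤ ‖hpr e x‖ → F =ᶠ[𝓝 x] f := by
    intro x hx
    have h1 : ∀ᶠ y in 𝓝 x, χ y = 0 := by
      rcases hx with hx | hx
      · have h6 : Continuous fun y : V => |⟪e, y⟫ - c| := by fun_prop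
        have h7 := (h6.tendsto x).eventually (lt_mem_nhds (show 3 * a / 4 < _ by linarith))
        filter_upwards [h7] with y hy
        by_contra h8
        have := (hχn y h8).2
        linarith
      · have h7 := (hpc.norm.tendsto x).eventually (lt_mem_nhds
          (show 1 + 2 * d < _ by linarith))
        filter_upwards [h7] with y hy
        by_contra h8
        have := (hχn y h8).1
        linarith
    filter_upwards [h1] with y hy
    rw [hFx, hy]
    ring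
  refine ⟨F, d, hd0, by linarith, hFs, ?_, hFle, hFeq, hgrad, hnear, ?_, ?_⟩
  · have hFgood : Good F := by
      refine ⟨hFs.continuous, ?_, ?_⟩
      · refine hgood.bdd.subset fun x hx => ?_
        exact (hFeq x).1 hx
      · intro x hx
        have hx' := (hFeq x).1 hx
        obtain ⟨μ, hμ, h⟩ := hder x hx'
        obtain ⟨v, hv⟩ := hgood.desc x hx'
        have h1 := fderiv_neg_of_desc1 (hf.contDiffAt.differentiableAt (by simp)) hv
        refine ⟨v, desc1_smooth (hFs.contDiffAt.of_le (by simp)) ?_⟩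
        rw [h]
        exact mul_neg_of_pos_of_neg hμ h1
    refine Hom.of_sign hgood hFgood.cont hlt (fun x => (hFle x).symm) fun x hx => ?_
    obtain ⟨μ, hμ, h⟩ := hder x hx
    obtain ⟨v, hv⟩ := hgood.desc x hx
    have h1 := fderiv_neg_of_desc1 (hf.contDiffAt.differentiableAt (by simp)) hv
    refine ⟨v, hv, desc1_smooth (hFs.contDiffAt.of_le (by simp)) ?_⟩
    rw [h]
    exact mul_neg_of_pos_of_neg hμ h1
  · refine ⟨fun w => g w + χ₁ (‖w‖ ^ 2) * ((‖w‖ ^ 2 - 1) - g w), ?_, fun x hx => ?_⟩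
    · have h1 : ContDiff ℝ ∞ fun w : (ℝ ∙ e)ᗮ => ‖w‖ ^ 2 := contDiff_norm_sq ℝ
      exact hg.add ((c1.comp h1).mul ((h1.sub contDiff_const).sub hg))
    · have h1 : χ₂ ((⟪e, x⟫ - c) ^ 2) = 1 := by
        refine c2a _ ?_
        rw [← sq_abs (⟪e, x⟫ - c)]
        gcongr
      rw [hF, hχ, hq]
      simp only [h1, mul_one]
      rw [hfg x (by linarith)]
  · intro x hx1 hx2
    have h1 : χ₂ ((⟪e, x⟫ - c) ^ 2) = 1 := by
      refine c2a _ ?_
      rw [← sq_abs (⟪e, x⟫ - c)]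
      gcongr
    have h2 : χ₁ (‖hpr e x‖ ^ 2) = 1 := c1a _ (by gcongr)
    rw [hF, hχ, hq]
    simp only [h1, h2]
    ring

end Pool.Schoen
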