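import Pool.Agent.H.MP_6c077c_gt.Al.Cls
import Pool.Agent.H.MP_6c077c_gt.Al.Normal
import Pool.Agent.H.MP_6c077c_gt.helper58.InnerBall
import Pool.Agent.H.MP_6c077c_gt.Al.InnS

/-! Alexander's theorem: the innermost disc of a slice. -/

set_option autoImplicit false

namespace Pool.Schoen

open Filter Set
open scoped Topology RealInnerProductSpace ContDiff

/-- PROOF. `exists_innermost_ball` and `planar_normal` for the functions `s * g` and `k` (if `k w = 0`
then `w ∈ K`, so `k = s * g` near `w`). -/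
theorem inner_chart {P : Type*} [NormedAddCommGroup P] [InnerProductSpace ℝ P]
    [FiniteDimensional ℝ P] (hP : Module.finrank ℝ P = 2) {g : P → ℝ} (hg : ContDiff ℝ ∞ g)
    (hb : Bornology.IsBounded {x | g x = 0}) (hreg : ∀ x, g x = 0 → gradient g x ≠ 0)
    (hne : ∃ x, g x = 0) :
    ∃ s : ℝ, (s = 1 ∨ s = -1) ∧ ∃ (φ ψ : P → P) (d : ℝ), Dif φ ψ ∧ 0 < d ∧
      (∀ w, ‖w‖ < 1 + d → (s * g (φ w) ≤ 0 ↔ ‖w‖ ≤ 1)) ∧
      (∀ w, ‖w‖ < 1 + d → (s * g (φ w) = 0 ↔ ‖w‖ = 1)) ∧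
      ∀ w, ‖w‖ = 1 → fderiv ℝ (fun y => s * g (φ y)) w ≠ 0 := by
  obtain ⟨s, hs, K, W, k, -, -, -, -, -, hKW, hKg, hD, hk0, hkg, -⟩ :=
    exists_innermost_ball hP hg hb hreg hne
  have hs0 : s ≠ 0 := by rcases hs with h | h <;> rw [h] <;> norm_num
  have hsg : ContDiff ℝ ∞ fun w => s * g w := contDiff_const.mul hg
  have hsreg : ∀ w, s * g w = 0 → gradient (fun w => s * g w) w ≠ 0 := by
    intro w hw h0
    have h1 : g w = 0 := (mul_eq_zero.1 hw).resolve_left hs0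
    have h2 : HasFDerivAt (fun w => s * g w) (s • fderiv ℝ g w) w :=
      ((hg.differentiable (by simp) w).hasFDerivAt).const_mul s
    have h3 : fderiv ℝ (fun w => s * g w) w = 0 := by
      have := congrArg (InnerProductSpace.toDual ℝ P) h0
      rwa [gradient, LinearIsometryEquiv.apply_symm_apply, map_zero] at this
    rw [h2.fderiv] at h3
    have h4 : fderiv ℝ g w = 0 := (smul_eq_zero.1 h3).resolve_left hs0
    exact Final_fderiv_ne (hreg w h1) h4
  obtain ⟨φ, ψ, d, hφ, -, hd, -, h2, h3, h4⟩ := planar_normal hP (fun w => s * g w) hsg hsreg k hD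
    (fun w hw => (hKg w (hKW ((hk0 w).1 hw))).2 ((hk0 w).1 hw))
    (fun w hw => hkg w ((hk0 w).1 hw.le))
  exact ⟨s, hs, φ, ψ, d, hφ, hd, h2, h3, h4⟩

end Pool.Schoen
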