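import Pool.Agent.H.MP_6c077c_gt.Al.Cls

/-! Alexander's theorem: levels and markers. -/

set_option autoImplicit false

namespace Pool.Schoen

open Filter Set
open scoped Topology RealInnerProductSpace ContDiff

variable {V : Type*} [NormedAddCommGroup V] [InnerProductSpace ℝ V] [FiniteDimensional ℝ V]

/-- PROOF. For each pair of critical zeros of different height choose a level strictly between them
which is not the height of a critical zero (finitely many heights); `L` is the set of these levels.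
`mark_exists` (`Crit`, `crit_of_vert`). -/
theorem exists_levels {f : V → ℝ} {e : V} (he : ‖e‖ = 1) (hm : Mo f e)
    (hfin : {x | Crit f e x}.Finite)
    (hd : ∀ x y, Crit f e x → Crit f e y → ⟪e, x⟫ = ⟪e, y⟫ → x = y) :
    ∃ (L : Finset ℝ) (S : Finset V), Lev f e L S := by
  classical
  obtain ⟨H, hH⟩ : ∃ H : Set ℝ, H = (fun x : V => ⟪e, x⟫) '' {x | Crit f e x} := ⟨_, rfl⟩
  have hHf : H.Finite := by
    rw [hH]
    exact hfin.image _
  have hex : ∀ p : V × V, ∃ c : ℝ, c ∉ H ∧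
      (⟪e, p.1⟫ < ⟪e, p.2⟫ → ⟪e, p.1⟫ < c ∧ c < ⟪e, p.2⟫) := by
    intro p
    by_cases hp : ⟪e, p.1⟫ < ⟪e, p.2⟫
    · obtain ⟨c, hc, hcH⟩ := ((Ioo_infinite hp).sdiff hHf).nonempty
      exact ⟨c, hcH, fun _ => hc⟩
    · obtain ⟨c, hc⟩ := hHf.infinite_compl.nonempty
      exact ⟨c, hc, fun h => absurd h hp⟩
  choose lv hlv1 hlv2 using hex
  obtain ⟨L, hL⟩ : ∃ L : Finset ℝ, L = (hfin.toFinset ×ˢ hfin.toFinset).image lv := ⟨_, rfl⟩
  have hLH : ∀ c ∈ L, c ∉ H := by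
    intro c hc
    rw [hL, Finset.mem_image] at hc
    obtain ⟨p, -, rfl⟩ := hc
    exact hlv1 p
  have hreg : ∀ x, Crit f e x → ⟪e, x⟫ ∉ L := by
    intro x hx h
    refine hLH _ h ?_
    rw [hH]
    exact ⟨x, hx, rfl⟩
  obtain ⟨S, hS⟩ := mark_exists he hm.smooth hm.bdd L.finite_toSet (fun x hx hxL l hl =>
    hreg x ⟨hx, fun w hw => by
      rw [fderiv_eq_inner_gradient, hl, real_inner_smul_left, real_inner_comm w e, hw, mul_zero]⟩
      (Finset.mem_coe.1 hxL))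
  refine ⟨L, S, hreg, fun x y hx hy _ _ hxy => ?_, hS⟩
  have hne : ⟪e, x⟫ ≠ ⟪e, y⟫ := fun h => hxy (hd x y hx hy h)
  have hmem : ∀ x y, Crit f e x → Crit f e y → lv (x, y) ∈ L := by
    intro x y hx hy
    rw [hL, Finset.mem_image]
    refine ⟨(x, y), Finset.mem_product.2 ⟨?_, ?_⟩, rfl⟩
    · exact hfin.mem_toFinset.2 hx
    · exact hfin.mem_toFinset.2 hy
  rcases lt_or_gt_of_ne hne with h | h
  · exact ⟨lv (x, y), hmem x y hx hy, Or.inl (hlv2 (x, y) h)⟩
  · exact ⟨lv (y, x), hmem y x hy hx, Or.inr (hlv2 (y, x) h)⟩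

end Pool.Schoen
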