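import Pool.Agent.H.MP_6c077c_gt.Al.LinkF

/-! Linking lemma: the round disc and the diffeomorphic disc. -/

set_option autoImplicit false

namespace Pool.Schoen

open Filter Set Metric
open scoped Topology RealInnerProductSpace ContDiff

variable {V : Type*} [NormedAddCommGroup V] [InnerProductSpace ℝ V]

/-- A set with the lifting property which contains a round horizontal circle is not avoided by an
open connected set which contains points on both sides of the disc but no point of the disc. -/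
theorem link_round (hn : Module.finrank ℝ V = 3) {e : V} (he : ‖e‖ = 1) {c h R : ℝ} (hh : 0 < h)
    (hR : 0 < R) {q : (ℝ ∙ e)ᗮ} {U Y : Set V} (hUo : IsOpen U) (hUc : IsPreconnected U)
    (hY : LiftS Y) (hUY : Disjoint U Y) (hg : ∀ y : (ℝ ∙ e)ᗮ, ‖y - q‖ = R → (y : V) + c • e ∈ Y)
    (hUD : ∀ y : (ℝ ∙ e)ᗮ, ‖y - q‖ ≤ R → (y : V) + c • e ∉ U)
    (hp : (q : V) + (c + h) • e ∈ U) (hm : (q : V) + (c - h) • e ∈ U)
    (hseg : ∀ s ∈ Icc (-h) h, (q : V) + (c + s) • e ∉ Y) : False := by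
  have hnorm : ∀ a : (ℝ ∙ e)ᗮ, ‖q + R • a - q‖ = R * ‖a‖ := by
    intro a
    rw [add_sub_cancel_left, norm_smul, Real.norm_eq_abs, abs_of_pos hR]
  have hfd : HasFDerivAt (fun a : (ℝ ∙ e)ᗮ => q + R • a)
      (R • ContinuousLinearMap.id ℝ (ℝ ∙ e)ᗮ) 0 := by
    have h1 := ((hasFDerivAt_id (𝕜 := ℝ) (0 : (ℝ ∙ e)ᗮ)).const_smul R).const_add q
    exact h1
  refine link_false hn he (ψ := fun a => q + R • a) (by fun_prop) ?_ ?_ hh hUo hUc hY hUY ?_ ?_
    ?_ ?_ ?_ (c := c)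
  · intro a ha
    simp only [smul_zero, add_zero, add_eq_left, smul_eq_zero] at ha
    exact ha.resolve_left hR.ne'
  · intro a ha
    rw [hfd.fderiv] at ha
    simp only [_root_.smul_apply, ContinuousLinearMap.id_apply, smul_eq_zero] at ha
    exact ha.resolve_left hR.ne'
  · intro a ha
    exact hg _ (by rw [hnorm, ha, mul_one])
  · intro a ha
    exact hUD _ (by rw [hnorm]; nlinarith)
  · simpa using hp
  · simpa using hm
  · intro s hs
    have := hseg s hs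
    simpa using this

/-- The same for the image of a round disc under a diffeomorphism of the plane. -/
theorem link_diffeo (hn : Module.finrank ℝ V = 3) {e : V} (he : ‖e‖ = 1)
    {θ ψ : (ℝ ∙ e)ᗮ → (ℝ ∙ e)ᗮ} (hθ : ContDiff ℝ ∞ θ) (hψ : ContDiff ℝ ∞ ψ)
    (h1 : ∀ y, θ (ψ y) = y) {c h : ℝ} (hh : 0 < h) {U Y : Set V}
    (hUo : IsOpen U) (hUc : IsPreconnected U) (hY : LiftS Y) (hUY : Disjoint U Y)
    (hg : ∀ y, ‖θ y‖ = 1 → (y : V) + c • e ∈ Y) (hUD : ∀ y, ‖θ y‖ ≤ 1 → (y : V) + c • e ∉ U)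
    (hp : (ψ 0 : V) + (c + h) • e ∈ U) (hm : (ψ 0 : V) + (c - h) • e ∈ U)
    (hseg : ∀ s ∈ Icc (-h) h, (ψ 0 : V) + (c + s) • e ∉ Y) : False := by
  refine link_false hn he hψ ?_ ?_ hh hUo hUc hY hUY ?_ ?_ hp hm hseg (c := c)
  · intro a ha
    have h3 := congrArg θ ha
    rwa [h1, h1] at h3
  · intro a ha
    have hd1 : HasFDerivAt θ (fderiv ℝ θ (ψ 0)) (ψ 0) :=
      ((hθ.differentiable (by simp)) (ψ 0)).hasFDerivAt
    have hd2 : HasFDerivAt ψ (fderiv ℝ ψ 0) 0 := ((hψ.differentiable (by simp)) 0).hasFDerivAt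
    have hd3 := hd1.comp 0 hd2
    have hd4 : HasFDerivAt (θ ∘ ψ) (ContinuousLinearMap.id ℝ (ℝ ∙ e)ᗮ) 0 := by
      have h3 : θ ∘ ψ = id := funext h1
      rw [h3]
      exact hasFDerivAt_id 0
    have h4 := congrArg (fun L : (ℝ ∙ e)ᗮ →L[ℝ] (ℝ ∙ e)ᗮ => L a) (hd3.unique hd4)
    simp only [ContinuousLinearMap.comp_apply, ContinuousLinearMap.id_apply, ha, map_zero] at h4
    exact h4.symm
  · intro a ha
    exact hg _ (by rw [h1, ha])
  · intro a ha
    exact hUD _ (by rw [h1]; exact ha)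

end Pool.Schoen
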