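import Mathlib

/-! Linking lemma: products of positive matrices of rank one. -/

set_option autoImplicit false

namespace Pool.Schoen

open Matrix ComplexConjugate

/-- The positive matrix of rank one of the vector with components `z`, `w` and length `r`. -/
noncomputable def pm (z : ℝ) (w : ℂ) (r : ℝ) : Matrix (Fin 2) (Fin 2) ℂ :=
  !![((r + z : ℝ) : ℂ), conj w; w, ((r - z : ℝ) : ℂ)]

/-- The matrix `ψ χ*`. -/
noncomputable def ro (ψ χ : Fin 2 → ℂ) : Matrix (Fin 2) (Fin 2) ℂ :=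
  !![ψ 0 * conj (χ 0), ψ 0 * conj (χ 1); ψ 1 * conj (χ 0), ψ 1 * conj (χ 1)]

/-- The hermitian product. -/
noncomputable def hip (ψ χ : Fin 2 → ℂ) : ℂ := conj (ψ 0) * χ 0 + conj (ψ 1) * χ 1

theorem ro_mul (ψ χ ψ' χ' : Fin 2 → ℂ) : ro ψ χ * ro ψ' χ' = hip χ ψ' • ro ψ χ' := by
  ext i j
  fin_cases i <;> fin_cases j <;>
    simp [ro, hip, Matrix.mul_apply, Fin.sum_univ_two] <;> ring

theorem ro_trace (ψ χ : Fin 2 → ℂ) : (ro ψ χ).trace = hip χ ψ := by
  simp [ro, hip, Matrix.trace, Fin.sum_univ_two]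
  ring

theorem pm_ro {z r : ℝ} {w : ℂ} (hr : 0 ≤ r) (h : r ^ 2 = z ^ 2 + ‖w‖ ^ 2) :
    ∃ ψ : Fin 2 → ℂ, pm z w r = ro ψ ψ := by
  have hz : |z| ≤ r := by
    refine abs_le_of_sq_le_sq ?_ hr
    nlinarith [sq_nonneg ‖w‖]
  have h1 := (abs_le.1 hz).1
  have hw : w * conj w = (((r + z) * (r - z) : ℝ) : ℂ) := by
    rw [Complex.mul_conj, Complex.normSq_eq_norm_sq]
    congr 1
    nlinarith
  rcases (by linarith : 0 ≤ r + z).eq_or_lt with h2 | h2
  · have hw0 : w = 0 := by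
      have h3 : ‖w‖ ^ 2 = 0 := by
        have : z = -r := by linarith
        rw [this] at h
        linarith
      exact norm_eq_zero.1 (pow_eq_zero_iff (two_ne_zero) |>.1 h3)
    have h4 : 0 ≤ r - z := by linarith [(abs_le.1 hz).2]
    refine ⟨![0, (Real.sqrt (r - z) : ℂ)], ?_⟩
    have h5 : ((Real.sqrt (r - z) : ℝ) : ℂ) * (Real.sqrt (r - z) : ℝ) = ((r - z : ℝ) : ℂ) := by
      rw [← Complex.ofReal_mul, Real.mul_self_sqrt h4]
    ext i j
    fin_cases i <;> fin_cases j <;> simp [pm, ro, hw0, ← h2]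
    · rw [h5]
      push_cast
      ring
  · have h3 : Real.sqrt (r + z) ≠ 0 := (Real.sqrt_pos.2 h2).ne'
    have h3' : ((Real.sqrt (r + z) : ℝ) : ℂ) ≠ 0 := by exact_mod_cast h3
    have h5 : ((Real.sqrt (r + z) : ℝ) : ℂ) * (Real.sqrt (r + z) : ℝ) = ((r + z : ℝ) : ℂ) := by
      rw [← Complex.ofReal_mul, Real.mul_self_sqrt h2.le]
    refine ⟨![(Real.sqrt (r + z) : ℂ), w / (Real.sqrt (r + z) : ℂ)], ?_⟩
    have h6 : w / (Real.sqrt (r + z) : ℂ) * (conj w / (Real.sqrt (r + z) : ℂ)) =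
        ((r - z : ℝ) : ℂ) := by
      rw [div_mul_div_comm, h5, hw, Complex.ofReal_mul, mul_comm, mul_div_assoc, div_self, mul_one]
      exact_mod_cast h2.ne'
    ext i j
    fin_cases i <;> fin_cases j
    · simp [pm, ro]
      rw [h5]
      push_cast
      ring
    · simp [pm, ro]
      field_simp
    · simp [pm, ro]
      field_simp
    · simp [pm, ro]
      rw [h6]
      push_cast
      ring

theorem pm_trace (z z' r r' : ℝ) (w w' : ℂ) :
    (pm z w r * pm z' w' r').trace = ((2 * (r * r' + z * z' + (conj w * w').re) : ℝ) : ℂ) := by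
  have h : conj w * w' + w * conj w' = ((2 * (conj w * w').re : ℝ) : ℂ) := by
    rw [Complex.ext_iff]
    constructor
    · simp
      ring
    · simp
      ring
  simp only [pm, Matrix.trace, Fin.sum_univ_two, Matrix.diag_apply, Matrix.mul_apply,
    Matrix.of_apply, Matrix.cons_val', Matrix.cons_val_zero, Matrix.cons_val_one]
  have e1 : ((2 * (r * r' + z * z' + (conj w * w').re) : ℝ) : ℂ) =
      2 * (r * r' + z * z') + ((2 * (conj w * w').re : ℝ) : ℂ) := by
    push_cast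
    ring
  rw [e1, ← h]
  simp
  ring

/-- Two vectors which are not opposite have nonorthogonal spinors. -/
theorem hip_ne {z z' r r' : ℝ} {w w' : ℂ} {ψ χ : Fin 2 → ℂ} (h1 : pm z w r = ro ψ ψ)
    (h2 : pm z' w' r' = ro χ χ) (h : r * r' + z * z' + (conj w * w').re ≠ 0) : hip ψ χ ≠ 0 := by
  intro h0
  have h3 := pm_trace z z' r r' w w'
  rw [h1, h2, ro_mul, h0, zero_smul, Matrix.trace_zero] at h3
  have h4 : (2 * (r * r' + z * z' + (conj w * w').re) : ℝ) = 0 := by exact_mod_cast h3.symm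
  exact h (by linarith)

end Pool.Schoen
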