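import Pool.Agent.H.MP_6c077c_gt.Al.LinkA

/-! Linking lemma: polygons, and the nonvanishing function on the complement of a closed
polygon in space. -/

set_option autoImplicit false

namespace Pool.Schoen

open Matrix ComplexConjugate Filter Set
open scoped Topology RealInnerProductSpace

variable {V : Type*} [NormedAddCommGroup V] [InnerProductSpace ℝ V]

/-- `l` is the list of vertices of a polygon in `U` from `a` to `b`. -/
inductive Poly (U : Set V) : V → V → List V → Prop
  | one (a : V) (ha : a ∈ U) : Poly U a a [a]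
  | cons (a b c : V) (l : List V) (h : segment ℝ a b ⊆ U) (hl : Poly U b c l) : Poly U a c (a :: l)

theorem Poly.left_mem {U : Set V} {a b : V} {l : List V} (h : Poly U a b l) : a ∈ U := by
  cases h with
  | one _ ha => exact ha
  | cons _ b' _ l' h' _ => exact h' (left_mem_segment ℝ a b')

/-- Points of an open connected set are joined by polygons. -/
theorem poly_exists {U : Set V} (hU : IsOpen U) (hc : IsPreconnected U) {a b : V} (ha : a ∈ U)
    (hb : b ∈ U) : ∃ l, Poly U a b l := by
  have key := IsPreconnected.induction₂ hc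
    (fun x y => (∃ l, Poly U x b l) ↔ (∃ l, Poly U y b l)) ?_ ?_ ?_ ha hb
  · exact key.2 ⟨[b], Poly.one b hb⟩
  · intro x hx
    obtain ⟨ε, hε, hb'⟩ := Metric.isOpen_iff.1 hU x hx
    have h1 : ∀ᶠ y in 𝓝[U] x, y ∈ Metric.ball x ε :=
      nhdsWithin_le_nhds (Metric.ball_mem_nhds x hε)
    filter_upwards [h1] with y hy
    have hxε : x ∈ Metric.ball x ε := Metric.mem_ball_self hε
    have hs1 : segment ℝ x y ⊆ U := ((convex_ball x ε).segment_subset hxε hy).trans hb'
    have hs2 : segment ℝ y x ⊆ U := ((convex_ball x ε).segment_subset hy hxε).trans hb'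
    have h2 : (∃ l, Poly U x b l) ↔ (∃ l, Poly U y b l) := by
      constructor
      · rintro ⟨l, hl⟩
        exact ⟨y :: l, Poly.cons y x b l hs2 hl⟩
      · rintro ⟨l, hl⟩
        exact ⟨x :: l, Poly.cons x y b l hs1 hl⟩
    exact h2
  · intro x y z _ _ _ h1 h2
    exact h1.trans h2
  · intro x y _ _ h1
    exact h1.symm

/-- Coordinates of a three-dimensional space: a linear functional and a linear map to the plane
which together preserve the scalar product. -/
structure Cd (V : Type*) [NormedAddCommGroup V] [InnerProductSpace ℝ V] where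
  z : V →L[ℝ] ℝ
  w : V →L[ℝ] ℂ
  hin : ∀ a b : V, ⟪a, b⟫ = z a * z b + (conj (w a) * w b).re

theorem Cd.norm_sq (C : Cd V) (a : V) : ‖a‖ ^ 2 = C.z a ^ 2 + ‖C.w a‖ ^ 2 := by
  rw [← real_inner_self_eq_norm_sq, C.hin]
  have h : (conj (C.w a) * C.w a).re = ‖C.w a‖ ^ 2 := by
    rw [← Complex.normSq_eq_conj_mul_self, Complex.ofReal_re, Complex.normSq_eq_norm_sq]
  rw [h]
  ring

/-- The matrix of the vector `p - x`. -/
noncomputable def Cd.M (C : Cd V) (p x : V) : Matrix (Fin 2) (Fin 2) ℂ :=
  pm (C.z (p - x)) (C.w (p - x)) ‖p - x‖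

theorem Cd.M_ro (C : Cd V) (p x : V) : ∃ ψ : Fin 2 → ℂ, C.M p x = ro ψ ψ :=
  pm_ro (norm_nonneg _) (C.norm_sq _)

theorem Cd.M_continuous (C : Cd V) (p : V) : Continuous fun x => C.M p x := by
  refine continuous_matrix fun i j => ?_
  have h1 : Continuous fun x : V => C.z (p - x) :=
    C.z.continuous.comp (continuous_const.sub continuous_id)
  have h2 : Continuous fun x : V => C.w (p - x) :=
    C.w.continuous.comp (continuous_const.sub continuous_id)
  have h3 : Continuous fun x : V => ‖p - x‖ := (continuous_const.sub continuous_id).norm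
  fin_cases i <;> fin_cases j
  · exact Complex.continuous_ofReal.comp (h3.add h1)
  · exact Complex.continuous_conj.comp h2
  · exact h2
  · exact Complex.continuous_ofReal.comp (h3.sub h1)

/-- If `x` is not on the segment, the spinors are not orthogonal. -/
theorem Cd.hip_ne (C : Cd V) {p q x : V} (hx : x ∉ segment ℝ p q) {ψ χ : Fin 2 → ℂ}
    (h1 : C.M p x = ro ψ ψ) (h2 : C.M q x = ro χ χ) : hip ψ χ ≠ 0 := by
  refine Pool.Schoen.hip_ne h1 h2 fun h0 => hx ?_
  have h3 : ‖p - x‖ * ‖q - x‖ + ⟪p - x, q - x⟫ = 0 := by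
    rw [C.hin]
    linarith
  have h4 : ⟪p - x, -(q - x)⟫ = ‖p - x‖ * ‖-(q - x)‖ := by
    rw [inner_neg_right, norm_neg]
    linarith
  rw [inner_eq_norm_mul_iff_real, norm_neg] at h4
  rcases (add_nonneg (norm_nonneg (p - x)) (norm_nonneg (q - x))).eq_or_lt with h5 | h5
  · have h6 : ‖p - x‖ = 0 := by linarith [norm_nonneg (p - x), norm_nonneg (q - x)]
    have h7 : p = x := sub_eq_zero.1 (norm_eq_zero.1 h6)
    rw [h7]
    exact left_mem_segment ℝ x q
  · refine ⟨‖q - x‖ / (‖p - x‖ + ‖q - x‖), ‖p - x‖ / (‖p - x‖ + ‖q - x‖), by positivity,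
      by positivity, ?_, ?_⟩
    · rw [← add_div, add_comm, div_self h5.ne']
    · have h6 : ‖q - x‖ • (p - x) + ‖p - x‖ • (q - x) = 0 := by
        rw [h4, smul_neg, neg_add_cancel]
      have h7 : ‖q - x‖ • p + ‖p - x‖ • q = (‖p - x‖ + ‖q - x‖) • x := by
        rw [smul_sub, smul_sub] at h6
        rw [add_smul]
        have h8 := sub_eq_zero.1 (show ‖q - x‖ • p + ‖p - x‖ • q -
          (‖p - x‖ • x + ‖q - x‖ • x) = 0 by rw [← h6]; abel)
        exact h8
      rw [div_eq_inv_mul, div_eq_inv_mul, mul_smul, mul_smul, ← smul_add, h7, smul_smul,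
        inv_mul_cancel₀ h5.ne', one_smul]

/-- The product over the vertices of a polygon. -/
noncomputable def Cd.B (C : Cd V) (l : List V) (x : V) : Matrix (Fin 2) (Fin 2) ℂ :=
  (l.map fun p => C.M p x).prod

theorem Cd.B_continuous (C : Cd V) (l : List V) : Continuous fun x => C.B l x := by
  induction l with
  | nil =>
    have : (fun x => C.B ([] : List V) x) = fun _ => 1 := by
      funext x
      simp [Cd.B]
    rw [this]
    exact continuous_const
  | cons a l ih =>
    have : (fun x => C.B (a :: l) x) = fun x => C.M a x * C.B l x := by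
      funext x
      simp [Cd.B]
    rw [this]
    exact (C.M_continuous a).matrix_mul ih

/-- Away from the polygon the product is a nonzero multiple of `ψ χ*`, where `ψ` and `χ` are the
spinors of the ends. -/
theorem Poly.prod (C : Cd V) {U : Set V} {a b : V} {l : List V} (h : Poly U a b l) {x : V}
    (hx : x ∉ U) : ∀ ψ χ : Fin 2 → ℂ, C.M a x = ro ψ ψ → C.M b x = ro χ χ →
      ∃ α : ℂ, α ≠ 0 ∧ C.B l x = α • ro ψ χ := by
  induction h with
  | one a ha =>
    intro ψ χ h1 h2
    have hax : a ≠ x := fun h => hx (h ▸ ha)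
    have hxs : x ∉ segment ℝ a a := by
      rw [segment_same, mem_singleton_iff]
      exact fun h => hax h.symm
    have h3 := C.hip_ne hxs h1 h2
    -- `ro ψ ψ = ro χ χ`, so `ψ (ψ* χ) = χ (χ* χ)`
    have h4 := C.hip_ne hxs h2 h2
    have h5 : ro ψ ψ = ro χ χ := h1.symm.trans h2
    refine ⟨(hip χ χ)⁻¹ * hip ψ χ, mul_ne_zero (inv_ne_zero h4) h3, ?_⟩
    have h6 : C.B [a] x = ro χ χ := by simp [Cd.B, h2]
    have h9 : ro ψ ψ * ro χ χ = hip ψ χ • ro ψ χ := ro_mul _ _ _ _
    rw [h5, ro_mul] at h9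
    rw [h6, mul_smul, ← h9, smul_smul, inv_mul_cancel₀ h4, one_smul]
  | cons a b c l h hl ih =>
    intro ψ χ h1 h2
    obtain ⟨φ, hφ⟩ := C.M_ro b x
    obtain ⟨α, hα, hB⟩ := ih φ χ hφ h2
    have hxs : x ∉ segment ℝ a b := fun h' => hx (h h')
    have h3 := C.hip_ne hxs h1 hφ
    refine ⟨α * hip ψ φ, mul_ne_zero hα h3, ?_⟩
    have h6 : C.B (a :: l) x = C.M a x * C.B l x := by simp [Cd.B]
    rw [h6, h1, hB, Matrix.mul_smul, ro_mul, smul_smul]

end Pool.Schoen
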