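import Pool.Agent.H.MP_6c077c_gt.Ix.LiftA
import Pool.Agent.H.MP_6c077c_gt.IxB.Lift
import Pool.Agent.H.MP_6c077c_gt.Gd.BaseDef

/-! Linking lemma: a planar diffeomorphism does not lift on the circle. -/

set_option autoImplicit false

namespace Pool.Schoen

open ComplexConjugate Filter Set Metric
open scoped Topology RealInnerProductSpace ContDiff

/-- The direction of a nonzero complex number. -/
noncomputable def cdir (z : ℂ) : ℂ := ((‖z‖⁻¹ : ℝ) : ℂ) * z

theorem norm_cdir {z : ℂ} (hz : z ≠ 0) : ‖cdir z‖ = 1 := by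
  unfold cdir
  have h : 0 < ‖z‖ := norm_pos_iff.2 hz
  rw [norm_mul, Complex.norm_real, Real.norm_eq_abs, abs_of_pos (inv_pos.2 h),
    inv_mul_cancel₀ h.ne']

theorem cdir_mul (z w : ℂ) : cdir (z * w) = cdir z * cdir w := by
  unfold cdir
  rw [norm_mul, mul_inv]
  push_cast
  ring

theorem continuousOn_cdir {Y : Type*} [TopologicalSpace Y] {A : Set Y} {u : Y → ℂ}
    (hu : ContinuousOn u A) (h0 : ∀ x ∈ A, u x ≠ 0) : ContinuousOn (fun x => cdir (u x)) A := by
  unfold cdir
  refine ContinuousOn.mul ?_ hu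
  exact Complex.continuous_ofReal.comp_continuousOn
    (hu.norm.inv₀ fun x hx => norm_ne_zero_iff.2 (h0 x hx))

theorem liftS_nonzero {Y : Type*} [TopologicalSpace Y] {A : Set Y} (h : LiftS A) {u : Y → ℂ}
    (hu : ContinuousOn u A) (h0 : ∀ x ∈ A, u x ≠ 0) : Lifts A fun x => cdir (u x) := by
  obtain ⟨v, hv, h1⟩ := h (fun x => cdir (u x)) (continuousOn_cdir hu h0)
    (fun x hx => norm_cdir (h0 x hx))
  exact ⟨v, hv, h1⟩

theorem Lifts.div {Y : Type*} [TopologicalSpace Y] {A : Set Y} {u w k : Y → ℂ} (h1 : Lifts A u)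
    (h2 : Lifts A w) (h : ∀ x ∈ A, u x = w x * k x) : Lifts A k := by
  obtain ⟨a, ha, h3⟩ := h1
  obtain ⟨b, hb, h4⟩ := h2
  refine ⟨fun x => a x - b x, ha.sub hb, fun x hx => ?_⟩
  have h5 := h x hx
  rw [h3 x hx, h4 x hx] at h5
  have h6 : Complex.exp (b x * Complex.I) ≠ 0 := Complex.exp_ne_zero _
  push_cast
  rw [sub_mul, Complex.exp_sub, h5]
  field_simp

theorem Lifts.comp {Y Z : Type*} [TopologicalSpace Y] [TopologicalSpace Z] {A : Set Y} {B : Set Z}
    {u : Y → ℂ} (h : Lifts A u) {g : Z → Y} (hg : ContinuousOn g B) (hm : MapsTo g B A) :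
    Lifts B fun x => u (g x) := by
  obtain ⟨v, hv, h1⟩ := h
  exact ⟨fun x => v (g x), hv.comp hg hm, fun x hx => h1 _ (hm hx)⟩

variable {E : Type*} [NormedAddCommGroup E] [InnerProductSpace ℝ E]

/-- An odd map of the circle does not lift. -/
theorem odd_not_lifts (hE : 1 < Module.rank ℝ E) {g : E → ℂ} (ho : ∀ x, g (-x) = -g x) :
    ¬ Lifts (sphere (0 : E) 1) g := by
  rintro ⟨v, hv, h1⟩
  have hc : IsConnected (sphere (0 : E) 1) := isConnected_sphere hE 0 zero_le_one
  have hneg : ∀ x ∈ sphere (0 : E) 1, -x ∈ sphere (0 : E) 1 := by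
    intro x hx
    rw [mem_sphere_zero_iff_norm] at hx ⊢
    rw [norm_neg, hx]
  have hd : ContinuousOn (fun x => v (-x) - v x) (sphere (0 : E) 1) :=
    (hv.comp continuous_neg.continuousOn hneg).sub hv
  have hval : ∀ x ∈ sphere (0 : E) 1,
      Complex.exp (((v (-x) - v x : ℝ) : ℂ) * Complex.I) = -1 := by
    intro x hx
    have h2 := h1 x hx
    have h3 := h1 (-x) (hneg x hx)
    rw [ho, h2] at h3
    push_cast
    rw [sub_mul, Complex.exp_sub, ← h3]
    field_simp
  have hint : ∀ x ∈ sphere (0 : E) 1, ∃ n : ℤ, v (-x) - v x = Real.pi + n * (2 * Real.pi) := by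
    intro x hx
    have h2 := hval x hx
    rw [← Complex.exp_pi_mul_I, Complex.exp_eq_exp_iff_exists_int] at h2
    obtain ⟨n, hn⟩ := h2
    refine ⟨n, ?_⟩
    have h3 : (((v (-x) - v x : ℝ) : ℂ)) = ((Real.pi + n * (2 * Real.pi) : ℝ) : ℂ) := by
      have h4 : (((v (-x) - v x : ℝ) : ℂ) - ((Real.pi + n * (2 * Real.pi) : ℝ) : ℂ)) * Complex.I
          = 0 := by
        rw [sub_mul, hn]
        push_cast
        ring
      rcases mul_eq_zero.1 h4 with h5 | h5
      · exact sub_eq_zero.1 h5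
      · exact absurd h5 Complex.I_ne_zero
    exact_mod_cast h3
  obtain ⟨x0, hx0⟩ := hc.nonempty
  -- the difference is constant
  have hconst : ∀ x ∈ sphere (0 : E) 1, v (-x) - v x = v (-x0) - v x0 := by
    have hpre := (hc.isPreconnected.image _ hd).ordConnected
    have key : ∀ x ∈ sphere (0 : E) 1, ∀ y ∈ sphere (0 : E) 1,
        ¬ v (-x) - v x < v (-y) - v y := by
      intro x hx y hy hlt
      obtain ⟨n, hn⟩ := hint x hx
      obtain ⟨m, hm⟩ := hint y hy
      have hpi := Real.pi_pos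
      have hnm : n < m := by
        rw [hn, hm] at hlt
        have h2 : (n : ℝ) < m := by nlinarith
        exact_mod_cast h2
      have hnm' : (n : ℝ) + 1 ≤ m := by exact_mod_cast hnm
      have h3 : v (-x) - v x + Real.pi ∈ (fun x => v (-x) - v x) '' sphere (0 : E) 1 := by
        refine hpre.out ⟨x, hx, rfl⟩ ⟨y, hy, rfl⟩ ⟨by linarith, ?_⟩
        simp only
        rw [hn, hm]
        nlinarith
      obtain ⟨z, hz, h4⟩ := h3
      obtain ⟨k, hk⟩ := hint z hz
      simp only at h4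
      rw [hk, hn] at h4
      have h5 : Real.pi * ((1 : ℝ) + 2 * n - 2 * k) = 0 := by linarith
      rcases mul_eq_zero.1 h5 with h6 | h6
      · linarith
      · have h7 : (1 : ℤ) + 2 * n - 2 * k = 0 := by exact_mod_cast h6
        omega
    intro x hx
    exact le_antisymm (not_lt.1 (key x0 hx0 x hx)) (not_lt.1 (key x hx x0 hx0))
  have h2 := hconst (-x0) (hneg x0 hx0)
  rw [neg_neg] at h2
  obtain ⟨n, hn⟩ := hint x0 hx0
  have h3 : Real.pi + n * (2 * Real.pi) = 0 := by linarith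
  have hpi := Real.pi_pos
  have h4 : (1 : ℝ) + 2 * n = 0 := by
    have h5 : Real.pi * (1 + 2 * n) = 0 := by linarith
    rcases mul_eq_zero.1 h5 with h6 | h6
    · linarith
    · exact h6
  have h5 : (1 : ℤ) + 2 * n = 0 := by exact_mod_cast h4
  omega

end Pool.Schoen
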