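import Pool.Agent.H.MP_6c077c_gt.Al.LinkC

/-! Linking lemma: the direction from the centre of a smooth planar disc does not lift on its
boundary. -/

set_option autoImplicit false

namespace Pool.Schoen

open ComplexConjugate Filter Set Metric
open scoped Topology RealInnerProductSpace ContDiff

theorem cdir_smul {t : ℝ} (ht : 0 < t) (z : ℂ) : cdir ((t : ℂ) * z) = cdir z := by
  unfold cdir
  rw [norm_mul, Complex.norm_real, Real.norm_eq_abs, abs_of_pos ht, mul_inv]
  have h : (t : ℂ) ≠ 0 := by exact_mod_cast ht.ne'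
  push_cast
  field_simp

/-- Directions of close vectors. -/
theorem cdir_close {a b : ℂ} (hb : b ≠ 0) (h : ‖a - b‖ < ‖b‖ / 2) : ‖cdir a - cdir b‖ < 2 := by
  have hb0 : 0 < ‖b‖ := norm_pos_iff.2 hb
  have ha : a ≠ 0 := by
    rintro rfl
    rw [zero_sub, norm_neg] at h
    linarith
  have ha0 : 0 < ‖a‖ := norm_pos_iff.2 ha
  -- the real part of `a conj b` is positive
  by_contra hcon
  have h2 : 2 ≤ ‖cdir a - cdir b‖ := not_lt.1 hcon
  have n1 := norm_cdir ha
  have n2 := norm_cdir hb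
  have h3 : ‖cdir a - cdir b‖ ≤ ‖cdir a‖ + ‖cdir b‖ := norm_sub_le _ _
  have h4 : ‖cdir a - cdir b‖ = 2 := by
    rw [n1, n2] at h3
    linarith
  have e1 : (‖a‖ : ℂ) * cdir a = a := by
    unfold cdir
    have : (‖a‖ : ℂ) ≠ 0 := by exact_mod_cast ha0.ne'
    push_cast
    field_simp
  have e2 : (‖b‖ : ℂ) * cdir b = b := by
    unfold cdir
    have : (‖b‖ : ℂ) ≠ 0 := by exact_mod_cast hb0.ne'
    push_cast
    field_simp
  have h5 : cdir a = -cdir b := by
    have h6 : SameRay ℝ (cdir a) (-cdir b) := by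
      rw [sameRay_iff_norm_add, norm_neg, ← sub_eq_add_neg, h4, n1, n2]
      norm_num
    have h7 := h6.norm_smul_eq
    rw [norm_neg, n1, n2, one_smul, one_smul] at h7
    exact h7.symm
  have h8 : a - b = -(((‖a‖ + ‖b‖ : ℝ) : ℂ) * cdir b) := by
    nth_rewrite 1 [← e1, ← e2]
    rw [h5]
    push_cast
    ring
  rw [h8, norm_neg, norm_mul, n2, mul_one, Complex.norm_real, Real.norm_eq_abs,
    abs_of_pos (by positivity)] at h
  linarith

variable {E : Type*} [NormedAddCommGroup E] [InnerProductSpace ℝ E] [FiniteDimensional ℝ E]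

/-- The direction from the centre of a smooth disc does not lift on the boundary. -/
theorem disc_not_lifts (hE : 1 < Module.rank ℝ E) {κ : E →L[ℝ] ℂ} (hκ : ∀ a, κ a = 0 → a = 0)
    {ψ : E → E} (hψ : ContDiff ℝ ∞ ψ) (hinj : ∀ a, ψ a = ψ 0 → a = 0)
    (hd : ∀ a, fderiv ℝ ψ 0 a = 0 → a = 0) :
    ¬ Lifts (sphere (0 : E) 1) fun a => cdir (κ (ψ 0 - ψ a)) := by
  intro hL
  have : Nontrivial E := by
    have h1 : (0 : Cardinal) < Module.rank ℝ E := lt_trans zero_lt_one hE
    exact rank_pos_iff_nontrivial.1 h1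
  have hK : IsCompact (sphere (0 : E) 1) := isCompact_sphere 0 1
  have hn1 : ∀ a ∈ sphere (0 : E) 1, ‖a‖ = 1 := fun a ha => mem_sphere_zero_iff_norm.1 ha
  have hne : ∀ a ∈ sphere (0 : E) 1, a ≠ 0 := by
    intro a ha h0
    have := hn1 a ha
    rw [h0, norm_zero] at this
    exact zero_ne_one this
  -- the linear part
  obtain ⟨L, hLd⟩ : ∃ L : E →L[ℝ] ℂ, L = κ.comp (fderiv ℝ ψ 0) := ⟨_, rfl⟩
  have hL0 : ∀ a, L a = 0 → a = 0 := by
    intro a ha
    rw [hLd, ContinuousLinearMap.comp_apply] at ha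
    exact hd a (hκ _ ha)
  obtain ⟨m, hm, hmL⟩ : ∃ m : ℝ, 0 < m ∧ ∀ a ∈ sphere (0 : E) 1, m ≤ ‖L a‖ := by
    obtain ⟨a0, ha0, hmin⟩ := hK.exists_isMinOn (NormedSpace.sphere_nonempty.2 zero_le_one)
      (L.continuous.norm.continuousOn)
    refine ⟨‖L a0‖, norm_pos_iff.2 fun h => hne a0 ha0 (hL0 a0 h), fun a ha => hmin ha⟩
  -- small scale
  have hdiff : HasFDerivAt (fun a => κ (ψ a)) L 0 := by
    rw [hLd]
    exact κ.hasFDerivAt.comp 0 ((hψ.differentiable (by simp)) 0).hasFDerivAt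
  have hlo := hdiff.isLittleO.def (show (0 : ℝ) < m / 4 by linarith)
  obtain ⟨ρ, hρ, hball⟩ := Metric.eventually_nhds_iff.1 hlo
  obtain ⟨s, hs⟩ : ∃ s : ℝ, s = min 1 (ρ / 2) := ⟨_, rfl⟩
  have hs0 : 0 < s := by rw [hs]; exact lt_min one_pos (by linarith)
  have hs1 : s ≤ 1 := by rw [hs]; exact min_le_left _ _
  have hsρ : s < ρ := by
    have : s ≤ ρ / 2 := by rw [hs]; exact min_le_right _ _
    linarith
  -- homotopy from the scale `1` to the scale `s`
  have hcψ : Continuous ψ := hψ.continuous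
  have hsc : ∀ t ∈ Icc (0 : ℝ) 1, 0 < 1 - t * (1 - s) := by
    intro t ht
    nlinarith [ht.1, ht.2]
  have hnz : ∀ t ∈ Icc (0 : ℝ) 1, ∀ a ∈ sphere (0 : E) 1,
      κ (ψ 0 - ψ ((1 - t * (1 - s)) • a)) ≠ 0 := by
    intro t ht a ha h0
    have h1 := sub_eq_zero.1 (hκ _ h0)
    have h2 := hinj _ h1.symm
    rcases smul_eq_zero.1 h2 with h3 | h3
    · exact absurd h3 (hsc t ht).ne'
    · exact hne a ha h3
  have h1 := lifts_homotopy hK (fun t a => cdir (κ (ψ 0 - ψ ((1 - t * (1 - s)) • a))))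
    (by
      refine continuousOn_cdir (u := fun p : ℝ × E => κ (ψ 0 - ψ ((1 - p.1 * (1 - s)) • p.2))) ?_
        ?_
      · refine (κ.continuous.comp (continuous_const.sub (hcψ.comp ?_))).continuousOn
        fun_prop
      · rintro ⟨t, a⟩ ⟨ht, ha⟩
        exact hnz t ht a ha)
    (fun t ht a ha => norm_cdir (hnz t ht a ha)) (by
      refine hL.congr fun a _ => ?_
      simp)
  -- compare with the linear part
  have h2 : Lifts (sphere (0 : E) 1) fun a => cdir (-(L a)) := by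
    refine h1.of_close ?_ ?_ ?_ ?_
    · exact continuousOn_cdir (L.continuous.neg.continuousOn) fun a ha h0 =>
        hne a ha (hL0 a (neg_eq_zero.1 h0))
    · refine continuousOn_cdir ?_ fun a ha => hnz 1 ⟨zero_le_one, le_rfl⟩ a ha
      refine (κ.continuous.comp (continuous_const.sub (hcψ.comp ?_))).continuousOn
      fun_prop
    · exact fun a ha => norm_cdir fun h0 => hne a ha (hL0 a (neg_eq_zero.1 h0))
    · intro a ha
      have e1 : (1 : ℝ) - 1 * (1 - s) = s := by ring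
      rw [e1]
      have h3 := hball (y := s • a) (by
        rw [dist_zero_right, norm_smul, hn1 a ha, mul_one, Real.norm_eq_abs, abs_of_pos hs0]
        exact hsρ)
      rw [sub_zero, norm_smul, hn1 a ha, mul_one, Real.norm_eq_abs, abs_of_pos hs0, map_smul] at h3
      -- `κ (ψ 0 - ψ (s a)) = s * z`, `z` close to `-L a`
      obtain ⟨z, hz⟩ : ∃ z : ℂ, z = ((s⁻¹ : ℝ) : ℂ) * κ (ψ 0 - ψ (s • a)) := ⟨_, rfl⟩
      have hsC : (s : ℂ) ≠ 0 := by exact_mod_cast hs0.ne'
      have hz1 : κ (ψ 0 - ψ (s • a)) = (s : ℂ) * z := by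
        rw [hz]
        push_cast
        field_simp
      have hz2 : ‖z - -(L a)‖ ≤ m / 4 := by
        have h4 : (s : ℂ) * (z - -(L a)) = -(κ (ψ (s • a)) - κ (ψ 0) - s • L a) := by
          rw [mul_sub, ← hz1, map_sub, Complex.real_smul]
          ring
        have h5 : s * ‖z - -(L a)‖ ≤ m / 4 * s := by
          have h6 : ‖(s : ℂ) * (z - -(L a))‖ ≤ m / 4 * s := by
            rw [h4, norm_neg]
            exact h3
          rwa [norm_mul, Complex.norm_real, Real.norm_eq_abs, abs_of_pos hs0] at h6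
        have h7 : s * ‖z - -(L a)‖ ≤ s * (m / 4) := by linarith
        exact le_of_mul_le_mul_left h7 hs0
      rw [hz1, cdir_smul hs0, ← norm_neg, neg_sub]
      refine cdir_close (fun h0 => hne a ha (hL0 a (neg_eq_zero.1 h0))) ?_
      have h8 := hmL a ha
      rw [norm_neg]
      linarith
  refine odd_not_lifts hE (g := fun a => cdir (-(L a))) (fun a => ?_) h2
  simp only [map_neg, neg_neg]
  unfold cdir
  rw [norm_neg]
  ring

end Pool.Schoen
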