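import Pool.Agent.H.MP_6c077c_gt.Al.LinkB
import Pool.Agent.H.MP_6c077c_gt.Al.LinkD

/-! Linking lemma: a set with the lifting property which contains the boundary of a planar disc
does not avoid a closed polygon which crosses the disc once. -/

set_option autoImplicit false

namespace Pool.Schoen

open Matrix ComplexConjugate Filter Set Metric
open scoped Topology RealInnerProductSpace ContDiff

variable {V : Type*} [NormedAddCommGroup V] [InnerProductSpace ℝ V]

/-- The vertical coordinate and a complex coordinate of the hyperplane. -/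
noncomputable def cdOf {e : V} (he : ‖e‖ = 1) (κ : (ℝ ∙ e)ᗮ ≃ₗᵢ[ℝ] ℂ) : Cd V where
  z := innerSL ℝ e
  w := (κ.toContinuousLinearEquiv : (ℝ ∙ e)ᗮ →L[ℝ] ℂ).comp (hprL e)
  hin := by
    intro a b
    have h1 := hpr_add he a
    have h2 := hpr_add he b
    have h3 : (conj (κ (hpr e a)) * κ (hpr e b)).re = ⟪hpr e a, hpr e b⟫ := by
      rw [mul_comm, ← Complex.inner, κ.inner_map_map]
    have h4 : ⟪(hpr e a : V) + ⟪e, a⟫ • e, (hpr e b : V) + ⟪e, b⟫ • e⟫ =
        ⟪e, a⟫ * ⟪e, b⟫ + ⟪hpr e a, hpr e b⟫ := by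
      rw [inner_add_left, inner_add_right, inner_add_right, real_inner_smul_left,
        real_inner_smul_left, real_inner_smul_right, real_inner_smul_right, BaseDef_inner,
        real_inner_comm e (hpr e a : V), BaseDef_inner, real_inner_self_eq_norm_sq, he]
      rw [Submodule.coe_inner]
      ring
    rw [h1, h2] at h4
    rw [h4]
    simp only [ContinuousLinearMap.comp_apply, innerSL_apply_apply]
    rw [← h3]
    rfl

theorem cdOf_z {e : V} (he : ‖e‖ = 1) (κ : (ℝ ∙ e)ᗮ ≃ₗᵢ[ℝ] ℂ) (x : V) :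
    (cdOf he κ).z x = ⟪e, x⟫ := by
  simp [cdOf]

theorem cdOf_w {e : V} (he : ‖e‖ = 1) (κ : (ℝ ∙ e)ᗮ ≃ₗᵢ[ℝ] ℂ) (x : V) :
    (cdOf he κ).w x = κ (hpr e x) := rfl

/-- The product of the matrices of two vertically opposite points. -/
theorem pm_pm {h r : ℝ} (hh : 0 < h) {w : ℂ} (hr : 0 ≤ r) (hr2 : r ^ 2 = h ^ 2 + ‖w‖ ^ 2) :
    pm (-h) w r * pm h w r =
      (2 * w) • !![conj w, conj w * conj w / ((r + h : ℝ) : ℂ); ((r + h : ℝ) : ℂ), conj w] := by
  have h1 : 0 < r + h := by linarith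
  have h2 : ((r + h : ℝ) : ℂ) ≠ 0 := by exact_mod_cast h1.ne'
  have h3 : w * conj w = ((r + h : ℝ) : ℂ) * ((r - h : ℝ) : ℂ) := by
    rw [Complex.mul_conj, Complex.normSq_eq_norm_sq, ← Complex.ofReal_mul]
    congr 1
    nlinarith
  have h4 : w * (conj w * conj w / ((r + h : ℝ) : ℂ)) = conj w * ((r - h : ℝ) : ℂ) := by
    rw [mul_div_assoc', div_eq_iff h2, ← mul_assoc, h3]
    ring
  ext i j
  fin_cases i <;> fin_cases j
  · simp [pm, Matrix.mul_apply, Fin.sum_univ_two]
    push_cast at h3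
    linear_combination (-1 : ℂ) * h3
  · simp only [pm, Matrix.mul_apply, Fin.sum_univ_two, Matrix.smul_apply, smul_eq_mul,
      Matrix.of_apply, Matrix.cons_val', Matrix.cons_val_zero, Matrix.cons_val_one]
    simp
    push_cast at h4
    linear_combination (-2 : ℂ) * h4
  · simp [pm, Matrix.mul_apply, Fin.sum_univ_two]
    ring
  · simp [pm, Matrix.mul_apply, Fin.sum_univ_two]
    push_cast at h3
    linear_combination (-1 : ℂ) * h3

end Pool.Schoen
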