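import Pool.Agent.H.MP_6c077c_gt.Al.LinkE

/-! Linking lemma: final form. -/

set_option autoImplicit false

namespace Pool.Schoen

open Matrix ComplexConjugate Filter Set Metric
open scoped Topology RealInnerProductSpace ContDiff

variable {V : Type*} [NormedAddCommGroup V] [InnerProductSpace ℝ V]

/-- The function which does not vanish off the closed polygon. -/
noncomputable def Cd.u (C : Cd V) (p q : V) (l : List V) (x : V) : ℂ :=
  (C.M q x * C.M p x * C.B l x).trace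

theorem Cd.u_continuous (C : Cd V) (p q : V) (l : List V) : Continuous fun x => C.u p q l x :=
  (((C.M_continuous q).matrix_mul (C.M_continuous p)).matrix_mul (C.B_continuous l)).matrix_trace

theorem Cd.hip_self (C : Cd V) {p x : V} (hx : x ≠ p) {ψ : Fin 2 → ℂ} (h : C.M p x = ro ψ ψ) :
    hip ψ ψ ≠ 0 := by
  refine C.hip_ne ?_ h h
  rw [segment_same, mem_singleton_iff]
  exact hx

theorem Cd.u_ne (C : Cd V) {U : Set V} {p q : V} {l : List V} (hl : Poly U p q l) {x : V}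
    (hx : x ∉ U) (hs : x ∉ segment ℝ q p) : C.u p q l x ≠ 0 := by
  obtain ⟨ψ, hψ⟩ := C.M_ro p x
  obtain ⟨χ, hχ⟩ := C.M_ro q x
  obtain ⟨α, hα, hB⟩ := hl.prod C hx ψ χ hψ hχ
  have h1 := C.hip_ne hs hχ hψ
  have h2 := C.hip_self (fun h => hs (by rw [h]; exact right_mem_segment ℝ q p)) hψ
  have h3 := C.hip_self (fun h => hs (by rw [h]; exact left_mem_segment ℝ q p)) hχ
  unfold Cd.u
  rw [hψ, hχ, hB, ro_mul, Matrix.smul_mul, Matrix.mul_smul, ro_mul, smul_smul, smul_smul,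
    Matrix.trace_smul, ro_trace, smul_eq_mul]
  exact mul_ne_zero (mul_ne_zero (mul_ne_zero h1 hα) h2) h3

/-- The second factor at the level of the disc. -/
noncomputable def lv (h r : ℝ) (w : ℂ) (B : Matrix (Fin 2) (Fin 2) ℂ) : ℂ :=
  2 * (!![conj w, conj w * conj w / ((r + h : ℝ) : ℂ); ((r + h : ℝ) : ℂ), conj w] * B).trace

theorem link_false (hn : Module.finrank ℝ V = 3) {e : V} (he : ‖e‖ = 1)
    {ψ : (ℝ ∙ e)ᗮ → (ℝ ∙ e)ᗮ} (hψ : ContDiff ℝ ∞ ψ) (hinj : ∀ a, ψ a = ψ 0 → a = 0)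
    (hd : ∀ a, fderiv ℝ ψ 0 a = 0 → a = 0) {c h : ℝ} (hh : 0 < h) {U Y : Set V} (hUo : IsOpen U)
    (hUc : IsPreconnected U) (hY : LiftS Y) (hUY : Disjoint U Y)
    (hg : ∀ a, ‖a‖ = 1 → (ψ a : V) + c • e ∈ Y) (hUD : ∀ a, ‖a‖ ≤ 1 → (ψ a : V) + c • e ∉ U)
    (hp : (ψ 0 : V) + (c + h) • e ∈ U) (hm : (ψ 0 : V) + (c - h) • e ∈ U)
    (hseg : ∀ s ∈ Icc (-h) h, (ψ 0 : V) + (c + s) • e ∉ Y) : False := by
  have hfd : FiniteDimensional ℝ V := Module.finite_of_finrank_eq_succ hn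
  have he0 : e ≠ 0 := by
    rintro rfl
    rw [norm_zero] at he
    exact zero_ne_one he
  have hE : Module.finrank ℝ (ℝ ∙ e)ᗮ = 2 := by
    have : Fact (Module.finrank ℝ V = 2 + 1) := ⟨by rw [hn]⟩
    exact Submodule.finrank_orthogonal_span_singleton he0
  have hrk : 1 < Module.rank ℝ (ℝ ∙ e)ᗮ := by
    rw [← Module.finrank_eq_rank, hE]
    norm_num
  -- coordinates
  obtain ⟨κ⟩ : Nonempty ((ℝ ∙ e)ᗮ ≃ₗᵢ[ℝ] ℂ) :=
    ⟨(stdOrthonormalBasis ℝ (ℝ ∙ e)ᗮ).equiv Complex.orthonormalBasisOneI (finCongr hE)⟩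
  obtain ⟨C, hC⟩ : ∃ C : Cd V, C = cdOf he κ := ⟨_, rfl⟩
  obtain ⟨l, hl⟩ := poly_exists hUo hUc hp hm
  obtain ⟨p, hpd⟩ : ∃ p : V, p = (ψ 0 : V) + (c + h) • e := ⟨_, rfl⟩
  obtain ⟨q, hqd⟩ : ∃ q : V, q = (ψ 0 : V) + (c - h) • e := ⟨_, rfl⟩
  rw [← hpd, ← hqd] at hl
  -- the segment
  have hsg : ∀ x, x ∈ segment ℝ q p → ∃ s ∈ Icc (-h) h, x = (ψ 0 : V) + (c + s) • e := by
    rintro x ⟨a, b, ha, hb, hab, rfl⟩
    refine ⟨b * h - a * h, ⟨?_, ?_⟩, ?_⟩
    · nlinarith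
    · nlinarith
    · have hb' : b = 1 - a := by linarith
      rw [hqd, hpd, hb']
      module
  -- the function on `Y`
  have hu0 : ∀ x ∈ Y, C.u p q l x ≠ 0 := by
    intro x hx
    refine C.u_ne hl (fun h => hUY.le_bot ⟨h, hx⟩) fun h => ?_
    obtain ⟨s, hs, rfl⟩ := hsg x h
    exact hseg s hs hx
  have h1 : Lifts Y fun x => cdir (C.u p q l x) :=
    liftS_nonzero hY (C.u_continuous p q l).continuousOn hu0
  have hcψ : Continuous fun a => (ψ a : V) + c • e :=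
    (continuous_subtype_val.comp hψ.continuous).add continuous_const
  have h2 : Lifts (sphere (0 : (ℝ ∙ e)ᗮ) 1) fun a => cdir (C.u p q l ((ψ a : V) + c • e)) :=
    h1.comp (g := fun a => (ψ a : V) + c • e) hcψ.continuousOn
      fun a ha => hg a (mem_sphere_zero_iff_norm.1 ha)
  -- the matrices at the level
  obtain ⟨r, hr⟩ : ∃ r : (ℝ ∙ e)ᗮ → ℝ, r = fun a => ‖p - ((ψ a : V) + c • e)‖ := ⟨_, rfl⟩
  have hpz : ∀ a, p - ((ψ a : V) + c • e) = ((ψ 0 - ψ a : (ℝ ∙ e)ᗮ) : V) + h • e := by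
    intro a
    rw [hpd]
    push_cast
    module
  have hqz : ∀ a, q - ((ψ a : V) + c • e) = ((ψ 0 - ψ a : (ℝ ∙ e)ᗮ) : V) + (-h) • e := by
    intro a
    rw [hqd]
    push_cast
    module
  have hr2 : ∀ a, r a ^ 2 = h ^ 2 + ‖κ (ψ 0 - ψ a)‖ ^ 2 := by
    intro a
    rw [hr]
    simp only
    rw [C.norm_sq, hC, cdOf_z, cdOf_w, hpz, inner_hpr he, hpr_coe he]
  have hr0 : ∀ a, 0 ≤ r a := by
    intro a
    rw [hr]
    exact norm_nonneg _
  have hrq : ∀ a, ‖q - ((ψ a : V) + c • e)‖ = r a := by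
    intro a
    have h3 : ‖q - ((ψ a : V) + c • e)‖ ^ 2 = r a ^ 2 := by
      rw [hr2, C.norm_sq, hC, cdOf_z, cdOf_w, hqz, inner_hpr he, hpr_coe he]
      ring
    exact (pow_left_inj₀ (norm_nonneg _) (hr0 a) two_ne_zero).1 h3
  have hMp : ∀ a, C.M p ((ψ a : V) + c • e) = pm h (κ (ψ 0 - ψ a)) (r a) := by
    intro a
    have h3 : ‖p - ((ψ a : V) + c • e)‖ = r a := by rw [hr]
    unfold Cd.M
    rw [h3, hC, cdOf_z, cdOf_w, hpz, inner_hpr he, hpr_coe he]
  have hMq : ∀ a, C.M q ((ψ a : V) + c • e) = pm (-h) (κ (ψ 0 - ψ a)) (r a) := by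
    intro a
    unfold Cd.M
    rw [hrq, hC, cdOf_z, cdOf_w, hqz, inner_hpr he, hpr_coe he]
  obtain ⟨v, hv⟩ : ∃ v : (ℝ ∙ e)ᗮ → ℂ,
      v = fun a => lv h (r a) (κ (ψ 0 - ψ a)) (C.B l ((ψ a : V) + c • e)) := ⟨_, rfl⟩
  have huv : ∀ a, C.u p q l ((ψ a : V) + c • e) = v a * κ (ψ 0 - ψ a) := by
    intro a
    unfold Cd.u
    rw [hMp, hMq, pm_pm hh (hr0 a) (hr2 a), Matrix.smul_mul, Matrix.trace_smul, hv]
    simp only [lv, smul_eq_mul]
    ring
  have hκ0 : ∀ a, κ a = 0 → a = 0 := by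
    intro a ha
    exact (map_eq_zero_iff κ κ.injective).1 ha
  -- continuity of `v`
  have hrc : Continuous r := by
    rw [hr]
    exact (continuous_const.sub hcψ).norm
  have hwc : Continuous fun a => κ (ψ 0 - ψ a) :=
    κ.continuous.comp (continuous_const.sub hψ.continuous)
  have hrh : Continuous fun a => ((r a + h : ℝ) : ℂ) :=
    Complex.continuous_ofReal.comp (hrc.add continuous_const)
  have hrh0 : ∀ a, ((r a + h : ℝ) : ℂ) ≠ 0 := by
    intro a
    have h3 : r a + h ≠ 0 := by linarith [hr0 a]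
    exact_mod_cast h3
  have hwc' : Continuous fun a => conj (κ (ψ 0 - ψ a)) := Complex.continuous_conj.comp hwc
  have hvc : Continuous v := by
    rw [hv]
    unfold lv
    refine continuous_const.mul (Continuous.matrix_trace (Continuous.matrix_mul ?_
      ((C.B_continuous l).comp hcψ)))
    refine continuous_matrix fun i j => ?_
    fin_cases i <;> fin_cases j
    · exact hwc'
    · exact (hwc'.mul hwc').div hrh hrh0
    · exact hrh
    · exact hwc'
  -- `v` does not vanish on the disc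
  have hv0 : ∀ a, ‖a‖ ≤ 1 → v a ≠ 0 := by
    intro a ha
    by_cases ha0 : a = 0
    · subst ha0
      have hw : κ (ψ 0 - ψ 0) = 0 := by rw [sub_self, map_zero]
      have hrr : r 0 = h := by
        have h3 := hr2 0
        rw [hw, norm_zero] at h3
        exact (pow_left_inj₀ (hr0 0) hh.le two_ne_zero).1 (by rw [h3]; ring)
      obtain ⟨φ, hφ⟩ := C.M_ro p ((ψ 0 : V) + c • e)
      obtain ⟨χ, hχ⟩ := C.M_ro q ((ψ 0 : V) + c • e)
      obtain ⟨α, hα, hB⟩ := hl.prod C (hUD 0 (by rw [norm_zero]; exact zero_le_one)) φ χ hφ hχ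
      have hh2 : ((h + h : ℝ) : ℂ) ≠ 0 := by
        have h3 : h + h ≠ 0 := by linarith
        exact_mod_cast h3
      have h4 : φ 0 ≠ 0 := by
        intro h5
        have h6 := congrFun (congrFun hφ 0) 0
        rw [hMp, hw, hrr] at h6
        simp only [pm, ro, Matrix.of_apply, Matrix.cons_val', Matrix.cons_val_zero,
          h5, zero_mul] at h6
        exact hh2 h6
      have h7 : χ 1 ≠ 0 := by
        intro h5
        have h6 := congrFun (congrFun hχ 1) 1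
        rw [hMq, hw, hrr] at h6
        simp only [pm, ro, Matrix.of_apply, Matrix.cons_val', Matrix.cons_val_one,
          h5, zero_mul, sub_neg_eq_add] at h6
        exact hh2 h6
      have h8 : v 0 = 2 * (((h + h : ℝ) : ℂ) * (α * (φ 0 * conj (χ 1)))) := by
        rw [hv]
        simp only [lv]
        rw [hw, hrr, hB]
        simp [Matrix.trace, Fin.sum_univ_two, ro]
      rw [h8]
      refine mul_ne_zero two_ne_zero (mul_ne_zero hh2 (mul_ne_zero hα (mul_ne_zero h4 ?_)))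
      exact (map_ne_zero _).2 h7
    · intro h3
      refine C.u_ne hl (hUD a ha) (fun h4 => ?_) (by rw [huv, h3, zero_mul])
      obtain ⟨s, _, h5⟩ := hsg _ h4
      have h6 := congrArg (hpr e) h5
      rw [hpr_coe he, hpr_coe he] at h6
      exact ha0 (hinj a h6)
  have h3 : Lifts (sphere (0 : (ℝ ∙ e)ᗮ) 1) fun a => cdir (v a) := by
    have h4 : LiftS (closedBall (0 : (ℝ ∙ e)ᗮ) 1) :=
      liftS_convex_compact (isCompact_closedBall _ _) (convex_closedBall _ _)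
    exact (liftS_nonzero h4 hvc.continuousOn fun a ha =>
      hv0 a (mem_closedBall_zero_iff.1 ha)).mono sphere_subset_closedBall
  refine disc_not_lifts hrk (κ := (κ.toContinuousLinearEquiv : (ℝ ∙ e)ᗮ →L[ℝ] ℂ))
    (fun a ha => hκ0 a ha) hψ hinj hd ?_
  refine h2.div h3 fun a _ => ?_
  rw [huv, cdir_mul]
  rfl

end Pool.Schoen
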