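import Pool.Agent.H.MP_6c077c_gt.Al.PieceC
import Pool.Agent.H.MP_6c077c_gt.Al.STop

/-! Alexander's theorem: the cut. -/

set_option autoImplicit false

namespace Pool.Schoen

open Filter Set
open scoped Topology RealInnerProductSpace ContDiff

variable {V : Type*} [NormedAddCommGroup V] [InnerProductSpace ℝ V] [FiniteDimensional ℝ V]
variable {f : V → ℝ} {e q : V} {ζ R : ℝ}

/-- The two parts of the cut are in the class, and if they are balls so is the function. -/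
theorem step_cut (hV : Module.finrank ℝ V = 3) {L : Finset ℝ} {S : Finset V} (hm : Mo f e)
    (hl : Lev f e L S) (ht : TopE f) (h : CylN f e q ζ R) (hc : ⟪e, q⟫ ∈ L)
    (hsep : ∀ c' ∈ L, c' ≠ ⟪e, q⟫ → ζ ≤ |c' - ⟪e, q⟫|) :
    ∃ (gA gC : V → ℝ) (SA SC : Finset V), SA.card < S.card ∧ SC.card < S.card ∧
      Mo gA e ∧ Lev gA e L SA ∧ TopE gA ∧ Mo gC e ∧ Lev gC e L SC ∧ TopE gC ∧
      (Rd gA → Rd gC → Rd f) := by
  have hg : Good f := good_of_regular hm.smooth hm.bdd fun x hx hd => hm.reg x hx (by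
    unfold gradient
    rw [hd, map_zero])
  have hd : 0 < ζ / 2 := by have := h.hζ; positivity
  have hdζ : 2 * (ζ / 2) ≤ ζ := by linarith
  obtain ⟨A, C, hA, hC, hA0, hC0, -, -, -, -, hAc, hAo, hCc, hCo, hl1, hl2, hR⟩ :=
    CylN.stop h hV hm.smooth hg ht.conn ht.out ht.lift hd hdζ
  obtain ⟨hAm, SA, hAl, hAS⟩ := piece_class hV hm hl h hc hsep hd hdζ hA hA0
  obtain ⟨hCm, SC, hCl, hCS⟩ := piece_class hV hm hl h hc hsep hd hdζ hC hC0
  exact ⟨A, C, SA, SC, hAS, hCS, hAm, hAl,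
    ⟨hAc, hAo, ht.lift.imp (fun x => (hl1 x).1) (fun x => (hl2 x).1)⟩, hCm, hCl,
    ⟨hCc, hCo, ht.lift.imp (fun x => (hl1 x).2) (fun x => (hl2 x).2)⟩, hR⟩

end Pool.Schoen
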