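import Pool.Agent.H.MP_6c077c_gt.Al.StepN
import Pool.Agent.H.MP_6c077c_gt.Al.StepD
import Pool.Agent.H.MP_6c077c_gt.Al.BaseR
import Pool.Agent.H.MP_6c077c_gt.Al.Levs

/-! Alexander's theorem. -/

set_option autoImplicit false

namespace Pool.Schoen

open Filter Set
open scoped Topology RealInnerProductSpace ContDiff

variable {V : Type*} [NormedAddCommGroup V] [InnerProductSpace ℝ V] [FiniteDimensional ℝ V]

/-- Induction on the number of markers. -/
theorem al_rd (hV : Module.finrank ℝ V = 3) {e : V} (he : ‖e‖ = 1) (L : Finset ℝ) :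
    ∀ (n : ℕ) (S : Finset V) (f : V → ℝ), S.card = n → Mo f e → Lev f e L S → TopE f → Rd f := by
  haveI : Nontrivial V := Module.nontrivial_of_finrank_pos (R := ℝ) (by omega)
  intro n
  induction n using Nat.strong_induction_on with
  | _ n ih =>
    intro S f hn hm hl ht
    by_cases hne : ∃ c ∈ L, ∃ x, f x = 0 ∧ ⟪e, x⟫ = c
    · obtain ⟨c, hc, hx⟩ := hne
      obtain ⟨G, ζ, R, S', hG, hS', hGm, hGl, hGt, hk, hsep⟩ := step_normal hV he hm hl ht hc hx
      apply hG
      have hce : ⟪e, c • e⟫ = c := by
        rw [real_inner_smul_right, real_inner_self_eq_norm_sq, he]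
        ring
      obtain ⟨gA, gC, SA, SC, hA, hC, a1, a2, a3, b1, b2, b3, hR⟩ :=
        step_cut hV hGm hGl hGt hk (by rw [hce]; exact hc) (by rw [hce]; exact hsep)
      exact hR (ih SA.card (by omega) SA gA rfl a1 a2 a3) (ih SC.card (by omega) SC gC rfl b1 b2 b3)
    · push Not at hne
      exact base_rd hV he hm hl ht hne

/-- The bounded form. -/
theorem alexander_rd_bdd (hV : Module.finrank ℝ V = 3) {F : V → ℝ} (hF : ContDiff ℝ ∞ F)
    (hb : Bornology.IsBounded {x | F x ≤ 0}) (hr : ∀ x, F x = 0 → gradient F x ≠ 0)
    (ht : TopE F) : Rd F := by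
  obtain ⟨e, Φ, Ψ, he, hdif, hfin, hidx, hdist⟩ := al_start 2 (by omega) F hF hb hr
  have hm : Mo (fun y => F (Φ y)) e :=
    { smooth := hF.comp hdif.smooth
      bdd := (hdif.bounded hb).subset fun x hx => le_of_eq hx
      reg := fun x hx => hdif.reg hF (hr _ hx)
      nd := hidx }
  obtain ⟨L, S, hl⟩ := exists_levels he hm hfin hdist
  exact (Rd.comp_dif hdif).1 (al_rd hV he L _ S _ rfl hm hl (ht.comp_dif hdif))

/-- Alexander's theorem, two-sided form: if both sides of a smooth compact surface of
three-dimensional space are connected and one of them has the lifting property, then the bounded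
side is a ball. -/
theorem alexander_rd (hV : Module.finrank ℝ V = 3) {F : V → ℝ} (hF : ContDiff ℝ ∞ F)
    (hb : Bornology.IsBounded {x | F x = 0}) (hr : ∀ x, F x = 0 → gradient F x ≠ 0)
    (ht : TopE F) : Rd F := by
  rcases BaseR_side hV hF.continuous hb with h | h
  · exact alexander_rd_bdd hV hF h hr ht
  · have h1 : Rd fun x => -F x := by
      refine alexander_rd_bdd hV hF.neg ?_ ?_ ht.neg
      · refine h.subset fun x hx => ?_
        have hx' : -F x ≤ 0 := hx
        show 0 ≤ F x
        linarith
      · intro x hx hg
        have hx' : -F x = 0 := hx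
        refine hr x (by linarith) ?_
        have h2 : gradient (fun y => -F y) x = -gradient F x := by
          unfold gradient
          rw [fderiv_fun_neg, map_neg]
        rw [h2, neg_eq_zero] at hg
        exact hg
    have h2 := h1.neg
    simpa using h2

/-- Alexander's theorem: a smooth bounded domain of three-dimensional space with connected closure, on
which every circle map lifts, and with connected complement is a ball. -/
theorem alexander (hV : Module.finrank ℝ V = 3) (F : V → ℝ) (hD : Dom F)
    (hc : IsPreconnected {x | 0 < F x}) : IsBall F := by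
  haveI : Nontrivial V := Module.nontrivial_of_finrank_pos (R := ℝ) (by omega)
  exact (alexander_rd_bdd hV hD.smooth hD.bdd hD.reg (hD.topE hc)).isBall hD.bdd

end Pool.Schoen
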