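import Pool.Agent.H.MP_6c077c_gt.Ix.GlA
import Pool.Agent.H.MP_6c077c_gt.Ix.Dz

/-! Alexander theorem: the neck homotopy along a straight cylinder. -/

set_option autoImplicit false

namespace Pool.Schoen

open Filter Set
open scoped Topology RealInnerProductSpace ContDiff

variable {V : Type*} [NormedAddCommGroup V] [InnerProductSpace ℝ V]

/-- Near the disc of centre `q` orthogonal to `e` the function is `‖y‖ ^ 2 - 1`. -/
structure CylN (f : V → ℝ) (e q : V) (ζ R : ℝ) : Prop where
  he : ‖e‖ = 1
  hζ : 0 < ζ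
  hR : 1 < R
  hf : ∀ x, |⟪e, x - q⟫| < ζ → ‖orth e (x - q)‖ < R → f x = ‖orth e (x - q)‖ ^ 2 - 1

/-- Positive exactly in the open flat cylinder of half height `η` and radius `r`. -/
noncomputable def lamC (e q : V) (η r : ℝ) (x : V) : ℝ :=
  min (η - |⟪e, x - q⟫|) (r - ‖orth e (x - q)‖)

/-- The flat cut. -/
noncomputable def fcutC (f : V → ℝ) (e q : V) (η r : ℝ) (x : V) : ℝ := max (f x) (lamC e q η r x)

theorem lamC_continuous (e q : V) (η r : ℝ) : Continuous (lamC e q η r) := by
  unfold lamC orth
  fun_prop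

variable {f : V → ℝ} {e q : V} {ζ R η r : ℝ}

theorem orth_shift (he : ‖e‖ = 1) (q x : V) (s : ℝ) :
    orth e (x - (q + s • e)) = orth e (x - q) := by
  have e1 : x - (q + s • e) = (x - q) - s • e := by abel
  unfold orth
  rw [e1, inner_sub_right, real_inner_smul_right, real_inner_self_eq_norm_sq, he]
  module

theorem inner_shift (he : ‖e‖ = 1) (q x : V) (s : ℝ) :
    ⟪e, x - (q + s • e)⟫ = ⟪e, x - q⟫ - s := by
  have e1 : x - (q + s • e) = (x - q) - s • e := by abel
  rw [e1, inner_sub_right, real_inner_smul_right, real_inner_self_eq_norm_sq, he]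
  ring

/-- In the body and in the flat cylinder one is in the cylinder of radius one. -/
theorem CylN.near (h : CylN f e q ζ R) (hη : η < ζ) (hr : r < R) {x : V} (hx : f x ≤ 0)
    (hl : 0 ≤ lamC e q η r x) : |⟪e, x - q⟫| ≤ η ∧ ‖orth e (x - q)‖ ≤ 1 ∧
      f x = ‖orth e (x - q)‖ ^ 2 - 1 := by
  unfold lamC at hl
  rw [le_min_iff] at hl
  have h1 : f x = ‖orth e (x - q)‖ ^ 2 - 1 := h.hf x (by linarith [hl.1]) (by linarith [hl.2])
  refine ⟨by linarith [hl.1], ?_, h1⟩
  rw [h1] at hx
  have h2 := norm_nonneg (orth e (x - q))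
  by_contra h3
  push Not at h3
  nlinarith

theorem CylN.eq_near (h : CylN f e q ζ R) {x : V} (h1 : |⟪e, x - q⟫| < ζ)
    (h2 : ‖orth e (x - q)‖ < R) : ∀ᶠ y in 𝓝 x, f y = ‖orth e (y - q)‖ ^ 2 - 1 := by
  have c1 : Continuous fun y : V => |⟪e, y - q⟫| := by fun_prop
  have c2 : Continuous fun y : V => ‖orth e (y - q)‖ := by
    unfold orth
    fun_prop
  filter_upwards [c1.continuousAt.eventually_lt_const h1,
    c2.continuousAt.eventually_lt_const h2] with y h3 h4
  exact h.hf y h3 h4

theorem lamC_near (hη : 0 < η) (hr : 1 < r) {x : V} (h1 : ‖orth e (x - q)‖ ≤ 1)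
    (h2 : |⟪e, x - q⟫| = η) : ∀ᶠ y in 𝓝 x, lamC e q η r y = η - |⟪e, y - q⟫| := by
  have c1 : Continuous fun y : V => η - |⟪e, y - q⟫| := by fun_prop
  have c2 : Continuous fun y : V => r - ‖orth e (y - q)‖ := by
    unfold orth
    fun_prop
  have h3 : (fun y : V => η - |⟪e, y - q⟫|) x < (fun y : V => r - ‖orth e (y - q)‖) x := by
    beta_reduce
    rw [h2]
    linarith
  filter_upwards [c1.continuousAt.eventually_lt c2.continuousAt h3] with y hy
  unfold lamC
  exact min_eq_left hy.le

/-- The direction `v = - y + t e` has the following inner products. -/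
theorem cyl_dir (he : ‖e‖ = 1) (q x : V) (t : ℝ) :
    ⟪orth e (x - q), t • e - orth e (x - q)⟫ = -‖orth e (x - q)‖ ^ 2 ∧
      ⟪e, t • e - orth e (x - q)⟫ = t := by
  have h1 : ⟪e, orth e (x - q)⟫ = 0 := inner_orth he _
  have h2 : ⟪orth e (x - q), e⟫ = 0 := by rw [real_inner_comm]; exact h1
  constructor
  · rw [inner_sub_right, real_inner_smul_right, h2, real_inner_self_eq_norm_sq]
    ring
  · rw [inner_sub_right, real_inner_smul_right, h1, real_inner_self_eq_norm_sq, he]
    ring

/-- Descent of `lamC` away from the middle plane. -/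
theorem lamC_dz (he : ‖e‖ = 1) (hη : 0 < η) (hr : 1 < r) {x v : V} (h1 : ‖orth e (x - q)‖ ≤ 1)
    (hv : |⟪e, x - q⟫| = η → 0 < ⟪e, x - q⟫ * ⟪e, v⟫) : DZ1 (lamC e q η r) x v := by
  intro h0
  have h2 : |⟪e, x - q⟫| = η := by
    unfold lamC at h0
    rcases min_choice (η - |⟪e, x - q⟫|) (r - ‖orth e (x - q)‖) with h3 | h3
    · rw [h3] at h0
      linarith
    · rw [h3] at h0
      linarith
  have hn := lamC_near (e := e) (q := q) hη hr h1 h2
  have hc : Continuous (fun y : V => ⟪e, y - q⟫) := by fun_prop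
  have hv' := hv h2
  have haff : ∀ w : V, ⟪w, v⟫ < 0 → Desc1 (fun y => ⟪w, y - q⟫ + η) x v := by
    intro w hw
    have h5 := (desc1_affine (x := x) w q hw)
    exact desc_add_const h5 (fun _ => η)
  rcases mul_pos_iff.1 hv' with ⟨h3, h4⟩ | ⟨h3, h4⟩
  · refine (haff (-e) (by rw [inner_neg_left]; linarith)).congr ?_
    filter_upwards [hn, hc.continuousAt.eventually_const_lt h3] with y hy1 hy2
    rw [hy1, abs_of_pos hy2, inner_neg_left]
    ring
  · refine (haff e h4).congr ?_
    filter_upwards [hn, hc.continuousAt.eventually_lt_const h3] with y hy1 hy2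
    rw [hy1, abs_of_neg hy2]
    ring

/-- The family of the neck. -/
noncomputable def neckC (f : V → ℝ) (e q : V) (η r ρ s : ℝ) (x : V) : ℝ :=
  max (f x) (min (lamC e q η r x) (tubeF (q + (-η) • e) e (-ρ) (2 * η + ρ) s x))

/-- First step: for the radius `s = r` nothing changes. -/
theorem CylN.neck_start (h : CylN f e q ζ R) (hg : Good f) (hη : 0 < η) (hηζ : η < ζ) (hr : 1 < r)
    (hrR : r < R) {ρ : ℝ} (hρ : 0 < ρ) : Hom f (neckC f e q η r ρ r) := by
  have hfc := hg.cont
  have hlc := lamC_continuous e q η r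
  have hTc := tubeF_continuous (q + (-η) • e) e (-ρ) (2 * η + ρ) r
  have key : ∀ x, f x ≤ 0 →
      min (lamC e q η r x) (tubeF (q + (-η) • e) e (-ρ) (2 * η + ρ) r x) < 0 := by
    intro x hx
    by_cases hl : lamC e q η r x < 0
    · exact (min_le_left _ _).trans_lt hl
    · obtain ⟨h1, h2, h3⟩ := h.near hηζ hrR hx (not_lt.1 hl)
      have h4 := abs_le.1 h1
      refine (min_le_right _ _).trans_lt ?_
      rw [tubeF_lt (by linarith), inner_shift h.he, orth_shift h.he]
      exact ⟨by linarith, by linarith, by linarith⟩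
  have hN : ∀ x, neckC f e q η r ρ r x = max (f x)
      (min (lamC e q η r x) (tubeF (q + (-η) • e) e (-ρ) (2 * η + ρ) r x)) := fun x => rfl
  refine Hom.of_eq_near' hg ?_ ?_ ?_
  · exact hfc.max (hlc.min hTc)
  · intro x hx
    have hx0 : f x = 0 := by
      rcases hx with hx | hx
      · exact hx
      · rw [hN] at hx
        have h1 : f x ≤ 0 := (le_max_left _ _).trans hx.le
        rcases max_choice (f x)
          (min (lamC e q η r x) (tubeF (q + (-η) • e) e (-ρ) (2 * η + ρ) r x)) with h2 | h2
        · rw [← h2]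
          exact hx
        · rw [h2] at hx
          exact absurd hx (key x h1).ne
    have h1 : ∀ᶠ y in 𝓝 x, min (lamC e q η r y)
        (tubeF (q + (-η) • e) e (-ρ) (2 * η + ρ) r y) < f y := by
      refine (hlc.min hTc).continuousAt.eventually_lt hfc.continuousAt ?_
      rw [hx0]
      exact key x hx0.le
    filter_upwards [h1] with y hy
    rw [hN, max_eq_left hy.le]
  · intro x hf hgx
    rcases lt_or_gt_of_ne hf with h1 | h1
    · refine mul_pos_of_neg_of_neg h1 ?_
      rw [hN]
      exact max_lt h1 (key x h1.le)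
    · refine mul_pos h1 ?_
      rw [hN]
      exact lt_max_of_lt_left h1

/-- Second step: the radius shrinks from `r` to `ρ`. -/
theorem CylN.neck_shrink (h : CylN f e q ζ R) (hg : Good f) (hη : 0 < η) (hηζ : η < ζ) (hr : 1 < r)
    (hrR : r < R) {ρ : ℝ} (hρ : 0 < ρ) : Hom (neckC f e q η r ρ r) (neckC f e q η r ρ ρ) := by
  have he := h.he
  have hfc := hg.cont
  have hlc := lamC_continuous e q η r
  have hRc : Continuous fun t : ℝ => r + t * (ρ - r) := by fun_prop
  have hRpos : ∀ t ∈ Icc (0 : ℝ) 1, 0 < r + t * (ρ - r) := by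
    intro t ht
    rcases eq_or_lt_of_le ht.1 with h1 | h1
    · rw [← h1]
      linarith
    · have h2 : 0 < t * ρ := mul_pos h1 hρ
      have h3 : 0 ≤ (1 - t) * r := mul_nonneg (by linarith [ht.2]) (by linarith)
      nlinarith
  have c1 : Continuous fun p' : ℝ × V => f p'.2 := hfc.comp continuous_snd
  have c2 : Continuous fun p' : ℝ × V => lamC e q η r p'.2 := hlc.comp continuous_snd
  have c3 : Continuous fun p' : ℝ × V =>
      tubeF (q + (-η) • e) e (-ρ) (2 * η + ρ) (r + p'.1 * (ρ - r)) p'.2 :=
    tubeF_continuous' (q + (-η) • e) e (α := fun _ => -ρ) (β := fun _ => 2 * η + ρ)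
      (ρ := fun t => r + t * (ρ - r)) continuous_const continuous_const hRc
  refine ⟨fun t => neckC f e q η r ρ (r + t * (ρ - r)), c1.max (c2.min c3), ?_, ?_, ?_, ?_⟩
  · simp only [zero_mul, add_zero]
  · simp only [one_mul, add_sub_cancel]
  · obtain ⟨R0, hR0⟩ := hg.bdd.exists_norm_le
    refine ⟨max R0 (‖q‖ + (η + 1)), fun t ht x hx => ?_⟩
    have hx' : max (f x) (min (lamC e q η r x)
      (tubeF (q + (-η) • e) e (-ρ) (2 * η + ρ) (r + t * (ρ - r)) x)) = 0 := hx
    have hf0 : f x ≤ 0 := (le_max_left _ _).trans hx'.le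
    by_cases hfz : f x = 0
    · exact (hR0 x hfz).trans (le_max_left _ _)
    · have hm : min (lamC e q η r x)
          (tubeF (q + (-η) • e) e (-ρ) (2 * η + ρ) (r + t * (ρ - r)) x) = 0 := by
        rcases max_choice (f x) (min (lamC e q η r x)
          (tubeF (q + (-η) • e) e (-ρ) (2 * η + ρ) (r + t * (ρ - r)) x)) with h2 | h2
        · rw [h2] at hx'
          exact absurd hx' hfz
        · rw [← h2]
          exact hx'
      have hl : 0 ≤ lamC e q η r x := by
        rw [← hm]
        exact min_le_left _ _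
      obtain ⟨h1, h2, _⟩ := h.near hηζ hrR hf0 hl
      refine le_trans ?_ (le_max_right _ _)
      have h3 : x = q + (⟪e, x - q⟫ • e + orth e (x - q)) := by
        unfold orth
        abel
      calc ‖x‖ = ‖q + (⟪e, x - q⟫ • e + orth e (x - q))‖ := by rw [← h3]
        _ ≤ ‖q‖ + (‖⟪e, x - q⟫ • e‖ + ‖orth e (x - q)‖) :=
            (norm_add_le _ _).trans (add_le_add le_rfl (norm_add_le _ _))
        _ ≤ ‖q‖ + (η + 1) := by
            rw [norm_smul, he, mul_one, Real.norm_eq_abs]
            linarith
  · intro t ht x hx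
    have hx' : max (f x) (min (lamC e q η r x)
      (tubeF (q + (-η) • e) e (-ρ) (2 * η + ρ) (r + t * (ρ - r)) x)) = 0 := hx
    have hf0 : f x ≤ 0 := (le_max_left _ _).trans hx'.le
    by_cases hl : lamC e q η r x < 0
    · have hm : min (lamC e q η r x)
          (tubeF (q + (-η) • e) e (-ρ) (2 * η + ρ) (r + t * (ρ - r)) x) < 0 :=
        (min_le_left _ _).trans_lt hl
      have hfz : f x = 0 := by
        rcases max_choice (f x) (min (lamC e q η r x)
          (tubeF (q + (-η) • e) e (-ρ) (2 * η + ρ) (r + t * (ρ - r)) x)) with h2 | h2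
        · rw [← h2]
          exact hx'
        · rw [h2] at hx'
          exact absurd hx' hm.ne
      obtain ⟨v, hv⟩ := hg.desc x hfz
      refine ⟨v, dz_max c1 (c2.min c3) (dz_static fun _ => hv) ?_ hx⟩
      exact dz_of_ne hm.ne
    · have hl' := not_lt.1 hl
      obtain ⟨n1, n2, n3⟩ := h.near hηζ hrR hf0 hl'
      have n4 := abs_le.1 n1
      obtain ⟨v1, v2⟩ := cyl_dir he q x ⟪e, x - q⟫
      obtain ⟨v, hv⟩ : ∃ v, v = ⟪e, x - q⟫ • e - orth e (x - q) := ⟨_, rfl⟩
      rw [← hv] at v1 v2
      have d1 : DZ1 f x v := by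
        intro hfx
        have h1 : ‖orth e (x - q)‖ ^ 2 = 1 := by linarith
        have h2 := desc1_lateral (q := q) he 1 (x := x) (v := v) (by rw [v1, h1]; norm_num)
        refine h2.congr ?_
        filter_upwards [h.eq_near (x := x) (by linarith) (by linarith)] with y hy
        rw [hy, one_pow]
      have d2 : DZ1 (lamC e q η r) x v := by
        refine lamC_dz he hη hr n2 ?_
        intro h1
        rw [v2]
        refine mul_self_pos.2 ?_
        intro h3
        rw [h3, abs_zero] at h1
        linarith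
      have d3 : DZ (fun s => tubeF (q + (-η) • e) e (-ρ) (2 * η + ρ) (r + s * (ρ - r))) t x v := by
        refine tubeF_dz (ρ := fun s => r + s * (ρ - r)) he hRc ?_ ?_ ?_
        · rw [inner_shift he]
          linarith
        · rw [inner_shift he]
          linarith
        · rw [orth_shift he]
          intro h1
          rw [v1, h1]
          have h2 := hRpos t ht
          have h3 : 0 < (r + t * (ρ - r)) ^ 2 := by positivity
          linarith
      exact ⟨v, dz_max c1 (c2.min c3) (dz_static d1) (dz_min c2 c3 (dz_static d2) d3) hx⟩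

/-- For small `ρ` the tube is in the interior of the body. -/
theorem CylN.neck_tube [FiniteDimensional ℝ V] (h : CylN f e q ζ R) (hg : Good f) (hη : 0 < η)
    (hηζ : η < ζ) :
    ∀ᶠ ρ in 𝓝[>] (0 : ℝ), ∀ x, tau (q + (-η) • e) e (2 * η) ρ x ≤ 0 → f x < 0 := by
  have he := h.he
  have hfc := hg.cont
  have hseg : ∀ s ∈ Icc (0 : ℝ) (2 * η), f (q + (-η) • e + s • e) < 0 := by
    intro s hs
    have e1 : q + (-η) • e + s • e - q = (s - η) • e := by module
    have e2 : ⟪e, (s - η) • e⟫ = s - η := by
      rw [real_inner_smul_right, real_inner_self_eq_norm_sq, he]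
      ring
    have e3 : orth e ((s - η) • e) = 0 := by
      unfold orth
      rw [e2, sub_self]
    rw [h.hf _ ?_ ?_, e1, e3, norm_zero]
    · norm_num
    · rw [e1, e2]
      have h1 : |s - η| ≤ η := by
        rw [abs_le]
        exact ⟨by linarith [hs.1], by linarith [hs.2]⟩
      linarith
    · rw [e1, e3, norm_zero]
      linarith [h.hR]
  have hq : f (q + (-η) • e) < 0 := by
    have h1 := hseg 0 ⟨le_rfl, by linarith⟩
    rwa [zero_smul, add_zero] at h1
  obtain ⟨r', hr', hball⟩ := Metric.eventually_nhds_iff.1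
    (hfc.continuousAt.eventually_lt_const hq)
  have h1 := tau_small (q := q + (-η) • e) he (by linarith : 0 < 2 * η) (G := fun x => -f x)
    hfc.neg (fun s hs => by
      have := hseg s ⟨hs.1.le, hs.2⟩
      linarith) hr'
  filter_upwards [h1] with ρ hρ x hx
  rcases hρ x hx with h2 | h2
  · exact hball (by rw [dist_eq_norm]; exact h2)
  · linarith

/-- Last step. -/
theorem CylN.neck_end (h : CylN f e q ζ R) (hg : Good f) (hη : 0 < η) (hηζ : η < ζ) (hr : 1 < r)
    (hrR : r < R) {ρ : ℝ} (hρ : 0 < ρ)
    (hT : ∀ x, tau (q + (-η) • e) e (2 * η) ρ x ≤ 0 → f x < 0) :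
    Hom (neckC f e q η r ρ ρ)
      (fun x => min (fcutC f e q η r x) (tau (q + (-η) • e) e (2 * η) ρ x)) := by
  have hfc := hg.cont
  have hlc := lamC_continuous e q η r
  have hτc := tau_continuous (q + (-η) • e) e (2 * η) ρ
  have hcc : Continuous (fcutC f e q η r) := hfc.max hlc
  have hN : ∀ x, neckC f e q η r ρ ρ x = max (f x)
      (min (lamC e q η r x) (tau (q + (-η) • e) e (2 * η) ρ x)) := fun x => rfl
  have hC : ∀ x, fcutC f e q η r x = max (f x) (lamC e q η r x) := fun x => rfl
  refine Hom.of_eq_near' (h.neck_shrink hg hη hηζ hr hrR hρ).good_right (hcc.min hτc) ?_ ?_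
  · intro x hx
    rw [hN, hC] at hx
    generalize hF : f x = F at hx
    generalize hL : lamC e q η r x = L at hx
    generalize hA : tau (q + (-η) • e) e (2 * η) ρ x = A at hx
    rcases lt_trichotomy A 0 with h1 | h1 | h1
    · exfalso
      have h2 : F < 0 := by
        rw [← hF]
        exact hT x (by rw [hA]; exact h1.le)
      rcases hx with hx | hx
      · have h3 : max F (min L A) < 0 := max_lt h2 ((min_le_right _ _).trans_lt h1)
        linarith
      · have h3 : min (max F L) A < 0 := (min_le_right _ _).trans_lt h1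
        linarith
    · have h2 : F < 0 := by
        rw [← hF]
        exact hT x (by rw [hA]; exact h1.le)
      have h3 : 0 ≤ L := by
        rcases hx with hx | hx
        · by_contra h4
          have h5 : max F (min L A) < 0 := max_lt h2 ((min_le_left _ _).trans_lt (not_le.1 h4))
          linarith
        · by_contra h4
          have h5 : min (max F L) A < 0 := (min_le_left _ _).trans_lt (max_lt h2 (not_le.1 h4))
          linarith
      have e1 : ∀ᶠ y in 𝓝 x, f y < lamC e q η r y :=
        hfc.continuousAt.eventually_lt hlc.continuousAt (by rw [hF, hL]; linarith)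
      have e2 : ∀ᶠ y in 𝓝 x, f y < tau (q + (-η) • e) e (2 * η) ρ y :=
        hfc.continuousAt.eventually_lt hτc.continuousAt (by rw [hF, hA]; linarith)
      filter_upwards [e1, e2] with y h4 h5
      rw [hN, hC, max_eq_right h4.le, max_eq_right (le_min h4.le h5.le)]
    · have h3 : max F L = 0 ∧ L ≤ 0 := by
        rcases hx with hx | hx
        · have h4 : L ≤ 0 := by
            by_contra h5
            have h6 : 0 < min L A := lt_min (not_le.1 h5) h1
            have h7 := le_max_right F (min L A)
            linarith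
          rw [min_eq_left (h4.trans h1.le)] at hx
          exact ⟨hx, h4⟩
        · have h4 : max F L = 0 := by
            rcases min_choice (max F L) A with h5 | h5
            · rw [← h5]
              exact hx
            · rw [h5] at hx
              linarith
          exact ⟨h4, (le_max_right F L).trans h4.le⟩
      have e1 : ∀ᶠ y in 𝓝 x, lamC e q η r y < tau (q + (-η) • e) e (2 * η) ρ y :=
        hlc.continuousAt.eventually_lt hτc.continuousAt (by rw [hL, hA]; linarith [h3.2])
      have e2 : ∀ᶠ y in 𝓝 x, fcutC f e q η r y < tau (q + (-η) • e) e (2 * η) ρ y :=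
        hcc.continuousAt.eventually_lt hτc.continuousAt (by rw [hC, hF, hL, hA]; linarith [h3.1])
      filter_upwards [e1, e2] with y h4 h5
      rw [min_eq_left h5.le, hN, hC, min_eq_left h4.le]
  · intro x hx hy
    rw [hN] at hx
    rw [hC] at hy
    rw [hN, hC]
    generalize hF : f x = F at hx hy
    generalize hL : lamC e q η r x = L at hx hy
    generalize hA : tau (q + (-η) • e) e (2 * η) ρ x = A at hx hy
    rcases lt_trichotomy A 0 with h1 | h1 | h1
    · have h2 : F < 0 := by
        rw [← hF]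
        exact hT x (by rw [hA]; exact h1.le)
      exact mul_pos_of_neg_of_neg (max_lt h2 ((min_le_right _ _).trans_lt h1))
        ((min_le_right _ _).trans_lt h1)
    · have h2 : F < 0 := by
        rw [← hF]
        exact hT x (by rw [hA]; exact h1.le)
      by_cases h3 : L < 0
      · exact mul_pos_of_neg_of_neg (max_lt h2 ((min_le_left _ _).trans_lt h3))
          ((min_le_left _ _).trans_lt (max_lt h2 h3))
      · exfalso
        apply hx
        rw [h1, min_eq_right (not_lt.1 h3)]
        exact max_eq_right h2.le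
    · by_cases h3 : L ≤ 0
      · have h4 : min L A = L := min_eq_left (h3.trans h1.le)
        rw [h4] at hx ⊢
        rcases lt_or_gt_of_ne hx with h5 | h5
        · exact mul_pos_of_neg_of_neg h5 ((min_le_left _ _).trans_lt h5)
        · exact mul_pos h5 (lt_min h5 h1)
      · have h5 := not_le.1 h3
        exact mul_pos (lt_max_of_lt_right (lt_min h5 h1)) (lt_min (lt_max_of_lt_right h5) h1)

/-- The neck homotopy. -/
theorem CylN.neck [FiniteDimensional ℝ V] (h : CylN f e q ζ R) (hg : Good f) (hη : 0 < η)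
    (hηζ : η < ζ) (hr : 1 < r) (hrR : r < R) : ∀ᶠ ρ in 𝓝[>] (0 : ℝ),
    Hom f (fun x => min (fcutC f e q η r x) (tau (q + (-η) • e) e (2 * η) ρ x)) := by
  filter_upwards [h.neck_tube hg hη hηζ, self_mem_nhdsWithin] with ρ h1 hρ
  have hρ' : 0 < ρ := hρ
  exact ((h.neck_start hg hη hηζ hr hrR hρ').trans (h.neck_shrink hg hη hηζ hr hrR hρ')).trans
    (h.neck_end hg hη hηζ hr hrR hρ' h1)

end Pool.Schoen
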