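import Pool.Agent.H.MP_6c077c_gt.Al.Cls2
import Pool.Agent.H.MP_6c077c_gt.Al.Normal

/-! Alexander's theorem: normal form within the class. -/

set_option autoImplicit false

namespace Pool.Schoen

open Filter Set
open scoped Topology RealInnerProductSpace ContDiff

variable {V : Type*} [NormedAddCommGroup V] [InnerProductSpace ℝ V] [FiniteDimensional ℝ V]

private theorem NormN_norm {e : V} (he : ‖e‖ = 1) (c : ℝ) (x : V) :
    ‖orth e (x - c • e)‖ = ‖hpr e x‖ := by
  have h1 := orth_shift he 0 x c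
  rw [zero_add, sub_zero] at h1
  have h2 := hpr_add he x
  have h3 : orth e x = ((hpr e x : (ℝ ∙ e)ᗮ) : V) := by
    unfold orth
    rw [sub_eq_iff_eq_add]
    exact h2.symm
  rw [h1, h3]
  rfl

/-- The normal form near a horizontal disc, within the class of the induction. -/
theorem normal_step {f : V → ℝ} {e : V} (he : ‖e‖ = 1) {L : Finset ℝ} {S : Finset V} (hm : Mo f e)
    (hl : Lev f e L S) {g : (ℝ ∙ e)ᗮ → ℝ} (hg : ContDiff ℝ ∞ g) {c a d₀ : ℝ} (ha : 0 < a)
    (hd₀ : 0 < d₀) (hfg : ∀ x, |⟪e, x⟫ - c| < a → f x = g (hpr e x))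
    (hle : ∀ w, ‖w‖ < 1 + d₀ → (g w ≤ 0 ↔ ‖w‖ ≤ 1))
    (heq : ∀ w, ‖w‖ < 1 + d₀ → (g w = 0 ↔ ‖w‖ = 1))
    (hreg : ∀ w, ‖w‖ = 1 → fderiv ℝ g w ≠ 0) :
    ∃ (F : V → ℝ) (R : ℝ), Hom f F ∧ Mo F e ∧ Lev F e L S ∧ CylN F e (c • e) (a / 2) R := by
  obtain ⟨F, d, hd, -, hFs, hH, -, hFeq, hgr, hnear, -, hq⟩ :=
    normal_form hm.smooth hm.good hg ha hd₀ hfg hle heq hreg
  have hc : ∀ x, Crit F e x → F =ᶠ[𝓝 x] f := by
    intro x hx
    refine hnear x ?_
    by_contra hcon
    push Not at hcon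
    obtain ⟨h1, h2⟩ := hcon
    have hx0 : f x = 0 := (hFeq x).1 hx.1
    obtain ⟨μ, hμ, hμg⟩ := hgr x hx0
    have hcf : ∀ w : V, ⟪w, e⟫ = 0 → fderiv ℝ f x w = 0 := by
      intro w hw
      have h3 := hx.2 w hw
      rw [fderiv_eq_inner_gradient, hμg, real_inner_smul_left] at h3
      rw [fderiv_eq_inner_gradient]
      exact (mul_eq_zero.1 h3).resolve_left hμ.ne'
    have hw : ‖hpr e x‖ = 1 := (heq _ h2).1 (by rw [← hfg x h1]; exact hx0)
    refine hreg _ hw ?_
    ext w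
    have hgd : HasFDerivAt g (fderiv ℝ g (hpr e x)) (hprL e x) :=
      (hg.differentiable (by simp)).differentiableAt.hasFDerivAt
    have h3 : HasFDerivAt (fun y => g (hprL e y)) ((fderiv ℝ g (hpr e x)).comp (hprL e)) x :=
      hgd.comp x (hprL e).hasFDerivAt
    have h4 : f =ᶠ[𝓝 x] fun y => g (hprL e y) := by
      have h6 : Continuous fun y : V => |⟪e, y⟫ - c| := by fun_prop
      filter_upwards [(h6.tendsto x).eventually (gt_mem_nhds h1)] with y hy
      exact hfg y hy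
    have h5 := (h3.congr_of_eventuallyEq h4).fderiv
    have h6 := hcf (w : V) (by
      rw [real_inner_comm]
      exact Submodule.mem_orthogonal_singleton_iff_inner_right.1 w.2)
    rw [h5, ContinuousLinearMap.comp_apply] at h6
    have h7 : hprL e (w : V) = w := by
      have := hpr_coe he w 0
      rw [zero_smul, add_zero] at this
      exact this
    rw [h7] at h6
    exact h6
  have hreg' : ∀ x, F x = 0 → gradient F x ≠ 0 := by
    intro x hx h0
    have hx0 : f x = 0 := (hFeq x).1 hx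
    obtain ⟨μ, hμ, hμg⟩ := hgr x hx0
    rw [hμg] at h0
    exact hm.reg x hx0 ((smul_eq_zero.1 h0).resolve_left hμ.ne')
  have hb : Bornology.IsBounded {x | F x = 0} :=
    hm.bdd.subset fun x hx => (hFeq x).1 hx
  refine ⟨F, 1 + d, hH, hm.transfer hFs hb hreg' hc, hl.transfer (fun x _ => hFeq x) hc,
    ⟨he, by linarith, by linarith, fun x h1 h2 => ?_⟩⟩
  rw [NormN_norm he] at h2 ⊢
  refine hq x h2.le ?_
  have h3 : ⟪e, x - c • e⟫ = ⟪e, x⟫ - c := by
    rw [inner_sub_right, real_inner_smul_right, real_inner_self_eq_norm_sq, he]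
    ring
  rwa [h3] at h1

end Pool.Schoen
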