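import Pool.Agent.H.MP_6c077c_gt.Al.Cls2
import Pool.Agent.H.MP_6c077c_gt.Al.Compl

/-! Alexander's theorem: one of the parts is bounded. -/

set_option autoImplicit false

namespace Pool.Schoen

open Filter Set
open scoped Topology RealInnerProductSpace ContDiff

variable {V : Type*} [NormedAddCommGroup V] [InnerProductSpace ℝ V] [FiniteDimensional ℝ V]
variable {f : V → ℝ} {e q : V} {ζ R d r : ℝ} {A C : Set V} {κ : V → ℝ}

/-- One of the two parts is bounded. PROOF. Outside of a large ball (connected, `outside_preconn`) `f`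
has no zero; if it is positive there both parts are bounded; otherwise the outside of a larger ball
(disjoint from the bounded set where `0 < lamC`) is contained in `{fcutC ≤ 0} = A ∪ C`, so in one of them, and
the other one is bounded. -/
theorem one_bdd (hV : Module.finrank ℝ V = 3) (hm : Mo f e) (h : CylN f e q ζ R)
    (hp : PartsC f e q d r A C) : Bornology.IsBounded A ∨ Bornology.IsBounded C := by
  have hfc : Continuous f := hm.smooth.continuous
  obtain ⟨R0, hR0⟩ := hm.bdd.exists_norm_le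
  obtain ⟨ρ, hρ⟩ : ∃ ρ : ℝ, ρ = max R0 (‖q‖ + |d| + |r|) + 1 := ⟨_, rfl⟩
  have hρ1 : R0 < ρ := by
    rw [hρ]
    linarith [le_max_left R0 (‖q‖ + |d| + |r|)]
  have hρ2 : ‖q‖ + |d| + |r| < ρ := by
    rw [hρ]
    linarith [le_max_right R0 (‖q‖ + |d| + |r|)]
  have hρ0 : 0 < ρ := by
    have := norm_nonneg q
    have := abs_nonneg d
    have := abs_nonneg r
    linarith
  have hpre := outside_preconn (V := V) (by omega) hρ0
  have hne : ∀ x : V, ρ ≤ ‖x‖ → f x ≠ 0 := by
    intro x hx h0
    have := hR0 x h0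
    linarith
  have hlam : ∀ x : V, ρ ≤ ‖x‖ → lamC e q d r x ≤ 0 := by
    intro x hx
    by_contra hc
    have hc' : 0 < lamC e q d r x := not_le.1 hc
    unfold lamC at hc'
    obtain ⟨h1, h2⟩ := lt_min_iff.1 hc'
    have h3 : ‖x - q‖ ≤ |⟪e, x - q⟫| + ‖orth e (x - q)‖ := by
      have e1 : x - q = ⟪e, x - q⟫ • e + orth e (x - q) := by
        unfold orth
        abel
      calc ‖x - q‖ = ‖⟪e, x - q⟫ • e + orth e (x - q)‖ := by rw [← e1]
        _ ≤ ‖⟪e, x - q⟫ • e‖ + ‖orth e (x - q)‖ := norm_add_le _ _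
        _ = |⟪e, x - q⟫| + ‖orth e (x - q)‖ := by
            rw [norm_smul, h.he, mul_one, Real.norm_eq_abs]
    have h4 : ‖x‖ ≤ ‖x - q‖ + ‖q‖ := by
      calc ‖x‖ = ‖(x - q) + q‖ := by rw [sub_add_cancel]
        _ ≤ ‖x - q‖ + ‖q‖ := norm_add_le _ _
    have h5 := le_abs_self d
    have h6 := le_abs_self r
    linarith
  have hsub : ∀ {S : Set V}, (∀ x ∈ S, ‖x‖ < ρ) → Bornology.IsBounded S := by
    intro S hS
    refine (Metric.isBounded_closedBall (x := (0 : V)) (r := ρ)).subset fun x hx => ?_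
    rw [mem_closedBall_zero_iff]
    exact (hS x hx).le
  have hAsub : ∀ x ∈ A, fcutC f e q d r x ≤ 0 := by
    intro x hx
    have : x ∈ A ∪ C := Or.inl hx
    rw [hp.un] at this
    exact this
  by_cases hex : ∃ x : V, ρ ≤ ‖x‖ ∧ f x ≤ 0
  · have hall : {x : V | ρ ≤ ‖x‖} ⊆ A ∪ C := by
      intro x hx
      rw [hp.un]
      change max (f x) (lamC e q d r x) ≤ 0
      refine max_le ?_ (hlam x hx)
      by_contra hc
      obtain ⟨a, ha, hfa⟩ := hex
      obtain ⟨z, hz, hfz⟩ := hpre.intermediate_value (f := f)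
        (show a ∈ {x : V | ρ ≤ ‖x‖} from ha) hx hfc.continuousOn ⟨hfa, (not_le.1 hc).le⟩
      exact hne z hz hfz
    rcases isPreconnected_iff_subset_of_disjoint_closed.1 hpre A C hp.clA hp.clC hall
      (by rw [hp.disj.inter_eq, inter_empty]) with h1 | h1
    · right
      refine hsub fun x hx => ?_
      by_contra hc
      exact Set.disjoint_left.1 hp.disj (h1 (not_lt.1 hc)) hx
    · left
      refine hsub fun x hx => ?_
      by_contra hc
      exact Set.disjoint_left.1 hp.disj hx (h1 (not_lt.1 hc))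
  · left
    push Not at hex
    refine hsub fun x hx => ?_
    by_contra hc
    have h1 := hex x (not_lt.1 hc)
    have h2 : max (f x) (lamC e q d r x) ≤ 0 := hAsub x hx
    linarith [le_max_left (f x) (lamC e q d r x)]

end Pool.Schoen
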