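import Pool.Agent.H.MP_6c077c_gt.Al.Cls
import Pool.Agent.H.MP_6c077c_gt.Ix.LiftB
import Pool.Agent.H.MP_6c077c_gt.Ix.LiftA

/-! Alexander's theorem: the parts of the cut if the cut side has the lifting property. -/

set_option autoImplicit false

namespace Pool.Schoen

open Filter Set
open scoped Topology RealInnerProductSpace ContDiff

variable {V : Type*} [NormedAddCommGroup V] [InnerProductSpace ℝ V] [FiniteDimensional ℝ V]
variable {f : V → ℝ} {e q : V} {ζ R d r : ℝ} {A C : Set V} {κ : V → ℝ}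

/-- PROOF. `cut_parts` and `cut_lift` (`Ix/LiftB.lean`) with `Dc = {fcutC ≤ 0}`, `S = cylS e q (-d) d`,
`Wm = cylS e q (-d) (-d)`, `Wp = cylS e q d d`, `y x = ⟪e, x - q⟫`; `CylN.fcut_union`, `CylN.fcut_inter`; walls and
slab are convex (`liftS_convex_compact` for the walls). For `C`: `cut_lift` with the roles exchanged. -/
theorem parts_alpha (h : CylN f e q ζ R) (hf : Continuous f) (hd : 0 < d) (hdζ : d < ζ)
    (hr : 1 < r) (hrR : r < R) (hc : IsConnected {x | f x ≤ 0}) (hl : LiftS {x | f x ≤ 0}) :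
    ∃ A C : Set V, PartsC f e q d r A C ∧ LiftS A ∧ LiftS C := by
  have hu := h.fcut_union hd hdζ hr hrR
  have hi := h.fcut_inter hd hdζ hr hrR
  have hDc : IsClosed {x | fcutC f e q d r x ≤ 0} :=
    isClosed_le (hf.max (lamC_continuous e q d r)) continuous_const
  have hS := cylS_closed e q (-d) d
  have hy : Continuous fun x : V => ⟪e, x - q⟫ := by fun_prop
  have hm : ∀ x ∈ cylS e q (-d) (-d), ⟪e, x - q⟫ = -d := fun x hx => le_antisymm hx.2.1 hx.1
  have hp : ∀ x ∈ cylS e q d d, ⟪e, x - q⟫ = d := fun x hx => le_antisymm hx.2.1 hx.1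
  have hcon : ∀ {a b : ℝ}, a ≤ b → IsConnected (cylS e q a b) := fun {a b} hab =>
    ⟨⟨_, cylS_mem h.he q le_rfl hab⟩, (cylS_convex e q a b).isPreconnected⟩
  have hlw : ∀ a b : ℝ, LiftS (cylS e q a b) := fun a b =>
    liftS_convex_compact (cylS_compact h.he q a b) (cylS_convex e q a b)
  have hl' : LiftS ({x | fcutC f e q d r x ≤ 0} ∪ cylS e q (-d) d) := by
    rw [hu]
    exact hl
  have hc' : IsConnected ({x | fcutC f e q d r x ≤ 0} ∪ cylS e q (-d) d) := by
    rw [hu]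
    exact hc
  obtain ⟨A, C, hA, hC, hdj, hAC, h1, h2, h3, h4⟩ := cut_parts hDc hS hi hy hd hm hp
    (hcon le_rfl) (hcon le_rfl) (cylS_convex e q (-d) d).isPreconnected hc' hl'
  refine ⟨A, C, ⟨hA, hC, hdj, hAC, h1, h2, h3, h4⟩, ?_, ?_⟩
  · exact cut_lift hS hi (hlw _ _) hl' hA hC hdj hAC h1 h2
  · exact cut_lift hS (by rw [hi, union_comm]) (hlw _ _) hl' hC hA hdj.symm
      (by rw [union_comm, hAC]) h2 h1

end Pool.Schoen
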