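import Pool.Agent.H.MP_6c077c_gt.Al.Compl
import Pool.Agent.H.MP_6c077c_gt.Al.Flat
import Pool.Agent.H.MP_6c077c_gt.Al.Link

/-! Alexander theorem: a disc of one side separates this side, if the other side has the lifting
property. -/

set_option autoImplicit false

namespace Pool.Schoen

open Filter Set
open scoped Topology RealInnerProductSpace ContDiff

variable {V : Type*} [NormedAddCommGroup V] [InnerProductSpace ℝ V] [FiniteDimensional ℝ V]
variable {f : V → ℝ} {e q : V} {ζ R η r : ℝ}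

omit [FiniteDimensional ℝ V] in
/-- The flat cut separates `{f ≤ 0}`, if `{0 ≤ f}` has the lifting property. -/
theorem CylN.not_preconnected (h : CylN f e q ζ R) (hn : Module.finrank ℝ V = 3) (hg : Good f)
    (hη : 0 < η) (hηζ : η < ζ) (hr : 1 < r) (hrR : r < R) (hY : LiftS {x | 0 ≤ f x}) :
    ¬ IsPreconnected {x | fcutC f e q η r x ≤ 0} := by
  intro hc
  have he := h.he
  have hG : Good (fcutC f e q η r) := h.fcut_good hg hη hηζ hr hrR
  have hU : IsPreconnected {x | fcutC f e q η r x < 0} := by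
    have h1 : IsPreconnected {x | 0 ≤ -fcutC f e q η r x} := by
      have h2 : {x | 0 ≤ -fcutC f e q η r x} = {x | fcutC f e q η r x ≤ 0} := by
        ext x
        exact neg_nonneg (a := fcutC f e q η r x)
      rw [h2]
      exact hc
    have h3 := hG.neg.open_compl h1
    have h4 : {x | 0 < -fcutC f e q η r x} = {x | fcutC f e q η r x < 0} := by
      ext x
      exact neg_pos (a := fcutC f e q η r x)
    rwa [h4] at h3
  have hUo : IsOpen {x | fcutC f e q η r x < 0} := isOpen_lt hG.cont continuous_const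
  obtain ⟨c, hcd⟩ : ∃ c : ℝ, c = ⟪e, q⟫ := ⟨_, rfl⟩
  obtain ⟨q', hq'⟩ : ∃ q' : (ℝ ∙ e)ᗮ, q' = hpr e q := ⟨_, rfl⟩
  have hqq : (q' : V) + c • e = q := by rw [hq', hcd, hpr_add he]
  have hax : ∀ s : ℝ, (q' : V) + (c + s) • e = q + s • e := by
    intro s
    rw [add_smul, ← add_assoc, hqq]
  have hdisc : ∀ y : (ℝ ∙ e)ᗮ, ⟪e, (y : V) + c • e - q⟫ = 0 ∧
      ‖orth e ((y : V) + c • e - q)‖ = ‖y - q'‖ := by
    intro y
    have h1 : (y : V) + c • e - q = ((y - q' : (ℝ ∙ e)ᗮ) : V) := by
      rw [← hqq]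
      push_cast
      abel
    have h2 : ⟪e, ((y - q' : (ℝ ∙ e)ᗮ) : V)⟫ = 0 := BaseDef_inner e _
    rw [h1]
    refine ⟨h2, ?_⟩
    unfold orth
    rw [h2, zero_smul, sub_zero]
    rfl
  obtain ⟨t, ht⟩ : ∃ t : ℝ, t = (η + ζ) / 2 := ⟨_, rfl⟩
  have ht0 : 0 < t := by rw [ht]; linarith
  have hηt : η < t := by rw [ht]; linarith
  have htζ : t < ζ := by rw [ht]; linarith
  have hpt : ∀ s : ℝ, |s| = t → fcutC f e q η r (q + s • e) < 0 := by
    intro s hs
    obtain ⟨h1, h2, h3⟩ := h.axis (s := s) (by rw [hs]; exact htζ)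
    unfold fcutC lamC
    rw [h1, h2, h3, norm_zero, hs]
    refine max_lt (by norm_num) ((min_le_left _ _).trans_lt (by linarith))
  refine link_round hn he ht0 one_pos (q := q') (c := c) hUo hU hY ?_ ?_ ?_ ?_ ?_ ?_
  · rw [Set.disjoint_left]
    intro x hx hx'
    have h1 : f x ≤ fcutC f e q η r x := le_max_left _ _
    have h2 : fcutC f e q η r x < 0 := hx
    have h3 : 0 ≤ f x := hx'
    linarith
  · intro y hy
    obtain ⟨h1, h2⟩ := hdisc y
    show 0 ≤ f _
    rw [h.hf _ (by rw [h1, abs_zero]; exact h.hζ) (by rw [h2, hy]; exact h.hR), h2, hy]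
    norm_num
  · intro y hy hy'
    obtain ⟨h1, h2⟩ := hdisc y
    have h3 : lamC e q η r ((y : V) + c • e) ≤ fcutC f e q η r ((y : V) + c • e) := le_max_right _ _
    have h4 : 0 < lamC e q η r ((y : V) + c • e) := by
      unfold lamC
      rw [h1, h2, abs_zero]
      exact lt_min (by linarith) (by linarith)
    have h5 : fcutC f e q η r ((y : V) + c • e) < 0 := hy'
    linarith
  · rw [hax]
    exact hpt t (abs_of_pos ht0)
  · have h1 : c - t = c + (-t) := by ring
    rw [h1, hax]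
    exact hpt (-t) (by rw [abs_neg, abs_of_pos ht0])
  · intro s hs hs'
    rw [hax] at hs'
    have h1 : 0 ≤ f (q + s • e) := hs'
    have h2 := (h.axis (s := s) (lt_of_le_of_lt (abs_le.2 hs) htζ)).2.2
    linarith

end Pool.Schoen
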