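import Pool.Agent.H.MP_6c077c_gt.Al.Cls
import Pool.Agent.H.MP_6c077c_gt.Al.Link
import Pool.Agent.H.MP_6c077c_gt.Al.Compl
import Pool.Agent.H.MP_6c077c_gt.Al.Sep3

/-! Alexander's theorem: the parts of the cut if the other side has the lifting property. -/

set_option autoImplicit false

namespace Pool.Schoen

open Filter Set
open scoped Topology RealInnerProductSpace ContDiff

variable {V : Type*} [NormedAddCommGroup V] [InnerProductSpace ℝ V] [FiniteDimensional ℝ V]
variable {f : V → ℝ} {e q : V} {ζ R d r : ℝ}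

/-- The parts of the flat cut if the other side has the lifting property. -/
theorem parts_beta (hV : Module.finrank ℝ V = 3) (h : CylN f e q ζ R) (hg : Good f) (hd : 0 < d)
    (hdζ : d < ζ) (hr : 1 < r) (hrR : r < R) (hc : IsConnected {x | f x ≤ 0})
    (hl : LiftS {x | 0 ≤ f x}) : ∃ A C : Set V, PartsC f e q d r A C := by
  have hG : Good (fcutC f e q d r) := h.fcut_good hg hd hdζ hr hrR
  have hcl : IsClosed {x | fcutC f e q d r x ≤ 0} := isClosed_le hG.cont continuous_const
  have hab : |(-d)| = d := by rw [abs_neg, abs_of_pos hd]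
  have hm : IsConnected (cylS e q (-d) (-d)) :=
    ⟨⟨_, cylS_mem h.he q le_rfl le_rfl⟩, (cylS_convex e q (-d) (-d)).isPreconnected⟩
  have hp : IsConnected (cylS e q d d) :=
    ⟨⟨_, cylS_mem h.he q le_rfl le_rfl⟩, (cylS_convex e q d d).isPreconnected⟩
  obtain ⟨A, C, h1, h2, h3, h4, h5, h6, h7, h8⟩ := cut_parts' hcl (cylS_closed e q (-d) d)
    (h.fcut_inter hd hdζ hr hrR) hm hp (by rw [h.fcut_union hd hdζ hr hrR]; exact hc)
    (h.not_preconnected hV hg hd hdζ hr hrR hl)
  exact ⟨A, C, h1, h2, h3, h4, h5, h6, h7, h8⟩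

end Pool.Schoen
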