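import Pool.Agent.H.MP_6c077c_gt.Al.Cls
import Pool.Agent.H.MP_6c077c_gt.IxB.Unique
import Pool.Agent.H.MP_6c077c_gt.Gd.BaseDef

/-! Alexander theorem: the parts of the smooth cut are in the class. -/

set_option autoImplicit false

namespace Pool.Schoen

open Filter Set
open scoped Topology RealInnerProductSpace ContDiff

variable {V : Type*} [NormedAddCommGroup V] [InnerProductSpace ℝ V] [FiniteDimensional ℝ V]
variable {f : V → ℝ} {e q : V} {ζ R d : ℝ} {L : Finset ℝ} {S : Finset V}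

omit [FiniteDimensional ℝ V] in
private theorem pieceC_crit {g : V → ℝ} {x : V} (h : f =ᶠ[𝓝 x] g) (hf : Crit f e x) : Crit g e x := by
  refine ⟨by rw [← h.self_of_nhds, hf.1], fun w hw => ?_⟩
  rw [← h.fderiv_eq]
  exact hf.2 w hw

/-- The index is not both `0` and `1`. -/
theorem idx_zero_one {F : V → ℝ} {e x : V} (h0 : Idx F e x 0) (h1 : Idx F e x 1) : False := by
  obtain ⟨N, P, hs, hN⟩ := h1
  have h2 : N ≠ ⊥ := by
    intro h
    rw [h, finrank_bot] at hN
    exact zero_ne_one hN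
  obtain ⟨a, ha, ha0⟩ := Submodule.exists_mem_ne_zero_of_ne_bot h2
  have h3 := hs.neg a ha ha0
  have h4 := h0.posAt a (hs.hN a ha) ha0
  linarith

/-- A critical point of the cut is an old one off the cylinder or one of the two poles. -/
theorem CylN.scut_crit (h : CylN f e q ζ R) (hd : 0 < d) (hdζ : 2 * d ≤ ζ)
    (hreg : ∀ x, f x = 0 → gradient f x ≠ 0) {x : V} (hx : Crit (scut f e q d R) e x) :
    (Crit f e x ∧ scut f e q d R =ᶠ[𝓝 x] f) ∨
      ((⟪e, x⟫ = ⟪e, q⟫ + d ∨ ⟪e, x⟫ = ⟪e, q⟫ - d) ∧ Idx (scut f e q d R) e x 0) := by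
  have hee : ⟪e, e⟫ = 1 := by rw [real_inner_self_eq_norm_sq, h.he]; norm_num
  rcases (crit_iff h.he (h.scut_reg hd hdζ hreg) x).1 hx with h1 | h1
  · rcases h.scut_inward hd hdζ h1 with ⟨-, h2, h3⟩ | ⟨h2, h3⟩
    · exact Or.inl ⟨(crit_iff h.he hreg x).2 (Or.inl h2), h3⟩
    · refine Or.inr ⟨Or.inl ?_, h3⟩
      rw [h2, inner_add_right, real_inner_smul_right, hee, mul_one]
  · rcases h.scut_inward_neg hd hdζ h1 with ⟨-, h2, h3⟩ | ⟨h2, h3⟩
    · exact Or.inl ⟨(crit_iff h.he hreg x).2 (Or.inr h2), h3⟩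
    · refine Or.inr ⟨Or.inr ?_, h3⟩
      rw [h2, inner_sub_right, real_inner_smul_right, hee, mul_one]

omit [FiniteDimensional ℝ V] in
/-- At a level of `L` a zero of the cut is a zero of `f`, and the two functions agree near it. -/
theorem CylN.scut_level (h : CylN f e q ζ R) (hd : 0 < d) (hdζ : 2 * d ≤ ζ)
    {x : V} (hL : ⟪e, x⟫ ≠ ⟪e, q⟫ → ζ ≤ |⟪e, x⟫ - ⟪e, q⟫|)
    (hx : scut f e q d R x = 0) : f x = 0 ∧ scut f e q d R =ᶠ[𝓝 x] f := by
  rcases h.scut_zero hd hdζ hx with ⟨-, h2, h3⟩ | ⟨h1, h2, -⟩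
  · exact ⟨h2, h3⟩
  · exfalso
    rw [inner_sub_right] at h1
    by_cases h4 : ⟪e, x⟫ = ⟪e, q⟫
    · have h5 : ⟪e, x - q⟫ = 0 := by rw [inner_sub_right, h4, sub_self]
      have h6 := h.scut_mid (d := d) h5 (lt_of_le_of_lt h2 h.hR)
      linarith
    · have := hL h4
      linarith

omit [FiniteDimensional ℝ V] in
/-- The unit circle of the cylinder is not empty. -/
theorem exists_circle (hn : Module.finrank ℝ V = 3) (he : ‖e‖ = 1) (q : V) :
    ∃ x : V, ⟪e, x - q⟫ = 0 ∧ ‖orth e (x - q)‖ = 1 := by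
  have he0 : e ≠ 0 := by
    rintro rfl
    rw [norm_zero] at he
    exact zero_ne_one he
  have hE : Module.finrank ℝ (ℝ ∙ e)ᗮ = 2 := by
    have : Fact (Module.finrank ℝ V = 2 + 1) := ⟨by rw [hn]⟩
    exact Submodule.finrank_orthogonal_span_singleton he0
  have : Nontrivial (ℝ ∙ e)ᗮ := Module.nontrivial_of_finrank_pos (R := ℝ) (by omega)
  obtain ⟨u, hu⟩ := exists_norm_eq (ℝ ∙ e)ᗮ zero_le_one
  have h1 : ⟪e, (u : V)⟫ = 0 := BaseDef_inner e u
  refine ⟨q + u, ?_, ?_⟩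
  · rw [add_sub_cancel_left]
    exact h1
  · rw [add_sub_cancel_left]
    unfold orth
    rw [h1, zero_smul, sub_zero]
    exact hu

/-- The parts of the cut are in the class, with fewer markers. -/
theorem piece_class (hV : Module.finrank ℝ V = 3) (hm : Mo f e) (hl : Lev f e L S)
    (hcy : CylN f e q ζ R) (hc : ⟪e, q⟫ ∈ L) (hL : ∀ c ∈ L, c ≠ ⟪e, q⟫ → ζ ≤ |c - ⟪e, q⟫|)
    (hd : 0 < d) (hdζ : 2 * d ≤ ζ) {G : V → ℝ} (hG : ContDiff ℝ ∞ G)
    (hGs : ∀ x, G x = 0 → G =ᶠ[𝓝 x] scut f e q d R) :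
    Mo G e ∧ ∃ S' : Finset V, Lev G e L S' ∧ S'.card < S.card := by
  classical
  have he := hcy.he
  have hz : ∀ x, G x = 0 → scut f e q d R x = 0 := fun x hx => by
    rw [← (hGs x hx).self_of_nhds, hx]
  refine ⟨⟨hG, ?_, ?_, ?_⟩, S.filter fun x => G x = 0, ⟨?_, ?_, ?_⟩, ?_⟩
  · -- bounded
    refine (hm.bdd.union (cylS_compact he q (-ζ) ζ).isBounded).subset ?_
    intro x hx
    rcases hcy.scut_zero hd hdζ (hz x hx) with ⟨-, h2, -⟩ | ⟨h1, h2, -⟩
    · exact Or.inl h2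
    · have h3 := abs_lt.1 h1
      exact Or.inr ⟨h3.1.le, h3.2.le, h2⟩
  · -- regular
    intro x hx
    have h1 : gradient G x = gradient (scut f e q d R) x := by
      unfold gradient
      rw [(hGs x hx).fderiv_eq]
    rw [h1]
    exact hcy.scut_reg hd hdζ hm.reg x (hz x hx)
  · -- critical points
    intro x hx
    have hn1 := hGs x hx.1
    rcases hcy.scut_crit hd hdζ hm.reg (pieceC_crit hn1 hx) with ⟨h1, h2⟩ | ⟨h1, h2⟩
    · obtain ⟨k, hk⟩ := hm.nd x h1
      exact ⟨k, (hk.congr' h2.symm).congr' hn1.symm⟩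
    · exact ⟨0, h2.congr' hn1.symm⟩
  · -- regular levels
    intro x hx
    have hn1 := hGs x hx.1
    rcases hcy.scut_crit hd hdζ hm.reg (pieceC_crit hn1 hx) with ⟨h1, h2⟩ | ⟨h1, h2⟩
    · exact hl.reg x h1
    · intro h3
      have h4 : ⟪e, x⟫ ≠ ⟪e, q⟫ := by
        rcases h1 with h1 | h1 <;> rw [h1] <;> linarith
      have h5 := hL _ h3 h4
      have h6 : |⟪e, x⟫ - ⟪e, q⟫| = d := by
        rcases h1 with h1 | h1
        · rw [h1, add_sub_cancel_left, abs_of_pos hd]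
        · rw [h1, sub_sub_cancel_left, abs_neg, abs_of_pos hd]
      linarith
  · -- separation of the saddles
    have hsad : ∀ x, Crit G e x → Idx G e x 1 → Crit f e x ∧ Idx f e x 1 := by
      intro x hx hx1
      have hn1 := hGs x hx.1
      rcases hcy.scut_crit hd hdζ hm.reg (pieceC_crit hn1 hx) with ⟨h1, h2⟩ | ⟨h1, h2⟩
      · exact ⟨h1, (hx1.congr' hn1).congr' h2⟩
      · exact (idx_zero_one h2 (hx1.congr' hn1)).elim
    intro x y hx hy hx1 hy1 hxy
    obtain ⟨h1, h2⟩ := hsad x hx hx1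
    obtain ⟨h3, h4⟩ := hsad y hy hy1
    exact hl.sep x y h1 h3 h2 h4 hxy
  · -- markers
    refine hl.mark.part fun x hxL hx => ?_
    obtain ⟨h1, h2⟩ := hcy.scut_level hd hdζ (fun h4 => hL _ hxL h4) (hz x hx)
    have h3 : G =ᶠ[𝓝 x] f := (hGs x hx).trans h2
    obtain ⟨O, hO1, hO2, hO3⟩ := mem_nhds_iff.1 h3
    refine ⟨O, hO2, hO3, fun y hy _ => ?_⟩
    have h4 : G y = f y := hO1 hy
    rw [h4]
  · -- the lost marker
    have hcont1 : Continuous fun x : V => ⟪e, x - q⟫ := by fun_prop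
    have hcont2 : Continuous fun x : V => ‖orth e (x - q)‖ := by
      unfold orth
      fun_prop
    refine hl.mark.card_lt (Finset.mem_coe.2 hc) (K := {x | ⟪e, x - q⟫ = 0 ∧ ‖orth e (x - q)‖ = 1}) ?_ ?_ ?_ ?_ ?_
    · exact exists_circle hV he q
    · exact (isClosed_eq hcont1 continuous_const).inter (isClosed_eq hcont2 continuous_const)
    · rintro x ⟨h1, h2⟩
      refine ⟨?_, ?_⟩
      · rw [hcy.hf x (by rw [h1, abs_zero]; exact hcy.hζ) (by rw [h2]; exact hcy.hR), h2]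
        norm_num
      · rw [inner_sub_right] at h1
        linarith
    · refine ⟨{x | |⟪e, x - q⟫| < ζ} ∩ {x | ‖orth e (x - q)‖ < R},
        (isOpen_lt hcont1.abs continuous_const).inter (isOpen_lt hcont2 continuous_const), ?_, ?_⟩
      · rintro x ⟨h1, h2⟩
        refine ⟨?_, ?_⟩
        · show |⟪e, x - q⟫| < ζ
          rw [h1, abs_zero]
          exact hcy.hζ
        · show ‖orth e (x - q)‖ < R
          rw [h2]
          exact hcy.hR
      · rintro x ⟨h1, h2⟩ h3 h4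
        refine ⟨?_, ?_⟩
        · rw [inner_sub_right, h4, sub_self]
        · have h5 := hcy.hf x h1 h2
          rw [h3] at h5
          have h6 := norm_nonneg (orth e (x - q))
          nlinarith
    · rintro x ⟨h1, h2⟩ h3
      have h4 := hcy.scut_mid (d := d) h1 (by rw [h2]; exact hcy.hR)
      have h5 := hz x h3
      linarith

end Pool.Schoen
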