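import Pool.Agent.H.MP_6c077c_gt.Al.PieceMo

/-! Alexander's theorem: levels and markers of the parts of the smooth cut. -/

set_option autoImplicit false

namespace Pool.Schoen

open Filter Set
open scoped Topology RealInnerProductSpace ContDiff

variable {V : Type*} [NormedAddCommGroup V] [InnerProductSpace ℝ V] [FiniteDimensional ℝ V]
variable {f : V → ℝ} {e q : V} {ζ R d r : ℝ} {A C : Set V} {κ : V → ℝ}

theorem piece_lev (hV : Module.finrank ℝ V = 3) (hm : Mo f e) {L : Finset ℝ} {S : Finset V}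
    (hl : Lev f e L S) (hc : ⟪e, q⟫ ∈ L) (hsep : ∀ c' ∈ L, c' ≠ ⟪e, q⟫ → ζ ≤ |c' - ⟪e, q⟫|)
    (h : CylN f e q ζ R) (hd : 0 < d) (hdζ : 2 * d ≤ ζ) (hr : 1 < r) (hrR : r < R)
    (hp : SplitC f e q d r A C) (hκ : Sepr κ A C) :
    ∃ S' : Finset V, S'.card < S.card ∧ Lev (pc κ (scut f e q d R)) e L S' := by
  obtain ⟨-, S', h1, h2⟩ := piece_class hV hm hl h hc hsep hd hdζ
    (pc_smooth hκ (scut_smooth hm.smooth e q d R))
    (fun x hx => piece_near h hd hdζ hr hrR hp hκ hx)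
  exact ⟨S', h2, h1⟩

end Pool.Schoen
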