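import Pool.Agent.H.MP_6c077c_gt.Al.Cls
import Mathlib.Geometry.Manifold.PartitionOfUnity

/-! Alexander's theorem: smooth parts. -/

set_option autoImplicit false

namespace Pool.Schoen

open Filter Set
open scoped Topology RealInnerProductSpace ContDiff Manifold

variable {V : Type*} [NormedAddCommGroup V] [InnerProductSpace ℝ V] [FiniteDimensional ℝ V]

theorem exists_sepr {A C : Set V} (hA : IsClosed A) (hC : IsClosed C) (hd : Disjoint A C) :
    ∃ κ : V → ℝ, Sepr κ A C := by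
  obtain ⟨f, h0, h1, h2⟩ := exists_contMDiffMap_zero_one_nhds_of_isClosed (n := (⊤ : ℕ∞)) 𝓘(ℝ, V)
    hA hC hd
  exact ⟨f, contMDiff_iff_contDiff.1 f.contMDiff, fun x => h2 x,
    fun x hx => (eventually_nhdsSet_iff_forall.1 h0) x hx,
    fun x hx => (eventually_nhdsSet_iff_forall.1 h1) x hx⟩

omit [FiniteDimensional ℝ V] in
/-- `1 - κ` separates `C` and `A`. -/
theorem Sepr.swap {κ : V → ℝ} {A C : Set V} (h : Sepr κ A C) : Sepr (fun x => 1 - κ x) C A where
  smooth := contDiff_const.sub h.smooth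
  mem x := ⟨by linarith [(h.mem x).2], by linarith [(h.mem x).1]⟩
  zero x hx := (h.one x hx).mono fun y hy => by rw [hy, sub_self]
  one x hx := (h.zero x hx).mono fun y hy => by rw [hy, sub_zero]

omit [FiniteDimensional ℝ V] in
theorem Sepr.at_zero {κ : V → ℝ} {A C : Set V} (h : Sepr κ A C) {x : V} (hx : x ∈ A) :
    κ x = 0 := (h.zero x hx).self_of_nhds

omit [FiniteDimensional ℝ V] in
theorem Sepr.at_one {κ : V → ℝ} {A C : Set V} (h : Sepr κ A C) {x : V} (hx : x ∈ C) :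
    κ x = 1 := (h.one x hx).self_of_nhds

omit [FiniteDimensional ℝ V] in
theorem pc_le {κ F : V → ℝ} {A C : Set V} (h : Sepr κ A C) (hF : ∀ x, F x ≤ 0 → x ∈ A ∪ C) (x : V) :
    pc κ F x ≤ 0 ↔ (F x ≤ 0 ∧ x ∈ A) := by
  constructor
  · intro hx
    unfold pc at hx
    obtain ⟨h0, h1⟩ := h.mem x
    have hk : κ x < 1 := by
      rcases h1.lt_or_eq with h2 | h2
      · exact h2
      · rw [h2] at hx
        norm_num at hx
    have hFx : F x ≤ 0 := by
      by_contra h2
      push Not at h2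
      have h3 : 0 < (1 - κ x) * F x := mul_pos (by linarith) h2
      linarith
    refine ⟨hFx, ?_⟩
    rcases hF x hFx with h2 | h2
    · exact h2
    · rw [h.at_one h2] at hk
      exact absurd hk (lt_irrefl _)
  · rintro ⟨hx, hA⟩
    unfold pc
    rw [h.at_zero hA]
    linarith

omit [FiniteDimensional ℝ V] in
theorem pc_zero {κ F : V → ℝ} {A C : Set V} (h : Sepr κ A C) (hF : ∀ x, F x ≤ 0 → x ∈ A ∪ C)
    (x : V) : pc κ F x = 0 ↔ (F x = 0 ∧ x ∈ A) := by
  constructor
  · intro hx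
    obtain ⟨-, hA⟩ := (pc_le h hF x).1 hx.le
    refine ⟨?_, hA⟩
    unfold pc at hx
    rw [h.at_zero hA] at hx
    linarith
  · rintro ⟨hx, hA⟩
    unfold pc
    rw [h.at_zero hA, hx]
    ring

omit [FiniteDimensional ℝ V] in
theorem pc_near {κ F : V → ℝ} {A C : Set V} (h : Sepr κ A C) {x : V} (hx : x ∈ A) :
    pc κ F =ᶠ[𝓝 x] F := by
  filter_upwards [h.zero x hx] with y hy
  unfold pc
  rw [hy]
  ring

omit [FiniteDimensional ℝ V] in
theorem pc_one {κ F : V → ℝ} {A C : Set V} (h : Sepr κ A C) {x : V} (hx : x ∈ C) :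
    ∀ᶠ y in 𝓝 x, pc κ F y = 1 := by
  filter_upwards [h.one x hx] with y hy
  unfold pc
  rw [hy]
  ring

omit [FiniteDimensional ℝ V] in
theorem pc_smooth {κ F : V → ℝ} {A C : Set V} (h : Sepr κ A C) (hF : ContDiff ℝ ∞ F) :
    ContDiff ℝ ∞ (pc κ F) := by
  unfold pc
  exact ((contDiff_const.sub h.smooth).mul hF).add h.smooth

end Pool.Schoen
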