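import Pool.Agent.H.MP_6c077c_gt.Al.Cls2
import Pool.Agent.H.MP_6c077c_gt.Al.Sep1
import Pool.Agent.H.MP_6c077c_gt.Al.PieceC

/-! Alexander's theorem: the class passes to the parts of the smooth cut. -/

set_option autoImplicit false

namespace Pool.Schoen

open Filter Set
open scoped Topology RealInnerProductSpace ContDiff

variable {V : Type*} [NormedAddCommGroup V] [InnerProductSpace ℝ V] [FiniteDimensional ℝ V]
variable {f : V → ℝ} {e q : V} {ζ R d r : ℝ} {A C : Set V} {κ : V → ℝ}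

theorem wb_ge_one {d s : ℝ} (hd : 0 < d) (hs : |s| ≤ d) : 1 ≤ wb d s := by
  rw [← wb_one hd.ne']
  unfold wb
  refine mul_le_mul_of_nonneg_left (expNegInvGlue.monotone ?_) (Real.exp_pos 1).le
  have h1 : (s / d) ^ 2 ≤ (d / d) ^ 2 := by
    rw [← sq_abs (s / d), abs_div, abs_of_pos hd]
    gcongr
  linarith

omit [FiniteDimensional ℝ V] in
theorem scut_flat (h : CylN f e q ζ R) (hd : 0 < d) (hdζ : 2 * d ≤ ζ) (_hr : 1 < r) (hrR : r < R)
    {x : V} (hx : scut f e q d R x ≤ 0) : fcutC f e q d r x ≤ 0 := by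
  have hf := (scut_ge f e q d R x).trans hx
  refine max_le hf ?_
  by_contra hlam
  push Not at hlam
  unfold lamC at hlam
  obtain ⟨h1, h2⟩ := lt_min_iff.1 hlam
  have hs : |⟪e, x - q⟫| < d := by linarith
  have hs' : |⟪e, x - q⟫| < ζ := by linarith
  have hy : ‖orth e (x - q)‖ < R := by linarith
  have hfx := h.hf x hs' hy
  have hn := norm_nonneg (orth e (x - q))
  have hy1 : ‖orth e (x - q)‖ ≤ 1 := by
    by_contra hc
    push Not at hc
    nlinarith
  have h3 : scut f e q d R x = scutM e q d x := (h.scut_in (d := d) hs' hy1).self_of_nhds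
  rw [h3] at hx
  unfold scutM at hx
  have h4 := wb_ge_one hd hs.le
  have h5 : wb d ⟪e, x - q⟫ = 1 := by nlinarith [sq_nonneg ‖orth e (x - q)‖]
  rcases wb_eq_one hd h5 with h6 | h6
  · rw [h6, abs_of_pos hd] at hs
    exact lt_irrefl _ hs
  · rw [h6, abs_neg, abs_of_pos hd] at hs
    exact lt_irrefl _ hs

omit [FiniteDimensional ℝ V] in
private theorem piece_cov (h : CylN f e q ζ R) (hd : 0 < d) (hdζ : 2 * d ≤ ζ) (hr : 1 < r)
    (hrR : r < R) (hp : SplitC f e q d r A C) :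
    ∀ x, scut f e q d R x ≤ 0 → x ∈ A ∪ C := by
  intro x hx
  rw [hp.un]
  exact scut_flat h hd hdζ hr hrR hx

theorem piece_le (h : CylN f e q ζ R) (hd : 0 < d) (hdζ : 2 * d ≤ ζ) (hr : 1 < r) (hrR : r < R)
    (hp : SplitC f e q d r A C) (hκ : Sepr κ A C) (x : V) :
    pc κ (scut f e q d R) x ≤ 0 ↔ (scut f e q d R x ≤ 0 ∧ x ∈ A) :=
  pc_le hκ (piece_cov h hd hdζ hr hrR hp) x

theorem piece_zero (h : CylN f e q ζ R) (hd : 0 < d) (hdζ : 2 * d ≤ ζ) (hr : 1 < r) (hrR : r < R)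
    (hp : SplitC f e q d r A C) (hκ : Sepr κ A C) (x : V) :
    pc κ (scut f e q d R) x = 0 ↔ (scut f e q d R x = 0 ∧ x ∈ A) :=
  pc_zero hκ (piece_cov h hd hdζ hr hrR hp) x

theorem piece_near (h : CylN f e q ζ R) (hd : 0 < d) (hdζ : 2 * d ≤ ζ) (hr : 1 < r) (hrR : r < R)
    (hp : SplitC f e q d r A C) (hκ : Sepr κ A C) {x : V}
    (hx : pc κ (scut f e q d R) x = 0) : pc κ (scut f e q d R) =ᶠ[𝓝 x] scut f e q d R :=
  pc_near hκ ((piece_zero h hd hdζ hr hrR hp hκ x).1 hx).2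

/-- The critical zeros of a part are critical zeros of `f` or one of the two poles. -/
theorem piece_crit (hm : Mo f e) (h : CylN f e q ζ R) (hd : 0 < d) (hdζ : 2 * d ≤ ζ) (hr : 1 < r)
    (hrR : r < R) (hp : SplitC f e q d r A C) (hκ : Sepr κ A C) {x : V}
    (hx : Crit (pc κ (scut f e q d R)) e x) :
    (Crit f e x ∧ pc κ (scut f e q d R) =ᶠ[𝓝 x] f) ∨
      ((x = q + d • e ∨ x = q - d • e) ∧ Idx (pc κ (scut f e q d R)) e x 0) := by
  have hn := piece_near h hd hdζ hr hrR hp hκ hx.1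
  have hx' : Crit (scut f e q d R) e x := hx.congr hn
  rcases (crit_iff h.he (h.scut_reg hd hdζ hm.reg) x).1 hx' with h1 | h1
  · rcases h.scut_inward hd hdζ h1 with ⟨-, h2, h3⟩ | ⟨h2, h3⟩
    · exact Or.inl ⟨(crit_iff h.he hm.reg x).2 (Or.inl h2), hn.trans h3⟩
    · exact Or.inr ⟨Or.inl h2, h3.congr' hn.symm⟩
  · rcases h.scut_inward_neg hd hdζ h1 with ⟨-, h2, h3⟩ | ⟨h2, h3⟩
    · exact Or.inl ⟨(crit_iff h.he hm.reg x).2 (Or.inr h2), hn.trans h3⟩
    · exact Or.inr ⟨Or.inr h2, h3.congr' hn.symm⟩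

theorem piece_mo (hm : Mo f e) (h : CylN f e q ζ R) (hd : 0 < d) (hdζ : 2 * d ≤ ζ) (hr : 1 < r)
    (hrR : r < R) (hp : SplitC f e q d r A C) (hκ : Sepr κ A C) :
    Mo (pc κ (scut f e q d R)) e := by
  have hz : ∀ x, pc κ (scut f e q d R) x = 0 → scut f e q d R x = 0 := fun x hx =>
    ((piece_zero h hd hdζ hr hrR hp hκ x).1 hx).1
  refine ⟨pc_smooth hκ (scut_smooth hm.smooth e q d R), ?_, ?_, ?_⟩
  · refine (hm.bdd.union (cylS_compact h.he q (-ζ) ζ).isBounded).subset ?_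
    intro x hx
    rcases h.scut_zero hd hdζ (hz x hx) with ⟨-, h2, -⟩ | ⟨h1, h2, -⟩
    · exact Or.inl h2
    · have h3 := abs_lt.1 h1
      exact Or.inr ⟨h3.1.le, h3.2.le, h2⟩
  · intro x hx
    have h1 : gradient (pc κ (scut f e q d R)) x = gradient (scut f e q d R) x := by
      unfold gradient
      rw [(piece_near h hd hdζ hr hrR hp hκ hx).fderiv_eq]
    rw [h1]
    exact h.scut_reg hd hdζ hm.reg x (hz x hx)
  · intro x hx
    rcases piece_crit hm h hd hdζ hr hrR hp hκ hx with ⟨h1, h2⟩ | ⟨-, h2⟩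
    · obtain ⟨k, hk⟩ := hm.nd x h1
      exact ⟨k, hk.congr' h2.symm⟩
    · exact ⟨0, h2⟩

end Pool.Schoen
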