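import Pool.Agent.H.MP_6c077c_gt.Al.Cls
import Pool.Agent.H.MP_6c077c_gt.Ix.LiftA

/-! Alexander's theorem: the plug of the smooth cut. -/

set_option autoImplicit false

namespace Pool.Schoen

open Filter Set
open scoped Topology RealInnerProductSpace ContDiff

variable {V : Type*} [NormedAddCommGroup V] [InnerProductSpace ℝ V]

/-- The plug `|⟪e, x - q⟫| ≤ 3 / 2 d`, `‖orth e (x - q)‖ ≤ 1`, `scut ≥ 0`. -/
def plug (f : V → ℝ) (e q : V) (d R : ℝ) : Set V :=
  {x | |⟪e, x - q⟫| ≤ 3 / 2 * d ∧ ‖orth e (x - q)‖ ≤ 1 ∧ 0 ≤ scut f e q d R x}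

/-- The bump decreases with the distance to the middle. -/
theorem plug_wb_le {d s s' : ℝ} (h : |s'| ≤ |s|) : wb d s ≤ wb d s' := by
  unfold wb
  refine mul_le_mul_of_nonneg_left (expNegInvGlue.monotone ?_) (Real.exp_pos 1).le
  have h1 : (s' / d) ^ 2 ≤ (s / d) ^ 2 := by
    rw [div_pow, div_pow]
    exact div_le_div_of_nonneg_right (sq_le_sq.2 h) (sq_nonneg d)
  linarith

theorem plug_shift {e q : V} (he : ‖e‖ = 1) (x : V) (r : ℝ) :
    orth e (x + r • e - q) = orth e (x - q) ∧ ⟪e, x + r • e - q⟫ = ⟪e, x - q⟫ + r := by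
  have e1 : x + r • e - q = x - (q + (-r) • e) := by
    rw [neg_smul]
    abel
  rw [e1, orth_shift he, inner_shift he]
  exact ⟨rfl, by ring⟩

theorem plug_mem {f : V → ℝ} {e q : V} {ζ R d : ℝ} (h : CylN f e q ζ R) (hd : 0 < d)
    (hdζ : 2 * d ≤ ζ) {x : V} : x ∈ plug f e q d R ↔ |⟪e, x - q⟫| ≤ 3 / 2 * d ∧
      ‖orth e (x - q)‖ ≤ 1 ∧ 0 ≤ ‖orth e (x - q)‖ ^ 2 - 1 + wb d ⟪e, x - q⟫ := by
  constructor
  · rintro ⟨h1, h2, h3⟩
    rw [(h.scut_in (d := d) (by linarith) h2).self_of_nhds] at h3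
    exact ⟨h1, h2, h3⟩
  · rintro ⟨h1, h2, h3⟩
    refine ⟨h1, h2, ?_⟩
    rw [(h.scut_in (d := d) (by linarith) h2).self_of_nhds]
    exact h3

/-- The vertical contraction. -/
theorem plug_contract {f : V → ℝ} {e q : V} {ζ R d : ℝ} (h : CylN f e q ζ R) (hd : 0 < d)
    (hdζ : 2 * d ≤ ζ) {x : V} (hx : x ∈ plug f e q d R) {t : ℝ} (ht : t ∈ Icc (0 : ℝ) 1) :
    x + ((t - 1) * ⟪e, x - q⟫) • e ∈ plug f e q d R := by
  rw [plug_mem h hd hdζ] at hx ⊢
  obtain ⟨h1, h2, h3⟩ := hx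
  obtain ⟨h4, h5⟩ := plug_shift h.he x (q := q) ((t - 1) * ⟪e, x - q⟫)
  have h6 : ⟪e, x - q⟫ + (t - 1) * ⟪e, x - q⟫ = t * ⟪e, x - q⟫ := by ring
  rw [h4, h5, h6]
  have h7 : |t * ⟪e, x - q⟫| ≤ |⟪e, x - q⟫| := by
    rw [abs_mul, abs_of_nonneg ht.1]
    exact mul_le_of_le_one_left (abs_nonneg _) ht.2
  exact ⟨h7.trans h1, h2, h3.trans (by linarith [plug_wb_le (d := d) h7])⟩

variable [FiniteDimensional ℝ V]
variable {f : V → ℝ} {e q : V} {ζ R d r : ℝ} {A C : Set V} {κ : V → ℝ}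

theorem plug_closed (hf : Continuous f) : IsClosed (plug f e q d R) := by
  have h1 : IsClosed {x : V | |⟪e, x - q⟫| ≤ 3 / 2 * d} :=
    isClosed_le (by fun_prop) continuous_const
  have h2 : IsClosed {x : V | ‖orth e (x - q)‖ ≤ 1} := by
    refine isClosed_le ?_ continuous_const
    unfold orth
    fun_prop
  have h3 : IsClosed {x : V | 0 ≤ scut f e q d R x} :=
    isClosed_le continuous_const (hf.add (wcut_smooth e q d R).continuous)
  exact h1.inter (h2.inter h3)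

theorem plug_compact (he : ‖e‖ = 1) (hf : Continuous f) : IsCompact (plug f e q d R) := by
  refine Metric.isCompact_of_isClosed_isBounded (plug_closed hf) ?_
  refine (Metric.isBounded_closedBall (x := q) (r := 1 + |3 / 2 * d|)).subset ?_
  rintro x ⟨h1, h2, -⟩
  rw [Metric.mem_closedBall, dist_eq_norm]
  have h3 := norm_sq_orth he (x - q)
  have h4 : ⟪e, x - q⟫ ^ 2 ≤ |3 / 2 * d| ^ 2 := by
    rw [← sq_abs ⟪e, x - q⟫]
    exact pow_le_pow_left₀ (abs_nonneg _) (h1.trans (le_abs_self _)) 2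
  have h5 : ‖orth e (x - q)‖ ^ 2 ≤ 1 := by
    have := norm_nonneg (orth e (x - q))
    nlinarith
  have h6 : ‖x - q‖ ^ 2 ≤ (1 + |3 / 2 * d|) ^ 2 := by
    have := abs_nonneg (3 / 2 * d)
    nlinarith
  exact (sq_le_sq₀ (norm_nonneg _) (by positivity)).1 h6

/-- The middle disc. -/
theorem plug_disc (h : CylN f e q ζ R) (hd : 0 < d) (hdζ : 2 * d ≤ ζ) :
    {x : V | ⟪e, x - q⟫ = 0} ∩ Metric.closedBall q 1 ⊆ plug f e q d R := by
  rintro x ⟨h1, h2⟩
  have h1' : ⟪e, x - q⟫ = 0 := h1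
  rw [Metric.mem_closedBall, dist_eq_norm] at h2
  rw [plug_mem h hd hdζ]
  have h3 := norm_sq_orth h.he (x - q)
  have h4 := wb_mid (d := d)
  have h5 : 0 ≤ ‖orth e (x - q)‖ ^ 2 := sq_nonneg _
  have h6 : ‖orth e (x - q)‖ = ‖x - q‖ := by
    rw [h1', zero_pow two_ne_zero, zero_add] at h3
    exact ((sq_eq_sq₀ (norm_nonneg _) (norm_nonneg _)).1 h3).symm
  refine ⟨?_, h6.le.trans h2, ?_⟩
  · rw [h1', abs_zero]
    positivity
  · rw [h1']
    linarith

omit [FiniteDimensional ℝ V] in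
theorem plug_disc_convex : Convex ℝ ({x : V | ⟪e, x - q⟫ = 0} ∩ Metric.closedBall q 1) := by
  refine Convex.inter ?_ (convex_closedBall q 1)
  intro x hx y hy a b _ _ hab
  have hx' : ⟪e, x - q⟫ = 0 := hx
  have hy' : ⟪e, y - q⟫ = 0 := hy
  show ⟪e, a • x + b • y - q⟫ = 0
  have h1 : a • x + b • y - q = a • (x - q) + b • (y - q) := by
    rw [smul_sub, smul_sub]
    have h2 : q = a • q + b • q := by rw [← add_smul, hab, one_smul]
    nth_rewrite 1 [h2]
    abel
  rw [h1, inner_add_right, inner_smul_right, inner_smul_right, hx', hy']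
  ring

/-- The projection to the middle disc. -/
theorem plug_proj (h : CylN f e q ζ R) {x : V} (hx : x ∈ plug f e q d R) :
    x + ((0 - 1) * ⟪e, x - q⟫) • e ∈ {x : V | ⟪e, x - q⟫ = 0} ∩ Metric.closedBall q 1 := by
  obtain ⟨h1, h2, -⟩ := hx
  obtain ⟨h4, h5⟩ := plug_shift h.he x (q := q) ((0 - 1) * ⟪e, x - q⟫)
  have h6 : ⟪e, x + ((0 - 1) * ⟪e, x - q⟫) • e - q⟫ = 0 := by
    rw [h5]
    ring
  refine ⟨h6, ?_⟩
  rw [Metric.mem_closedBall, dist_eq_norm]
  have h7 := norm_sq_orth h.he (x + ((0 - 1) * ⟪e, x - q⟫) • e - q)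
  rw [h6, h4, zero_pow two_ne_zero, zero_add] at h7
  rw [(sq_eq_sq₀ (norm_nonneg _) (norm_nonneg _)).1 h7]
  exact h2

/-- In the plug `scut = ‖orth e (x - q)‖ ^ 2 - 1 + wb d s`, `s = ⟪e, x - q⟫`. The plug is
compact; the vertical contraction `x ↦ x + (t - 1) s • e` to the level `s = 0` maps it to itself
(`wb d` decreases in `|s|`); on the disc at the level `0` a circle map lifts. -/
theorem plug_lift (h : CylN f e q ζ R) (hf : Continuous f) (hd : 0 < d) (hdζ : 2 * d ≤ ζ) :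
    LiftS (plug f e q d R) ∧ IsConnected (plug f e q d R) := by
  have hmap : Continuous fun p : ℝ × V => p.2 + ((p.1 - 1) * ⟪e, p.2 - q⟫) • e := by fun_prop
  have hclD : IsClosed ({x : V | ⟪e, x - q⟫ = 0} ∩ Metric.closedBall q 1) := by
    refine IsClosed.inter ?_ Metric.isClosed_closedBall
    exact isClosed_eq (by fun_prop) continuous_const
  have hcpD : IsCompact ({x : V | ⟪e, x - q⟫ = 0} ∩ Metric.closedBall q 1) :=
    Metric.isCompact_of_isClosed_isBounded hclD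
      (Metric.isBounded_closedBall.subset inter_subset_right)
  have hD := plug_disc h hd hdζ
  have hq : q ∈ {x : V | ⟪e, x - q⟫ = 0} ∩ Metric.closedBall q 1 := by
    refine ⟨?_, Metric.mem_closedBall_self zero_le_one⟩
    show ⟪e, q - q⟫ = 0
    rw [sub_self, inner_zero_right]
  constructor
  · intro u hu h1
    have key : Lifts (plug f e q d R)
        ((fun (t : ℝ) (x : V) => u (x + ((t - 1) * ⟪e, x - q⟫) • e)) 1) := by
      refine lifts_homotopy (plug_compact h.he hf)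
        (fun t x => u (x + ((t - 1) * ⟪e, x - q⟫) • e)) ?_ ?_ ?_
      · exact hu.comp hmap.continuousOn fun p hp => plug_contract h hd hdζ hp.2 hp.1
      · exact fun t ht x hx => h1 _ (plug_contract h hd hdζ hx ht)
      · obtain ⟨v, hv, hv1⟩ := liftS_convex_compact hcpD plug_disc_convex u (hu.mono hD)
          fun x hx => h1 x (hD hx)
        have h0 : Continuous fun x : V => x + ((0 - 1) * ⟪e, x - q⟫) • e := by fun_prop
        exact ⟨fun x => v (x + ((0 - 1) * ⟪e, x - q⟫) • e),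
          hv.comp h0.continuousOn fun x hx => plug_proj h hx,
          fun x hx => hv1 _ (plug_proj h hx)⟩
    refine key.congr fun x _ => ?_
    simp
  · refine ⟨⟨q, hD hq⟩, ?_⟩
    refine isPreconnected_of_forall q fun y hy => ?_
    refine ⟨((fun t : ℝ => y + ((t - 1) * ⟪e, y - q⟫) • e) '' Icc (0 : ℝ) 1) ∪
      ({x : V | ⟪e, x - q⟫ = 0} ∩ Metric.closedBall q 1), ?_, Or.inr hq,
      Or.inl ⟨1, ⟨zero_le_one, le_rfl⟩, by simp⟩, ?_⟩
    · refine union_subset ?_ hD
      rintro _ ⟨t, ht, rfl⟩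
      exact plug_contract h hd hdζ hy ht
    · refine IsPreconnected.union (y + ((0 - 1) * ⟪e, y - q⟫) • e)
        ⟨0, ⟨le_rfl, zero_le_one⟩, rfl⟩ (plug_proj h hy) ?_ plug_disc_convex.isPreconnected
      have hc : Continuous fun t : ℝ => y + ((t - 1) * ⟪e, y - q⟫) • e := by fun_prop
      exact isPreconnected_Icc.image _ hc.continuousOn

/-- It is `{‖orth e (x - q)‖ = 1, |⟪e, x - q⟫| ≤ 3 / 2 d}`, the image of a circle times an interval; the
unit sphere of the plane `(ℝ ∙ e)ᗮ` is connected. -/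
theorem plug_side (hV : Module.finrank ℝ V = 3) (h : CylN f e q ζ R) (hd : 0 < d)
    (hdζ : 2 * d ≤ ζ) : IsConnected ({x | 0 ≤ f x} ∩ plug f e q d R) := by
  have he := h.he
  have he0 : e ≠ 0 := by
    intro h0
    rw [h0, norm_zero] at he
    exact zero_ne_one he
  have hfr : Module.finrank ℝ (ℝ ∙ e)ᗮ = 2 := by
    have h1 := (ℝ ∙ e).finrank_add_finrank_orthogonal
    rw [finrank_span_singleton he0, hV] at h1
    omega
  have hrk : 1 < Module.rank ℝ (ℝ ∙ e)ᗮ := by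
    rw [← Module.finrank_eq_rank, hfr]
    norm_num
  have hconn : IsConnected ((Metric.sphere (0 : (ℝ ∙ e)ᗮ) 1) ×ˢ Icc (-(3 / 2 * d)) (3 / 2 * d)) :=
    (isConnected_sphere hrk 0 zero_le_one).prod (isConnected_Icc (by linarith))
  have heq : {x | 0 ≤ f x} ∩ plug f e q d R =
      (fun p : (ℝ ∙ e)ᗮ × ℝ => q + (p.1 : V) + p.2 • e) ''
        ((Metric.sphere (0 : (ℝ ∙ e)ᗮ) 1) ×ˢ Icc (-(3 / 2 * d)) (3 / 2 * d)) := by
    ext x
    constructor
    · rintro ⟨h1, h2⟩
      rw [plug_mem h hd hdζ] at h2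
      obtain ⟨h2, h3, h4⟩ := h2
      have h1' : 0 ≤ f x := h1
      rw [h.hf x (by linarith) (h3.trans_lt h.hR)] at h1'
      have h5 : ‖orth e (x - q)‖ = 1 := by
        have := norm_nonneg (orth e (x - q))
        nlinarith
      refine ⟨(⟨orth e (x - q), Submodule.mem_orthogonal_singleton_iff_inner_right.2
        (inner_orth he _)⟩, ⟪e, x - q⟫), ⟨?_, abs_le.1 h2⟩, ?_⟩
      · rw [mem_sphere_zero_iff_norm]
        exact h5
      · show q + orth e (x - q) + ⟪e, x - q⟫ • e = x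
        unfold orth
        abel
    · rintro ⟨⟨y, s⟩, ⟨hy, hs⟩, rfl⟩
      rw [mem_sphere_zero_iff_norm] at hy
      have hy0 : ⟪e, (y : V)⟫ = 0 := Submodule.mem_orthogonal_singleton_iff_inner_right.1 y.2
      have hy1 : ‖(y : V)‖ = 1 := hy
      have e1 : q + (y : V) + s • e - q = (y : V) + s • e := by abel
      have e2 : ⟪e, q + (y : V) + s • e - q⟫ = s := by
        rw [e1, inner_add_right, inner_smul_right, hy0, real_inner_self_eq_norm_sq, he]
        ring
      have e3 : orth e (q + (y : V) + s • e - q) = y := by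
        unfold orth
        rw [e2, e1]
        abel
      have hs' : |s| ≤ 3 / 2 * d := abs_le.2 hs
      constructor
      · show 0 ≤ f (q + (y : V) + s • e)
        rw [h.hf _ (by rw [e2]; linarith) (by rw [e3, hy1]; exact h.hR), e3, hy1]
        norm_num
      · show q + (y : V) + s • e ∈ plug f e q d R
        rw [plug_mem h hd hdζ, e2, e3, hy1]
        refine ⟨hs', le_rfl, ?_⟩
        have := wb_nonneg d s
        linarith
  rw [heq]
  refine hconn.image _ (Continuous.continuousOn ?_)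
  fun_prop

end Pool.Schoen
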