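import Pool.Agent.H.MP_6c077c_gt.Al.PieceRet
import Pool.Agent.H.MP_6c077c_gt.Al.Plug

/-! Alexander's theorem: topology of the outer side of the parts of the smooth cut. -/

set_option autoImplicit false

namespace Pool.Schoen

open Filter Set
open scoped Topology RealInnerProductSpace ContDiff

variable {V : Type*} [NormedAddCommGroup V] [InnerProductSpace ℝ V] [FiniteDimensional ℝ V]
variable {f : V → ℝ} {e q : V} {ζ R d r : ℝ} {A C : Set V} {κ : V → ℝ}

omit [FiniteDimensional ℝ V] in
/-- A point of the neck where `f` is negative is in the open cylinder. -/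
private theorem PieceOut_neg (h : CylN f e q ζ R) {x : V} (hx : f x < 0)
    (h1 : |⟪e, x - q⟫| < ζ) (h2 : ‖orth e (x - q)‖ < R) : ‖orth e (x - q)‖ ≤ 1 := by
  by_contra hc
  have h3 := h.hf x h1 h2
  have h4 : 1 < ‖orth e (x - q)‖ := not_le.1 hc
  nlinarith

/-- PROOF. If `0 ≤ pc x`, `f x < 0`, `x ∉ C`: if `x ∈ A` then `0 ≤ scut x` (`pc_near`), else `0 < fcutC x`, so
`0 < lamC x` and `0 < scut x` (`scut_flat`); since `f x < scut x` the function `wcut` is not zero at `x`, so
`⟪e, x - q⟫ ^ 2 < 2 d ^ 2`, `‖orth e (x - q)‖ < R`, and `f x < 0` gives `‖orth e (x - q)‖ < 1`. Conversely `f ≤ scut`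
(`scut_ge`, `piece_le`), and on `C` `pc = 1`. -/
theorem outer_eq (h : CylN f e q ζ R) (hd : 0 < d) (hdζ : 2 * d ≤ ζ) (hr : 1 < r) (hrR : r < R)
    (hp : PartsC f e q d r A C) (hκ : Sepr κ A C) :
    {x | 0 ≤ pc κ (scut f e q d R) x} = {x | 0 ≤ f x} ∪ plug f e q d R ∪ C := by
  have hR := h.hR
  have key : ∀ x, pc κ (scut f e q d R) x < 0 → scut f e q d R x < 0 := by
    intro x hx
    obtain ⟨h1, h2⟩ := (piece_le h hd hdζ hr hrR hp.split hκ x).1 hx.le
    rw [(pc_near (F := scut f e q d R) hκ h2).self_of_nhds] at hx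
    exact hx
  ext x
  constructor
  · intro hx
    have hx0 : 0 ≤ pc κ (scut f e q d R) x := hx
    by_cases hfx : 0 ≤ f x
    · exact Or.inl (Or.inl hfx)
    by_cases hC : x ∈ C
    · exact Or.inr hC
    have hfx' : f x < 0 := not_le.1 hfx
    refine Or.inl (Or.inr ?_)
    by_cases hA : x ∈ A
    · have h0 : 0 ≤ scut f e q d R x := by
        rw [(pc_near (F := scut f e q d R) hκ hA).self_of_nhds] at hx0
        exact hx0
      have hw : wcut e q d R x ≠ 0 := by
        intro hw
        unfold scut at h0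
        rw [hw, add_zero] at h0
        exact hfx h0
      have hs : ⟪e, x - q⟫ ^ 2 < 2 * d ^ 2 := by
        by_contra hc
        apply hw
        unfold wcut
        rw [wb_zero hd (not_lt.1 hc), zero_mul]
      have hs1 : |⟪e, x - q⟫| < 3 / 2 * d := by
        rw [← sq_abs ⟪e, x - q⟫] at hs
        by_contra hc
        have h5 := not_lt.1 hc
        nlinarith
      have hy : ‖orth e (x - q)‖ < R := by
        by_contra hc
        apply hw
        unfold wcut
        rw [rb_zero hR, mul_zero]
        have h5 := not_lt.1 hc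
        nlinarith
      exact ⟨hs1.le, PieceOut_neg h hfx' (by linarith) hy, h0⟩
    · have hn : x ∉ {x | fcutC f e q d r x ≤ 0} := by
        rw [← hp.un]
        rintro (h1 | h1)
        · exact hA h1
        · exact hC h1
      have hn' : 0 < fcutC f e q d r x := not_le.1 hn
      have hl : 0 < lamC e q d r x := by
        rcases lt_max_iff.1 hn' with h1 | h1
        · exact absurd h1.le hfx
        · exact h1
      obtain ⟨h1, h2⟩ := lt_min_iff.1 hl
      refine ⟨by linarith, PieceOut_neg h hfx' (by linarith) (by linarith), ?_⟩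
      by_contra hc
      exact hn (scut_flat h hd hdζ hr hrR (not_le.1 hc).le)
  · intro hx
    show 0 ≤ pc κ (scut f e q d R) x
    by_contra hc
    have h1 := key x (not_le.1 hc)
    rcases hx with (hx | hx) | hx
    · have h2 : 0 ≤ f x := hx
      have h3 := scut_ge f e q d R x
      linarith
    · have h2 := hx.2.2
      linarith
    · have h2 := (pc_one (F := scut f e q d R) hκ hx).self_of_nhds
      rw [h2] at hc
      exact hc zero_le_one

/-- PROOF. `outer_eq`; the plug meets `{0 ≤ f}` (`plug_side`) and `C` (at `q + d • e`). -/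
theorem outer_conn (hV : Module.finrank ℝ V = 3) (h : CylN f e q ζ R) (hf : Continuous f)
    (hd : 0 < d) (hdζ : 2 * d ≤ ζ) (hr : 1 < r) (hrR : r < R) (hp : PartsC f e q d r A C)
    (hκ : Sepr κ A C) (ho : IsConnected {x | 0 ≤ f x}) :
    IsConnected {x | 0 ≤ pc κ (scut f e q d R) x} := by
  rw [outer_eq h hd hdζ hr hrR hp hκ]
  have h1 := (plug_lift h hf hd hdζ).2
  have h2 := ho.union (plug_side hV h hd hdζ).nonempty h1
  refine h2.union ⟨q + d • e, Or.inr ?_, hp.wp ?_⟩ hp.connC
  · have e1 : ⟪e, q + d • e - q⟫ = d := by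
      rw [add_sub_cancel_left, real_inner_smul_right, real_inner_self_eq_norm_sq, h.he]
      ring
    have e2 : orth e (q + d • e - q) = 0 := by
      unfold orth
      rw [e1, add_sub_cancel_left, sub_self]
    have e3 : |⟪e, q + d • e - q⟫| < ζ := by
      rw [e1, abs_of_pos hd]
      linarith
    refine ⟨by rw [e1, abs_of_pos hd]; linarith, by rw [e2, norm_zero]; exact zero_le_one, ?_⟩
    rw [(h.scut_in (d := d) e3 (by rw [e2, norm_zero]; exact zero_le_one)).self_of_nhds]
    unfold scutM
    rw [e1, e2, norm_zero, wb_one hd.ne']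
    norm_num
  · have e1 : ⟪e, q + d • e - q⟫ = d := by
      rw [add_sub_cancel_left, real_inner_smul_right, real_inner_self_eq_norm_sq, h.he]
      ring
    have e2 : orth e (q + d • e - q) = 0 := by
      unfold orth
      rw [e1, add_sub_cancel_left, sub_self]
    exact ⟨e1.ge, e1.le, by rw [e2, norm_zero]; exact zero_le_one⟩

/-- PROOF. `Z = {0 ≤ f} ∪ plug` has the lifting property (`LiftS.union`, `plug_lift`, `plug_side`).
`LiftS.of_union` for `X = {0 ≤ pc}` and `B = {pc ≤ 0} ∪ Z`: `X ∪ B` is everything (`liftS_univ`), and `X ∩ B = Z`: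
`Z ⊆ X` (`outer_eq`), and a zero of `pc` is a zero of `scut` (`piece_zero`), so a zero of `f` or in the
cylinder (`CylN.scut_zero`), where it is in the plug or `f x = ‖orth e (x - q)‖ ^ 2 - 1 = 0`. -/
theorem outer_lift (hV : Module.finrank ℝ V = 3) (h : CylN f e q ζ R) (hf : ContDiff ℝ ∞ f)
    (hd : 0 < d) (hdζ : 2 * d ≤ ζ) (hr : 1 < r) (hrR : r < R) (hp : PartsC f e q d r A C)
    (hκ : Sepr κ A C) (hl : LiftS {x | 0 ≤ f x}) :
    LiftS {x | 0 ≤ pc κ (scut f e q d R) x} := by
  have hR := h.hR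
  have hfc := hf.continuous
  have hPc : Continuous (pc κ (scut f e q d R)) := (pc_smooth hκ (scut_smooth hf e q d R)).continuous
  have hcl1 : IsClosed {x | 0 ≤ f x} := isClosed_le continuous_const hfc
  have hcl2 : IsClosed (plug f e q d R) := plug_closed hfc
  have hZ : LiftS ({x | 0 ≤ f x} ∪ plug f e q d R) :=
    LiftS.union hcl1 hcl2 hl (plug_lift h hfc hd hdζ).1 (plug_side hV h hd hdζ).isPreconnected
  have heq := outer_eq h hd hdζ hr hrR hp hκ
  refine LiftS.of_union (A := {x | 0 ≤ pc κ (scut f e q d R) x})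
    (B := {x | pc κ (scut f e q d R) x ≤ 0} ∪ ({x | 0 ≤ f x} ∪ plug f e q d R))
    (isClosed_le continuous_const hPc)
    ((isClosed_le hPc continuous_const).union (hcl1.union hcl2)) ?_ ?_
  · have hU : {x | 0 ≤ pc κ (scut f e q d R) x} ∪
        ({x | pc κ (scut f e q d R) x ≤ 0} ∪ ({x | 0 ≤ f x} ∪ plug f e q d R)) = univ := by
      rw [Set.eq_univ_iff_forall]
      intro x
      rcases le_total 0 (pc κ (scut f e q d R) x) with h1 | h1
      · exact Or.inl h1
      · exact Or.inr (Or.inl h1)
    rw [hU]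
    exact liftS_univ V
  · have hI : {x | 0 ≤ pc κ (scut f e q d R) x} ∩
        ({x | pc κ (scut f e q d R) x ≤ 0} ∪ ({x | 0 ≤ f x} ∪ plug f e q d R)) =
        {x | 0 ≤ f x} ∪ plug f e q d R := by
      ext x
      constructor
      · rintro ⟨h1, h2 | h2⟩
        · have h3 : pc κ (scut f e q d R) x = 0 := le_antisymm h2 h1
          obtain ⟨h4, -⟩ := (piece_zero h hd hdζ hr hrR hp.split hκ x).1 h3
          rcases h.scut_zero hd hdζ h4 with ⟨-, h5, -⟩ | ⟨h5, h6, h7⟩
          · exact Or.inl h5.ge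
          · by_cases h8 : |⟪e, x - q⟫| ≤ 3 / 2 * d
            · exact Or.inr ⟨h8, h6, h4.ge⟩
            · have h9 : 2 * d ^ 2 ≤ ⟪e, x - q⟫ ^ 2 := by
                rw [← sq_abs ⟪e, x - q⟫]
                have := not_le.1 h8
                nlinarith
              refine Or.inl ?_
              have h10 := CylN.scut_eq (f := f) (e := e) (q := q) (R := R) hd h9
              show 0 ≤ f x
              rw [← h10, h4]
        · exact h2
      · intro hx
        refine ⟨?_, Or.inr hx⟩
        rw [heq]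
        exact Or.inl hx
    rw [hI]
    exact hZ

theorem piece_top (hV : Module.finrank ℝ V = 3) (h : CylN f e q ζ R) (hf : ContDiff ℝ ∞ f)
    (hd : 0 < d) (hdζ : 2 * d ≤ ζ) (hr : 1 < r) (hrR : r < R) (hp : PartsC f e q d r A C)
    (hκ : Sepr κ A C) (ho : IsConnected {x | 0 ≤ f x}) (hl : LiftS A ∨ LiftS {x | 0 ≤ f x}) :
    TopE (pc κ (scut f e q d R)) :=
  ⟨piece_conn h hf.continuous hd hdζ hr hrR hp hκ,
    outer_conn hV h hf.continuous hd hdζ hr hrR hp hκ ho,
    hl.imp (piece_lift h hf.continuous hd hdζ hr hrR hp hκ)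
      (outer_lift hV h hf hd hdζ hr hrR hp hκ)⟩

end Pool.Schoen
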