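import Pool.Agent.H.MP_6c077c_gt.Al.PieceMo
import Pool.Agent.H.MP_6c077c_gt.IxB.Lift
import Pool.Agent.H.MP_6c077c_gt.IxB.LiftBall

/-! Alexander's theorem: the bodies of the parts of the smooth cut. -/

set_option autoImplicit false

namespace Pool.Schoen

open Filter Set
open scoped Topology RealInnerProductSpace ContDiff

/-- Radial retraction onto the ball of radius `t`. -/
private noncomputable def PieceRet_rad {W : Type*} [NormedAddCommGroup W] [NormedSpace ℝ W]
    (t : ℝ) (y : W) : W := (t / max t ‖y‖) • y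

private theorem PieceRet_rad_le {W : Type*} [NormedAddCommGroup W] [NormedSpace ℝ W]
    {t : ℝ} (ht : 0 ≤ t) (y : W) : ‖PieceRet_rad t y‖ ≤ ‖y‖ := by
  unfold PieceRet_rad
  have h0 : 0 ≤ max t ‖y‖ := ht.trans (le_max_left _ _)
  rw [norm_smul, Real.norm_of_nonneg (div_nonneg ht h0)]
  have h1 : t / max t ‖y‖ ≤ 1 := div_le_one_of_le₀ (le_max_left _ _) h0
  exact mul_le_of_le_one_left (norm_nonneg _) h1

private theorem PieceRet_rad_le' {W : Type*} [NormedAddCommGroup W] [NormedSpace ℝ W]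
    {t : ℝ} (ht : 0 ≤ t) (y : W) : ‖PieceRet_rad t y‖ ≤ t := by
  unfold PieceRet_rad
  have h0 : 0 ≤ max t ‖y‖ := ht.trans (le_max_left _ _)
  rw [norm_smul, Real.norm_of_nonneg (div_nonneg ht h0)]
  rcases h0.eq_or_lt with h1 | h1
  · rw [← h1, div_zero, zero_mul]
    exact ht
  · rw [div_mul_eq_mul_div, div_le_iff₀ h1]
    exact mul_le_mul_of_nonneg_left (le_max_right _ _) ht

private theorem PieceRet_rad_eq {W : Type*} [NormedAddCommGroup W] [NormedSpace ℝ W]
    {t : ℝ} {y : W} (h : ‖y‖ ≤ t) : PieceRet_rad t y = y := by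
  unfold PieceRet_rad
  rw [max_eq_left h]
  rcases eq_or_ne t 0 with h1 | h1
  · rw [h1] at h
    rw [norm_le_zero_iff.1 h, smul_zero]
  · rw [div_self h1, one_smul]

private theorem PieceRet_rad_cont {X W : Type*} [TopologicalSpace X] [NormedAddCommGroup W]
    [NormedSpace ℝ W] {t : X → ℝ} {y : X → W} (ht : Continuous t) (hy : Continuous y)
    (h0 : ∀ x, 0 ≤ t x) : Continuous fun x => PieceRet_rad (t x) (y x) := by
  rw [continuous_iff_continuousAt]
  intro x
  by_cases h1 : max (t x) ‖y x‖ = 0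
  · have h2 : y x = 0 := by
      have h3 : ‖y x‖ ≤ 0 := (le_max_right _ _).trans h1.le
      exact norm_le_zero_iff.1 h3
    have h4 : PieceRet_rad (t x) (y x) = 0 := by
      unfold PieceRet_rad
      rw [h2, smul_zero]
    show Tendsto (fun z => PieceRet_rad (t z) (y z)) (𝓝 x) (𝓝 (PieceRet_rad (t x) (y x)))
    rw [h4]
    refine squeeze_zero_norm (a := fun z => ‖y z‖) (fun z => PieceRet_rad_le (h0 z) _) ?_
    have h5 : Tendsto (fun z => ‖y z‖) (𝓝 x) (𝓝 ‖y x‖) := hy.norm.tendsto x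
    rwa [h2, norm_zero] at h5
  · have h2 : ContinuousAt (fun z => t z / max (t z) ‖y z‖) x :=
      ht.continuousAt.div (ht.max hy.norm).continuousAt h1
    exact h2.smul hy.continuousAt

private theorem PieceRet_wb {d s : ℝ} (hd : 0 < d) (hs : d ^ 2 ≤ s ^ 2) : wb d s ≤ 1 := by
  unfold wb
  by_cases h0 : 2 - (s / d) ^ 2 ≤ 0
  · rw [expNegInvGlue.zero_of_nonpos h0, mul_zero]
    exact zero_le_one
  · have h1 : expNegInvGlue (2 - (s / d) ^ 2) = Real.exp (-(2 - (s / d) ^ 2)⁻¹) := by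
      unfold expNegInvGlue
      rw [if_neg h0]
    rw [h1, ← Real.exp_add, Real.exp_le_one_iff]
    have h2 : 1 ≤ (s / d) ^ 2 := by
      rw [div_pow, le_div_iff₀ (by positivity), one_mul]
      exact hs
    have h3 : 1 ≤ (2 - (s / d) ^ 2)⁻¹ :=
      (one_le_inv₀ (not_le.1 h0)).2 (by linarith)
    linarith

variable {V : Type*} [NormedAddCommGroup V] [InnerProductSpace ℝ V] [FiniteDimensional ℝ V]
variable {f : V → ℝ} {e q : V} {ζ R d r : ℝ} {A C : Set V} {κ : V → ℝ}

omit [FiniteDimensional ℝ V] in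
private theorem PieceRet_flat (h : CylN f e q ζ R) {x : V} (h1 : d ≤ |⟪e, x - q⟫|)
    (h2 : |⟪e, x - q⟫| < ζ) (h3 : ‖orth e (x - q)‖ ≤ 1) : fcutC f e q d r x ≤ 0 := by
  have h4 := norm_nonneg (orth e (x - q))
  refine max_le ?_ ((min_le_left _ _).trans (by linarith))
  rw [h.hf x h2 (h3.trans_lt h.hR)]
  nlinarith

omit [FiniteDimensional ℝ V] in
private theorem PieceRet_sub {K B D : Set V} (hK : IsPreconnected K) (hB : IsClosed B)
    (hD : IsClosed D) (hd : Disjoint B D) (hs : K ⊆ B ∪ D) {x0 : V} (h0 : x0 ∈ K) (h1 : x0 ∈ B) :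
    K ⊆ B := by
  rcases isPreconnected_iff_subset_of_disjoint_closed.1 hK B D hB hD hs
    (by rw [hd.inter_eq, inter_empty]) with h2 | h2
  · exact h2
  · exact absurd (h2 h0) (disjoint_left.1 hd h1)

/-- The upper half of the neck belongs to `C`. PROOF. `cylS e q d b` is convex, contained in
`{fcutC ≤ 0} = A ∪ C` for `b < ζ`, and meets `C` in the wall. -/
theorem PartsC.high (h : CylN f e q ζ R) (hd : 0 < d) (hr : 1 < r) (hrR : r < R)
    (hp : PartsC f e q d r A C) {x : V} (h1 : d ≤ ⟪e, x - q⟫) (h2 : ⟪e, x - q⟫ < ζ)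
    (h3 : ‖orth e (x - q)‖ ≤ 1) : x ∈ C := by
  have hK : IsPreconnected (cylS e q d ⟪e, x - q⟫) := (cylS_convex e q _ _).isPreconnected
  have hs : cylS e q d ⟪e, x - q⟫ ⊆ C ∪ A := by
    intro z hz
    rw [union_comm, hp.un]
    have h4 : 0 < ⟪e, z - q⟫ := hd.trans_le hz.1
    refine PieceRet_flat h ?_ ?_ hz.2.2
    · rw [abs_of_pos h4]
      exact hz.1
    · rw [abs_of_pos h4]
      exact hz.2.1.trans_lt h2
  exact PieceRet_sub hK hp.clC hp.clA hp.disj.symm hs (cylS_mem h.he q le_rfl h1)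
    (hp.wp (cylS_mem h.he q le_rfl le_rfl)) ⟨h1, le_rfl, h3⟩

/-- The lower half of the neck belongs to `A`. -/
theorem PartsC.low (h : CylN f e q ζ R) (hd : 0 < d) (hr : 1 < r) (hrR : r < R)
    (hp : PartsC f e q d r A C) {x : V} (h1 : -ζ < ⟪e, x - q⟫) (h2 : ⟪e, x - q⟫ ≤ -d)
    (h3 : ‖orth e (x - q)‖ ≤ 1) : x ∈ A := by
  have hK : IsPreconnected (cylS e q ⟪e, x - q⟫ (-d)) := (cylS_convex e q _ _).isPreconnected
  have hs : cylS e q ⟪e, x - q⟫ (-d) ⊆ A ∪ C := by
    intro z hz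
    rw [hp.un]
    have h4 : ⟪e, z - q⟫ < 0 := hz.2.1.trans_lt (by linarith)
    refine PieceRet_flat h ?_ ?_ hz.2.2
    · rw [abs_of_neg h4]
      linarith [hz.2.1]
    · rw [abs_of_neg h4]
      linarith [hz.1]
  exact PieceRet_sub hK hp.clA hp.clC hp.disj hs (cylS_mem h.he q h2 le_rfl)
    (hp.wm (cylS_mem h.he q le_rfl le_rfl)) ⟨le_rfl, h2, h3⟩

/-- The lower end of the neck. -/
private def PieceRet_N (e q : V) (d : ℝ) : Set V :=
  {x | -(3 / 2 * d) ≤ ⟪e, x - q⟫ ∧ ⟪e, x - q⟫ ≤ -d ∧ ‖orth e (x - q)‖ ≤ 1}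

/-- The rest. -/
private def PieceRet_F (e q : V) (d ζ R : ℝ) : Set V :=
  {x | ⟪e, x - q⟫ ≤ -(3 / 2 * d) ∨ ζ ≤ ⟪e, x - q⟫ ∨ R ≤ ‖orth e (x - q)‖}

private theorem PieceRet_cover (h : CylN f e q ζ R) (hd : 0 < d) (hdζ : 2 * d ≤ ζ)
    (hr : 1 < r) (hrR : r < R) (hp : PartsC f e q d r A C) {x : V} (hx : x ∈ A) :
    x ∈ PieceRet_N e q d ∨ x ∈ PieceRet_F e q d ζ R := by
  have hx' : x ∈ {x | fcutC f e q d r x ≤ 0} := by
    rw [← hp.un]
    exact Or.inl hx
  have hx1 : max (f x) (lamC e q d r x) ≤ 0 := hx'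
  obtain ⟨hx2, hx3⟩ := max_le_iff.1 hx1
  by_cases c1 : ‖orth e (x - q)‖ < R
  · by_cases c2 : |⟪e, x - q⟫| < ζ
    · have h0 := norm_nonneg (orth e (x - q))
      have h1 : ‖orth e (x - q)‖ ≤ 1 := by
        rw [h.hf x c2 c1] at hx2
        by_contra h3
        push Not at h3
        nlinarith
      have h2 : d ≤ |⟪e, x - q⟫| := by
        unfold lamC at hx3
        rcases min_le_iff.1 hx3 with h3 | h3 <;> linarith
      have h4 := abs_lt.1 c2
      rcases le_total 0 ⟪e, x - q⟫ with h3 | h3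
      · rw [abs_of_nonneg h3] at h2
        exact absurd (PartsC.high h hd hr hrR hp h2 h4.2 h1) (disjoint_left.1 hp.disj hx)
      · rw [abs_of_nonpos h3] at h2
        by_cases c3 : ⟪e, x - q⟫ ≤ -(3 / 2 * d)
        · exact Or.inr (Or.inl c3)
        · exact Or.inl ⟨(not_le.1 c3).le, by linarith, h1⟩
    · right
      rcases le_abs.1 (not_lt.1 c2) with h3 | h3
      · exact Or.inr (Or.inl h3)
      · exact Or.inl (by linarith)
  · exact Or.inr (Or.inr (Or.inr (not_lt.1 c1)))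

omit [FiniteDimensional ℝ V] in
private theorem PieceRet_height (he : ‖e‖ = 1) (q : V) (s : ℝ) {y : V} (hy : ⟪e, y⟫ = 0) :
    ⟪e, q + s • e + y - q⟫ = s := by
  have e1 : q + s • e + y - q = s • e + y := by abel
  rw [e1, inner_add_right, real_inner_smul_right, real_inner_self_eq_norm_sq, he, hy]
  ring

omit [FiniteDimensional ℝ V] in
private theorem PieceRet_orth (he : ‖e‖ = 1) (q : V) (s : ℝ) {y : V} (hy : ⟪e, y⟫ = 0) :
    orth e (q + s • e + y - q) = y := by
  unfold orth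
  rw [PieceRet_height he q s hy]
  abel

omit [FiniteDimensional ℝ V] in
private theorem PieceRet_split (e q x : V) : q + ⟪e, x - q⟫ • e + orth e (x - q) = x := by
  unfold orth
  abel

/-- A retraction of `A` onto the body of the part. PROOF. Write `s = ⟪e, x - q⟫`, `y = orth e (x - q)`,
`m s = max 0 (1 - wb d s)`; in the lower half of the neck (`-ζ < s ≤ -d`) the body is `‖y‖ ^ 2 ≤ m s`
(`m s = 1 - wb d s`, it is `1` for `s ^ 2 ≥ 2 d ^ 2`). `A1 = A ∩ {-3 / 2 d ≤ s ≤ -d, ‖y‖ ≤ 1}`,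
`A2 = A ∩ {s ≤ -3 / 2 d or ζ ≤ s or R ≤ ‖y‖}`; these closed sets cover `A` (`PartsC.high`; `f ≤ 0` and
`lamC ≤ 0` on `A`). `r x = x` on `A2`, `r x = q + s • e + (√(m s) / max √(m s) ‖y‖) • y` on `A1`. Continuity at
points with `y = 0`, `m s = 0`: `‖r x - q - s • e‖ ≤ ‖y‖`. -/
theorem piece_retract (h : CylN f e q ζ R) (hf : Continuous f) (hd : 0 < d) (hdζ : 2 * d ≤ ζ)
    (hr : 1 < r) (hrR : r < R) (hp : PartsC f e q d r A C) (hκ : Sepr κ A C) :
    ∃ ρ : V → V, ContinuousOn ρ A ∧ (∀ x ∈ A, pc κ (scut f e q d R) (ρ x) ≤ 0) ∧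
      ∀ x, pc κ (scut f e q d R) x ≤ 0 → x ∈ A ∧ ρ x = x := by
  classical
  have hpl := piece_le h hd hdζ hr hrR hp.split hκ
  have cs : Continuous fun x : V => ⟪e, x - q⟫ := by fun_prop
  have cy : Continuous fun x : V => orth e (x - q) := by
    unfold orth
    fun_prop
  have cm : Continuous fun x : V => √(1 - wb d ⟪e, x - q⟫) :=
    (continuous_const.sub ((wb_smooth d).continuous.comp cs)).sqrt
  set g : V → V := fun x =>
    q + ⟪e, x - q⟫ • e + PieceRet_rad √(1 - wb d ⟪e, x - q⟫) (orth e (x - q)) with hg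
  have cg : Continuous g :=
    (continuous_const.add (cs.smul continuous_const)).add
      (PieceRet_rad_cont cm cy fun x => Real.sqrt_nonneg _)
  have hNF : ∀ x, x ∈ PieceRet_N e q d → x ∈ PieceRet_F e q d ζ R → g x = x := by
    rintro x ⟨h1, h2, h3⟩ h4
    have h5 : ⟪e, x - q⟫ ≤ -(3 / 2 * d) := by
      rcases h4 with h4 | h4 | h4
      · exact h4
      · linarith
      · linarith
    have h6 : wb d ⟪e, x - q⟫ = 0 := wb_zero hd (by nlinarith)
    have h7 : ‖orth e (x - q)‖ ≤ √(1 - wb d ⟪e, x - q⟫) := by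
      rw [h6, sub_zero, Real.sqrt_one]
      exact h3
    show q + ⟪e, x - q⟫ • e + PieceRet_rad √(1 - wb d ⟪e, x - q⟫) (orth e (x - q)) = x
    rw [PieceRet_rad_eq h7, PieceRet_split]
  refine ⟨fun x => if x ∈ PieceRet_N e q d then g x else x, ?_, ?_, ?_⟩
  · have hNc : IsClosed (PieceRet_N e q d) := by
      have h1 : IsClosed {x : V | -(3 / 2 * d) ≤ ⟪e, x - q⟫} := isClosed_le continuous_const cs
      have h2 : IsClosed {x : V | ⟪e, x - q⟫ ≤ -d} := isClosed_le cs continuous_const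
      have h3 : IsClosed {x : V | ‖orth e (x - q)‖ ≤ 1} := isClosed_le cy.norm continuous_const
      exact h1.inter (h2.inter h3)
    have hFc : IsClosed (PieceRet_F e q d ζ R) := by
      have h1 : IsClosed {x : V | ⟪e, x - q⟫ ≤ -(3 / 2 * d)} := isClosed_le cs continuous_const
      have h2 : IsClosed {x : V | ζ ≤ ⟪e, x - q⟫} := isClosed_le continuous_const cs
      have h3 : IsClosed {x : V | R ≤ ‖orth e (x - q)‖} := isClosed_le continuous_const cy.norm
      exact h1.union (h2.union h3)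
    have hA : A ⊆ PieceRet_N e q d ∪ PieceRet_F e q d ζ R := fun x hx =>
      PieceRet_cover h hd hdζ hr hrR hp hx
    refine ContinuousOn.mono ?_ hA
    refine ContinuousOn.union_of_isClosed ?_ ?_ hNc hFc
    · refine cg.continuousOn.congr fun x hx => ?_
      exact if_pos hx
    · refine continuousOn_id.congr fun x hx => ?_
      by_cases h1 : x ∈ PieceRet_N e q d
      · rw [if_pos h1, hNF x h1 hx]
        rfl
      · rw [if_neg h1]
        rfl
  · intro x hx
    by_cases h1 : x ∈ PieceRet_N e q d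
    · beta_reduce
      rw [if_pos h1, hpl]
      obtain ⟨a1, a2, a3⟩ := h1
      have hy : ⟪e, PieceRet_rad √(1 - wb d ⟪e, x - q⟫) (orth e (x - q))⟫ = 0 := by
        unfold PieceRet_rad
        rw [real_inner_smul_right, inner_orth h.he, mul_zero]
      have e1 : ⟪e, g x - q⟫ = ⟪e, x - q⟫ := PieceRet_height h.he q _ hy
      have e2 : orth e (g x - q) = PieceRet_rad √(1 - wb d ⟪e, x - q⟫) (orth e (x - q)) :=
        PieceRet_orth h.he q _ hy
      have e3 : |⟪e, x - q⟫| < ζ := by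
        rw [abs_lt]
        constructor <;> linarith
      have e4 : ‖orth e (g x - q)‖ ≤ 1 := by
        rw [e2]
        exact (PieceRet_rad_le (Real.sqrt_nonneg _) _).trans a3
      have e5 : wb d ⟪e, x - q⟫ ≤ 1 := PieceRet_wb hd (by nlinarith)
      refine ⟨?_, ?_⟩
      · rw [(h.scut_in (d := d) (x := g x) (by rw [e1]; exact e3) e4).self_of_nhds]
        unfold scutM
        rw [e1, e2]
        have e6 := PieceRet_rad_le' (Real.sqrt_nonneg (1 - wb d ⟪e, x - q⟫)) (orth e (x - q))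
        have e7 := pow_le_pow_left₀ (norm_nonneg _) e6 2
        rw [Real.sq_sqrt (by linarith)] at e7
        linarith
      · refine PartsC.low h hd hr hrR hp ?_ ?_ e4
        · rw [e1]
          linarith
        · rw [e1]
          exact a2
    · beta_reduce
      rw [if_neg h1, hpl]
      refine ⟨?_, hx⟩
      have hx' : x ∈ {x | fcutC f e q d r x ≤ 0} := by
        rw [← hp.un]
        exact Or.inl hx
      have hx1 : max (f x) (lamC e q d r x) ≤ 0 := hx'
      have hx2 := (max_le_iff.1 hx1).1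
      rcases PieceRet_cover h hd hdζ hr hrR hp hx with h2 | h2
      · exact absurd h2 h1
      · rcases h2 with h2 | h2 | h2
        · rw [CylN.scut_eq hd (by nlinarith)]
          exact hx2
        · rw [CylN.scut_eq hd (by nlinarith)]
          exact hx2
        · rw [(h.scut_off hd hdζ (Or.inr h2)).self_of_nhds]
          exact hx2
  · intro x hx
    rw [hpl] at hx
    refine ⟨hx.2, ?_⟩
    by_cases h1 : x ∈ PieceRet_N e q d
    · beta_reduce
      rw [if_pos h1]
      obtain ⟨a1, a2, a3⟩ := h1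
      have e3 : |⟪e, x - q⟫| < ζ := by
        rw [abs_lt]
        constructor <;> linarith
      have e5 := hx.1
      rw [(h.scut_in (d := d) (x := x) e3 a3).self_of_nhds] at e5
      unfold scutM at e5
      have h7 : ‖orth e (x - q)‖ ≤ √(1 - wb d ⟪e, x - q⟫) :=
        Real.le_sqrt_of_sq_le (by linarith)
      show q + ⟪e, x - q⟫ • e + PieceRet_rad √(1 - wb d ⟪e, x - q⟫) (orth e (x - q)) = x
      rw [PieceRet_rad_eq h7, PieceRet_split]
    · exact if_neg h1

/-- PROOF. Image of `A` under the retraction. -/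
theorem piece_conn (h : CylN f e q ζ R) (hf : Continuous f) (hd : 0 < d) (hdζ : 2 * d ≤ ζ)
    (hr : 1 < r) (hrR : r < R) (hp : PartsC f e q d r A C) (hκ : Sepr κ A C) :
    IsConnected {x | pc κ (scut f e q d R) x ≤ 0} := by
  obtain ⟨ρ, h1, h2, h3⟩ := piece_retract h hf hd hdζ hr hrR hp hκ
  have h4 : ρ '' A = {x | pc κ (scut f e q d R) x ≤ 0} := by
    ext x
    constructor
    · rintro ⟨z, hz, rfl⟩
      exact h2 z hz
    · intro hx
      exact ⟨x, (h3 x hx).1, (h3 x hx).2⟩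
  rw [← h4]
  exact hp.connA.image ρ h1

/-- PROOF. Compose with the retraction. -/
theorem piece_lift (h : CylN f e q ζ R) (hf : Continuous f) (hd : 0 < d) (hdζ : 2 * d ≤ ζ)
    (hr : 1 < r) (hrR : r < R) (hp : PartsC f e q d r A C) (hκ : Sepr κ A C) (hl : LiftS A) :
    LiftS {x | pc κ (scut f e q d R) x ≤ 0} := by
  obtain ⟨ρ, h1, h2, h3⟩ := piece_retract h hf hd hdζ hr hrR hp hκ
  intro u hu hn
  obtain ⟨v, hv, hv'⟩ := hl (fun x => u (ρ x)) (hu.comp h1 fun x hx => h2 x hx)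
    fun x hx => hn _ (h2 x hx)
  refine ⟨v, hv.mono fun x hx => (h3 x hx).1, fun x hx => ?_⟩
  have h4 := hv' x (h3 x hx).1
  beta_reduce at h4
  rwa [(h3 x hx).2] at h4

end Pool.Schoen
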