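import Pool.Agent.H.MP_6c077c_gt.Al.Diffeo
import Pool.Agent.H.MP_6c077c_gt.Al.Forms
import Pool.Agent.H.MP_6c077c_gt.Gd.Plane
import Pool.Agent.H.MP_6c077c_gt.Gd.BaseDef

/-! Alexander's theorem: diffeomorphisms preserving the height, made from planar ones. -/

set_option autoImplicit false

namespace Pool.Schoen

open Filter Set
open scoped Topology RealInnerProductSpace ContDiff

variable {V : Type*} [NormedAddCommGroup V] [InnerProductSpace ℝ V] [FiniteDimensional ℝ V]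

/-- A planar domain is carried to the unit disc by a diffeomorphism of the plane with compact
support. -/
theorem planar_dif (hn : Module.finrank ℝ V = 2) (G : V → ℝ) (hD : Dom G) :
    ∃ φ ψ : V → V, Dif φ ψ ∧ (∃ R : ℝ, ∀ w, R ≤ ‖w‖ → φ w = w) ∧
      (∀ w, G (φ w) ≤ 0 ↔ ‖w‖ ≤ 1) ∧ (∀ w, G (φ w) = 0 ↔ ‖w‖ = 1) := by
  have hB : Hom G fun x : V => ‖x‖ ^ 2 - 1 := ball_plane hn G hD
  have hs : ContDiff ℝ ∞ fun x : V => ‖x‖ ^ 2 - 1 := (contDiff_norm_sq ℝ).sub contDiff_const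
  obtain ⟨φ, ψ, h1, h2, h3, h4, h5, h6, h7⟩ := (hB.carries hD.smooth hs).symm
  refine ⟨φ, ψ, ⟨h1, h2, h3, h4⟩, h5, fun w => ?_, fun w => ?_⟩
  · constructor
    · intro h
      have h8 : φ w ∈ φ '' {x : V | ‖x‖ ^ 2 - 1 ≤ 0} := by
        rw [h7]
        exact h
      obtain ⟨y, hy, hyw⟩ := h8
      have h9 : y = w := by rw [← h3 y, hyw, h3 w]
      rw [h9] at hy
      have h10 : ‖w‖ ^ 2 - 1 ≤ 0 := hy
      nlinarith [norm_nonneg w]
    · intro h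
      have h8 : φ w ∈ {x | G x ≤ 0} := by
        rw [← h7]
        refine ⟨w, ?_, rfl⟩
        show ‖w‖ ^ 2 - 1 ≤ 0
        nlinarith [norm_nonneg w]
      exact h8
  · constructor
    · intro h
      have h8 : φ w ∈ φ '' {x : V | ‖x‖ ^ 2 - 1 = 0} := by
        rw [h6]
        exact h
      obtain ⟨y, hy, hyw⟩ := h8
      have h9 : y = w := by rw [← h3 y, hyw, h3 w]
      rw [h9] at hy
      have h10 : ‖w‖ ^ 2 - 1 = 0 := hy
      nlinarith [norm_nonneg w]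
    · intro h
      have h8 : φ w ∈ {x | G x = 0} := by
        rw [← h6]
        refine ⟨w, ?_, rfl⟩
        show ‖w‖ ^ 2 - 1 = 0
        rw [h]
        norm_num
      exact h8

/-- A map of the hyperplane extended to the space, preserving the height. -/
noncomputable def extH (e : V) (φ : (ℝ ∙ e)ᗮ → (ℝ ∙ e)ᗮ) (x : V) : V :=
  ((φ (hpr e x) : (ℝ ∙ e)ᗮ) : V) + ⟪e, x⟫ • e

theorem extH_height {e : V} (he : ‖e‖ = 1) (φ : (ℝ ∙ e)ᗮ → (ℝ ∙ e)ᗮ) (x : V) :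
    ⟪e, extH e φ x⟫ = ⟪e, x⟫ := inner_hpr he _ _

theorem extH_hpr {e : V} (he : ‖e‖ = 1) (φ : (ℝ ∙ e)ᗮ → (ℝ ∙ e)ᗮ) (x : V) :
    hpr e (extH e φ x) = φ (hpr e x) := hpr_coe he _ _

theorem extH_smooth {e : V} {φ : (ℝ ∙ e)ᗮ → (ℝ ∙ e)ᗮ} (hφ : ContDiff ℝ ∞ φ) :
    ContDiff ℝ ∞ (extH e φ) := by
  unfold extH
  have h1 : ContDiff ℝ ∞ fun x => φ (hpr e x) := hφ.comp (hprL e).contDiff
  have h2 : ContDiff ℝ ∞ fun x => ((φ (hpr e x) : (ℝ ∙ e)ᗮ) : V) :=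
    ((ℝ ∙ e)ᗮ.subtypeL.contDiff (n := ∞)).comp h1
  have h3 : ContDiff ℝ ∞ fun x : V => ⟪e, x⟫ • e :=
    ((innerSL ℝ e).contDiff (n := ∞)).smul contDiff_const
  exact h2.add h3

theorem Dif.extH {e : V} (he : ‖e‖ = 1) {φ ψ : (ℝ ∙ e)ᗮ → (ℝ ∙ e)ᗮ} (h : Dif φ ψ) :
    Dif (extH e φ) (extH e ψ) := by
  refine ⟨extH_smooth h.smooth, extH_smooth h.smooth', fun x => ?_, fun x => ?_⟩
  · rw [Schoen.extH, extH_hpr he, extH_height he, h.left, hpr_add he]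
  · rw [Schoen.extH, extH_hpr he, extH_height he, h.right, hpr_add he]

/-! ### Invariance of the inward points and of the index -/

private theorem Planar_fd (F : V → ℝ) (x v : V) : fderiv ℝ F x v = ⟪gradient F x, v⟫ := by
  rw [gradient, InnerProductSpace.toDual_symm_apply]

private theorem Planar_grad {F : V → ℝ} {x g : V} (h : ∀ v, fderiv ℝ F x v = ⟪g, v⟫) :
    gradient F x = g := by
  refine ext_inner_right ℝ fun v => ?_
  rw [← Planar_fd, h]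

theorem height_fderiv {e : V} {Φ : V → V} (hΦ : ContDiff ℝ ∞ Φ) (hh : ∀ x, ⟪e, Φ x⟫ = ⟪e, x⟫)
    (x v : V) : ⟪e, fderiv ℝ Φ x v⟫ = ⟪e, v⟫ := by
  have h0 : HasFDerivAt Φ (fderiv ℝ Φ x) x :=
    (hΦ.differentiable (by simp)).differentiableAt.hasFDerivAt
  have h1 : HasFDerivAt (fun y => ⟪e, Φ y⟫) ((innerSL ℝ e).comp (fderiv ℝ Φ x)) x :=
    (innerSL ℝ e).hasFDerivAt.comp x h0
  have h2 : HasFDerivAt (fun y => ⟪e, Φ y⟫) (innerSL ℝ e) x := by
    have : (fun y => ⟪e, Φ y⟫) = fun y => (innerSL ℝ e) y := funext hh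
    rw [this]
    exact (innerSL ℝ e).hasFDerivAt
  have h3 := DFunLike.congr_fun (h1.unique h2) v
  exact h3

private theorem Planar_comp {F : V → ℝ} (hF : ContDiff ℝ ∞ F) {Φ : V → V}
    (hΦ : ContDiff ℝ ∞ Φ) (x : V) :
    HasFDerivAt (fun y => F (Φ y)) ((fderiv ℝ F (Φ x)).comp (fderiv ℝ Φ x)) x :=
  HasFDerivAt.comp (g := F) x ((hF.differentiable (by simp)).differentiableAt.hasFDerivAt)
    (hΦ.differentiable (by simp)).differentiableAt.hasFDerivAt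

/-- Vertical gradients are preserved. -/
theorem gradient_comp_height {F : V → ℝ} (hF : ContDiff ℝ ∞ F) {e : V} {Φ Ψ : V → V}
    (h : Dif Φ Ψ) (hh : ∀ x, ⟪e, Φ x⟫ = ⟪e, x⟫) (x : V) (c : ℝ) :
    gradient (fun y => F (Φ y)) x = c • e ↔ gradient F (Φ x) = c • e := by
  have key : ∀ (G : V → ℝ) (hG : ContDiff ℝ ∞ G) (Φ Ψ : V → V) (h : Dif Φ Ψ)
      (hh : ∀ x, ⟪e, Φ x⟫ = ⟪e, x⟫) (x : V), gradient G (Φ x) = c • e →
      gradient (fun y => G (Φ y)) x = c • e := by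
    intro G hG Φ Ψ h hh x hx
    refine Planar_grad fun v => ?_
    rw [(Planar_comp hG h.smooth x).fderiv, ContinuousLinearMap.comp_apply, Planar_fd, hx,
      real_inner_smul_left, height_fderiv h.smooth hh, real_inner_smul_left]
  refine ⟨fun hx => ?_, key F hF Φ Ψ h hh x⟩
  have hh' : ∀ y, ⟪e, Ψ y⟫ = ⟪e, y⟫ := fun y => by rw [← hh (Ψ y), h.right]
  have h1 := key (fun y => F (Φ y)) (hF.comp h.smooth) Ψ Φ h.symm hh' (Φ x) (by
    rw [h.left]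
    exact hx)
  simp only [h.right] at h1
  exact h1

theorem inward_comp_height {F : V → ℝ} (hF : ContDiff ℝ ∞ F) {e : V} {Φ Ψ : V → V}
    (h : Dif Φ Ψ) (hh : ∀ x, ⟪e, Φ x⟫ = ⟪e, x⟫) (x : V) :
    Inward (fun y => F (Φ y)) e x ↔ Inward F e (Φ x) := by
  unfold Inward
  have h1 : ∀ l : ℝ, gradient (fun y => F (Φ y)) x = -(l • e) ↔
      gradient F (Φ x) = -(l • e) := by
    intro l
    rw [← neg_smul]
    exact gradient_comp_height hF h hh x (-l)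
  simp only [h1]

theorem inward_comp_height' {F : V → ℝ} (hF : ContDiff ℝ ∞ F) {e : V} {Φ Ψ : V → V}
    (h : Dif Φ Ψ) (hh : ∀ x, ⟪e, Φ x⟫ = ⟪e, x⟫) (x : V) :
    Inward (fun y => F (Φ y)) (-e) x ↔ Inward F (-e) (Φ x) :=
  inward_comp_height hF h (fun y => by rw [inner_neg_left, inner_neg_left, hh]) x

/-- The second derivative at a point with vertical gradient. -/
theorem hess_comp_height {F : V → ℝ} (hF : ContDiff ℝ ∞ F) {e : V} {Φ : V → V}
    (hΦ : ContDiff ℝ ∞ Φ) (hh : ∀ x, ⟪e, Φ x⟫ = ⟪e, x⟫) (x : V) (c : ℝ)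
    (hx : gradient F (Φ x) = c • e) (v w : V) :
    fderiv ℝ (fderiv ℝ (fun y => F (Φ y))) x v w =
      fderiv ℝ (fderiv ℝ F) (Φ x) (fderiv ℝ Φ x v) (fderiv ℝ Φ x w) := by
  have hFd : ContDiff ℝ ∞ (fderiv ℝ F) := hF.fderiv_right (by simp)
  have hΦd : ContDiff ℝ ∞ (fderiv ℝ Φ) := hΦ.fderiv_right (by simp)
  have hC : ContDiff ℝ ∞ fun y => F (Φ y) := hF.comp hΦ
  have hCd : ContDiff ℝ ∞ (fderiv ℝ fun y => F (Φ y)) := hC.fderiv_right (by simp)
  have e1 : fderiv ℝ (fderiv ℝ fun y => F (Φ y)) x v w =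
      fderiv ℝ (fun y => fderiv ℝ (fun y => F (Φ y)) y w) x v := by
    have h1 : HasFDerivAt (fun y => fderiv ℝ (fun y => F (Φ y)) y w)
        ((fderiv ℝ (fderiv ℝ fun y => F (Φ y)) x).flip w) x := by
      have h2 := (hCd.differentiable (by simp)).differentiableAt (x := x) |>.hasFDerivAt
      have h3 := h2.clm_apply (hasFDerivAt_const w x)
      refine h3.congr_fderiv ?_
      ext z
      simp
    rw [h1.fderiv]
    rfl
  have e2 : (fun y => fderiv ℝ (fun y => F (Φ y)) y w) =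
      fun y => fderiv ℝ F (Φ y) (fderiv ℝ Φ y w) := by
    funext y
    rw [(Planar_comp hF hΦ y).fderiv, ContinuousLinearMap.comp_apply]
  have h4 : HasFDerivAt (fun y => fderiv ℝ F (Φ y))
      ((fderiv ℝ (fderiv ℝ F) (Φ x)).comp (fderiv ℝ Φ x)) x :=
    HasFDerivAt.comp (g := fderiv ℝ F) x
      ((hFd.differentiable (by simp)).differentiableAt.hasFDerivAt)
      (hΦ.differentiable (by simp)).differentiableAt.hasFDerivAt
  have h5 : HasFDerivAt (fun y => fderiv ℝ Φ y w) ((fderiv ℝ (fderiv ℝ Φ) x).flip w) x := by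
    have h2 := (hΦd.differentiable (by simp)).differentiableAt (x := x) |>.hasFDerivAt
    have h3 := h2.clm_apply (hasFDerivAt_const w x)
    refine h3.congr_fderiv ?_
    ext z
    simp
  have h6 := h4.clm_apply h5
  rw [e1, e2, h6.fderiv]
  have h7 : fderiv ℝ F (Φ x) (fderiv ℝ (fderiv ℝ Φ) x v w) = 0 := by
    rw [Planar_fd, hx, real_inner_smul_left]
    have h8 : HasFDerivAt (fun y => ⟪e, fderiv ℝ Φ y w⟫)
        ((innerSL ℝ e).comp ((fderiv ℝ (fderiv ℝ Φ) x).flip w)) x :=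
      (innerSL ℝ e).hasFDerivAt.comp x h5
    have h9 : HasFDerivAt (fun y => ⟪e, fderiv ℝ Φ y w⟫) (0 : V →L[ℝ] ℝ) x := by
      have : (fun y => ⟪e, fderiv ℝ Φ y w⟫) = fun _ => ⟪e, w⟫ :=
        funext fun y => height_fderiv hΦ hh y w
      rw [this]
      exact hasFDerivAt_const _ _
    have h10 := DFunLike.congr_fun (h8.unique h9) v
    have h11 : ⟪e, fderiv ℝ (fderiv ℝ Φ) x v w⟫ = 0 := h10
    rw [h11, mul_zero]
  simp only [_root_.add_apply, ContinuousLinearMap.comp_apply, ContinuousLinearMap.flip_apply]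
  rw [h7]
  simp

/-- The index is preserved. -/
theorem idx_comp_height {F : V → ℝ} (hF : ContDiff ℝ ∞ F) {e : V} {Φ Ψ : V → V}
    (h : Dif Φ Ψ) (hh : ∀ x, ⟪e, Φ x⟫ = ⟪e, x⟫) (x : V) (c : ℝ)
    (hx : gradient F (Φ x) = c • e) {k : ℕ} (hk : Idx F e (Φ x) k) :
    Idx (fun y => F (Φ y)) e x k := by
  obtain ⟨N, P, hs, rfl⟩ := hk
  have hΨ : ∀ y, ⟪e, Ψ y⟫ = ⟪e, y⟫ := fun y => by rw [← hh (Ψ y), h.right]
  obtain ⟨A, hA⟩ : ∃ A : V →L[ℝ] V, A = fderiv ℝ Ψ (Φ x) := ⟨_, rfl⟩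
  have hA1 : ∀ w, fderiv ℝ Φ x (A w) = w := fun w => by rw [hA]; exact h.fderiv_right x w
  have hA2 : ∀ w, A (fderiv ℝ Φ x w) = w := fun w => by rw [hA]; exact h.fderiv_left x w
  have hAe : ∀ w, ⟪A w, e⟫ = ⟪w, e⟫ := by
    intro w
    rw [hA, real_inner_comm, height_fderiv h.smooth' hΨ, real_inner_comm]
  have hinj : Function.Injective (A : V →ₗ[ℝ] V) := by
    intro a b hab
    have h1 : A a = A b := hab
    rw [← hA1 a, h1, hA1 b]
  have hd : ∀ a : V, fderiv ℝ (fderiv ℝ (fun y => F (Φ y))) x (A a) (A a) =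
      fderiv ℝ (fderiv ℝ F) (Φ x) a a := by
    intro a
    rw [hess_comp_height hF h.smooth hh x c hx, hA1]
  have key := idx_of_forms (F := fun y => F (Φ y)) (hF.comp h.smooth) (e := e) (x := x)
    (N.map (A : V →ₗ[ℝ] V)) (P.map (A : V →ₗ[ℝ] V)) ?_ ?_ ?_ ?_ ?_
  · rwa [← (Submodule.equivMapOfInjective (A : V →ₗ[ℝ] V) hinj N).finrank_eq] at key
  · rintro _ ⟨a, ha, rfl⟩
    exact (hAe a).trans (hs.hN a ha)
  · rintro _ ⟨a, ha, rfl⟩
    exact (hAe a).trans (hs.hP a ha)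
  · intro w hw
    obtain ⟨a, ha, b, hb, hab⟩ := hs.span (fderiv ℝ Φ x w) (by
      rw [← hAe, hA2]
      exact hw)
    refine ⟨A a, ⟨a, ha, rfl⟩, A b, ⟨b, hb, rfl⟩, ?_⟩
    rw [← map_add, ← hab, hA2]
  · rintro _ ⟨a, ha, rfl⟩ ha0
    have h1 : fderiv ℝ (fderiv ℝ F) (Φ x) a a < 0 := hs.neg a ha (by
      rintro rfl
      exact ha0 (map_zero _))
    rw [← hd a] at h1
    exact h1
  · rintro _ ⟨a, ha, rfl⟩ ha0
    have h1 : 0 < fderiv ℝ (fderiv ℝ F) (Φ x) a a := hs.pos a ha (by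
      rintro rfl
      exact ha0 (map_zero _))
    rw [← hd a] at h1
    exact h1

end Pool.Schoen
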