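import Pool.Agent.H.MP_6c077c_gt.Al.PlaneRing
import Pool.Agent.H.MP_6c077c_gt.Al.Compl
import Pool.Agent.H.MP_6c077c_gt.Ix.T1star

/-! Planar case: a connected body with connected complement is a ball. -/

set_option autoImplicit false

namespace Pool.Schoen

open Filter Set
open scoped Topology RealInnerProductSpace ContDiff

section Topology

variable {V : Type*} [NormedAddCommGroup V] [InnerProductSpace ℝ V]

/-- a closed set which is not preconnected is a disjoint union of two closed nonempty sets -/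
theorem plane_split {D : Set V} (hD : IsClosed D) (h : ¬ IsPreconnected D) :
    ∃ A C : Set V, IsClosed A ∧ IsClosed C ∧ Disjoint A C ∧ A ∪ C = D ∧ A.Nonempty ∧
      C.Nonempty := by
  rw [isPreconnected_closed_iff] at h
  push Not at h
  obtain ⟨t, t', ht, ht', hsub, h1, h2, h3⟩ := h
  refine ⟨D ∩ t, D ∩ t', hD.inter ht, hD.inter ht', ?_, ?_, h1, h2⟩
  · rw [disjoint_iff_inter_eq_empty]
    rw [← h3]
    ext x
    simp only [mem_inter_iff]
    tauto
  · rw [← inter_union_distrib_left, inter_eq_left]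
    exact hsub

/-- a preconnected set in the disjoint union of two closed sets is in one of them -/
theorem plane_side {W A C : Set V} (hW : IsPreconnected W) (hA : IsClosed A)
    (hC : IsClosed C) (hd : Disjoint A C) (h : W ⊆ A ∪ C) : W ⊆ A ∨ W ⊆ C := by
  refine isPreconnected_iff_subset_of_disjoint_closed.1 hW A C hA hC h ?_
  rw [hd.inter_eq, inter_empty]

/-- `cut_parts` with the disconnectedness of `Dc` as a hypothesis. -/
theorem cut_parts_of {Dc S Wm Wp : Set V} (hDc : IsClosed Dc) (hS : IsClosed S)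
    (hW : Dc ∩ S = Wm ∪ Wp) (hmc : IsConnected Wm)
    (hpc : IsConnected Wp) (hconn : IsConnected (Dc ∪ S))
    (hnc : ¬ IsPreconnected Dc) :
    ∃ A C : Set V, IsClosed A ∧ IsClosed C ∧ Disjoint A C ∧ A ∪ C = Dc ∧ Wm ⊆ A ∧ Wp ⊆ C ∧
      IsConnected A ∧ IsConnected C := by
  obtain ⟨A, C, hA, hC, hd, hAC, hA0, hC0⟩ := plane_split hDc hnc
  have hWm : Wm ⊆ Dc := fun x hx => (show x ∈ Dc ∩ S from hW ▸ Or.inl hx).1
  have hWp : Wp ⊆ Dc := fun x hx => (show x ∈ Dc ∩ S from hW ▸ Or.inr hx).1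
  have hW' : Dc ∩ S = Wp ∪ Wm := by rw [hW, union_comm]
  -- two closed disjoint pieces: the walls are in different ones
  have key : ∀ A C : Set V, IsClosed A → IsClosed C → Disjoint A C → A ∪ C = Dc → A.Nonempty →
      C.Nonempty → (Wm ⊆ A ∧ Wp ⊆ C) ∨ (Wm ⊆ C ∧ Wp ⊆ A) := by
    intro A C hA hC hd hAC hA0 hC0
    have hm' := plane_side hmc.isPreconnected hA hC hd (hAC.symm ▸ hWm)
    have hp' := plane_side hpc.isPreconnected hA hC hd (hAC.symm ▸ hWp)
    have hCA : C ∪ A = Dc := by rw [union_comm, hAC]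
    rcases hm' with h1 | h1
    · rcases hp' with h2 | h2
      · exact (walls_not_both hS hW hmc.nonempty hconn hA hC hAC hd hC0 h1 h2).elim
      · exact Or.inl ⟨h1, h2⟩
    · rcases hp' with h2 | h2
      · exact Or.inr ⟨h1, h2⟩
      · exact (walls_not_both hS hW hmc.nonempty hconn hC hA hCA hd.symm hA0 h1 h2).elim
  have main : ∀ A C : Set V, IsClosed A → IsClosed C → Disjoint A C → A ∪ C = Dc →
      Wm ⊆ A → Wp ⊆ C → IsPreconnected A := by
    intro A C hA hC hd hAC h1 h2
    by_contra hn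
    obtain ⟨A1, A2, c1, c2, d12, e12, n1, n2⟩ := plane_split hA hn
    have hd1 : Disjoint (A1 ∪ C) A2 := by
      rw [disjoint_union_left]
      refine ⟨d12, ?_⟩
      exact (hd.mono_left (e12 ▸ subset_union_right)).symm
    have hd2 : Disjoint (A2 ∪ C) A1 := by
      rw [disjoint_union_left]
      refine ⟨d12.symm, ?_⟩
      exact (hd.mono_left (e12 ▸ subset_union_left)).symm
    rcases plane_side hmc.isPreconnected c1 c2 d12 (e12.symm ▸ h1) with h | h
    · refine walls_not_both hS hW hmc.nonempty hconn (c1.union hC) c2 ?_ hd1 n2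
        (h.trans subset_union_left) (h2.trans subset_union_right)
      rw [← hAC, ← e12]
      ext x
      simp only [mem_union]
      tauto
    · refine walls_not_both hS hW hmc.nonempty hconn (c2.union hC) c1 ?_ hd2 n1
        (h.trans subset_union_left) (h2.trans subset_union_right)
      rw [← hAC, ← e12]
      ext x
      simp only [mem_union]
      tauto
  have main' : ∀ A C : Set V, IsClosed A → IsClosed C → Disjoint A C → A ∪ C = Dc →
      Wm ⊆ A → Wp ⊆ C → IsPreconnected C := by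
    intro A C hA hC hd hAC h1 h2
    by_contra hn
    obtain ⟨A1, A2, c1, c2, d12, e12, n1, n2⟩ := plane_split hC hn
    have hd1 : Disjoint (A1 ∪ A) A2 := by
      rw [disjoint_union_left]
      exact ⟨d12, hd.mono_right (e12 ▸ subset_union_right)⟩
    have hd2 : Disjoint (A2 ∪ A) A1 := by
      rw [disjoint_union_left]
      exact ⟨d12.symm, hd.mono_right (e12 ▸ subset_union_left)⟩
    rcases plane_side hpc.isPreconnected c1 c2 d12 (e12.symm ▸ h2) with h | h
    · refine walls_not_both hS hW hmc.nonempty hconn (c1.union hA) c2 ?_ hd1 n2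
        (h1.trans subset_union_right) (h.trans subset_union_left)
      rw [← hAC, ← e12]
      ext x
      simp only [mem_union]
      tauto
    · refine walls_not_both hS hW hmc.nonempty hconn (c2.union hA) c1 ?_ hd2 n1
        (h1.trans subset_union_right) (h.trans subset_union_left)
      rw [← hAC, ← e12]
      ext x
      simp only [mem_union]
      tauto
  rcases key A C hA hC hd hAC hA0 hC0 with ⟨h1, h2⟩ | ⟨h1, h2⟩
  · exact ⟨A, C, hA, hC, hd, hAC, h1, h2, ⟨hA0, main A C hA hC hd hAC h1 h2⟩,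
      ⟨hC0, main' A C hA hC hd hAC h1 h2⟩⟩
  · have hCA : C ∪ A = Dc := by rw [union_comm, hAC]
    exact ⟨C, A, hC, hA, hd.symm, hCA, h1, h2, ⟨hC0, main C A hC hA hd.symm hCA h1 h2⟩,
      ⟨hA0, main' C A hC hA hd.symm hCA h1 h2⟩⟩


end Topology

section Ball

variable {V : Type*} [NormedAddCommGroup V] [InnerProductSpace ℝ V] [FiniteDimensional ℝ V]

omit [FiniteDimensional ℝ V] in
theorem wc_zero (hdim : Module.finrank ℝ V = 2) {e u : V} (he : ‖e‖ = 1) (hu : ‖u‖ = 1)
    (heu : ⟪e, u⟫ = 0) (x : V) : wc e u x = 0 := by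
  by_contra hne
  have hfd : FiniteDimensional ℝ V := Module.finite_of_finrank_pos (by omega)
  obtain ⟨h1, h2⟩ := inner_wc he hu heu x
  obtain ⟨w, hw⟩ : ∃ w : V, w = wc e u x := ⟨_, rfl⟩
  rw [← hw] at h1 h2 hne
  have hn : ‖w‖ ≠ 0 := norm_ne_zero_iff.2 hne
  have ho : Orthonormal ℝ ![e, u, (‖w‖⁻¹) • w] := by
    constructor
    · intro i
      fin_cases i
      · exact he
      · exact hu
      · change ‖(‖w‖⁻¹) • w‖ = 1
        rw [norm_smul, norm_inv, norm_norm, inv_mul_cancel₀ hn]
    · intro i j hij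
      fin_cases i <;> fin_cases j <;>
        first
        | exact absurd rfl hij
        | simp [real_inner_smul_left, real_inner_smul_right, h1, h2, heu,
            real_inner_comm e u, real_inner_comm e w, real_inner_comm u w]
  have h3 := ho.linearIndependent.fintype_card_le_finrank
  rw [Fintype.card_fin, hdim] at h3
  omega

variable {f : V → ℝ} {P : Finset V} {e u p : V} {B : V →L[ℝ] V →L[ℝ] ℝ} {μ a r η ε : ℝ}

omit [FiniteDimensional ℝ V] in
/-- Points at the height of the truncation are in the closure of the outside. -/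
theorem ceiling_closure (he : ‖e‖ = 1) {y : V} (hy : (⟪e, y - p⟫ : ℝ) = ε) :
    y ∈ closure {x | 0 < fs f e p ε x} := by
  have hee : (⟪e, e⟫ : ℝ) = 1 := by rw [real_inner_self_eq_norm_sq, he, one_pow]
  have ht : Tendsto (fun s : ℝ => y + s • e) (𝓝[>] 0) (𝓝 y) := by
    have h1 : Continuous fun s : ℝ => y + s • e := by fun_prop
    have h2 := h1.tendsto 0
    simp only [zero_smul, add_zero] at h2
    exact h2.mono_left nhdsWithin_le_nhds
  refine mem_closure_of_tendsto ht ?_
  filter_upwards [self_mem_nhdsWithin] with s hs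
  change 0 < fs f e p ε (y + s • e)
  rw [fs_eq]
  apply lt_max_of_lt_right
  have h3 : y + s • e - p = (y - p) + s • e := by abel
  rw [h3, inner_add_right, real_inner_smul_right, hy, hee]
  have : (0 : ℝ) < s := hs
  linarith

omit [FiniteDimensional ℝ V] in
/-- The complement of one of the two parts is connected. -/
theorem Slab.compl_part (h : Slab f P e u p B μ a r η ε) (hV : ∀ x : V, wc e u x = 0) {c : ℝ}
    (hc : |c| = η) {A C : Set V} (hAC : A ∪ C = {x | fcut f e u p η ε r x ≤ 0})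
    (hd : Disjoint A C) (hmA : wallS f e u p η ε r c ⊆ A) (hpC : wallS f e u p η ε r (-c) ⊆ C)
    (hCc : IsPreconnected C) (hO : IsPreconnected {x | 0 < fs f e p ε x}) :
    IsPreconnected Aᶜ := by
  have he := h.mod.he
  have hu := h.mod.hu
  have heu := h.mod.heu
  have hμ := h.mod.hμ
  have ha := h.mod.ha
  have hε := h.hε
  have hη := h.hη
  have hee : (⟪e, e⟫ : ℝ) = 1 := by rw [real_inner_self_eq_norm_sq, he, one_pow]
  have hue : (⟪u, e⟫ : ℝ) = 0 := by rw [real_inner_comm]; exact heu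
  have hOA : {x | 0 < fs f e p ε x} ⊆ Aᶜ := by
    intro x (hx : 0 < fs f e p ε x) hxA
    have h1 : x ∈ {x | fcut f e u p η ε r x ≤ 0} := hAC ▸ Or.inl hxA
    have h2 : max (fs f e p ε x) (lam u p η r x) ≤ 0 := h1
    linarith [(max_le_iff.1 h2).1]
  have hCA : C ⊆ Aᶜ := fun x hx hxA => (Set.disjoint_left.1 hd) hxA hx
  obtain ⟨o, ho⟩ : ∃ o : V, o = p + (2 * ε) • e := ⟨_, rfl⟩
  have hoO : o ∈ {x | 0 < fs f e p ε x} := by
    change 0 < fs f e p ε o
    rw [fs_eq, ho, add_sub_cancel_left, real_inner_smul_right, hee]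
    exact lt_max_of_lt_right (by linarith)
  refine isPreconnected_of_forall o fun x hx => ?_
  by_cases hx0 : 0 < fs f e p ε x
  · exact ⟨{x | 0 < fs f e p ε x}, hOA, hoO, hx0, hO⟩
  · push Not at hx0
    by_cases hxD : x ∈ {x | fcut f e u p η ε r x ≤ 0}
    · have hxC : x ∈ C := by
        rw [← hAC] at hxD
        exact hxD.resolve_left hx
      obtain ⟨y, hy⟩ : ∃ y : V, y = p + (ε • e + (-c) • u + 0) := ⟨_, rfl⟩
      have hyp : y - p = ε • e + (-c) • u + 0 := by rw [hy, add_sub_cancel_left]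
      obtain ⟨c1, c2, c3⟩ := comp_of he hu heu (inner_zero_right e) (inner_zero_right u) ε (-c)
      rw [← hyp] at c1 c2 c3
      have hyW : y ∈ wallS f e u p η ε r (-c) := by
        rw [h.mem_wall (by rw [abs_neg]; exact hc)]
        refine ⟨?_, c1.le, c2⟩
        rw [mdl1, c1, c2, c3, map_zero]
        have h1 := mul_pos hμ hε
        have h2 : 0 ≤ a * (-c) ^ 2 := mul_nonneg ha.le (sq_nonneg _)
        simp only [zero_div, add_zero]
        linarith
      exact ⟨{x | 0 < fs f e p ε x} ∪ C, union_subset hOA hCA, Or.inl hoO, Or.inr hxC,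
        preconn_union_closure hO hCc (ceiling_closure he c1) (hpC hyW)⟩
    · have hlam : 0 < lam u p η r x := by
        by_contra h1
        exact hxD (show max _ _ ≤ (0 : ℝ) from max_le hx0 (not_lt.1 h1))
      have hxS : x ∈ slabS f e u p η ε r := ⟨hx0, hlam.le⟩
      have hY : |(⟪u, x - p⟫ : ℝ)| < η := by
        have h1 : lam u p η r x ≤ η - |(⟪u, x - p⟫ : ℝ)| := min_le_left _ _
        linarith
      obtain ⟨s1, s2, s3⟩ := (h.mem_slab x).1 hxS
      have hin : ∀ s : ℝ, (⟪e, x + s • e - p⟫ : ℝ) = ⟪e, x - p⟫ + s ∧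
          (⟪u, x + s • e - p⟫ : ℝ) = ⟪u, x - p⟫ := by
        intro s
        have h3 : x + s • e - p = (x - p) + s • e := by abel
        rw [h3, inner_add_right, inner_add_right, real_inner_smul_right, real_inner_smul_right,
          hee, hue, mul_one, mul_zero, add_zero]
        exact ⟨rfl, rfl⟩
      have hK : (fun s : ℝ => x + s • e) '' Icc 0 (ε - ⟪e, x - p⟫) ⊆ Aᶜ := by
        rintro z ⟨s, hs, rfl⟩ hzA
        have hz : x + s • e ∈ A := hzA
        have hzS : x + s • e ∈ slabS f e u p η ε r := by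
          rw [h.mem_slab, (hin s).1, (hin s).2]
          refine ⟨?_, by linarith [hs.2], hY.le⟩
          rw [mdl1, (hin s).1, (hin s).2, hV, map_zero]
          rw [mdl1, hV, map_zero] at s1
          have := mul_nonneg hμ.le hs.1
          simp only [zero_div, add_zero] at s1 ⊢
          linarith
        have hzD : x + s • e ∈ {x | fcut f e u p η ε r x ≤ 0} := hAC ▸ Or.inl hz
        have hzW : x + s • e ∈ wallS f e u p η ε r (-η) ∪ wallS f e u p η ε r η := by
          rw [← h.inter_slab]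
          exact ⟨hzD, hzS⟩
        rcases hzW with hw | hw
        · have h4 := hw.2.2
          rw [(hin s).2] at h4
          rw [h4, abs_neg, abs_of_pos hη] at hY
          exact lt_irrefl _ hY
        · have h4 := hw.2.2
          rw [(hin s).2] at h4
          rw [h4, abs_of_pos hη] at hY
          exact lt_irrefl _ hY
      have hKp : IsPreconnected ((fun s : ℝ => x + s • e) '' Icc 0 (ε - ⟪e, x - p⟫)) := by
        refine isPreconnected_Icc.image _ ?_
        fun_prop
      have hle : 0 ≤ ε - (⟪e, x - p⟫ : ℝ) := by linarith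
      exact ⟨{x | 0 < fs f e p ε x} ∪ (fun s : ℝ => x + s • e) '' Icc 0 (ε - ⟪e, x - p⟫),
        union_subset hOA hK, Or.inl hoO, Or.inr ⟨0, ⟨le_rfl, hle⟩, by simp⟩,
        preconn_union_closure hO hKp (ceiling_closure he (y := x + (ε - ⟪e, x - p⟫) • e) (by
          rw [(hin _).1]; ring)) ⟨_, ⟨hle, le_rfl⟩, rfl⟩⟩

/-- Cutting in the plane. -/
theorem plane_cut (hdim : Module.finrank ℝ V = 2) {f : V → ℝ} {P : Finset V} {e u p : V} {B : V →L[ℝ] V →L[ℝ] ℝ} {μ a r : ℝ}
    (hf : Class f e P) (hp : p ∈ P) (htop : ∀ p' ∈ P, ⟪e, p'⟫ ≤ ⟪e, p⟫)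
    (hm : Mod1 f e u p B μ a r) (hconn : IsConnected {x | f x ≤ 0})
    (hcompl : IsPreconnected {x | 0 < f x}) :
    ∃ (A C : V → ℝ) (PA PC : Finset V) (q : V) (ℓ : ℝ), Class A e PA ∧ Class C e PC ∧
      PA.card < P.card ∧ PC.card < P.card ∧
      IsConnected {x | A x ≤ 0} ∧ IsPreconnected {x | 0 < A x} ∧
      IsConnected {x | C x ≤ 0} ∧ IsPreconnected {x | 0 < C x} ∧ (∀ x, A x ≤ 0 → 0 < C x) ∧ 0 < ℓ ∧
      (∀ᶠ x in 𝓝 q, A x = ⟪u, x - q⟫) ∧
      (∀ᶠ x in 𝓝 (q + ℓ • u), C x = -⟪u, x - (q + ℓ • u)⟫) ∧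
      (∀ s ∈ Ioo (0 : ℝ) ℓ, 0 < A (q + s • u) ∧ 0 < C (q + s • u)) ∧
      ∀ᶠ ρ in 𝓝[>] (0 : ℝ), Hom f (fun x => min (min (A x) (C x)) (tau q u ℓ ρ x)) := by
  classical
  obtain ⟨r, η, ε, h⟩ := slab_exists hf hp htop hm
  have he := h.mod.he
  have hu := h.mod.hu
  have heu := h.mod.heu
  have hη := h.hη
  have hε := h.hε
  have hs : ∀ p' ∈ P, ⟪e, p'⟫ < ⟪e, p⟫ + ε := fun p' hp' => by linarith [htop p' hp']
  have hT : Hom f (fs f e p ε) := trunc_hom he hf hs
  have hconn' : IsConnected {x | fs f e p ε x ≤ 0} := hT.isConnected hf.bdd hconn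
  have hcompl' : IsPreconnected {x | 0 < fs f e p ε x} := hT.compl hdim.ge hf.bdd hcompl
  have hV : ∀ x : V, wc e u x = 0 := wc_zero hdim he hu heu
  have hcut : Class (fcut f e u p η ε r) e (P.erase p) := h.cut_class
  have hcont : Continuous (fcut f e u p η ε r) := hcut.good.cont
  have hfsc : Continuous (fs f e p ε) := h.fs_class.good.cont
  have hlc : Continuous (lam u p η r) := lam_continuous u p η r
  have hDc : IsClosed {x | fcut f e u p η ε r x ≤ 0} := isClosed_le hcont continuous_const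
  have hS : IsClosed (slabS f e u p η ε r) :=
    (isClosed_le hfsc continuous_const).inter (isClosed_le continuous_const hlc)
  have hW := h.inter_slab
  have hU := h.union_slab
  have hm1 : |(-η)| = η := by rw [abs_neg, abs_of_pos hη]
  have hp1 : |η| = η := abs_of_pos hη
  have hwmc : IsConnected (wallS f e u p η ε r (-η)) :=
    ⟨h.wall_nonempty hm1, (h.wall_convex hm1).isPreconnected⟩
  have hwpc : IsConnected (wallS f e u p η ε r η) :=
    ⟨h.wall_nonempty hp1, (h.wall_convex hp1).isPreconnected⟩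
  obtain ⟨A, C, hA, hC, hd, hAC, hmA, hpC, hAc, hCc⟩ :=
    cut_parts_of hDc hS hW hwmc hwpc (by rw [hU]; exact hconn')
      (fun hpre => h.ring hV hpre hcompl')
  have hlA : IsPreconnected Aᶜ := h.compl_part hV (c := -η) hm1 hAC hd hmA
    (by rw [neg_neg]; exact hpC) hCc.isPreconnected hcompl'
  have hlC : IsPreconnected Cᶜ := h.compl_part hV (c := η) hp1 ((Set.union_comm _ _).trans hAC)
    hd.symm hpC hmA hAc.isPreconnected hcompl'
  have hA0 := hAc.nonempty
  have hC0 := hCc.nonempty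
  have hCA : C ∪ A = {x | fcut f e u p η ε r x ≤ 0} := (Set.union_comm _ _).trans hAC
  obtain ⟨PA, hPA, hcA⟩ := part_class hcut hA hC hd hA0 hC0 hAC
  obtain ⟨PC, hPC, hcC⟩ := part_class hcut hC hA hd.symm hC0 hA0 hCA
  have hcard : (P.erase p).card < P.card := Finset.card_erase_lt_of_mem hp
  have hsA : {x | partF (fcut f e u p η ε r) A C x ≤ 0} = A := by
    ext x
    exact partF_le hA hC hd hA0 hC0 hAC x
  have hsC : {x | partF (fcut f e u p η ε r) C A x ≤ 0} = C := by
    ext x
    exact partF_le hC hA hd.symm hC0 hA0 hCA x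
  have hpA : {x | 0 < partF (fcut f e u p η ε r) A C x} = Aᶜ := by
    ext x
    rw [mem_compl_iff, ← partF_le hA hC hd hA0 hC0 hAC x, not_le]
    exact Iff.rfl
  have hpC' : {x | 0 < partF (fcut f e u p η ε r) C A x} = Cᶜ := by
    ext x
    rw [mem_compl_iff, ← partF_le hC hA hd.symm hC0 hA0 hCA x, not_le]
    exact Iff.rfl
  have hends : ∀ s : ℝ, s = 0 ∨ s = 2 * η → lam u p η r (qn e u p η ε + s • u) = 0 := by
    intro s hs
    rcases hs with rfl | rfl
    · rw [CutFin_lam h ⟨le_rfl, by linarith⟩, zero_sub, abs_neg, abs_of_pos hη, sub_self]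
    · rw [CutFin_lam h ⟨by linarith, le_rfl⟩, show 2 * η - η = η by ring, abs_of_pos hη, sub_self]
  have hq1 : qn e u p η ε + (0 : ℝ) • u ∈ A := by
    apply hmA
    obtain ⟨k1, k2, k3⟩ := CutFin_pt h (s := 0) ⟨le_rfl, by linarith⟩
    exact ⟨k3.le, hends 0 (Or.inl rfl), by rw [k2]; ring⟩
  have hq2 : qn e u p η ε + (2 * η) • u ∈ C := by
    apply hpC
    obtain ⟨k1, k2, k3⟩ := CutFin_pt h (s := 2 * η) ⟨by linarith, le_rfl⟩
    exact ⟨k3.le, hends _ (Or.inr rfl), by rw [k2]; ring⟩
  refine ⟨partF (fcut f e u p η ε r) A C, partF (fcut f e u p η ε r) C A, PA, PC,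
    qn e u p η ε, 2 * η, hcA, hcC, (Finset.card_le_card hPA).trans_lt hcard,
    (Finset.card_le_card hPC).trans_lt hcard, by rw [hsA]; exact hAc, by rw [hpA]; exact hlA,
    by rw [hsC]; exact hCc, by rw [hpC']; exact hlC, ?_, by linarith, ?_, ?_, ?_, ?_⟩
  · intro x hx
    have hxA : x ∈ A := (partF_le hA hC hd hA0 hC0 hAC x).1 hx
    exact partF_pos hC hd hC0 hxA
  · have h1 := CutFin_flat h hcont hC hd hC0 (Or.inl rfl) hq1
    rw [zero_smul, add_zero] at h1
    have h2 : ∀ᶠ x in 𝓝 (qn e u p η ε), ⟪u, x - p⟫ < 0 := by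
      have h3 : Continuous fun x : V => ⟪u, x - p⟫ := by fun_prop
      refine h3.continuousAt.eventually_lt_const ?_
      have h4 := (CutFin_pt h (s := 0) ⟨le_rfl, by linarith⟩).2.1
      rw [zero_smul, add_zero] at h4
      change ⟪u, qn e u p η ε - p⟫ < 0
      rw [h4]
      linarith
    filter_upwards [h1, h2] with x h3 h4
    rw [h3, abs_of_neg h4, Neck_inner hu heu]
    ring
  · have h1 := CutFin_flat h hcont hA hd.symm hA0 (Or.inr rfl) hq2
    have h2 : ∀ᶠ x in 𝓝 (qn e u p η ε + (2 * η) • u), 0 < ⟪u, x - p⟫ := by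
      have h3 : Continuous fun x : V => ⟪u, x - p⟫ := by fun_prop
      refine h3.continuousAt.eventually_const_lt ?_
      change 0 < ⟪u, qn e u p η ε + (2 * η) • u - p⟫
      rw [(CutFin_pt h (s := 2 * η) ⟨by linarith, le_rfl⟩).2.1]
      linarith
    filter_upwards [h1, h2] with x h3 h4
    have h5 : ⟪u, x - (qn e u p η ε + (2 * η) • u)⟫ = ⟪u, x - p⟫ - η := by
      rw [← sub_sub, inner_sub_right, Neck_inner hu heu, inner_smul_right,
        real_inner_self_eq_norm_sq, hu]
      ring
    rw [h3, abs_of_pos h4, h5]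
    ring
  · intro s hs
    have h1 := CutFin_lam h (s := s) ⟨hs.1.le, hs.2.le⟩
    have h2 : 0 < lam u p η r (qn e u p η ε + s • u) := by
      rw [h1]
      have h3 : |s - η| < η := by
        rw [abs_lt]
        exact ⟨by linarith [hs.1], by linarith [hs.2]⟩
      linarith
    have h3 : 0 < fcut f e u p η ε r (qn e u p η ε + s • u) := lt_max_of_lt_right h2
    exact ⟨lt_max_of_lt_left h3, lt_max_of_lt_left h3⟩
  · filter_upwards [h.neck_tube, self_mem_nhdsWithin] with ρ h1 hρ
    have hρ' : 0 < ρ := hρ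
    have h2 := ((hT.trans (h.neck_start hρ')).trans (h.neck_shrink hρ')).trans
      (h.neck_end hρ' h1)
    exact h2.trans (part_hom hcont (tau_continuous (qn e u p η ε) u (2 * η) ρ) h2.good_right
      hA hC hd hA0 hC0 hAC)


/-- In the plane a connected body with connected complement is a ball. -/
theorem plane_ball (hdim : Module.finrank ℝ V = 2) (e : V) (he : ‖e‖ = 1) (P : Finset V)
    (f : V → ℝ) (hf : Class f e P) (hconn : IsConnected {x | f x ≤ 0})
    (hcompl : IsPreconnected {x | 0 < f x}) : IsBall f := by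
  have key : ∀ (n : ℕ) (P : Finset V) (f : V → ℝ), P.card = n → Class f e P →
      IsConnected {x | f x ≤ 0} → IsPreconnected {x | 0 < f x} → IsBall f := by
    intro n
    induction n using Nat.strong_induction_on with
    | _ n ih =>
      intro P f hn hf hconn hcompl
      obtain ⟨p, hp, htop⟩ := Finset.exists_max_image P (fun x => ⟪e, x⟫)
        (Class.nonempty he hf hconn.nonempty)
      obtain ⟨g, μ, r, hfg, hg, hmod⟩ := model he hf hp
      have hgc := hfg.isConnected hf.bdd hconn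
      have hgl := hfg.compl hdim.ge hf.bdd hcompl
      refine Hom.trans hfg ?_
      rcases hmod with ⟨B, hm⟩ | ⟨u, B, a, hm⟩
      · exact cap hg hp htop hm hgc
      · obtain ⟨A, C, PA, PC, q, ℓ, hA, hC, hPA, hPC, hAc, hAl, hCc, hCl, hdisj, hℓ, hflatA,
          hflatC, hs, hρ⟩ := plane_cut hdim hg hp htop hm hgc hgl
        have hAb : IsBall A := ih _ (hn ▸ hPA) PA A rfl hA hAc hAl
        have hCb : IsBall C := ih _ (hn ▸ hPC) PC C rfl hC hCc hCl
        have hρ' := glue hAb hC.good hdisj hm.hu hℓ hflatA hflatC hs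
        obtain ⟨ρ, h1, h2⟩ := (hρ.and hρ').exists
        exact (h1.trans h2).trans hCb
  exact key _ P f rfl hf hconn hcompl

end Ball

end Pool.Schoen
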