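import Pool.Agent.H.MP_6c077c_gt.Ix.CutFin

/-! Planar case: a ring-shaped body has a disconnected complement. -/

set_option autoImplicit false

namespace Pool.Schoen

open Filter Set
open scoped Topology RealInnerProductSpace ContDiff

/-- a continuous function with values in `2 π ℤ` is constant on a preconnected set -/
theorem ring_const {Y : Type*} [TopologicalSpace Y] {A : Set Y} (hA : IsPreconnected A) {f : Y → ℝ}
    (hf : ContinuousOn f A) (h1 : ∀ x ∈ A, Complex.exp (f x * Complex.I) = 1) :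
    ∀ x ∈ A, ∀ x' ∈ A, f x = f x' := by
  have hle : ∀ x ∈ A, ∀ x' ∈ A, f x ≤ f x' := by
    intro x hx x' hx'
    by_contra hlt
    push Not at hlt
    have key : ∀ x ∈ A, ∃ n : ℤ, f x = n * (2 * Real.pi) := by
      intro x hx
      obtain ⟨n, hn⟩ := Complex.exp_eq_one_iff.1 (h1 x hx)
      refine ⟨n, ?_⟩
      have h2 : ((f x : ℂ)) * Complex.I = ((n * (2 * Real.pi) : ℝ) : ℂ) * Complex.I := by
        rw [hn]
        push_cast
        ring
      have h3 := mul_right_cancel₀ Complex.I_ne_zero h2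
      exact_mod_cast h3
    obtain ⟨n, hn⟩ := key x hx
    obtain ⟨m, hm⟩ := key x' hx'
    have hpi := Real.pi_pos
    have hmn : m < n := by
      have : (m : ℝ) * (2 * Real.pi) < n * (2 * Real.pi) := by rw [← hn, ← hm]; exact hlt
      have := lt_of_mul_lt_mul_right this (by positivity)
      exact_mod_cast this
    have hle : (m : ℝ) + 1 ≤ n := by exact_mod_cast hmn
    have hmem : f x' + Real.pi ∈ f '' A := by
      have hord := (hA.image f hf).ordConnected
      refine hord.out (mem_image_of_mem f hx') (mem_image_of_mem f hx) ⟨by linarith, ?_⟩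
      rw [hn, hm]
      nlinarith
    obtain ⟨y, hy, hfy⟩ := hmem
    obtain ⟨k, hk⟩ := key y hy
    rw [hk, hm] at hfy
    have h4 : ((k - m : ℤ) : ℝ) * 2 = 1 := by
      push_cast
      have : ((k : ℝ) - m) * (2 * Real.pi) = Real.pi := by linarith
      field_simp at this
      linarith
    have h5 : (k - m) * 2 = 1 := by exact_mod_cast h4
    omega
  intro x hx x' hx'
  exact le_antisymm (hle x hx x' hx') (hle x' hx' x hx)

/-- The direction from `φ c` to `φ y`. -/
noncomputable def dirW {V : Type*} (φ : V → ℂ) (c y : V) : ℂ := (φ y - φ c) / (‖φ y - φ c‖ : ℂ)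

theorem dirW_norm {V : Type*} {φ : V → ℂ} {c y : V} (h : φ y ≠ φ c) : ‖dirW φ c y‖ = 1 := by
  have h1 : ‖φ y - φ c‖ ≠ 0 := norm_ne_zero_iff.2 (sub_ne_zero.2 h)
  unfold dirW
  rw [norm_div, Complex.norm_real, norm_norm, div_self h1]

theorem dirW_ne {V : Type*} {φ : V → ℂ} {c y : V} (h : φ y ≠ φ c) : dirW φ c y ≠ 0 := by
  intro h0
  have := dirW_norm h
  rw [h0, norm_zero] at this
  exact zero_ne_one this

theorem dirW_cont {V : Type*} [TopologicalSpace V] {φ : V → ℂ} (hφ : Continuous φ) {c y : V}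
    (h : φ y ≠ φ c) : ContinuousAt (fun z : V × V => dirW φ z.1 z.2) (c, y) := by
  have h1 : Continuous fun z : V × V => φ z.2 - φ z.1 :=
    (hφ.comp continuous_snd).sub (hφ.comp continuous_fst)
  have h2 : Continuous fun z : V × V => ((‖φ z.2 - φ z.1‖ : ℝ) : ℂ) :=
    Complex.continuous_ofReal.comp h1.norm
  unfold dirW
  refine h1.continuousAt.div h2.continuousAt ?_
  have h3 : ‖φ y - φ c‖ ≠ 0 := norm_ne_zero_iff.2 (sub_ne_zero.2 h)
  exact_mod_cast h3

/-- Eilenberg: if `a` and `b` are in a connected set outside the compact set `E`, the quotient of the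
directions lifts over `E`. -/
theorem ring_eilenberg {V : Type*} [TopologicalSpace V] {E U : Set V} (hE : IsCompact E)
    (hU : IsPreconnected U) (hd : Disjoint E U) {φ : V → ℂ} (hφ : Continuous φ)
    (hi : Function.Injective φ) {a b : V} (ha : a ∈ U) (hb : b ∈ U) :
    Lifts E (fun y => dirW φ b y / dirW φ a y) := by
  have hne : ∀ c ∈ U, ∀ y ∈ E, φ y ≠ φ c := by
    intro c hc y hy h
    have := hi h
    subst this
    exact (Set.disjoint_left.1 hd) hy hc
  have hcon : ∀ c ∈ U, ContinuousOn (fun y => dirW φ c y) E := by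
    intro c hc y hy
    have h1 : ContinuousAt (fun z : V × V => dirW φ z.1 z.2) (c, y) := dirW_cont hφ (hne c hc y hy)
    have h2 : ContinuousAt (fun y : V => ((c, y) : V × V)) y := by fun_prop
    exact (ContinuousAt.comp (g := fun z : V × V => dirW φ z.1 z.2) (f := fun y : V => ((c, y) : V × V))
      h1 h2).continuousWithinAt
  have hclose : ∀ c ∈ U, ∀ c' ∈ U, (∀ y ∈ E, ‖dirW φ c' y - dirW φ c y‖ < 2) →
      Lifts E (fun y => dirW φ c' y / dirW φ c y) := by
    intro c hc c' hc' h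
    have h0 : Lifts E (fun _ : V => (1 : ℂ)) := ⟨fun _ => 0, continuousOn_const, fun x _ => by simp⟩
    refine h0.of_close ((hcon c' hc').div (hcon c hc) fun y hy => dirW_ne (hne c hc y hy))
      continuousOn_const ?_ ?_
    · intro y hy
      rw [norm_div, dirW_norm (hne c' hc' y hy), dirW_norm (hne c hc y hy), div_one]
    · intro y hy
      have e : dirW φ c' y / dirW φ c y - 1 = (dirW φ c' y - dirW φ c y) / dirW φ c y := by
        rw [sub_div, div_self (dirW_ne (hne c hc y hy))]
      rw [e, norm_div, dirW_norm (hne c hc y hy), div_one]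
      exact h y hy
  refine hU.induction₂' (fun a b => Lifts E (fun y => dirW φ b y / dirW φ a y)) ?_ ?_ ha hb
  · intro c hc
    have h1 : ∀ᶠ c' in 𝓝 c, ∀ y ∈ E, ‖dirW φ c' y - dirW φ c y‖ < 2 := by
      apply hE.eventually_forall_of_forall_eventually
      intro y hy
      have h2 : ContinuousAt (fun z : V × V => dirW φ z.1 z.2) (c, y) :=
        dirW_cont hφ (hne c hc y hy)
      have h3 : ContinuousAt (fun z : V × V => dirW φ c z.2) (c, y) := by
        have h4 : ContinuousAt (fun z : V × V => ((c, z.2) : V × V)) (c, y) := by fun_prop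
        exact ContinuousAt.comp (g := fun z : V × V => dirW φ z.1 z.2)
          (f := fun z : V × V => ((c, z.2) : V × V)) h2 h4
      have h5 : ContinuousAt (fun z : V × V => ‖dirW φ z.1 z.2 - dirW φ c z.2‖) (c, y) :=
        (h2.sub h3).norm
      refine h5.eventually_lt continuousAt_const ?_
      simp
    have h2 : ∀ᶠ c' in 𝓝[U] c, ∀ y ∈ E, ‖dirW φ c' y - dirW φ c y‖ < 2 := nhdsWithin_le_nhds h1
    filter_upwards [h2, self_mem_nhdsWithin] with c' h3 hc'
    exact ⟨hclose c hc c' hc' h3, hclose c' hc' c hc fun y hy => by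
      rw [norm_sub_rev]
      exact h3 y hy⟩
  · intro x y z hx hy hz h1 h2
    obtain ⟨v1, hv1, e1⟩ := h1
    obtain ⟨v2, hv2, e2⟩ := h2
    refine ⟨fun t => v1 t + v2 t, hv1.add hv2, fun t ht => ?_⟩
    have h3 : dirW φ z t / dirW φ x t = (dirW φ y t / dirW φ x t) * (dirW φ z t / dirW φ y t) := by
      have h4 := dirW_ne (hne y hy t ht)
      have h5 := dirW_ne (hne x hx t ht)
      field_simp
    have e1' : dirW φ y t / dirW φ x t = Complex.exp (v1 t * Complex.I) := e1 t ht
    have e2' : dirW φ z t / dirW φ y t = Complex.exp (v2 t * Complex.I) := e2 t ht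
    change dirW φ z t / dirW φ x t = Complex.exp (((v1 t + v2 t : ℝ) : ℂ) * Complex.I)
    rw [h3, e1', e2', ← Complex.exp_add]
    congr 1
    push_cast
    ring

theorem ring_exp_arg {z : ℂ} (hz : z ≠ 0) : Complex.exp (Complex.arg z * Complex.I) =
    z / (‖z‖ : ℂ) := by
  have h1 : (‖z‖ : ℂ) ≠ 0 := by exact_mod_cast norm_ne_zero_iff.2 hz
  rw [eq_div_iff h1, mul_comm]
  exact Complex.norm_mul_exp_arg_mul_I z

theorem ring_exp_T {z w : ℂ} (hz : z ≠ 0) (hw : w ≠ 0) :
    Complex.exp (Complex.arg (z * (starRingEnd ℂ) w) * Complex.I) =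
      (z / (‖z‖ : ℂ)) / (w / (‖w‖ : ℂ)) := by
  have h1 : (‖z‖ : ℂ) ≠ 0 := by exact_mod_cast norm_ne_zero_iff.2 hz
  have h2 : (‖w‖ : ℂ) ≠ 0 := by exact_mod_cast norm_ne_zero_iff.2 hw
  have h3 : (starRingEnd ℂ) w ≠ 0 := by
    rw [Ne, map_eq_zero]
    exact hw
  have h4 : w * (starRingEnd ℂ) w = (‖w‖ : ℂ) * (‖w‖ : ℂ) := by
    rw [Complex.mul_conj, Complex.normSq_eq_norm_sq]
    push_cast
    ring
  rw [ring_exp_arg (mul_ne_zero hz h3), norm_mul, RCLike.norm_conj]
  push_cast
  rw [div_div_div_eq, div_eq_div_iff (mul_ne_zero h1 h2) (mul_ne_zero h1 hw)]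
  linear_combination (z * (‖z‖ : ℂ)) * h4

variable {V : Type*} [NormedAddCommGroup V] [InnerProductSpace ℝ V] [FiniteDimensional ℝ V]
variable {f : V → ℝ} {P : Finset V} {e u p : V} {B : V →L[ℝ] V →L[ℝ] ℝ} {μ a r η ε : ℝ}

/-- The coordinates of the plane as a complex number. -/
noncomputable def phiP (e u p x : V) : ℂ := ⟨⟪u, x - p⟫, ⟪e, x - p⟫⟩

omit [FiniteDimensional ℝ V] in
theorem phiP_cont (e u p : V) : Continuous (phiP e u p) := by
  have h : phiP e u p = fun x => ((⟪u, x - p⟫ : ℝ) : ℂ) + ((⟪e, x - p⟫ : ℝ) : ℂ) * Complex.I := by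
    funext x
    apply Complex.ext <;> simp [phiP]
  rw [h]
  fun_prop

omit [FiniteDimensional ℝ V] in
theorem phiP_inj (hV : ∀ x : V, wc e u x = 0) : Function.Injective (phiP e u p) := by
  intro x y hxy
  have h1 : (⟪u, x - p⟫ : ℝ) = ⟪u, y - p⟫ := congrArg Complex.re hxy
  have h2 : (⟪e, x - p⟫ : ℝ) = ⟪e, y - p⟫ := congrArg Complex.im hxy
  have h3 := hV (x - p)
  have h4 := hV (y - p)
  unfold wc at h3 h4
  rw [h1, h2] at h3
  have h5 : x - p = y - p := by
    have := h3.trans h4.symm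
    rw [sub_left_inj, sub_left_inj] at this
    exact this
  exact sub_left_inj.1 h5

/-- In the plane: if the cut body is connected, the complement of the (truncated) body is not. -/
theorem Slab.ring (h : Slab f P e u p B μ a r η ε) (hV : ∀ x : V, wc e u x = 0)
    (hDc : IsPreconnected {x | fcut f e u p η ε r x ≤ 0}) :
    ¬ IsPreconnected {x | 0 < fs f e p ε x} := by
  intro hO
  have hprop : ProperSpace V := FiniteDimensional.proper ℝ V
  have he := h.mod.he
  have hu := h.mod.hu
  have heu := h.mod.heu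
  have hη := h.hη
  have hε := h.hε
  have hr := h.mod.hr
  have hηr := h.hηr
  have hεr := h.hεr
  have hμ := h.mod.hμ
  have hcls := h.fs_class
  have hfc : Continuous (fs f e p ε) := hcls.good.cont
  have hE : IsCompact {x | fs f e p ε x ≤ 0} :=
    Metric.isCompact_of_isClosed_isBounded (isClosed_le hfc continuous_const) hcls.bdd
  obtain ⟨δ, hδ⟩ : ∃ δ : ℝ, δ = r / 2 := ⟨_, rfl⟩
  have hδ0 : 0 < δ := by linarith
  have hee : (⟪e, e⟫ : ℝ) = 1 := by rw [real_inner_self_eq_norm_sq, he, one_pow]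
  have hue : (⟪u, e⟫ : ℝ) = 0 := by rw [real_inner_comm]; exact heu
  have hpt : ∀ t : ℝ, (⟪u, p + t • e - p⟫ : ℝ) = 0 ∧ (⟪e, p + t • e - p⟫ : ℝ) = t := by
    intro t
    rw [add_sub_cancel_left, real_inner_smul_right, real_inner_smul_right, hue, hee]
    exact ⟨mul_zero _, mul_one _⟩
  obtain ⟨c0, hc0⟩ : ∃ c0 : V, c0 = p + (2 * ε) • e := ⟨_, rfl⟩
  obtain ⟨c1, hc1⟩ : ∃ c1 : V, c1 = p + (-δ) • e := ⟨_, rfl⟩
  have hφ0 : phiP e u p c0 = ⟨0, 2 * ε⟩ := by
    rw [hc0]
    unfold phiP
    rw [(hpt _).1, (hpt _).2]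
  have hφ1 : phiP e u p c1 = ⟨0, -δ⟩ := by
    rw [hc1]
    unfold phiP
    rw [(hpt _).1, (hpt _).2]
  have hc0O : c0 ∈ {x | 0 < fs f e p ε x} := by
    change 0 < fs f e p ε c0
    rw [fs_eq, hc0, (hpt _).2]
    exact lt_max_of_lt_right (by linarith)
  have hc1O : c1 ∈ {x | 0 < fs f e p ε x} := by
    change 0 < fs f e p ε c1
    rw [fs_eq, hc1]
    apply lt_max_of_lt_left
    rw [h.mod.hf _ (by
      rw [add_sub_cancel_left, norm_smul, he, mul_one, norm_neg, Real.norm_of_nonneg hδ0.le]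
      linarith), mdl1, (hpt _).1, (hpt _).2, hV, map_zero]
    have := mul_pos hμ hδ0
    simp
    linarith
  have hdisj : Disjoint {x | fs f e p ε x ≤ 0} {x | 0 < fs f e p ε x} := by
    rw [Set.disjoint_left]
    intro x (hx : fs f e p ε x ≤ 0) (hx' : 0 < fs f e p ε x)
    linarith
  obtain ⟨ρ, hρc, hρ⟩ := ring_eilenberg hE hO hdisj (phiP_cont e u p) (phiP_inj hV) hc0O hc1O
  -- the two vectors
  have hz0 : ∀ x, phiP e u p x - phiP e u p c0 = ⟨⟪u, x - p⟫, ⟪e, x - p⟫ - 2 * ε⟩ := by
    intro x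
    rw [hφ0]
    apply Complex.ext <;> simp [phiP]
  have hz1 : ∀ x, phiP e u p x - phiP e u p c1 = ⟨⟪u, x - p⟫, ⟪e, x - p⟫ + δ⟩ := by
    intro x
    rw [hφ1]
    apply Complex.ext <;> simp [phiP]
  have hn0 : ∀ x, fs f e p ε x ≤ 0 → phiP e u p x - phiP e u p c0 ≠ 0 := by
    intro x hx h0
    have h1 := phiP_inj hV (sub_eq_zero.1 h0)
    subst h1
    have : 0 < fs f e p ε x := hc0O
    linarith
  have hn1 : ∀ x, fs f e p ε x ≤ 0 → phiP e u p x - phiP e u p c1 ≠ 0 := by
    intro x hx h0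
    have h1 := phiP_inj hV (sub_eq_zero.1 h0)
    subst h1
    have : 0 < fs f e p ε x := hc1O
    linarith
  have hlow : ∀ x, fs f e p ε x ≤ 0 → (⟪e, x - p⟫ : ℝ) ≤ ε := by
    intro x hx
    rw [fs_eq, max_le_iff] at hx
    linarith [hx.2]
  -- the cut body
  obtain ⟨T, hT⟩ : ∃ T : V → ℂ, T = fun x => (phiP e u p x - phiP e u p c1) *
      (starRingEnd ℂ) (phiP e u p x - phiP e u p c0) := ⟨_, rfl⟩
  have hTc : Continuous T := by
    rw [hT]
    exact ((phiP_cont e u p).sub continuous_const).mul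
      (Complex.continuous_conj.comp ((phiP_cont e u p).sub continuous_const))
  have hTre : ∀ x, (T x).re = ⟪u, x - p⟫ ^ 2 + (⟪e, x - p⟫ + δ) * (⟪e, x - p⟫ - 2 * ε) := by
    intro x
    rw [hT]
    simp only [hz0, hz1, Complex.mul_re, Complex.conj_re, Complex.conj_im]
    ring
  have hTim : ∀ x, (T x).im = ⟪u, x - p⟫ * (δ + 2 * ε) := by
    intro x
    rw [hT]
    simp only [hz0, hz1, Complex.mul_im, Complex.conj_re, Complex.conj_im]
    ring
  have hTs : ∀ x ∈ {x | fcut f e u p η ε r x ≤ 0}, T x ∈ Complex.slitPlane := by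
    intro x hx
    have hx' : max (fs f e p ε x) (lam u p η r x) ≤ 0 := hx
    rw [max_le_iff] at hx'
    by_contra hns
    rw [Complex.mem_slitPlane_iff] at hns
    push Not at hns
    rw [hTre, hTim] at hns
    obtain ⟨h1, h2⟩ := hns
    have h3 : (⟪u, x - p⟫ : ℝ) = 0 := by
      rcases mul_eq_zero.1 h2 with h3 | h3
      · exact h3
      · linarith
    have h4 := hlow x hx'.1
    rw [h3] at h1
    have h5 : -δ ≤ (⟪e, x - p⟫ : ℝ) := by
      by_contra h6
      push Not at h6
      nlinarith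
    have h7 : x - p = (⟪e, x - p⟫ : ℝ) • e := by
      have h8 := hV (x - p)
      unfold wc at h8
      rw [h3, zero_smul, sub_zero, sub_eq_zero] at h8
      exact h8
    have h9 : ‖x - p‖ ≤ r / 2 := by
      rw [h7, norm_smul, he, mul_one, Real.norm_eq_abs, abs_le]
      exact ⟨by linarith, by linarith⟩
    have h10 : 0 < lam u p η r x := by
      unfold lam
      rw [h3, abs_zero, sub_zero]
      exact lt_min hη (by linarith)
    linarith [hx'.2]
  have hc1' := ring_const hDc (f := fun x => ρ x - Complex.arg (T x)) (by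
      refine (hρc.mono fun x hx => ?_).sub fun x hx => ?_
      · have hx' : max (fs f e p ε x) (lam u p η r x) ≤ 0 := hx
        exact (max_le_iff.1 hx').1
      · exact ContinuousAt.comp_continuousWithinAt (g := Complex.arg) (f := T)
          (Complex.continuousAt_arg (hTs x hx)) hTc.continuousAt.continuousWithinAt) (by
      intro x hx
      have hx' : max (fs f e p ε x) (lam u p η r x) ≤ 0 := hx
      have hx1 := (max_le_iff.1 hx').1
      have h1 : dirW (phiP e u p) c1 x / dirW (phiP e u p) c0 x = Complex.exp (ρ x * Complex.I) :=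
        hρ x hx1
      have h2 := ring_exp_T (hn1 x hx1) (hn0 x hx1)
      have h3 : T x = (phiP e u p x - phiP e u p c1) *
        (starRingEnd ℂ) (phiP e u p x - phiP e u p c0) := by rw [hT]
      rw [← h3] at h2
      have h4 : ((ρ x - Complex.arg (T x) : ℝ) : ℂ) * Complex.I =
          ρ x * Complex.I - Complex.arg (T x) * Complex.I := by
        push_cast
        ring
      change Complex.exp (((ρ x - Complex.arg (T x) : ℝ) : ℂ) * Complex.I) = 1
      rw [h4, Complex.exp_sub, ← h1, h2]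
      unfold dirW
      apply div_self
      have k1 := dirW_ne (φ := phiP e u p) (sub_ne_zero.1 (hn1 x hx1))
      have k0 := dirW_ne (φ := phiP e u p) (sub_ne_zero.1 (hn0 x hx1))
      unfold dirW at k0 k1
      exact div_ne_zero k1 k0)
  -- the slab
  obtain ⟨g1, hg1⟩ : ∃ g : V → ℂ, g = fun x => -Complex.I * (phiP e u p x - phiP e u p c1) :=
    ⟨_, rfl⟩
  obtain ⟨g0, hg0⟩ : ∃ g : V → ℂ, g = fun x => Complex.I * (phiP e u p x - phiP e u p c0) :=
    ⟨_, rfl⟩
  have hg1c : Continuous g1 := by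
    rw [hg1]
    exact continuous_const.mul ((phiP_cont e u p).sub continuous_const)
  have hg0c : Continuous g0 := by
    rw [hg0]
    exact continuous_const.mul ((phiP_cont e u p).sub continuous_const)
  have hg1v : ∀ x, g1 x = ⟨⟪e, x - p⟫ + δ, -⟪u, x - p⟫⟩ := by
    intro x
    rw [hg1]
    simp only [hz1]
    apply Complex.ext <;> simp
  have hg0v : ∀ x, g0 x = ⟨2 * ε - ⟪e, x - p⟫, ⟪u, x - p⟫⟩ := by
    intro x
    rw [hg0]
    simp only [hz0]
    apply Complex.ext <;> simp
  have hS1 : ∀ x ∈ slabS f e u p η ε r, g1 x ∈ Complex.slitPlane := by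
    intro x hx
    rw [h.mem_slab] at hx
    rw [hg1v, Complex.mem_slitPlane_iff]
    by_cases hY : (⟪u, x - p⟫ : ℝ) = 0
    · left
      have h1 := hx.1
      rw [mdl1, hY, hV, map_zero] at h1
      have h2 : 0 ≤ μ * (⟪e, x - p⟫ : ℝ) := by
        simp at h1
        linarith
      have h3 : 0 ≤ (⟪e, x - p⟫ : ℝ) := by
        by_contra h4
        push Not at h4
        nlinarith
      change 0 < (⟪e, x - p⟫ : ℝ) + δ
      linarith
    · right
      change -(⟪u, x - p⟫ : ℝ) ≠ 0
      exact neg_ne_zero.2 hY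
  have hS0 : ∀ x ∈ slabS f e u p η ε r, g0 x ∈ Complex.slitPlane := by
    intro x hx
    rw [h.mem_slab] at hx
    rw [hg0v, Complex.mem_slitPlane_iff]
    left
    change 0 < 2 * ε - (⟪e, x - p⟫ : ℝ)
    linarith [hx.2.1]
  have hc2' := ring_const h.slab_preconnected
    (f := fun x => ρ x - (Complex.arg (g1 x) + Real.pi / 2 - (Complex.arg (g0 x) - Real.pi / 2)))
    (by
      refine (hρc.mono fun x hx => hx.1).sub (ContinuousOn.sub (ContinuousOn.add ?_
        continuousOn_const) (ContinuousOn.sub ?_ continuousOn_const))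
      · intro x hx
        exact ContinuousAt.comp_continuousWithinAt (g := Complex.arg) (f := g1)
          (Complex.continuousAt_arg (hS1 x hx)) hg1c.continuousAt.continuousWithinAt
      · intro x hx
        exact ContinuousAt.comp_continuousWithinAt (g := Complex.arg) (f := g0)
          (Complex.continuousAt_arg (hS0 x hx)) hg0c.continuousAt.continuousWithinAt) (by
      intro x hx
      have hx1 : fs f e p ε x ≤ 0 := hx.1
      have h1 : dirW (phiP e u p) c1 x / dirW (phiP e u p) c0 x = Complex.exp (ρ x * Complex.I) :=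
        hρ x hx1
      have hI : Complex.exp ((Real.pi / 2 : ℝ) * Complex.I) = Complex.I := by
        push_cast
        exact Complex.exp_pi_div_two_mul_I
      have hI2 : Complex.I * Complex.I = -1 := Complex.I_mul_I
      have m1 := hn1 x hx1
      have m0 := hn0 x hx1
      have n1 : (‖phiP e u p x - phiP e u p c1‖ : ℂ) ≠ 0 := by
        exact_mod_cast norm_ne_zero_iff.2 m1
      have n0 : (‖phiP e u p x - phiP e u p c0‖ : ℂ) ≠ 0 := by
        exact_mod_cast norm_ne_zero_iff.2 m0
      have k1 : Complex.exp (Complex.arg (g1 x) * Complex.I) =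
          -Complex.I * dirW (phiP e u p) c1 x := by
        have h3 : g1 x = -Complex.I * (phiP e u p x - phiP e u p c1) := by rw [hg1]
        rw [ring_exp_arg (by rw [h3]; exact mul_ne_zero (neg_ne_zero.2 Complex.I_ne_zero) m1), h3,
          norm_mul, norm_neg, Complex.norm_I, one_mul]
        unfold dirW
        rw [mul_div_assoc]
      have k0 : Complex.exp (Complex.arg (g0 x) * Complex.I) =
          Complex.I * dirW (phiP e u p) c0 x := by
        have h3 : g0 x = Complex.I * (phiP e u p x - phiP e u p c0) := by rw [hg0]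
        rw [ring_exp_arg (by rw [h3]; exact mul_ne_zero Complex.I_ne_zero m0), h3,
          norm_mul, Complex.norm_I, one_mul]
        unfold dirW
        rw [mul_div_assoc]
      have d1 := dirW_ne (φ := phiP e u p) (sub_ne_zero.1 m1)
      have d0 := dirW_ne (φ := phiP e u p) (sub_ne_zero.1 m0)
      have e4 : ((ρ x - (Complex.arg (g1 x) + Real.pi / 2 -
          (Complex.arg (g0 x) - Real.pi / 2)) : ℝ) : ℂ) * Complex.I =
          ρ x * Complex.I - ((Complex.arg (g1 x) * Complex.I + (Real.pi / 2 : ℝ) * Complex.I) +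
            ((Real.pi / 2 : ℝ) * Complex.I) - Complex.arg (g0 x) * Complex.I) := by
        push_cast
        ring
      change Complex.exp (((ρ x - (Complex.arg (g1 x) + Real.pi / 2 -
          (Complex.arg (g0 x) - Real.pi / 2)) : ℝ) : ℂ) * Complex.I) = 1
      rw [e4, Complex.exp_sub, Complex.exp_sub, Complex.exp_add, Complex.exp_add, hI, k1, k0, ← h1]
      have e5 : -Complex.I * dirW (phiP e u p) c1 x * Complex.I * Complex.I =
          Complex.I * dirW (phiP e u p) c1 x := by
        linear_combination (-Complex.I * dirW (phiP e u p) c1 x) * hI2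
      rw [e5]
      have hI0 := Complex.I_ne_zero
      field_simp)
  -- the two points
  obtain ⟨a1, a2, a3⟩ := CutFin_pt h (s := 0) ⟨le_rfl, by linarith⟩
  obtain ⟨b1, b2, b3⟩ := CutFin_pt h (s := 2 * η) ⟨by linarith, le_rfl⟩
  have l1 := CutFin_lam h (s := 0) ⟨le_rfl, by linarith⟩
  have l2 := CutFin_lam h (s := 2 * η) ⟨by linarith, le_rfl⟩
  rw [zero_sub, abs_neg, abs_of_pos hη, sub_self] at l1
  rw [show 2 * η - η = η by ring, abs_of_pos hη, sub_self] at l2
  have hh : ∀ s : ℝ, (⟪e, qn e u p η ε + s • u - p⟫ : ℝ) = ε / 2 := by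
    intro s
    have e1 : qn e u p η ε + s • u - p = (ε / 2) • e + (s - η) • u + 0 := by
      unfold qn
      module
    rw [e1, (comp_of he hu heu (inner_zero_right e) (inner_zero_right u) (ε / 2) (s - η)).1]
  obtain ⟨ym, hym⟩ : ∃ y : V, y = qn e u p η ε + (0 : ℝ) • u := ⟨_, rfl⟩
  obtain ⟨yp, hyp⟩ : ∃ y : V, y = qn e u p η ε + (2 * η) • u := ⟨_, rfl⟩
  have hm' := hh 0
  have hp' := hh (2 * η)
  rw [← hym] at a1 a2 a3 l1 hm'
  rw [← hyp] at b1 b2 b3 l2 hp'
  have q1 := hc1' yp (show max _ _ ≤ (0 : ℝ) from max_le b3.le l2.le) ym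
    (show max _ _ ≤ (0 : ℝ) from max_le a3.le l1.le)
  have q2 := hc2' yp ⟨b3.le, l2.ge⟩ ym ⟨a3.le, l1.ge⟩
  have t1 : 0 ≤ Complex.arg (T yp) := by
    rw [Complex.arg_nonneg_iff, hTim, b2]
    have : 0 < 2 * η - η := by linarith
    positivity
  have t2 : Complex.arg (T ym) < 0 := by
    rw [Complex.arg_neg_iff, hTim, a2]
    nlinarith
  have t3 : Complex.arg (g1 yp) < 0 := by
    rw [Complex.arg_neg_iff, hg1v]
    change -(⟪u, yp - p⟫ : ℝ) < 0
    rw [b2]
    linarith
  have t4 : 0 ≤ Complex.arg (g1 ym) := by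
    rw [Complex.arg_nonneg_iff, hg1v]
    change 0 ≤ -(⟪u, ym - p⟫ : ℝ)
    rw [a2]
    linarith
  have t5 : 0 ≤ Complex.arg (g0 yp) := by
    rw [Complex.arg_nonneg_iff, hg0v]
    change 0 ≤ (⟪u, yp - p⟫ : ℝ)
    rw [b2]
    linarith
  have t6 : Complex.arg (g0 ym) < 0 := by
    rw [Complex.arg_neg_iff, hg0v]
    change (⟪u, ym - p⟫ : ℝ) < 0
    rw [a2]
    linarith
  linarith

end Pool.Schoen
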