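import Pool.Agent.H.MP_6c077c_gt.Al.Neck
import Pool.Agent.H.MP_6c077c_gt.IxB.Defs
import Pool.Agent.H.MP_6c077c_gt.Ix.HomB

/-! Alexander theorem: the smooth cut of a straight cylinder, formulas. -/

set_option autoImplicit false

namespace Pool.Schoen

open Filter Set
open scoped Topology RealInnerProductSpace ContDiff

variable {V : Type*} [NormedAddCommGroup V] [InnerProductSpace ℝ V]

/-- The bump in the height: it is `1` exactly at `s = d` and `s = -d`. -/
noncomputable def wb (d s : ℝ) : ℝ := Real.exp 1 * expNegInvGlue (2 - (s / d) ^ 2)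

/-- The radial cut-off, a function of the square of the radius. -/
noncomputable def rb (R r : ℝ) : ℝ := Real.smoothTransition (2 - 3 * (r - 1) / (R ^ 2 - 1))

/-- The function added at the smooth cut. -/
noncomputable def wcut (e q : V) (d R : ℝ) (x : V) : ℝ :=
  wb d ⟪e, x - q⟫ * rb R (‖orth e (x - q)‖ ^ 2)

/-- The smooth cut. -/
noncomputable def scut (f : V → ℝ) (e q : V) (d R : ℝ) (x : V) : ℝ := f x + wcut e q d R x

/-- The smooth cut of the cylinder. -/
noncomputable def scutM (e q : V) (d : ℝ) (x : V) : ℝ :=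
  ‖orth e (x - q)‖ ^ 2 - 1 + wb d ⟪e, x - q⟫

theorem wb_smooth (d : ℝ) : ContDiff ℝ ∞ (wb d) := by
  unfold wb
  exact contDiff_const.mul (expNegInvGlue.contDiff.comp
    (contDiff_const.sub ((contDiff_id.div_const d).pow 2)))

theorem wb_nonneg (d s : ℝ) : 0 ≤ wb d s :=
  mul_nonneg (Real.exp_pos 1).le (expNegInvGlue.nonneg _)

theorem wb_zero {d s : ℝ} (hd : 0 < d) (hs : 2 * d ^ 2 ≤ s ^ 2) : wb d s = 0 := by
  unfold wb
  rw [expNegInvGlue.zero_of_nonpos, mul_zero]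
  have h1 : 2 ≤ (s / d) ^ 2 := by
    rw [div_pow, le_div_iff₀ (by positivity)]
    exact hs
  linarith

theorem wb_mid {d : ℝ} : 1 < wb d 0 := by
  have h1 : expNegInvGlue (2 : ℝ) = Real.exp (-(2 : ℝ)⁻¹) := by
    unfold expNegInvGlue
    rw [if_neg (by norm_num)]
  unfold wb
  rw [zero_div, zero_pow two_ne_zero, sub_zero, h1, ← Real.exp_add, Real.one_lt_exp_iff]
  norm_num

theorem wb_one {d : ℝ} (hd : d ≠ 0) : wb d d = 1 := by
  have h1 : expNegInvGlue (1 : ℝ) = Real.exp (-1) := by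
    unfold expNegInvGlue
    rw [if_neg (by norm_num), inv_one]
  unfold wb
  rw [div_self hd, one_pow, show (2 : ℝ) - 1 = 1 by norm_num, h1, ← Real.exp_add]
  simp

theorem wb_neg (d s : ℝ) : wb d (-s) = wb d s := by
  unfold wb
  rw [neg_div, neg_sq]

theorem wb_eq_one {d s : ℝ} (hd : 0 < d) (h : wb d s = 1) : s = d ∨ s = -d := by
  unfold wb at h
  have h0 : 0 < 2 - (s / d) ^ 2 := by
    by_contra hc
    rw [expNegInvGlue.zero_of_nonpos (not_lt.1 hc), mul_zero] at h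
    exact zero_ne_one h
  have h1 : expNegInvGlue (2 - (s / d) ^ 2) = Real.exp (-(2 - (s / d) ^ 2)⁻¹) := by
    unfold expNegInvGlue
    rw [if_neg (not_le.2 h0)]
  rw [h1, ← Real.exp_add, Real.exp_eq_one_iff] at h
  have h2 : (2 - (s / d) ^ 2)⁻¹ = 1 := by linarith
  have h3 : 2 - (s / d) ^ 2 = 1 := by
    rw [inv_eq_one] at h2
    exact h2
  have h4 : s ^ 2 = d ^ 2 := by
    have h5 : (s / d) ^ 2 = 1 := by linarith
    rw [div_pow, div_eq_one_iff_eq (by positivity)] at h5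
    exact h5
  exact sq_eq_sq_iff_eq_or_eq_neg.1 h4

/-- The derivative of the bump has the sign of `-s`. -/
theorem wb_deriv {d : ℝ} (hd : 0 < d) (s : ℝ) :
    ∃ D, HasDerivAt (wb d) D s ∧ s * D ≤ 0 ∧ (s ≠ 0 → s ^ 2 < 2 * d ^ 2 → s * D < 0) := by
  have h1 := expNegInvGlue.hasDerivAt_polynomial_eval_inv_mul 1 (2 - (s / d) ^ 2)
  simp only [Polynomial.eval_one, one_mul, Polynomial.derivative_one, sub_zero, mul_one,
    Polynomial.eval_pow, Polynomial.eval_X] at h1
  have h2 : HasDerivAt (fun s : ℝ => 2 - (s / d) ^ 2) (-(2 * (s / d) * (1 / d))) s := by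
    have h3 := (((hasDerivAt_id s).div_const d).pow 2).const_sub 2
    refine h3.congr_deriv ?_
    simp
  have h4 := (h1.comp s h2).const_mul (Real.exp 1)
  refine ⟨_, h4, ?_, ?_⟩
  · have h5 := expNegInvGlue.nonneg (2 - (s / d) ^ 2)
    have h6 : s * (Real.exp 1 * ((2 - (s / d) ^ 2)⁻¹ ^ 2 * expNegInvGlue (2 - (s / d) ^ 2) *
        -(2 * (s / d) * (1 / d)))) = -(2 * (s / d) ^ 2 * (Real.exp 1 *
        ((2 - (s / d) ^ 2)⁻¹ ^ 2 * expNegInvGlue (2 - (s / d) ^ 2)))) := by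
      field_simp
    rw [h6, neg_nonpos]
    positivity
  · intro hs hs2
    have h5 : 0 < 2 - (s / d) ^ 2 := by
      rw [div_pow, sub_pos, div_lt_iff₀ (by positivity)]
      exact hs2
    have h7 := expNegInvGlue.pos_of_pos h5
    have h6 : s * (Real.exp 1 * ((2 - (s / d) ^ 2)⁻¹ ^ 2 * expNegInvGlue (2 - (s / d) ^ 2) *
        -(2 * (s / d) * (1 / d)))) = -(2 * (s / d) ^ 2 * (Real.exp 1 *
        ((2 - (s / d) ^ 2)⁻¹ ^ 2 * expNegInvGlue (2 - (s / d) ^ 2)))) := by
      field_simp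
    rw [h6, neg_lt_zero]
    have h8 : 0 < (s / d) ^ 2 := by positivity
    positivity

theorem rb_smooth (R : ℝ) : ContDiff ℝ ∞ (rb R) := by
  unfold rb
  exact Real.smoothTransition.contDiff.comp (contDiff_const.sub
    ((contDiff_const.mul (contDiff_id.sub contDiff_const)).div_const _))

theorem rb_nonneg (R r : ℝ) : 0 ≤ rb R r := Real.smoothTransition.nonneg _

theorem rb_one {R r : ℝ} (hR : 1 < R) (hr : 3 * (r - 1) ≤ R ^ 2 - 1) : rb R r = 1 := by
  unfold rb
  have h1 : 0 < R ^ 2 - 1 := by nlinarith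
  refine Real.smoothTransition.one_of_one_le ?_
  have h2 : 3 * (r - 1) / (R ^ 2 - 1) ≤ 1 := by
    rw [div_le_one h1]
    exact hr
  linarith

theorem rb_zero {R r : ℝ} (hR : 1 < R) (hr : 2 * (R ^ 2 - 1) ≤ 3 * (r - 1)) : rb R r = 0 := by
  unfold rb
  have h1 : 0 < R ^ 2 - 1 := by nlinarith
  refine Real.smoothTransition.zero_of_nonpos ?_
  have h2 : 2 ≤ 3 * (r - 1) / (R ^ 2 - 1) := by
    rw [le_div_iff₀ h1]
    exact hr
  linarith

theorem wcut_nonneg (e q : V) (d R : ℝ) (x : V) : 0 ≤ wcut e q d R x :=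
  mul_nonneg (wb_nonneg _ _) (rb_nonneg _ _)

theorem norm_orth_sq {e : V} (he : ‖e‖ = 1) (x : V) : ‖orth e x‖ ^ 2 = ‖x‖ ^ 2 - ⟪e, x⟫ ^ 2 := by
  unfold orth
  rw [norm_sub_sq_real, real_inner_smul_right, norm_smul, he, real_inner_comm x e, mul_one,
    Real.norm_eq_abs, sq_abs]
  rw [real_inner_comm e x]
  ring

theorem contDiff_orth_sq (e q : V) : ContDiff ℝ ∞ fun x : V => ‖orth e (x - q)‖ ^ 2 := by
  unfold orth
  exact ((contDiff_id.sub contDiff_const).sub ((contDiff_const.inner ℝ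
    (contDiff_id.sub contDiff_const)).smul contDiff_const)).norm_sq ℝ

theorem contDiff_height (e q : V) : ContDiff ℝ ∞ fun x : V => ⟪e, x - q⟫ :=
  contDiff_const.inner ℝ (contDiff_id.sub contDiff_const)

theorem wcut_smooth (e q : V) (d R : ℝ) : ContDiff ℝ ∞ (wcut e q d R) := by
  unfold wcut
  exact ((wb_smooth d).comp (contDiff_height e q)).mul ((rb_smooth R).comp (contDiff_orth_sq e q))

theorem scut_smooth {f : V → ℝ} (hf : ContDiff ℝ ∞ f) (e q : V) (d R : ℝ) :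
    ContDiff ℝ ∞ (scut f e q d R) := hf.add (wcut_smooth e q d R)

theorem scutM_smooth (e q : V) (d : ℝ) : ContDiff ℝ ∞ (scutM e q d) := by
  unfold scutM
  exact ((contDiff_orth_sq e q).sub contDiff_const).add ((wb_smooth d).comp (contDiff_height e q))

theorem scut_ge (f : V → ℝ) (e q : V) (d R : ℝ) (x : V) : f x ≤ scut f e q d R x :=
  le_add_of_nonneg_right (wcut_nonneg e q d R x)

/-- The derivative of the model. -/
theorem scutM_fderiv {e : V} (he : ‖e‖ = 1) (q : V) {d D : ℝ} {x : V}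
    (hD : HasDerivAt (wb d) D ⟪e, x - q⟫) (v : V) :
    fderiv ℝ (scutM e q d) x v = 2 * ⟪orth e (x - q), v⟫ + D * ⟪e, v⟫ := by
  have h0 : HasFDerivAt (fun y : V => y - q) (ContinuousLinearMap.id ℝ V) x :=
    (hasFDerivAt_id x).sub_const q
  have h1 : HasFDerivAt (fun y : V => ⟪e, y - q⟫) (innerSL ℝ e) x := by
    have h2 := (innerSL ℝ e).hasFDerivAt.comp x h0
    exact h2
  have h2 : HasFDerivAt (fun y : V => ‖y - q‖ ^ 2) (2 • innerSL ℝ (x - q)) x := by
    have h3 := h0.norm_sq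
    exact h3
  have h3 : HasFDerivAt (fun y : V => ⟪e, y - q⟫ ^ 2)
      ((2 * ⟪e, x - q⟫ ^ 1) • innerSL ℝ e) x := by
    have h4 := h1.pow 2
    simpa using h4
  have h4 : HasFDerivAt ((wb d) ∘ fun y : V => ⟪e, y - q⟫) (D • innerSL ℝ e) x :=
    HasDerivAt.comp_hasFDerivAt (h₂ := wb d) (f := fun y : V => ⟪e, y - q⟫) x hD h1
  have h5 := ((h2.sub h3).sub_const 1).add h4
  have h6 : scutM e q d = fun y : V => ‖y - q‖ ^ 2 - ⟪e, y - q⟫ ^ 2 - 1 + wb d ⟪e, y - q⟫ := by
    funext y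
    unfold scutM
    rw [norm_orth_sq he]
  have h7 : HasFDerivAt (scutM e q d) (2 • innerSL ℝ (x - q) -
      (2 * ⟪e, x - q⟫ ^ 1) • innerSL ℝ e + D • innerSL ℝ e) x := by
    rw [h6]
    exact h5
  rw [h7.fderiv]
  simp only [_root_.add_apply, _root_.sub_apply,
    _root_.smul_apply, innerSL_apply_apply, smul_eq_mul, orth, inner_sub_left,
    real_inner_smul_left, nsmul_eq_mul]
  push_cast
  ring

end Pool.Schoen
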