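import Pool.Agent.H.MP_6c077c_gt.Al.SCut

/-! Alexander theorem: the smooth cut of a straight cylinder, zeros and horizontal points. -/

set_option autoImplicit false

namespace Pool.Schoen

open Filter Set
open scoped Topology RealInnerProductSpace ContDiff

variable {V : Type*} [NormedAddCommGroup V] [InnerProductSpace ℝ V]
variable {f : V → ℝ} {e q : V} {ζ R d : ℝ}

/-- Off the cylinder nothing changes. -/
theorem CylN.scut_off (h : CylN f e q ζ R) (hd : 0 < d) (hdζ : 2 * d ≤ ζ) {x : V}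
    (hx : ζ ≤ |⟪e, x - q⟫| ∨ R ≤ ‖orth e (x - q)‖) : scut f e q d R =ᶠ[𝓝 x] f := by
  have hR := h.hR
  have c1 : Continuous fun y : V => |⟪e, y - q⟫| := by fun_prop
  have c2 : Continuous fun y : V => ‖orth e (y - q)‖ := by
    unfold orth
    fun_prop
  rcases hx with hx | hx
  · have h1 : 3 / 2 * d < |⟪e, x - q⟫| := by linarith
    filter_upwards [c1.continuousAt.eventually_const_lt h1] with y hy
    unfold scut wcut
    rw [wb_zero hd, zero_mul, add_zero]
    rw [← sq_abs ⟪e, y - q⟫]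
    nlinarith
  · have h1 : (1 + R) / 2 < ‖orth e (x - q)‖ := by linarith
    have h3 : 1 + 2 / 3 * (R ^ 2 - 1) < ‖orth e (x - q)‖ ^ 2 := by
      have : R ^ 2 ≤ ‖orth e (x - q)‖ ^ 2 := by
        have := norm_nonneg (orth e (x - q))
        nlinarith
      nlinarith
    filter_upwards [(c2.pow 2).continuousAt.eventually_const_lt h3] with y hy
    unfold scut wcut
    rw [rb_zero hR (by simp only [Pi.pow_apply] at hy; linarith), mul_zero, add_zero]

/-- In the cylinder of radius one the cut is the model. -/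
theorem CylN.scut_in (h : CylN f e q ζ R) {x : V}
    (h1 : |⟪e, x - q⟫| < ζ) (h2 : ‖orth e (x - q)‖ ≤ 1) :
    scut f e q d R =ᶠ[𝓝 x] scutM e q d := by
  have hR := h.hR
  have c2 : Continuous fun y : V => ‖orth e (y - q)‖ ^ 2 := by
    unfold orth
    fun_prop
  have h3 : ‖orth e (x - q)‖ ^ 2 < 1 + (R ^ 2 - 1) / 3 := by
    have := norm_nonneg (orth e (x - q))
    nlinarith
  filter_upwards [h.eq_near h1 (by linarith), c2.continuousAt.eventually_lt_const h3]
    with y hy1 hy2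
  unfold scut wcut scutM
  rw [hy1, rb_one hR (by linarith), mul_one]

theorem CylN.scut_pos (h : CylN f e q ζ R) {x : V} (h1 : |⟪e, x - q⟫| < ζ)
    (h2 : 1 < ‖orth e (x - q)‖) (h3 : ‖orth e (x - q)‖ < R) : 0 < scut f e q d R x := by
  refine lt_of_lt_of_le ?_ (scut_ge f e q d R x)
  rw [h.hf x h1 h3]
  nlinarith

/-- Positive in the open slab. -/
theorem CylN.scut_zero (h : CylN f e q ζ R) (hd : 0 < d) (hdζ : 2 * d ≤ ζ) {x : V}
    (hx : scut f e q d R x = 0) :
    ((ζ ≤ |⟪e, x - q⟫| ∨ R ≤ ‖orth e (x - q)‖) ∧ f x = 0 ∧ scut f e q d R =ᶠ[𝓝 x] f) ∨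
      (|⟪e, x - q⟫| < ζ ∧ ‖orth e (x - q)‖ ≤ 1 ∧ scut f e q d R =ᶠ[𝓝 x] scutM e q d) := by
  by_cases h1 : ζ ≤ |⟪e, x - q⟫| ∨ R ≤ ‖orth e (x - q)‖
  · have h2 := h.scut_off hd hdζ h1
    exact Or.inl ⟨h1, by rw [← h2.self_of_nhds, hx], h2⟩
  · push Not at h1
    have h3 : ‖orth e (x - q)‖ ≤ 1 := by
      by_contra hc
      have := h.scut_pos (d := d) h1.1 (not_le.1 hc) h1.2
      linarith
    exact Or.inr ⟨h1.1, h3, h.scut_in h1.1 h3⟩

/-- The sign does not change off the slab. -/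
theorem CylN.scut_eq (hd : 0 < d) {x : V} (hx : 2 * d ^ 2 ≤ ⟪e, x - q⟫ ^ 2) :
    scut f e q d R x = f x := by
  unfold scut wcut
  rw [wb_zero hd hx, zero_mul, add_zero]

/-- At the middle level the cut is positive in the cylinder. -/
theorem CylN.scut_mid (h : CylN f e q ζ R) {x : V}
    (h0 : ⟪e, x - q⟫ = 0) (h2 : ‖orth e (x - q)‖ < R) : 0 < scut f e q d R x := by
  have h1 : |⟪e, x - q⟫| < ζ := by
    rw [h0, abs_zero]
    exact h.hζ
  by_cases h3 : ‖orth e (x - q)‖ ≤ 1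
  · rw [(h.scut_in (d := d) h1 h3).self_of_nhds]
    unfold scutM
    rw [h0]
    have h4 := wb_mid (d := d)
    nlinarith [sq_nonneg ‖orth e (x - q)‖]
  · exact h.scut_pos h1 (not_le.1 h3) h2

/-- Descent direction of the cut in the cylinder. -/
theorem CylN.scut_desc (h : CylN f e q ζ R) (hd : 0 < d) {x : V}
    (h1 : |⟪e, x - q⟫| < ζ) (h2 : ‖orth e (x - q)‖ ≤ 1)
    (h3 : orth e (x - q) ≠ 0 ∨ (⟪e, x - q⟫ ≠ 0 ∧ ⟪e, x - q⟫ ^ 2 < 2 * d ^ 2)) :
    Desc1 (scut f e q d R) x (⟪e, x - q⟫ • e - orth e (x - q)) := by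
  obtain ⟨D, hD, hD1, hD2⟩ := wb_deriv hd ⟪e, x - q⟫
  have h4 : Desc1 (scutM e q d) x (⟪e, x - q⟫ • e - orth e (x - q)) := by
    refine desc1_smooth ((scutM_smooth e q d).contDiffAt.of_le (by simp)) ?_
    rw [scutM_fderiv h.he q hD]
    obtain ⟨e1, e2⟩ := cyl_dir h.he q x ⟪e, x - q⟫
    rw [e1, e2]
    rcases h3 with h3 | h3
    · have h5 : 0 < ‖orth e (x - q)‖ := norm_pos_iff.2 h3
      nlinarith
    · have h5 := hD2 h3.1 h3.2
      nlinarith [sq_nonneg ‖orth e (x - q)‖]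
  exact h4.congr ((h.scut_in h1 h2).symm)

variable [FiniteDimensional ℝ V]

/-- The gradient of the model. -/
theorem scutM_gradient (he : ‖e‖ = 1) (q : V) {D : ℝ} {x : V}
    (hD : HasDerivAt (wb d) D ⟪e, x - q⟫) :
    gradient (scutM e q d) x = (2 : ℝ) • orth e (x - q) + D • e := by
  refine ext_inner_right ℝ fun v => ?_
  rw [inner_gradient_left, scutM_fderiv he q hD, inner_add_left, real_inner_smul_left,
    real_inner_smul_left]

/-- A zero of the model where the gradient is vertical is one of the two poles. -/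
theorem scutM_pole (he : ‖e‖ = 1) (q : V) (hd : 0 < d) {x : V} (hx : scutM e q d x = 0) {l : ℝ}
    (hl : gradient (scutM e q d) x = -(l • e)) :
    orth e (x - q) = 0 ∧ (x = q + d • e ∨ x = q - d • e) ∧ ∀ D,
      HasDerivAt (wb d) D ⟪e, x - q⟫ → D = -l := by
  obtain ⟨D, hD, hD1, hD2⟩ := wb_deriv hd ⟪e, x - q⟫
  rw [scutM_gradient he q hD] at hl
  have he1 : ⟪e, orth e (x - q)⟫ = 0 := inner_orth he _
  have h1 : D = -l := by
    have h2 := congrArg (fun v => ⟪e, v⟫) hl
    simp only [inner_add_right, real_inner_smul_right, he1, real_inner_self_eq_norm_sq, he,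
      inner_neg_right] at h2
    linarith
  have h2 : orth e (x - q) = 0 := by
    have h3 : (2 : ℝ) • orth e (x - q) = 0 := by
      have h4 : (2 : ℝ) • orth e (x - q) = -(l • e) - D • e := by rw [← hl]; abel
      rw [h4, h1]
      module
    exact (smul_eq_zero.1 h3).resolve_left two_ne_zero
  have h3 : x = q + ⟪e, x - q⟫ • e := by
    unfold orth at h2
    rw [← sub_eq_zero.1 h2]
    abel
  have h4 : wb d ⟪e, x - q⟫ = 1 := by
    unfold scutM at hx
    rw [h2, norm_zero] at hx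
    linarith
  refine ⟨h2, ?_, fun D' hD' => (hD'.unique hD).trans h1⟩
  rcases wb_eq_one hd h4 with h5 | h5
  · left
    rw [h5] at h3
    exact h3
  · right
    rw [h5] at h3
    rw [h3]
    module

theorem scutM_reg (he : ‖e‖ = 1) (q : V) (hd : 0 < d) {x : V} (hx : scutM e q d x = 0) :
    gradient (scutM e q d) x ≠ 0 := by
  intro h0
  obtain ⟨h1, h2, h3⟩ := scutM_pole he q hd hx (l := 0) (by rw [h0]; simp)
  obtain ⟨D, hD, hD1, hD2⟩ := wb_deriv hd ⟪e, x - q⟫
  have h4 := h3 D hD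
  have h5 : ⟪e, x - q⟫ = d ∨ ⟪e, x - q⟫ = -d := by
    rcases h2 with h2 | h2
    · left
      rw [h2, add_sub_cancel_left, real_inner_smul_right, real_inner_self_eq_norm_sq, he]
      ring
    · right
      rw [h2, sub_sub_cancel_left, inner_neg_right, real_inner_smul_right,
        real_inner_self_eq_norm_sq, he]
      ring
  have h6 : ⟪e, x - q⟫ ≠ 0 := by
    rcases h5 with h5 | h5
    · rw [h5]; exact hd.ne'
    · rw [h5]; exact (neg_neg_of_pos hd).ne
  have h7 : ⟪e, x - q⟫ ^ 2 < 2 * d ^ 2 := by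
    rcases h5 with h5 | h5
    · rw [h5]; nlinarith
    · rw [h5]; nlinarith
  have h8 := hD2 h6 h7
  rw [h4] at h8
  simp at h8

omit [FiniteDimensional ℝ V] in
/-- Second derivative of the model in horizontal directions. -/
theorem scutM_hess (he : ‖e‖ = 1) (q x : V) {b : V} (hb : ⟪e, b⟫ = 0) :
    fderiv ℝ (fderiv ℝ (scutM e q d)) x b b = 2 * ‖b‖ ^ 2 := by
  have hs := scutM_smooth e q d
  have h1 : HasFDerivAt (fderiv ℝ (scutM e q d)) (fderiv ℝ (fderiv ℝ (scutM e q d)) x)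
      (x + (0 : ℝ) • b) := by
    rw [zero_smul, add_zero]
    exact ((hs.fderiv_right (m := ∞) (by simp)).differentiable (by simp) x).hasFDerivAt
  have h2 : HasDerivAt (fun t : ℝ => x + t • b) b 0 := by
    have h3 := ((hasDerivAt_id (0 : ℝ)).smul_const b).const_add x
    rw [one_smul] at h3
    exact h3
  have h3 : HasDerivAt (fun t : ℝ => fderiv ℝ (scutM e q d) (x + t • b) b)
      (fderiv ℝ (fderiv ℝ (scutM e q d)) x b b) 0 := by
    have h4 : HasDerivAt (fun t : ℝ => fderiv ℝ (scutM e q d) (x + t • b))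
        (fderiv ℝ (fderiv ℝ (scutM e q d)) x b) 0 := h1.comp_hasDerivAt (0 : ℝ) h2
    have h5 := h4.clm_apply (hasDerivAt_const (0 : ℝ) b)
    simpa using h5
  have h4 : (fun t : ℝ => fderiv ℝ (scutM e q d) (x + t • b) b) =
      fun t : ℝ => 2 * ⟪orth e (x - q), b⟫ + t * (2 * ‖b‖ ^ 2) := by
    funext t
    obtain ⟨D, hD, -, -⟩ : ∃ D, HasDerivAt (wb d) D ⟪e, x + t • b - q⟫ ∧ True ∧ True :=
      ⟨_, ((wb_smooth d).differentiable (by simp) _).hasDerivAt, trivial, trivial⟩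
    rw [scutM_fderiv he q hD, hb, mul_zero, add_zero]
    have h5 : orth e (x + t • b - q) = orth e (x - q) + t • b := by
      have h6 : x + t • b - q = (x - q) + t • b := by abel
      unfold orth
      rw [h6, inner_add_right, real_inner_smul_right, hb]
      module
    rw [h5, inner_add_left, real_inner_smul_left, real_inner_self_eq_norm_sq]
    ring
  rw [h4] at h3
  have h5 : HasDerivAt (fun t : ℝ => 2 * ⟪orth e (x - q), b⟫ + t * (2 * ‖b‖ ^ 2))
      (1 * (2 * ‖b‖ ^ 2)) 0 := ((hasDerivAt_id (0 : ℝ)).mul_const _).const_add _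
  rw [h3.unique h5, one_mul]

end Pool.Schoen
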