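import Pool.Agent.H.MP_6c077c_gt.Al.Flat
import Pool.Agent.H.MP_6c077c_gt.Al.SCutB

/-! Alexander theorem: the homotopy between the smooth and the flat parts of the cut. -/

set_option autoImplicit false

namespace Pool.Schoen

open Filter Set
open scoped Topology RealInnerProductSpace ContDiff

variable {V : Type*} [NormedAddCommGroup V] [InnerProductSpace ℝ V]
variable {f : V → ℝ} {e q : V} {ζ R η r d : ℝ}

/-- The model family: from the smooth cut of the cylinder (`t = 0`) to the cylinder (`t = 1`). -/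
theorem wfam_desc (he : ‖e‖ = 1) (hd : 0 < d) {t : ℝ} (ht : t ≤ 1) {x : V}
    (h3 : orth e (x - q) ≠ 0 ∨ (t < 1 ∧ ⟪e, x - q⟫ ≠ 0 ∧ ⟪e, x - q⟫ ^ 2 < 2 * d ^ 2)) :
    Desc (fun (t : ℝ) (y : V) => ‖orth e (y - q)‖ ^ 2 - 1 + (1 - t) * wb d ⟪e, y - q⟫) (𝓝 t) x
      (⟪e, x - q⟫ • e - orth e (x - q)) := by
  obtain ⟨D, hD, hD1, hD2⟩ := wb_deriv hd ⟪e, x - q⟫
  obtain ⟨e1, e2⟩ := cyl_dir he q x ⟪e, x - q⟫
  have c1 : ContDiff ℝ 1 (fun p : ℝ × V => ‖orth e (p.2 - q)‖ ^ 2) :=
    ((contDiff_orth_sq e q).of_le (by simp)).comp contDiff_snd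
  have c2 : ContDiff ℝ 1 (fun p : ℝ × V => wb d ⟪e, p.2 - q⟫) :=
    (((wb_smooth d).comp (contDiff_height e q)).of_le (by simp)).comp contDiff_snd
  have hG : ContDiff ℝ 1 (fun p : ℝ × V =>
      ‖orth e (p.2 - q)‖ ^ 2 - 1 + (1 - p.1) * wb d ⟪e, p.2 - q⟫) :=
    (c1.sub contDiff_const).add ((contDiff_const.sub contDiff_fst).mul c2)
  refine desc_smooth (G := fun p : ℝ × V =>
      ‖orth e (p.2 - q)‖ ^ 2 - 1 + (1 - p.1) * wb d ⟪e, p.2 - q⟫) hG.contDiffAt ?_
  -- the derivative in the direction of the space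
  have h1 := ((hG.contDiffAt (x := (t, x))).differentiableAt (by simp)).hasFDerivAt
  have h2 : HasFDerivAt (fun y : V => (t, y)) (ContinuousLinearMap.inr ℝ ℝ V) x :=
    hasFDerivAt_prodMk_right t x
  have h4 := h1.comp x h2
  have h5 : fderiv ℝ (fun y : V => ‖orth e (y - q)‖ ^ 2 - 1 + (1 - t) * wb d ⟪e, y - q⟫) x = _ :=
    h4.fderiv
  have h6 : fderiv ℝ (fun p : ℝ × V =>
      ‖orth e (p.2 - q)‖ ^ 2 - 1 + (1 - p.1) * wb d ⟪e, p.2 - q⟫) (t, x)
        (0, ⟪e, x - q⟫ • e - orth e (x - q)) =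
      fderiv ℝ (fun y : V => ‖orth e (y - q)‖ ^ 2 - 1 + (1 - t) * wb d ⟪e, y - q⟫) x
        (⟪e, x - q⟫ • e - orth e (x - q)) := by
    rw [h5]
    rfl
  rw [h6]
  -- the derivatives of the two summands
  have k1 : HasFDerivAt (fun y : V => ⟪e, y - q⟫) (innerSL ℝ e) x :=
    (innerSL ℝ e).hasFDerivAt.comp x ((hasFDerivAt_id x).sub_const q)
  have k2 : HasFDerivAt ((wb d) ∘ fun y : V => ⟪e, y - q⟫) (D • innerSL ℝ e) x :=
    HasDerivAt.comp_hasFDerivAt (h₂ := wb d) (f := fun y : V => ⟪e, y - q⟫) x hD k1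
  have k3 : DifferentiableAt ℝ (scutM e q d) x :=
    ((scutM_smooth e q d).contDiffAt).differentiableAt (by simp)
  have k4 := k3.hasFDerivAt.sub (k2.const_mul t)
  have k5 : (fun y : V => ‖orth e (y - q)‖ ^ 2 - 1 + (1 - t) * wb d ⟪e, y - q⟫) =
      fun y : V => scutM e q d y - t * ((wb d) ∘ fun y : V => ⟪e, y - q⟫) y := by
    funext y
    unfold scutM
    simp only [Function.comp_apply]
    ring
  rw [k5]
  have k6 := k4.fderiv
  have k7 : fderiv ℝ (fun y : V => scutM e q d y - t * ((wb d) ∘ fun y : V => ⟪e, y - q⟫) y) x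
      (⟪e, x - q⟫ • e - orth e (x - q)) = -(2 * ‖orth e (x - q)‖ ^ 2) +
        (1 - t) * (⟪e, x - q⟫ * D) := by
    have k8 : fderiv ℝ (fun y : V => scutM e q d y - t * ((wb d) ∘ fun y : V => ⟪e, y - q⟫) y) x =
        fderiv ℝ (scutM e q d) x - t • D • innerSL ℝ e := k6
    rw [k8, _root_.sub_apply, scutM_fderiv he q hD, e1, e2]
    simp only [_root_.smul_apply, innerSL_apply_apply, smul_eq_mul, e2]
    ring
  rw [k7]
  rcases h3 with h3 | ⟨h3, h4, h5⟩
  · have h7 : 0 < ‖orth e (x - q)‖ := norm_pos_iff.2 h3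
    have h8 : 0 < ‖orth e (x - q)‖ ^ 2 := by positivity
    have h9 : (1 - t) * (⟪e, x - q⟫ * D) ≤ 0 :=
      mul_nonpos_of_nonneg_of_nonpos (by linarith) hD1
    linarith
  · have h8 : 0 ≤ ‖orth e (x - q)‖ ^ 2 := by positivity
    have h9 : (1 - t) * (⟪e, x - q⟫ * D) < 0 := mul_neg_of_pos_of_neg (by linarith) (hD2 h4 h5)
    linarith

/-- The family: from the smooth cut (`t = 0`) to the function (`t = 1`). -/
noncomputable def sfam (f : V → ℝ) (e q : V) (d R t : ℝ) (x : V) : ℝ :=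
  f x + (1 - t) * wcut e q d R x

theorem sfam_ge {t : ℝ} (ht : t ≤ 1) (x : V) : f x ≤ sfam f e q d R t x := by
  unfold sfam
  have h1 : 0 ≤ (1 - t) * wcut e q d R x := mul_nonneg (by linarith) (wcut_nonneg e q d R x)
  linarith

theorem sfam_continuous (hf : Continuous f) :
    Continuous fun p : ℝ × V => sfam f e q d R p.1 p.2 := by
  unfold sfam
  exact (hf.comp continuous_snd).add ((continuous_const.sub continuous_fst).mul
    ((wcut_smooth e q d R).continuous.comp continuous_snd))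

/-- The family in the cylinder. -/
theorem CylN.sfam_in (h : CylN f e q ζ R) {x : V} (h1 : |⟪e, x - q⟫| < ζ)
    (h2 : ‖orth e (x - q)‖ ≤ 1) : ∀ᶠ y in 𝓝 x, ∀ t : ℝ, sfam f e q d R t y =
      ‖orth e (y - q)‖ ^ 2 - 1 + (1 - t) * wb d ⟪e, y - q⟫ := by
  filter_upwards [h.scut_in (d := d) h1 h2, h.eq_near h1 (lt_of_le_of_lt h2 h.hR)] with y h3 h4 t
  have h5 : wcut e q d R y = wb d ⟪e, y - q⟫ := by
    have h6 : f y + wcut e q d R y = ‖orth e (y - q)‖ ^ 2 - 1 + wb d ⟪e, y - q⟫ := h3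
    rw [h4] at h6
    linarith
  unfold sfam
  rw [h5, h4]

/-- Direction of the family in the cylinder. -/
theorem CylN.sfam_dz (h : CylN f e q ζ R) (hd : 0 < d) {t : ℝ} (ht : t ∈ Icc (0 : ℝ) 1) {x : V}
    (h1 : |⟪e, x - q⟫| < ζ) (h2 : ‖orth e (x - q)‖ ≤ 1)
    (h3 : orth e (x - q) = 0 → ⟪e, x - q⟫ ≠ 0) :
    DZ (sfam f e q d R) t x (⟪e, x - q⟫ • e - orth e (x - q)) := by
  intro h0
  have hin := h.sfam_in (d := d) h1 h2
  have h4 : Desc (fun (t : ℝ) (y : V) => ‖orth e (y - q)‖ ^ 2 - 1 + (1 - t) * wb d ⟪e, y - q⟫)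
      (𝓝 t) x (⟪e, x - q⟫ • e - orth e (x - q)) := by
    refine wfam_desc h.he hd ht.2 ?_
    by_cases h5 : orth e (x - q) = 0
    · right
      rw [hin.self_of_nhds t, h5, norm_zero] at h0
      have h6 : (1 - t) * wb d ⟪e, x - q⟫ = 1 := by linarith
      have h7 : t ≠ 1 := by
        rintro rfl
        rw [sub_self, zero_mul] at h6
        exact zero_ne_one h6
      refine ⟨lt_of_le_of_ne ht.2 h7, h3 h5, ?_⟩
      by_contra h8
      rw [wb_zero hd (not_lt.1 h8), mul_zero] at h6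
      exact zero_ne_one h6
    · exact Or.inl h5
  refine (h4.mono nhdsWithin_le_nhds).congr ?_
  have h5 : ∀ᶠ p : ℝ × V in 𝓝[Icc 0 1] t ×ˢ 𝓝 x, ∀ t : ℝ, sfam f e q d R t p.2 =
      ‖orth e (p.2 - q)‖ ^ 2 - 1 + (1 - t) * wb d ⟪e, p.2 - q⟫ := tendsto_snd.eventually hin
  filter_upwards [h5] with p hp
  exact (hp p.1).symm

/-- The family off the cylinder. -/
theorem CylN.sfam_off (h : CylN f e q ζ R) (hd : 0 < d) (hdζ : 2 * d ≤ ζ) {x : V}
    (hx : ζ ≤ |⟪e, x - q⟫| ∨ R ≤ ‖orth e (x - q)‖) :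
    ∀ᶠ y in 𝓝 x, ∀ t : ℝ, sfam f e q d R t y = f y := by
  filter_upwards [h.scut_off hd hdζ hx] with y hy t
  have h6 : f y + wcut e q d R y = f y := hy
  have h7 : wcut e q d R y = 0 := by linarith
  unfold sfam
  rw [h7, mul_zero, add_zero]

/-- Where the smooth cut is nonpositive one is not in the flat cylinder. -/
theorem CylN.scut_lam (h : CylN f e q ζ R) (hd : 0 < d) (hηd : η < d) (hηζ : η < ζ) (hrR : r < R)
    {x : V} (hx : scut f e q d R x ≤ 0) : lamC e q η r x < 0 := by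
  by_contra hc
  have hf0 : f x ≤ 0 := (scut_ge f e q d R x).trans hx
  obtain ⟨h1, h2, h3⟩ := h.near hηζ hrR hf0 (not_lt.1 hc)
  rw [(h.scut_in (d := d) (lt_of_le_of_lt h1 hηζ) h2).self_of_nhds] at hx
  unfold scutM at hx
  have h4 : 1 < wb d ⟪e, x - q⟫ := by
    have h5 : ⟪e, x - q⟫ ^ 2 < d ^ 2 := by
      rw [← sq_abs]
      have := abs_nonneg ⟪e, x - q⟫
      nlinarith
    have h6 : (⟪e, x - q⟫ / d) ^ 2 < 1 := by
      rw [div_pow, div_lt_one (by positivity)]
      exact h5
    have h7 : 0 < 2 - (⟪e, x - q⟫ / d) ^ 2 := by linarith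
    unfold wb
    have h8 : expNegInvGlue (2 - (⟪e, x - q⟫ / d) ^ 2) =
        Real.exp (-(2 - (⟪e, x - q⟫ / d) ^ 2)⁻¹) := by
      unfold expNegInvGlue
      rw [if_neg (not_le.2 h7)]
    rw [h8, ← Real.exp_add, Real.one_lt_exp_iff]
    have h9 : (2 - (⟪e, x - q⟫ / d) ^ 2)⁻¹ < 1 := inv_lt_one_of_one_lt₀ (by linarith)
    linarith
  have h5 := sq_nonneg ‖orth e (x - q)‖
  linarith

/-- A direction at the zeros of the family of the cut. -/
theorem CylN.hfam_dz (h : CylN f e q ζ R) (hg : Good f) (hd : 0 < d) (hdζ : 2 * d ≤ ζ) (hη : 0 < η)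
    (hηζ : η < ζ) (hr : 1 < r) (hrR : r < R) {t : ℝ} (ht : t ∈ Icc (0 : ℝ) 1) {x : V}
    (hx : max (sfam f e q d R t x) (lamC e q η r x) = 0) :
    ∃ v, DZ (sfam f e q d R) t x v ∧ DZ1 (lamC e q η r) x v := by
  have hs0 : sfam f e q d R t x ≤ 0 := (le_max_left _ _).trans hx.le
  have hl0 : lamC e q η r x ≤ 0 := (le_max_right _ _).trans hx.le
  have hf0 : f x ≤ 0 := (sfam_ge ht.2 x).trans hs0
  by_cases hc : |⟪e, x - q⟫| < ζ ∧ ‖orth e (x - q)‖ < R
  · have h2 : ‖orth e (x - q)‖ ≤ 1 := by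
      have h3 := h.hf x hc.1 hc.2
      rw [h3] at hf0
      have h4 := norm_nonneg (orth e (x - q))
      by_contra h5
      push Not at h5
      nlinarith
    have h3 : orth e (x - q) = 0 → ⟪e, x - q⟫ ≠ 0 := by
      intro h4 h5
      unfold lamC at hl0
      rw [h4, h5, norm_zero, abs_zero, sub_zero, sub_zero] at hl0
      have h6 : 0 < min η r := lt_min hη (by linarith)
      linarith
    obtain ⟨v1, v2⟩ := cyl_dir h.he q x ⟪e, x - q⟫
    refine ⟨_, h.sfam_dz hd ht hc.1 h2 h3, lamC_dz h.he hη hr h2 ?_⟩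
    intro h4
    rw [v2]
    refine mul_self_pos.2 ?_
    intro h5
    rw [h5, abs_zero] at h4
    linarith
  · have hc' : ζ ≤ |⟪e, x - q⟫| ∨ R ≤ ‖orth e (x - q)‖ := by
      by_contra h4
      push Not at h4
      exact hc h4
    have hl : lamC e q η r x < 0 := by
      rcases hc' with h4 | h4
      · exact (min_le_left _ _).trans_lt (by linarith)
      · exact (min_le_right _ _).trans_lt (by linarith)
    have hoff := h.sfam_off hd hdζ hc'
    have hfx : f x = 0 := by
      rw [← hoff.self_of_nhds t]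
      rcases max_choice (sfam f e q d R t x) (lamC e q η r x) with h4 | h4
      · rw [← h4]
        exact hx
      · rw [h4] at hx
        exact absurd hx hl.ne
    obtain ⟨v, hv⟩ := hg.desc x hfx
    refine ⟨v, ?_, dz1_of_ne hl.ne⟩
    intro _
    refine (hv.const (𝓝[Icc 0 1] t)).congr ?_
    have h5 : ∀ᶠ p : ℝ × V in 𝓝[Icc 0 1] t ×ˢ 𝓝 x, ∀ t : ℝ, sfam f e q d R t p.2 = f p.2 :=
      tendsto_snd.eventually hoff
    filter_upwards [h5] with p hp
    exact (hp p.1).symm

/-- The flat part and the smooth part are homotopic.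
PROOF. Family `max (max (sfam t) lam) δ`, `δ = infDist A - infDist C`; the zeros are in `{fcutC ≤ 0} = A ∪ C`,
so in `A`, where `δ < 0`. For `t = 0` this is `max (max scut lam) δ`, which agrees with `max scut δ` near
the zeros (`scut_lam`). -/
theorem CylN.smooth_flat (h : CylN f e q ζ R) (hg : Good f) (hd : 0 < d) (hdζ : 2 * d ≤ ζ)
    (hη : 0 < η) (hηd : η < d) (hr : 1 < r) (hrR : r < R) {A C : Set V} (hA : IsClosed A)
    (hC : IsClosed C) (hD : Disjoint A C) (hA0 : A.Nonempty) (hC0 : C.Nonempty)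
    (hAC : A ∪ C = {x | fcutC f e q η r x ≤ 0}) :
    Hom (partF (fcutC f e q η r) A C) (partF (scut f e q d R) A C) := by
  have hηζ : η < ζ := by linarith
  have hfc := hg.cont
  have hlc := lamC_continuous e q η r
  have hsc : Continuous (scut f e q d R) := hfc.add (wcut_smooth e q d R).continuous
  obtain ⟨δ, hδ⟩ : ∃ δ : V → ℝ, δ = fun x => Metric.infDist x A - Metric.infDist x C := ⟨_, rfl⟩
  have hδc : Continuous δ := by
    rw [hδ]
    exact (Metric.continuous_infDist_pt A).sub (Metric.continuous_infDist_pt C)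
  have hδA : ∀ x ∈ A, δ x < 0 := by
    intro x hx
    rw [hδ]
    beta_reduce
    have h2 : Metric.infDist x A = 0 := Metric.infDist_zero_of_mem hx
    have h3 : 0 < Metric.infDist x C :=
      (hC.notMem_iff_infDist_pos hC0).1 fun h4 => hD.le_bot ⟨hx, h4⟩
    linarith
  have hδC : ∀ x ∈ C, 0 < δ x := by
    intro x hx
    rw [hδ]
    beta_reduce
    have h2 : Metric.infDist x C = 0 := Metric.infDist_zero_of_mem hx
    have h3 : 0 < Metric.infDist x A :=
      (hA.notMem_iff_infDist_pos hA0).1 fun h4 => hD.le_bot ⟨h4, hx⟩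
    linarith
  have c1 : Continuous fun p : ℝ × V => sfam f e q d R p.1 p.2 := sfam_continuous hfc
  have c2 : Continuous fun p : ℝ × V => lamC e q η r p.2 := hlc.comp continuous_snd
  have c3 : Continuous fun p : ℝ × V => δ p.2 := hδc.comp continuous_snd
  -- zeros of the family
  have hz : ∀ t ∈ Icc (0 : ℝ) 1, ∀ x,
      max (max (sfam f e q d R t x) (lamC e q η r x)) (δ x) ≤ 0 →
      x ∈ A ∧ δ x < 0 ∧ f x ≤ 0 ∧ lamC e q η r x ≤ 0 := by
    intro t ht x hx
    have h1 := max_le_iff.1 hx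
    have h2 := max_le_iff.1 h1.1
    have hf0 : f x ≤ 0 := (sfam_ge ht.2 x).trans h2.1
    have h3 : x ∈ A ∪ C := by
      rw [hAC]
      exact max_le hf0 h2.2
    rcases h3 with h3 | h3
    · exact ⟨h3, hδA x h3, hf0, h2.2⟩
    · exact absurd h1.2 (not_le.2 (hδC x h3))
  have hH : Hom (fun x => max (max (sfam f e q d R 0 x) (lamC e q η r x)) (δ x))
      (fun x => max (max (sfam f e q d R 1 x) (lamC e q η r x)) (δ x)) := by
    refine ⟨fun t x => max (max (sfam f e q d R t x) (lamC e q η r x)) (δ x), (c1.max c2).max c3,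
      rfl, rfl, ?_, ?_⟩
    · obtain ⟨R0, hR0⟩ := hg.bdd.exists_norm_le
      refine ⟨max R0 (‖q‖ + (ζ + R)), fun t ht x hx => ?_⟩
      obtain ⟨h1, h2, h3, h4⟩ := hz t ht x hx.le
      by_cases hc : |⟪e, x - q⟫| < ζ ∧ ‖orth e (x - q)‖ < R
      · refine le_trans ?_ (le_max_right _ _)
        have h5 : x = q + (⟪e, x - q⟫ • e + orth e (x - q)) := by
          unfold orth
          abel
        calc ‖x‖ = ‖q + (⟪e, x - q⟫ • e + orth e (x - q))‖ := by rw [← h5]
          _ ≤ ‖q‖ + (‖⟪e, x - q⟫ • e‖ + ‖orth e (x - q)‖) :=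
              (norm_add_le _ _).trans (add_le_add le_rfl (norm_add_le _ _))
          _ ≤ ‖q‖ + (ζ + R) := by
              rw [norm_smul, h.he, mul_one, Real.norm_eq_abs]
              linarith [hc.1, hc.2]
      · have hc' : ζ ≤ |⟪e, x - q⟫| ∨ R ≤ ‖orth e (x - q)‖ := by
          by_contra h4
          push Not at h4
          exact hc h4
        have hl : lamC e q η r x < 0 := by
          rcases hc' with h4 | h4
          · exact (min_le_left _ _).trans_lt (by linarith)
          · exact (min_le_right _ _).trans_lt (by linarith)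
        have hfx : f x = 0 := by
          rw [← (h.sfam_off hd hdζ hc').self_of_nhds t]
          have hx' : max (max (sfam f e q d R t x) (lamC e q η r x)) (δ x) = 0 := hx
          rcases max_choice (max (sfam f e q d R t x) (lamC e q η r x)) (δ x) with h5 | h5
          · rw [h5] at hx'
            rcases max_choice (sfam f e q d R t x) (lamC e q η r x) with h6 | h6
            · rw [← h6]
              exact hx'
            · rw [h6] at hx'
              exact absurd hx' hl.ne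
          · rw [h5] at hx'
            exact absurd hx' h2.ne
        exact (hR0 x hfx).trans (le_max_left _ _)
    · intro t ht x hx
      obtain ⟨h1, h2, h3, h4⟩ := hz t ht x hx.le
      have hx' : max (max (sfam f e q d R t x) (lamC e q η r x)) (δ x) = 0 := hx
      have h5 : max (sfam f e q d R t x) (lamC e q η r x) = 0 := by
        rcases max_choice (max (sfam f e q d R t x) (lamC e q η r x)) (δ x) with h5 | h5
        · rw [← h5]
          exact hx'
        · rw [h5] at hx'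
          exact absurd hx' h2.ne
      obtain ⟨v, v1, v2⟩ := h.hfam_dz hg hd hdζ hη hηζ hr hrR ht h5
      have d1 : DZ (fun t x => max (sfam f e q d R t x) (lamC e q η r x)) t x v :=
        dz_max c1 c2 v1 (dz_static v2)
      exact ⟨v, dz_max (H := fun t x => max (sfam f e q d R t x) (lamC e q η r x))
        (K := fun _ => δ) (c1.max c2) c3 d1 (dz_of_ne (H := fun _ => δ) h2.ne) hx⟩
  have e1 : (fun x => max (max (sfam f e q d R 1 x) (lamC e q η r x)) (δ x)) =
      partF (fcutC f e q η r) A C := by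
    funext x
    unfold partF fcutC sfam
    rw [sub_self, zero_mul, add_zero, hδ]
  have e0 : ∀ x, max (max (sfam f e q d R 0 x) (lamC e q η r x)) (δ x) =
      max (max (scut f e q d R x) (lamC e q η r x)) (δ x) := by
    intro x
    unfold scut sfam
    rw [sub_zero, one_mul]
  rw [e1] at hH
  have hP : ∀ x, partF (scut f e q d R) A C x = max (scut f e q d R x) (δ x) := by
    intro x
    rw [hδ]
    rfl
  refine hH.symm.trans ?_
  refine Hom.of_eq_near' hH.good_left ((hsc.max ((Metric.continuous_infDist_pt A).sub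
    (Metric.continuous_infDist_pt C)))) ?_ ?_
  · intro x hx
    rw [e0, hP] at hx
    have h1 : scut f e q d R x ≤ 0 := by
      rcases hx with hx | hx
      · exact (le_max_left _ _).trans ((le_max_left _ _).trans hx.le)
      · exact (le_max_left _ _).trans hx.le
    have h2 := h.scut_lam hd hηd hηζ hrR h1
    have h3 : lamC e q η r x < max (scut f e q d R x) (δ x) := by
      rcases hx with hx | hx
      · by_contra h4
        have h5 : max (scut f e q d R x) (δ x) ≤ lamC e q η r x := not_lt.1 h4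
        have h6 := max_le_iff.1 h5
        have h7 : max (max (scut f e q d R x) (lamC e q η r x)) (δ x) < 0 :=
          max_lt (max_lt (lt_of_le_of_lt h6.1 h2) h2) (lt_of_le_of_lt h6.2 h2)
        exact absurd hx h7.ne
      · rw [hx]
        exact h2
    filter_upwards [hlc.continuousAt.eventually_lt (hsc.max hδc).continuousAt h3] with y hy
    rw [e0, hP]
    rcases le_total (scut f e q d R y) (δ y) with h4 | h4
    · rw [max_eq_right h4] at hy ⊢
      exact max_eq_right (max_le h4 hy.le)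
    · rw [max_eq_left h4] at hy ⊢
      rw [max_eq_left hy.le, max_eq_left h4]
  · intro x hx hy
    rw [e0] at hx ⊢
    rw [hP] at hy ⊢
    rcases lt_or_gt_of_ne hy with h1 | h1
    · refine mul_pos_of_neg_of_neg ?_ h1
      have h2 := max_lt_iff.1 h1
      exact max_lt (max_lt h2.1 (h.scut_lam hd hηd hηζ hrR h2.1.le)) h2.2
    · refine mul_pos ?_ h1
      refine lt_of_lt_of_le h1 (max_le ?_ (le_max_right _ _))
      exact (le_max_left _ _).trans (le_max_left _ _)

end Pool.Schoen
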