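import Pool.Agent.H.MP_6c077c_gt.Al.SFlat
import Pool.Agent.H.MP_6c077c_gt.Al.HomTop
import Pool.Agent.H.MP_6c077c_gt.Al.Sep3

/-! Alexander theorem: topology of the flat parts of the cut. -/

set_option autoImplicit false

namespace Pool.Schoen

open Filter Set
open scoped Topology RealInnerProductSpace ContDiff

variable {V : Type*} [NormedAddCommGroup V] [InnerProductSpace ℝ V]
variable {f : V → ℝ} {e q : V} {ζ R η r : ℝ}

/-- The closed complement of a flat part. -/
theorem CylN.flat_compl (h : CylN f e q ζ R) (hη : 0 < η) (hηζ : η < ζ) (hr : 1 < r)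
    (hrR : r < R) {A C : Set V} (hC : IsClosed C) (hC0 : C.Nonempty)
    (hAC : A ∪ C = {x | fcutC f e q η r x ≤ 0}) :
    {x | 0 ≤ partF (fcutC f e q η r) A C x} = ({x | 0 ≤ f x} ∪ cylS e q (-η) η) ∪ C := by
  have hlam : ∀ x ∈ cylS e q (-η) η, 0 ≤ lamC e q η r x := by
    rintro x ⟨h1, h2, h3⟩
    unfold lamC
    have h4 : |⟪e, x - q⟫| ≤ η := abs_le.2 ⟨h1, h2⟩
    exact le_min (by linarith) (by linarith)
  ext x
  constructor
  · intro hx
    by_cases hf0 : 0 ≤ f x
    · exact Or.inl (Or.inl hf0)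
    by_cases hxC : x ∈ C
    · exact Or.inr hxC
    have hf1 : f x < 0 := not_le.1 hf0
    have hl : 0 ≤ lamC e q η r x := by
      by_contra hl
      have hl1 : lamC e q η r x < 0 := not_le.1 hl
      have h1 : fcutC f e q η r x < 0 := max_lt hf1 hl1
      have h2 : x ∈ A ∪ C := by
        rw [hAC]
        exact h1.le
      have h3 : x ∈ A := h2.resolve_right hxC
      have h4 : Metric.infDist x A = 0 := Metric.infDist_zero_of_mem h3
      have h5 : 0 < Metric.infDist x C := (hC.notMem_iff_infDist_pos hC0).1 hxC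
      have h6 : partF (fcutC f e q η r) A C x < 0 := by
        unfold partF
        exact max_lt h1 (by linarith)
      have h7 : 0 ≤ partF (fcutC f e q η r) A C x := hx
      linarith
    obtain ⟨h1, h2, _⟩ := h.near hηζ hrR hf1.le hl
    have h3 := abs_le.1 h1
    exact Or.inl (Or.inr ⟨h3.1, h3.2, h2⟩)
  · rintro ((h1 | h1) | h1)
    · have h1' : 0 ≤ f x := h1
      exact h1'.trans ((le_max_left (f x) (lamC e q η r x)).trans (le_max_left _ _))
    · exact (hlam x h1).trans ((le_max_right (f x) (lamC e q η r x)).trans (le_max_left _ _))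
    · have h4 : Metric.infDist x C = 0 := Metric.infDist_zero_of_mem h1
      have h5 : 0 ≤ Metric.infDist x A := Metric.infDist_nonneg
      change 0 ≤ max (fcutC f e q η r x) (Metric.infDist x A - Metric.infDist x C)
      exact le_max_of_le_right (by linarith)

theorem cylS_isConnected (he : ‖e‖ = 1) (q : V) {a b : ℝ} (hab : a ≤ b) :
    IsConnected (cylS e q a b) :=
  ⟨⟨_, cylS_mem he q le_rfl hab⟩, (cylS_convex e q a b).isPreconnected⟩

variable [FiniteDimensional ℝ V]

private theorem stop_rank {e : V} (he : ‖e‖ = 1) (hn : Module.finrank ℝ V = 3) :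
    Module.finrank ℝ (ℝ ∙ e)ᗮ = 2 := by
  have he0 : e ≠ 0 := by
    rintro rfl
    simp at he
  have h1 := Submodule.finrank_add_finrank_orthogonal (ℝ ∙ e)
  rw [finrank_span_singleton he0, hn] at h1
  omega

/-- The lateral boundary of the cylinder. -/
theorem CylN.rim (h : CylN f e q ζ R) (hn : Module.finrank ℝ V = 3) (hη : 0 < η) (hηζ : η < ζ) :
    IsConnected ({x | 0 ≤ f x} ∩ cylS e q (-η) η) := by
  have he := h.he
  have hr2 := stop_rank he hn
  have hnt : Nontrivial (ℝ ∙ e)ᗮ := Module.nontrivial_of_finrank_pos (R := ℝ) (by omega)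
  have hrk : 1 < Module.rank ℝ (ℝ ∙ e)ᗮ := by
    rw [← Module.finrank_eq_rank, hr2]
    exact_mod_cast (by norm_num : (1 : ℕ) < 2)
  have h1 : IsPreconnected (Icc (-η) η ×ˢ Metric.sphere (0 : (ℝ ∙ e)ᗮ) 1) :=
    isPreconnected_Icc.prod (isPreconnected_sphere hrk 0 1)
  obtain ⟨w0, hw0⟩ := exists_norm_eq (ℝ ∙ e)ᗮ (zero_le_one (α := ℝ))
  have h2 : IsConnected (Icc (-η) η ×ˢ Metric.sphere (0 : (ℝ ∙ e)ᗮ) 1) :=
    ⟨⟨(0, w0), ⟨by linarith, hη.le⟩, mem_sphere_zero_iff_norm.2 hw0⟩, h1⟩
  have h3 : {x | 0 ≤ f x} ∩ cylS e q (-η) η =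
      (fun p : ℝ × (ℝ ∙ e)ᗮ => q + (p.1 • e + (p.2 : V))) ''
        (Icc (-η) η ×ˢ Metric.sphere (0 : (ℝ ∙ e)ᗮ) 1) := by
    ext x
    constructor
    · rintro ⟨hx, h4, h5, h6⟩
      have hx' : 0 ≤ f x := hx
      have h7 : |⟪e, x - q⟫| < ζ := by
        rw [abs_lt]
        constructor <;> linarith
      rw [h.hf x h7 (by linarith [h.hR])] at hx'
      have h8 : ‖orth e (x - q)‖ = 1 := by
        have := norm_nonneg (orth e (x - q))
        nlinarith
      refine ⟨(⟪e, x - q⟫, ⟨orth e (x - q),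
        Submodule.mem_orthogonal_singleton_iff_inner_right.2 (inner_orth he _)⟩), ⟨⟨h4, h5⟩, ?_⟩, ?_⟩
      · rw [mem_sphere_zero_iff_norm]
        exact h8
      · change q + (⟪e, x - q⟫ • e + orth e (x - q)) = x
        unfold orth
        abel
    · rintro ⟨⟨s, w⟩, ⟨⟨h4, h5⟩, h6⟩, rfl⟩
      have h6' : ‖(w : V)‖ = 1 := mem_sphere_zero_iff_norm.1 h6
      have hw : ⟪e, (w : V)⟫ = 0 := Submodule.mem_orthogonal_singleton_iff_inner_right.1 w.2
      have e1 : ⟪e, q + (s • e + (w : V)) - q⟫ = s := by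
        rw [add_sub_cancel_left, inner_add_right, hw, real_inner_smul_right,
          real_inner_self_eq_norm_sq, he]
        ring
      have e2 : orth e (q + (s • e + (w : V)) - q) = w := by
        unfold orth
        rw [e1]
        abel
      change 0 ≤ f (q + (s • e + (w : V))) ∧ _ ≤ _ ∧ _ ≤ _ ∧ _ ≤ _
      change -η ≤ s at h4
      change s ≤ η at h5
      rw [h.hf _ (by rw [e1, abs_lt]; constructor <;> linarith)
        (by rw [e2, h6']; exact h.hR), e1, e2, h6']
      refine ⟨by norm_num, h4, h5, le_rfl⟩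
  rw [h3]
  refine h2.image _ (Continuous.continuousOn ?_)
  fun_prop

/-- Topology of the flat parts. -/
theorem CylN.flat_top (h : CylN f e q ζ R) (hn : Module.finrank ℝ V = 3) (hg : Good f)
    (hη : 0 < η) (hηζ : η < ζ) (hr : 1 < r) (hrR : r < R) (hc : IsConnected {x | f x ≤ 0})
    (hc' : IsConnected {x | 0 ≤ f x}) (hl : LiftS {x | f x ≤ 0} ∨ LiftS {x | 0 ≤ f x}) :
    ∃ A C : Set V, IsClosed A ∧ IsClosed C ∧ Disjoint A C ∧
      A ∪ C = {x | fcutC f e q η r x ≤ 0} ∧ cylS e q (-η) (-η) ⊆ A ∧ cylS e q η η ⊆ C ∧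
      IsConnected A ∧ IsConnected C ∧
      IsConnected {x | 0 ≤ partF (fcutC f e q η r) A C x} ∧
      IsConnected {x | 0 ≤ partF (fcutC f e q η r) C A x} ∧
      (LiftS {x | f x ≤ 0} → LiftS A ∧ LiftS C) ∧
      (LiftS {x | 0 ≤ f x} → LiftS {x | 0 ≤ partF (fcutC f e q η r) A C x} ∧
        LiftS {x | 0 ≤ partF (fcutC f e q η r) C A x}) := by
  have he := h.he
  have hcg : Good (fcutC f e q η r) := h.fcut_good hg hη hηζ hr hrR
  have hDc : IsClosed {x | fcutC f e q η r x ≤ 0} := isClosed_le hcg.cont continuous_const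
  have hS : IsClosed (cylS e q (-η) η) := cylS_closed e q _ _
  have hW := h.fcut_inter hη hηζ hr hrR
  have hU := h.fcut_union hη hηζ hr hrR
  have hwm : IsConnected (cylS e q (-η) (-η)) := cylS_isConnected he q le_rfl
  have hwp : IsConnected (cylS e q η η) := cylS_isConnected he q le_rfl
  have hSc : IsConnected (cylS e q (-η) η) := cylS_isConnected he q (by linarith)
  have hnc : ¬ IsPreconnected {x | fcutC f e q η r x ≤ 0} := by
    rcases hl with hl | hl
    · intro hcon
      refine not_liftS_of_ring hDc hS hW (y := fun x => ⟪e, x - q⟫) (by fun_prop) hη ?_ ?_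
        hwm.nonempty hwp.nonempty hSc.isPreconnected hcon (by rw [hU]; exact hl)
      · rintro x ⟨h1, h2, _⟩
        exact le_antisymm h2 h1
      · rintro x ⟨h1, h2, _⟩
        exact le_antisymm h2 h1
    · exact h.not_preconnected hn hg hη hηζ hr hrR hl
  obtain ⟨A, C, hA, hC, hd, hAC, hmA, hpC, hAc, hCc⟩ :=
    cut_parts' hDc hS hW hwm hwp (by rw [hU]; exact hc) hnc
  have hA0 := hAc.nonempty
  have hC0 := hCc.nonempty
  have hCA : C ∪ A = {x | fcutC f e q η r x ≤ 0} := (Set.union_comm _ _).trans hAC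
  have hNA := h.flat_compl hη hηζ hr hrR hC hC0 hAC
  have hNC := h.flat_compl hη hηζ hr hrR hA hA0 hCA
  have hrim := h.rim hn hη hηζ
  have hX : IsConnected ({x | 0 ≤ f x} ∪ cylS e q (-η) η) := by
    obtain ⟨z, hz1, hz2⟩ := hrim.nonempty
    exact ⟨⟨z, Or.inl hz1⟩, hc'.isPreconnected.union z hz1 hz2 hSc.isPreconnected⟩
  have hqm : q + (-η) • e ∈ A := hmA (cylS_mem he q le_rfl le_rfl)
  have hqp : q + η • e ∈ C := hpC (cylS_mem he q le_rfl le_rfl)
  have hqm' : q + (-η) • e ∈ {x | 0 ≤ f x} ∪ cylS e q (-η) η :=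
    Or.inr (cylS_mem he q le_rfl (by linarith))
  have hqp' : q + η • e ∈ {x | 0 ≤ f x} ∪ cylS e q (-η) η :=
    Or.inr (cylS_mem he q (by linarith) le_rfl)
  refine ⟨A, C, hA, hC, hd, hAC, hmA, hpC, hAc, hCc, ?_, ?_, ?_, ?_⟩
  · rw [hNA]
    exact ⟨⟨_, Or.inl hqp'⟩, hX.isPreconnected.union _ hqp' hqp hCc.isPreconnected⟩
  · rw [hNC]
    exact ⟨⟨_, Or.inl hqm'⟩, hX.isPreconnected.union _ hqm' hqm hAc.isPreconnected⟩
  · intro hlf
    constructor
    · exact cut_lift hS hW (liftS_convex_compact (cylS_compact he q _ _) (cylS_convex e q _ _))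
        (by rw [hU]; exact hlf) hA hC hd hAC hmA hpC
    · exact cut_lift hS (hW.trans (Set.union_comm _ _))
        (liftS_convex_compact (cylS_compact he q _ _) (cylS_convex e q _ _))
        (by rw [hU]; exact hlf) hC hA hd.symm hCA hpC hmA
  · intro hlf
    have hfc : IsClosed {x | 0 ≤ f x} := isClosed_le continuous_const hg.cont
    have hXl : LiftS ({x | 0 ≤ f x} ∪ cylS e q (-η) η) :=
      LiftS.union hfc hS hlf
        (liftS_convex_compact (cylS_compact he q _ _) (cylS_convex e q _ _)) hrim.isPreconnected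
    have hNAc : IsClosed {x | 0 ≤ partF (fcutC f e q η r) A C x} :=
      isClosed_le continuous_const (partF_cont hcg.cont A C)
    have hNCc : IsClosed {x | 0 ≤ partF (fcutC f e q η r) C A x} :=
      isClosed_le continuous_const (partF_cont hcg.cont C A)
    have hun : {x | 0 ≤ partF (fcutC f e q η r) A C x} ∪
        {x | 0 ≤ partF (fcutC f e q η r) C A x} = univ := by
      rw [hNA, hNC]
      refine eq_univ_of_forall fun x => ?_
      rcases le_total 0 (f x) with h1 | h1
      · exact Or.inl (Or.inl (Or.inl h1))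
      · have h2 : x ∈ {x | fcutC f e q η r x ≤ 0} ∪ cylS e q (-η) η := by
          rw [hU]
          exact h1
        rcases h2 with h2 | h2
        · rw [← hAC] at h2
          rcases h2 with h2 | h2
          · exact Or.inr (Or.inr h2)
          · exact Or.inl (Or.inr h2)
        · exact Or.inl (Or.inl (Or.inr h2))
    have hin : {x | 0 ≤ partF (fcutC f e q η r) A C x} ∩
        {x | 0 ≤ partF (fcutC f e q η r) C A x} = {x | 0 ≤ f x} ∪ cylS e q (-η) η := by
      rw [hNA, hNC, ← union_inter_distrib_left, inter_comm C A, hd.inter_eq, union_empty]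
    constructor
    · exact LiftS.of_union hNAc hNCc (by rw [hun]; exact liftS_univ V) (by rw [hin]; exact hXl)
    · exact LiftS.of_union hNCc hNAc (by rw [union_comm, hun]; exact liftS_univ V)
        (by rw [inter_comm, hin]; exact hXl)

end Pool.Schoen
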