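import Pool.Agent.H.MP_6c077c_gt.Al.Diffeo
import Pool.Agent.H.MP_6c077c_gt.Gd.RegDir
import Pool.Agent.H.MP_6c077c_gt.IxB.Isol
import Pool.Agent.H.MP_6c077c_gt.IxB.SpecB
import Pool.Agent.H.MP_6c077c_gt.Small

/-! Alexander's theorem: a generic direction and distinct critical heights. -/

set_option autoImplicit false

namespace Pool.Schoen

open Filter Set
open scoped Topology RealInnerProductSpace ContDiff

variable {V : Type*} [NormedAddCommGroup V] [InnerProductSpace ℝ V] [FiniteDimensional ℝ V]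

/-- `x` is a zero of `F` with horizontal tangent plane: a critical point of the height `⟪e, ·⟫` on
the hypersurface `F = 0`. -/
def Crit (F : V → ℝ) (e x : V) : Prop := F x = 0 ∧ ∀ w : V, ⟪w, e⟫ = 0 → fderiv ℝ F x w = 0

/-- The horizontal part of the gradient. -/
noncomputable def horG (F : V → ℝ) (e x : V) : V := gradient F x - ⟪gradient F x, e⟫ • e

theorem fderiv_eq_inner_gradient (F : V → ℝ) (x w : V) : fderiv ℝ F x w = ⟪gradient F x, w⟫ := by
  rw [gradient, InnerProductSpace.toDual_symm_apply]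

theorem horG_orth {F : V → ℝ} {e : V} (he : ‖e‖ = 1) (x : V) : ⟪horG F e x, e⟫ = 0 := by
  rw [horG, inner_sub_left, real_inner_smul_left, real_inner_self_eq_norm_sq, he]
  ring

theorem horG_fderiv {F : V → ℝ} {e : V} (he : ‖e‖ = 1) (x : V) :
    fderiv ℝ F x (horG F e x) = ‖horG F e x‖ ^ 2 := by
  have h1 := horG_orth (F := F) he x
  rw [fderiv_eq_inner_gradient, ← real_inner_self_eq_norm_sq]
  have h2 : gradient F x = horG F e x + ⟪gradient F x, e⟫ • e := by rw [horG]; abel
  conv_lhs => rw [h2]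
  rw [inner_add_left, real_inner_smul_left, real_inner_comm (horG F e x) e, h1]
  ring

theorem crit_iff_horG {F : V → ℝ} {e : V} (he : ‖e‖ = 1) (x : V) :
    Crit F e x ↔ F x = 0 ∧ horG F e x = 0 := by
  constructor
  · rintro ⟨h0, h⟩
    refine ⟨h0, ?_⟩
    have h1 := h _ (horG_orth (F := F) he x)
    rw [horG_fderiv he] at h1
    simpa using h1
  · rintro ⟨h0, h⟩
    refine ⟨h0, fun w hw => ?_⟩
    have h2 : gradient F x = horG F e x + ⟪gradient F x, e⟫ • e := by rw [horG]; abel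
    rw [fderiv_eq_inner_gradient, h2, h, zero_add, real_inner_smul_left, real_inner_comm w e, hw,
      mul_zero]

/-- For a regular function the horizontal zeros are those with normal `e` or `-e`. -/
theorem crit_iff {F : V → ℝ} {e : V} (he : ‖e‖ = 1) (hreg : ∀ x, F x = 0 → gradient F x ≠ 0)
    (x : V) : Crit F e x ↔ Inward F e x ∨ Inward F (-e) x := by
  constructor
  · intro h
    obtain ⟨h0, h1⟩ := (crit_iff_horG he x).1 h
    have h2 : gradient F x = ⟪gradient F x, e⟫ • e := by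
      have : gradient F x = horG F e x + ⟪gradient F x, e⟫ • e := by rw [horG]; abel
      rwa [h1, zero_add] at this
    have h3 : ⟪gradient F x, e⟫ ≠ 0 := by
      intro h4
      rw [h4, zero_smul] at h2
      exact hreg x h0 h2
    rcases lt_or_gt_of_ne h3 with h4 | h4
    · exact Or.inl ⟨h0, -⟪gradient F x, e⟫, by linarith, by rw [neg_smul, neg_neg]; exact h2⟩
    · exact Or.inr ⟨h0, ⟪gradient F x, e⟫, h4, by rw [smul_neg, neg_neg]; exact h2⟩
  · rintro (⟨h0, l, -, h1⟩ | ⟨h0, l, -, h1⟩)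
    · refine ⟨h0, fun w hw => ?_⟩
      rw [fderiv_eq_inner_gradient, h1, inner_neg_left, real_inner_smul_left,
        real_inner_comm w e, hw]
      ring
    · refine ⟨h0, fun w hw => ?_⟩
      rw [fderiv_eq_inner_gradient, h1, inner_neg_left, real_inner_smul_left, inner_neg_left,
        real_inner_comm w e, hw]
      ring

omit [FiniteDimensional ℝ V] in
theorem idx_neg_dir {F : V → ℝ} {e x : V} {k : ℕ} : Idx F (-e) x k ↔ Idx F e x k := by
  have key : ∀ {e' : V}, Idx F e' x k → Idx F (-e') x k := by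
    rintro e' ⟨N, P, h, hk⟩
    refine ⟨N, P, ⟨fun a ha => ?_, fun a ha => ?_, h.orth, fun w hw => ?_, h.diag, h.neg, h.pos⟩, hk⟩
    · rw [inner_neg_right, h.hN a ha, neg_zero]
    · rw [inner_neg_right, h.hP a ha, neg_zero]
    · rw [inner_neg_right, neg_eq_zero] at hw
      exact h.span w hw
  constructor
  · intro h
    have := key h
    rwa [neg_neg] at this
  · exact key

/-- A generic direction: all horizontal zeros are nondegenerate and there are finitely many. -/
theorem start_dir (n : ℕ) (hn : Module.finrank ℝ V = n + 1) (F : V → ℝ) (hF : ContDiff ℝ ∞ F)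
    (hb : Bornology.IsBounded {x | F x ≤ 0}) (hreg : ∀ x, F x = 0 → gradient F x ≠ 0) :
    ∃ e : V, ‖e‖ = 1 ∧ {x | Crit F e x}.Finite ∧ ∀ x, Crit F e x → ∃ k, Idx F e x k := by
  have : ProperSpace V := FiniteDimensional.proper ℝ V
  have hnt : Nontrivial V := Module.nontrivial_of_finrank_pos (R := ℝ) (by omega)
  obtain ⟨u, hu⟩ := exists_norm_eq V (zero_le_one)
  have hK : IsCompact {x | F x = 0} :=
    Metric.isCompact_of_isClosed_isBounded (isClosed_eq hF.continuous continuous_const)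
      (hb.subset fun x (hx : F x = 0) => hx.le)
  obtain ⟨e, he, -, h⟩ := exists_regular_both n hn F hF hreg hK u hu 1 one_pos
  have hnrm : ∀ (v x : V) (l : ℝ), ‖v‖ = 1 → 0 < l → gradient F x = -(l • v) →
      nrm F x = -v := by
    intro v x l hv hl h1
    unfold nrm
    rw [h1, norm_neg, norm_smul, hv, mul_one, Real.norm_eq_abs, abs_of_pos hl, smul_neg, smul_smul,
      inv_mul_cancel₀ hl.ne', one_smul]
  have he' : ‖-e‖ = 1 := by rw [norm_neg, he]
  have h1 : ∀ x, Inward F e x → ∃ k, Idx F e x k := by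
    intro x hx
    refine ⟨_, idx_of_gaussK n hn F hF e he x hx (h x hx.1 (Or.inr ?_))⟩
    obtain ⟨-, l, hl, hg⟩ := hx
    exact hnrm e x l he hl hg
  have h2 : ∀ x, Inward F (-e) x → ∃ k, Idx F (-e) x k := by
    intro x hx
    refine ⟨_, idx_of_gaussK n hn F hF (-e) he' x hx (h x hx.1 (Or.inl ?_))⟩
    obtain ⟨-, l, hl, hg⟩ := hx
    rw [hnrm (-e) x l he' hl hg, neg_neg]
  refine ⟨e, he, ?_, fun x hx => ?_⟩
  · refine ((ix_finite F hF hb hreg e he h1).union (ix_finite F hF hb hreg (-e) he' h2)).subset ?_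
    intro x hx
    exact (crit_iff he hreg x).1 hx
  · rcases (crit_iff he hreg x).1 hx with h3 | h3
    · exact h1 x h3
    · obtain ⟨k, hk⟩ := h2 x h3
      exact ⟨k, idx_neg_dir.1 hk⟩

/-- A smooth function with compact support which is constant near each point of a finite set and
injective on it. -/
theorem start_bump (T : Set V) (hT : T.Finite) :
    ∃ g : V → ℝ, ContDiff ℝ ∞ g ∧ HasCompactSupport g ∧ InjOn g T ∧
      ∃ r : ℝ, 0 < r ∧ ∀ p ∈ T, ∀ x, dist x p < r → g x = g p := by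
  refine Set.Finite.induction_on T hT ?_ ?_
  · refine ⟨fun _ => 0, contDiff_const, HasCompactSupport.zero, injOn_empty _, 1, one_pos, ?_⟩
    intro p hp
    exact absurd hp (notMem_empty p)
  · intro q T hq hT ⟨g, hg, hgs, hgi, r, hr, hgr⟩
    obtain ⟨d, hd, hdT⟩ : ∃ d : ℝ, 0 < d ∧ ∀ p ∈ T, d ≤ dist p q := by
      have h1 : ∀ᶠ d : ℝ in 𝓝[>] 0, ∀ p ∈ T, d ≤ dist p q := by
        rw [eventually_all_finite hT]
        intro p hp
        have h2 : 0 < dist p q := dist_pos.2 fun h => hq (h ▸ hp)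
        filter_upwards [Ioo_mem_nhdsGT h2] with d hd
        exact hd.2.le
      obtain ⟨d, h2, h3⟩ := (h1.and self_mem_nhdsWithin).exists
      exact ⟨d, h3, h2⟩
    let χ : ContDiffBump q := ⟨d / 4, d / 2, by positivity, by linarith⟩
    obtain ⟨c, hc⟩ : ∃ c : ℝ, c ∉ g '' T := (hT.image g).infinite_compl.nonempty
    have hχ1 : ∀ x, dist x q < d / 4 → χ x = 1 := fun x hx =>
      χ.one_of_mem_closedBall (Metric.mem_closedBall.2 hx.le)
    have hχ0 : ∀ x, d / 2 ≤ dist x q → χ x = 0 := fun x hx => χ.zero_of_le_dist hx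
    refine ⟨fun x => (1 - χ x) * g x + χ x * c, ?_, ?_, ?_, min (min r (d / 4)) (d / 4),
      by positivity, ?_⟩
    · exact ((contDiff_const.sub χ.contDiff).mul hg).add (χ.contDiff.mul contDiff_const)
    · exact (hgs.mul_left).add (χ.hasCompactSupport.mul_right)
    · have hq1 : (1 - χ q) * g q + χ q * c = c := by
        rw [hχ1 q (by rw [dist_self]; positivity)]
        ring
      have hp1 : ∀ p ∈ T, (1 - χ p) * g p + χ p * c = g p := by
        intro p hp
        rw [hχ0 p (by have := hdT p hp; linarith)]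
        ring
      rintro x (rfl | hx) y (rfl | hy) hxy
      · rfl
      · simp only at hxy
        rw [hq1, hp1 y hy] at hxy
        exact absurd ⟨y, hy, hxy.symm⟩ hc
      · simp only at hxy
        rw [hq1, hp1 x hx] at hxy
        exact absurd ⟨x, hx, hxy⟩ hc
      · simp only at hxy
        rw [hp1 x hx, hp1 y hy] at hxy
        exact hgi hx hy hxy
    · rintro p (rfl | hp) x hx
      · have h1 : dist x p < d / 4 := lt_of_lt_of_le hx (min_le_right _ _)
        simp only
        rw [hχ1 x h1, hχ1 p (by rw [dist_self]; positivity)]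
        ring
      · have h1 : dist x p < d / 4 := lt_of_lt_of_le hx (min_le_right _ _)
        have h2 : dist x p < r := lt_of_lt_of_le hx ((min_le_left _ _).trans (min_le_left _ _))
        have h3 := hdT p hp
        have h4 : dist p q ≤ dist x p + dist x q := by
          rw [dist_comm x p]
          exact dist_triangle p x q
        simp only
        rw [hχ0 x (by linarith), hχ0 p (by linarith), hgr p hp x h2]

omit [FiniteDimensional ℝ V] in
/-- The derivative of `F (x + (s * g x) • e)`. -/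
theorem start_fderiv {F : V → ℝ} (hF : ContDiff ℝ ∞ F) {g : V → ℝ} (hg : ContDiff ℝ ∞ g) (e : V)
    (s : ℝ) (x w : V) :
    fderiv ℝ (fun y => F (y + (s * g y) • e)) x w =
      fderiv ℝ F (x + (s * g x) • e) w +
        s * fderiv ℝ g x w * fderiv ℝ F (x + (s * g x) • e) e := by
  have h1 : HasFDerivAt (fun y => y + (s * g y) • e)
      (ContinuousLinearMap.id ℝ V + (s • fderiv ℝ g x).smulRight e) x := by
    have h2 : HasFDerivAt g (fderiv ℝ g x) x :=
      ((hg.differentiable (by simp)) x).hasFDerivAt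
    have h3 := (h2.const_mul s).smul_const e
    exact (hasFDerivAt_id x).add h3
  have h4 : HasFDerivAt F (fderiv ℝ F (x + (s * g x) • e)) (x + (s * g x) • e) :=
    ((hF.differentiable (by simp)) _).hasFDerivAt
  have h5 := h4.comp x h1
  have h6 := h5.fderiv
  have h7 : fderiv ℝ (fun y => F (y + (s * g y) • e)) x w =
      fderiv ℝ F (x + (s * g x) • e) (w + (s * fderiv ℝ g x w) • e) := by
    have h8 : (fun y => F (y + (s * g y) • e)) = F ∘ fun y => y + (s * g y) • e := rfl
    rw [h8, h6]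
    rfl
  rw [h7, map_add, map_smul, smul_eq_mul]

/-- Moving the horizontal zeros vertically by small amounts. -/
theorem start_shift (F : V → ℝ) (hF : ContDiff ℝ ∞ F) (hb : Bornology.IsBounded {x | F x = 0})
    (e : V) (he : ‖e‖ = 1) (T : Set V) (hT : ∀ x, Crit F e x ↔ x ∈ T)
    (g : V → ℝ) (hg : ContDiff ℝ ∞ g) (hgs : HasCompactSupport g) (r : ℝ) (hr : 0 < r)
    (hgT : ∀ p ∈ T, ∀ x, dist x p < r → g x = g p) :
    ∃ δ : ℝ, 0 < δ ∧ ∀ s : ℝ, 0 < s → s < δ →
      (∃ Ψ : V → V, Dif (fun x => x + (s * g x) • e) Ψ) ∧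
      (∀ x, Crit (fun y => F (y + (s * g y) • e)) e x ↔ ∃ p ∈ T, x = p - (s * g p) • e) ∧
      ∀ p ∈ T, (fun y => F (y + (s * g y) • e)) =ᶠ[𝓝 (p - (s * g p) • e)]
        fun y => F (y + (s * g p) • e) := by
  have : ProperSpace V := FiniteDimensional.proper ℝ V
  obtain ⟨A, hA0, hA⟩ : ∃ A : ℝ, 0 ≤ A ∧ ∀ x, |g x| ≤ A := by
    obtain ⟨A, hA⟩ := hgs.exists_bound_of_continuous hg.continuous
    exact ⟨A, (norm_nonneg _).trans (hA 0), hA⟩
  obtain ⟨D, hD0, hD⟩ : ∃ D : ℝ, 0 ≤ D ∧ ∀ x, ‖fderiv ℝ g x‖ ≤ D := by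
    obtain ⟨D, hD⟩ := (hgs.fderiv (𝕜 := ℝ)).exists_bound_of_continuous
      (hg.continuous_fderiv (by simp))
    exact ⟨D, (norm_nonneg _).trans (hD 0), hD⟩
  have hZc : IsCompact {x | F x = 0} :=
    Metric.isCompact_of_isClosed_isBounded (isClosed_eq hF.continuous continuous_const) hb
  have hfc : Continuous (fderiv ℝ F) := hF.continuous_fderiv (by simp)
  have hgrc : Continuous (gradient F) := (InnerProductSpace.toDual ℝ V).symm.continuous.comp hfc
  have hhc : Continuous (horG F e) :=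
    hgrc.sub ((hgrc.inner continuous_const).smul continuous_const)
  obtain ⟨B, hB0, hB⟩ : ∃ B : ℝ, 0 ≤ B ∧ ∀ x, F x = 0 → ‖fderiv ℝ F x‖ ≤ B := by
    obtain ⟨B, hB⟩ := hZc.exists_bound_of_continuousOn hfc.continuousOn
    exact ⟨max B 0, le_max_right _ _, fun x hx => (hB x hx).trans (le_max_left _ _)⟩
  obtain ⟨m, hm0, hm⟩ : ∃ m : ℝ, 0 < m ∧ ∀ x, F x = 0 → (∀ p ∈ T, r / 2 ≤ dist x p) →
      m ≤ ‖horG F e x‖ := by
    have hK : IsCompact ({x | F x = 0} ∩ ⋂ p ∈ T, {x | r / 2 ≤ dist x p}) := by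
      refine hZc.inter_right (isClosed_biInter fun p _ => ?_)
      exact isClosed_le continuous_const (continuous_id.dist continuous_const)
    obtain ⟨m, hm0, hm⟩ := hK.exists_forall_le' (f := fun x => ‖horG F e x‖) hhc.norm.continuousOn
      (a := 0) (by
        rintro x ⟨hx0, hx⟩
        refine norm_pos_iff.2 fun h => ?_
        have h1 : x ∈ T := (hT x).1 ((crit_iff_horG he x).2 ⟨hx0, h⟩)
        have h2 := mem_iInter₂.1 hx x h1
        rw [mem_ofPred_eq, dist_self] at h2
        linarith)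
    exact ⟨m, hm0, fun x hx h => hm x ⟨hx, mem_iInter₂.2 h⟩⟩
  refine ⟨min (1 / (2 * (D + 1))) (min (r / (2 * (A + 1))) (m / (D * B + 1))), by positivity,
    fun s hs0 hs => ?_⟩
  have hs1 : s * D ≤ 1 / 2 := by
    have h1 : s < 1 / (2 * (D + 1)) := lt_of_lt_of_le hs (min_le_left _ _)
    rw [lt_div_iff₀ (by positivity)] at h1
    nlinarith
  have hs2 : s * A < r / 2 := by
    have h1 : s < r / (2 * (A + 1)) :=
      lt_of_lt_of_le hs ((min_le_right _ _).trans (min_le_left _ _))
    rw [lt_div_iff₀ (by positivity)] at h1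
    nlinarith
  have hs3 : s * (D * B) < m := by
    have h1 : s < m / (D * B + 1) :=
      lt_of_lt_of_le hs ((min_le_right _ _).trans (min_le_right _ _))
    rw [lt_div_iff₀ (by positivity)] at h1
    nlinarith
  have hsg : ∀ x, ‖(s * g x) • e‖ < r / 2 := by
    intro x
    rw [norm_smul, he, mul_one, Real.norm_eq_abs, abs_mul, abs_of_pos hs0]
    exact lt_of_le_of_lt (mul_le_mul_of_nonneg_left (hA x) hs0.le) hs2
  have hdist : ∀ x, dist x (x + (s * g x) • e) < r / 2 := by
    intro x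
    rw [dist_self_add_right]
    exact hsg x
  -- near the points of `T`
  have hgerm : ∀ p ∈ T, ∀ x, dist x p < r → (fun y => F (y + (s * g y) • e)) =ᶠ[𝓝 x]
      fun y => F (y + (s * g p) • e) := by
    intro p hp x hx
    have h1 : Metric.ball p r ∈ 𝓝 x := Metric.isOpen_ball.mem_nhds hx
    filter_upwards [h1] with y hy
    rw [hgT p hp y hy]
  have htr : ∀ p ∈ T, ∀ x, dist x p < r → ∀ w, fderiv ℝ (fun y => F (y + (s * g y) • e)) x w =
      fderiv ℝ F (x + (s * g x) • e) w := by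
    intro p hp x hx w
    rw [(hgerm p hp x hx).fderiv_eq, fderiv_comp_add_right, hgT p hp x hx]
  refine ⟨?_, fun x => ⟨?_, ?_⟩, fun p hp => ?_⟩
  · have hsm : ContDiff ℝ ∞ fun x => (s * g x) • e := (contDiff_const.mul hg).smul contDiff_const
    obtain ⟨Ψ, h1, h2, h3⟩ := small_diffeo (fun x => (s * g x) • e) hsm (fun x => by
      have h4 : HasFDerivAt g (fderiv ℝ g x) x :=
        ((hg.differentiable (by simp)) x).hasFDerivAt
      have h5 := ((h4.const_mul s).smul_const e).fderiv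
      rw [h5, ContinuousLinearMap.norm_smulRight_apply, he, mul_one, norm_smul,
        Real.norm_of_nonneg hs0.le]
      exact (mul_le_mul_of_nonneg_left (hD x) hs0.le).trans hs1)
    exact ⟨Ψ, contDiff_id.add hsm, h1, h2, h3⟩
  · rintro ⟨hx0, hx⟩
    by_cases hcase : ∀ p ∈ T, r / 2 ≤ dist (x + (s * g x) • e) p
    · exfalso
      have h1 := hm _ hx0 hcase
      have h2 := hx _ (horG_orth he (F := F) (x + (s * g x) • e))
      rw [start_fderiv hF hg, horG_fderiv he] at h2
      obtain ⟨w, hw⟩ : ∃ w, w = horG F e (x + (s * g x) • e) := ⟨_, rfl⟩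
      rw [← hw] at h1 h2
      have h3 : |fderiv ℝ g x w| ≤ D * ‖w‖ :=
        ((fderiv ℝ g x).le_opNorm w).trans (mul_le_mul_of_nonneg_right (hD x) (norm_nonneg w))
      have h4 : |fderiv ℝ F (x + (s * g x) • e) e| ≤ B := by
        have h5 := (fderiv ℝ F (x + (s * g x) • e)).le_opNorm e
        rw [he, mul_one] at h5
        exact h5.trans (hB _ hx0)
      have h6 : |s * fderiv ℝ g x w * fderiv ℝ F (x + (s * g x) • e) e| ≤ s * (D * ‖w‖) * B := by
        rw [abs_mul, abs_mul, abs_of_pos hs0]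
        exact mul_le_mul (mul_le_mul_of_nonneg_left h3 hs0.le) h4 (abs_nonneg _) (by positivity)
      have h7 := (abs_le.1 h6).1
      have h8 : 0 < ‖w‖ := lt_of_lt_of_le hm0 h1
      have h9 : s * (D * ‖w‖) * B < ‖w‖ * ‖w‖ := by
        have h10 : s * (D * B) * ‖w‖ < ‖w‖ * ‖w‖ :=
          mul_lt_mul_of_pos_right (lt_of_lt_of_le hs3 h1) h8
        nlinarith
      nlinarith
    · push Not at hcase
      obtain ⟨p, hp, h1⟩ := hcase
      have h2 : dist x p < r := by
        have h3 := dist_triangle x (x + (s * g x) • e) p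
        have h4 := hdist x
        linarith
      have h3 : g x = g p := hgT p hp x h2
      have h4 : x + (s * g x) • e ∈ T := by
        rw [← hT]
        refine ⟨hx0, fun w hw => ?_⟩
        rw [← htr p hp x h2 w]
        exact hx w hw
      refine ⟨x + (s * g x) • e, h4, ?_⟩
      have h5 : g (x + (s * g x) • e) = g p := hgT p hp _ (by linarith)
      rw [h5, h3, add_sub_cancel_right]
  · rintro ⟨p, hp, rfl⟩
    have h1 : dist (p - (s * g p) • e) p < r := by
      rw [dist_eq_norm, sub_sub_cancel_left, norm_neg]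
      have := hsg p
      linarith
    have h2 : p - (s * g p) • e + (s * g (p - (s * g p) • e)) • e = p := by
      rw [hgT p hp _ h1, sub_add_cancel]
    obtain ⟨h3, h4⟩ := (hT p).2 hp
    refine ⟨?_, fun w hw => ?_⟩
    · show F (p - (s * g p) • e + (s * g (p - (s * g p) • e)) • e) = 0
      rw [h2, h3]
    · rw [htr p hp _ h1 w, h2]
      exact h4 w hw
  · refine hgerm p hp _ ?_
    rw [dist_eq_norm, sub_sub_cancel_left, norm_neg]
    have := hsg p
    linarith

omit [FiniteDimensional ℝ V] in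
/-- Transport of the index along a translation germ. -/
theorem idx_translate {F G : V → ℝ} {e x c : V} {k : ℕ} (h : Idx F e (x + c) k)
    (hG : G =ᶠ[𝓝 x] fun y => F (y + c)) : Idx G e x k := by
  have h1 : fderiv ℝ (fderiv ℝ G) x = fderiv ℝ (fderiv ℝ F) (x + c) := by
    have h2 : fderiv ℝ G =ᶠ[𝓝 x] fderiv ℝ (fun y => F (y + c)) := hG.fderiv
    have h3 : fderiv ℝ (fun y => F (y + c)) = fun y => fderiv ℝ F (y + c) := by
      funext y
      exact fderiv_comp_add_right c
    rw [h2.fderiv_eq, h3]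
    exact fderiv_comp_add_right c
  obtain ⟨N, P, hs, hk⟩ := h
  refine ⟨N, P, ⟨hs.hN, hs.hP, hs.orth, hs.span, fun a ha b hb => ?_, fun a ha h0 => ?_,
    fun b hb h0 => ?_⟩, hk⟩
  · rw [h1]
    exact hs.diag a ha b hb
  · rw [h1]
    exact hs.neg a ha h0
  · rw [h1]
    exact hs.pos b hb h0

/-- START.  After a diffeomorphism of the space all horizontal zeros are nondegenerate, there are
finitely many, and they have different heights. -/
theorem al_start (n : ℕ) (hn : Module.finrank ℝ V = n + 1) (F : V → ℝ) (hF : ContDiff ℝ ∞ F)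
    (hb : Bornology.IsBounded {x | F x ≤ 0}) (hreg : ∀ x, F x = 0 → gradient F x ≠ 0) :
    ∃ (e : V) (Φ Ψ : V → V), ‖e‖ = 1 ∧ Dif Φ Ψ ∧
      {x | Crit (fun y => F (Φ y)) e x}.Finite ∧
      (∀ x, Crit (fun y => F (Φ y)) e x → ∃ k, Idx (fun y => F (Φ y)) e x k) ∧
      ∀ x y, Crit (fun y => F (Φ y)) e x → Crit (fun y => F (Φ y)) e y → ⟪e, x⟫ = ⟪e, y⟫ →
        x = y := by
  obtain ⟨e, he, hfin, hidx⟩ := start_dir n hn F hF hb hreg
  obtain ⟨g, hg, hgs, hgi, r, hr, hgr⟩ := start_bump _ hfin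
  have hb' : Bornology.IsBounded {x | F x = 0} := hb.subset fun x (hx : F x = 0) => hx.le
  obtain ⟨δ, hδ, hsh⟩ := start_shift F hF hb' e he {x | Crit F e x} (fun x => Iff.rfl) g hg hgs r
    hr hgr
  -- a good parameter
  obtain ⟨s, hs0, hsδ, hs⟩ : ∃ s : ℝ, 0 < s ∧ s < δ ∧ ∀ x, Crit F e x → ∀ y, Crit F e y → x ≠ y →
      ⟪e, x⟫ - s * g x ≠ ⟪e, y⟫ - s * g y := by
    have h1 : ((fun q : V × V => (⟪e, q.1⟫ - ⟪e, q.2⟫) / (g q.1 - g q.2)) ''
        ({x | Crit F e x} ×ˢ {x | Crit F e x})).Finite := (hfin.prod hfin).image _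
    obtain ⟨s, hs, hs'⟩ := ((Ioo_infinite hδ).sdiff h1).nonempty
    refine ⟨s, hs.1, hs.2, fun x hx y hy hxy heq => hs' ⟨(x, y), ⟨hx, hy⟩, ?_⟩⟩
    have h2 : g x - g y ≠ 0 := sub_ne_zero.2 fun h => hxy (hgi hx hy h)
    show (⟪e, x⟫ - ⟪e, y⟫) / (g x - g y) = s
    rw [div_eq_iff h2]
    linarith
  obtain ⟨⟨Ψ, hΨ⟩, hcr, hgerm⟩ := hsh s hs0 hsδ
  refine ⟨e, fun x => x + (s * g x) • e, Ψ, he, hΨ, ?_, fun x hx => ?_, fun x y hx hy hxy => ?_⟩
  · refine (hfin.image fun p => p - (s * g p) • e).subset fun x hx => ?_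
    obtain ⟨p, hp, rfl⟩ := (hcr x).1 hx
    exact ⟨p, hp, rfl⟩
  · obtain ⟨p, hp, rfl⟩ := (hcr x).1 hx
    obtain ⟨k, hk⟩ := hidx p hp
    refine ⟨k, idx_translate ?_ (hgerm p hp)⟩
    rwa [sub_add_cancel]
  · obtain ⟨p, hp, rfl⟩ := (hcr x).1 hx
    obtain ⟨q, hq, rfl⟩ := (hcr y).1 hy
    by_contra hne
    have hpq : p ≠ q := fun h => hne (by rw [h])
    refine hs p hp q hq hpq ?_
    rw [inner_sub_right, inner_sub_right, inner_smul_right, inner_smul_right,
      real_inner_self_eq_norm_sq, he] at hxy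
    linarith

end Pool.Schoen
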