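import Pool.Agent.H.MP_6c077c_gt.Al.ACls
import Pool.Agent.H.MP_6c077c_gt.Al.PieceC

/-! Alexander theorem: the parts of the smooth cut are in the class. -/

set_option autoImplicit false

namespace Pool.Schoen

open Filter Set
open scoped Topology RealInnerProductSpace ContDiff

variable {V : Type*} [NormedAddCommGroup V] [InnerProductSpace ℝ V] [FiniteDimensional ℝ V]
variable {f : V → ℝ} {e q : V} {ζ R d : ℝ} {L : Set ℝ} {S : Finset V}

/-- The parts of the cut are in the class, with fewer markers. -/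
theorem ACls.part (hn : Module.finrank ℝ V = 3) (h : ACls f e L S) (hcy : CylN f e q ζ R)
    (hc : ⟪e, q⟫ ∈ L) (hL : ∀ c ∈ L, c ≠ ⟪e, q⟫ → ζ ≤ |c - ⟪e, q⟫|) (hd : 0 < d)
    (hdζ : 2 * d ≤ ζ) {G : V → ℝ} (hG : ContDiff ℝ ∞ G)
    (hGs : ∀ x, G x = 0 → G =ᶠ[𝓝 x] scut f e q d R) (hG1 : IsConnected {x | G x ≤ 0})
    (hG2 : IsConnected {x | 0 ≤ G x}) (hG3 : LiftS {x | G x ≤ 0} ∨ LiftS {x | 0 ≤ G x}) :
    ∃ S' : Finset V, ACls G e L S' ∧ S'.card < S.card := by
  classical
  have he := hcy.he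
  have hz : ∀ x, G x = 0 → scut f e q d R x = 0 := fun x hx => by
    rw [← (hGs x hx).self_of_nhds, hx]
  refine ⟨S.filter fun x => G x = 0, ⟨hG, ?_, ?_, hG1, hG2, hG3, ?_, ?_, ?_⟩, ?_⟩
  · -- bounded
    refine (h.bdd.union (cylS_compact he q (-ζ) ζ).isBounded).subset ?_
    intro x hx
    rcases hcy.scut_zero hd hdζ (hz x hx) with ⟨-, h2, -⟩ | ⟨h1, h2, -⟩
    · exact Or.inl h2
    · have h3 := abs_lt.1 h1
      exact Or.inr ⟨h3.1.le, h3.2.le, h2⟩
  · -- regular
    intro x hx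
    have h1 : gradient G x = gradient (scut f e q d R) x := by
      unfold gradient
      rw [(hGs x hx).fderiv_eq]
    rw [h1]
    exact hcy.scut_reg hd hdζ h.reg x (hz x hx)
  · -- critical points
    intro x hx
    have hn1 := hGs x hx.1
    rcases hcy.scut_crit hd hdζ h.reg (hx.congr' hn1) with ⟨h1, h2⟩ | ⟨h1, h2⟩
    · obtain ⟨h3, k, hk⟩ := h.crit x h1
      exact ⟨h3, k, (hk.congr' h2.symm).congr' hn1.symm⟩
    · refine ⟨fun h3 => ?_, 0, h2.congr' hn1.symm⟩
      have h4 : ⟪e, x⟫ ≠ ⟪e, q⟫ := by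
        rcases h1 with h1 | h1 <;> rw [h1] <;> linarith
      have h5 := hL _ h3 h4
      have h6 : |⟪e, x⟫ - ⟪e, q⟫| = d := by
        rcases h1 with h1 | h1
        · rw [h1, add_sub_cancel_left, abs_of_pos hd]
        · rw [h1, sub_sub_cancel_left, abs_neg, abs_of_pos hd]
      linarith
  · -- separation of the saddles
    have hsad : ∀ x, Crit G e x → Idx G e x 1 → Crit f e x ∧ Idx f e x 1 := by
      intro x hx hx1
      have hn1 := hGs x hx.1
      rcases hcy.scut_crit hd hdζ h.reg (hx.congr' hn1) with ⟨h1, h2⟩ | ⟨h1, h2⟩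
      · exact ⟨h1, (hx1.congr' hn1).congr' h2⟩
      · exact (idx_zero_one h2 (hx1.congr' hn1)).elim
    intro x y hx hy hx1 hy1 hxy
    obtain ⟨h1, h2⟩ := hsad x hx hx1
    obtain ⟨h3, h4⟩ := hsad y hy hy1
    exact h.sep x y h1 h3 h2 h4 hxy
  · -- markers
    refine h.mark.part fun x hxL hx => ?_
    obtain ⟨h1, h2⟩ := hcy.scut_level hd hdζ (fun h4 => hL _ hxL h4) (hz x hx)
    have h3 : G =ᶠ[𝓝 x] f := (hGs x hx).trans h2
    obtain ⟨O, hO1, hO2, hO3⟩ := mem_nhds_iff.1 h3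
    refine ⟨O, hO2, hO3, fun y hy _ => ?_⟩
    have h4 : G y = f y := hO1 hy
    rw [h4]
  · -- the lost marker
    have hcont1 : Continuous fun x : V => ⟪e, x - q⟫ := by fun_prop
    have hcont2 : Continuous fun x : V => ‖orth e (x - q)‖ := by
      unfold orth
      fun_prop
    refine h.mark.card_lt hc (K := {x | ⟪e, x - q⟫ = 0 ∧ ‖orth e (x - q)‖ = 1}) ?_ ?_ ?_ ?_ ?_
    · exact exists_circle hn he q
    · exact (isClosed_eq hcont1 continuous_const).inter (isClosed_eq hcont2 continuous_const)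
    · rintro x ⟨h1, h2⟩
      refine ⟨?_, ?_⟩
      · rw [hcy.hf x (by rw [h1, abs_zero]; exact hcy.hζ) (by rw [h2]; exact hcy.hR), h2]
        norm_num
      · rw [inner_sub_right] at h1
        linarith
    · refine ⟨{x | |⟪e, x - q⟫| < ζ} ∩ {x | ‖orth e (x - q)‖ < R},
        (isOpen_lt hcont1.abs continuous_const).inter (isOpen_lt hcont2 continuous_const), ?_, ?_⟩
      · rintro x ⟨h1, h2⟩
        refine ⟨?_, ?_⟩
        · show |⟪e, x - q⟫| < ζ
          rw [h1, abs_zero]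
          exact hcy.hζ
        · show ‖orth e (x - q)‖ < R
          rw [h2]
          exact hcy.hR
      · rintro x ⟨h1, h2⟩ h3 h4
        refine ⟨?_, ?_⟩
        · rw [inner_sub_right, h4, sub_self]
        · have h5 := hcy.hf x h1 h2
          rw [h3] at h5
          have h6 := norm_nonneg (orth e (x - q))
          nlinarith
    · rintro x ⟨h1, h2⟩ h3
      have h4 := hcy.scut_mid (d := d) h1 (by rw [h2]; exact hcy.hR)
      have h5 := hz x h3
      linarith

end Pool.Schoen
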