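import Pool.Agent.H.MP_6c077c_gt.Al.PartsA
import Pool.Agent.H.MP_6c077c_gt.Al.PartsB
import Pool.Agent.H.MP_6c077c_gt.Al.PieceLev
import Pool.Agent.H.MP_6c077c_gt.Al.PieceOut
import Pool.Agent.H.MP_6c077c_gt.Al.FlatSm
import Pool.Agent.H.MP_6c077c_gt.Al.OneBd

/-! Alexander's theorem: the cut. -/

set_option autoImplicit false

namespace Pool.Schoen

open Filter Set
open scoped Topology RealInnerProductSpace ContDiff

variable {V : Type*} [NormedAddCommGroup V] [InnerProductSpace ℝ V] [FiniteDimensional ℝ V]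
variable {f : V → ℝ} {e q : V} {ζ R d r : ℝ} {A C : Set V} {κ : V → ℝ}

/-- If the part of `A` is a ball, the function is homotopic to the part of `C`. -/
theorem cut_hom (hm : Mo f e) (h : CylN f e q ζ R) (hd : 0 < d) (hdζ : 2 * d ≤ ζ) (hr : 1 < r)
    (hrR : r < R) (hp : PartsC f e q d r A C) (hκ : Sepr κ A C)
    (hA : IsBall (pc κ (scut f e q d R))) : Hom f (pc (fun x => 1 - κ x) (scut f e q d R)) := by
  have h1 : Hom (partF (fcutC f e q d r) A C) (pc κ (scut f e q d R)) :=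
    flat_smooth hm h hd hdζ hr hrR hp hκ
  have h2 : IsBall (partF (fcutC f e q d r) A C) := h1.trans hA
  have h3 : Hom f (partF (fcutC f e q d r) C A) :=
    h.flat_glue hm.good hd (by linarith) hr hrR hp.clA hp.clC hp.disj hp.un hp.wm hp.wp h2
  have h4 : Hom (partF (fcutC f (-e) q d r) C A)
      (pc (fun x => 1 - κ x) (scut f (-e) q d R)) :=
    flat_smooth hm.flip h.flip hd hdζ hr hrR hp.flip hκ.swap
  rw [fcutC_flip, scut_flip] at h4
  exact h3.trans h4

/-- The cut: both parts are in the class, they have fewer marks, one of them is bounded, and if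
one of them is a ball, then the function is homotopic to the other one. -/
theorem step_cut (hV : Module.finrank ℝ V = 3) {L : Finset ℝ} {S : Finset V} (hm : Mo f e)
    (hl : Lev f e L S) (ht : TopE f) (h : CylN f e q ζ R) (hc : ⟪e, q⟫ ∈ L)
    (hsep : ∀ c' ∈ L, c' ≠ ⟪e, q⟫ → ζ ≤ |c' - ⟪e, q⟫|) :
    ∃ (gA gC : V → ℝ) (SA SC : Finset V), SA.card < S.card ∧ SC.card < S.card ∧
      Mo gA e ∧ Lev gA e L SA ∧ TopE gA ∧ Mo gC e ∧ Lev gC e L SC ∧ TopE gC ∧
      (Bornology.IsBounded {x | gA x ≤ 0} ∨ Bornology.IsBounded {x | gC x ≤ 0}) ∧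
      (IsBall gA → Hom f gC) ∧ (IsBall gC → Hom f gA) := by
  have hζ := h.hζ
  have hR := h.hR
  have hd : 0 < ζ / 2 := by linarith
  have hdζ : 2 * (ζ / 2) ≤ ζ := by linarith
  have hdζ' : ζ / 2 < ζ := by linarith
  have hr : 1 < (1 + R) / 2 := by linarith
  have hrR : (1 + R) / 2 < R := by linarith
  have hex : ∃ A C : Set V, PartsC f e q (ζ / 2) ((1 + R) / 2) A C ∧
      (LiftS A ∨ LiftS {x | 0 ≤ f x}) ∧ (LiftS C ∨ LiftS {x | 0 ≤ f x}) := by
    rcases ht.lift with hl1 | hl1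
    · obtain ⟨A, C, hp, hA, hC⟩ :=
        parts_alpha h hm.smooth.continuous hd hdζ' hr hrR ht.conn hl1
      exact ⟨A, C, hp, Or.inl hA, Or.inl hC⟩
    · obtain ⟨A, C, hp⟩ := parts_beta hV h hm.good hd hdζ' hr hrR ht.conn hl1
      exact ⟨A, C, hp, Or.inr hl1, Or.inr hl1⟩
  obtain ⟨A, C, hp, hA, hC⟩ := hex
  obtain ⟨κ, hκ⟩ := exists_sepr hp.clA hp.clC hp.disj
  have hmA := piece_mo hm h hd hdζ hr hrR hp.split hκ
  have hmC := piece_mo hm h hd hdζ hr hrR hp.split' hκ.swap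
  obtain ⟨SA, hSA, hlA⟩ := piece_lev hV hm hl hc hsep h hd hdζ hr hrR hp.split hκ
  obtain ⟨SC, hSC, hlC⟩ := piece_lev hV hm hl hc hsep h hd hdζ hr hrR hp.split' hκ.swap
  have htA := piece_top hV h hm.smooth hd hdζ hr hrR hp hκ ht.out hA
  have htC := piece_top hV h.flip hm.smooth hd hdζ hr hrR hp.flip hκ.swap ht.out hC
  rw [scut_flip] at htC
  refine ⟨pc κ (scut f e q (ζ / 2) R), pc (fun x => 1 - κ x) (scut f e q (ζ / 2) R), SA, SC,
    hSA, hSC, hmA, hlA, htA, hmC, hlC, htC, ?_, ?_, ?_⟩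
  · rcases one_bdd hV hm h hp with hb | hb
    · left
      exact hb.subset fun x hx => ((piece_le h hd hdζ hr hrR hp.split hκ x).1 hx).2
    · right
      exact hb.subset fun x hx => ((piece_le h hd hdζ hr hrR hp.split' hκ.swap x).1 hx).2
  · exact cut_hom hm h hd hdζ hr hrR hp hκ
  · intro hb
    have h1 := cut_hom hm.flip h.flip hd hdζ hr hrR hp.flip hκ.swap (by rw [scut_flip]; exact hb)
    rw [scut_flip] at h1
    have h2 : (fun x => 1 - (1 - κ x)) = κ := by
      funext x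
      ring
    rw [h2] at h1
    exact h1

end Pool.Schoen
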