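import Pool.Agent.H.MP_6c077c_gt.Gd.Defs
import Pool.Agent.H.MP_6c077c_gt.Ix.TopC

/-! Alexander's theorem: straightening near a regular level. -/

set_option autoImplicit false

namespace Pool.Schoen

open Filter Set
open scoped Topology RealInnerProductSpace ContDiff

variable {V : Type*} [NormedAddCommGroup V] [InnerProductSpace ℝ V]

private theorem Straight_smooth {F : V → ℝ} (hF : ContDiff ℝ ∞ F) (e : V) {β : ℝ → ℝ}
    (hβ : ContDiff ℝ ∞ β) :
    ContDiff ℝ ∞ fun p : ℝ × V => F (p.2 - (p.1 * β ⟪e, p.2⟫) • e) := by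
  have h1 : ContDiff ℝ ∞ fun p : ℝ × V => ⟪e, p.2⟫ :=
    ((innerSL ℝ e).contDiff (n := ∞)).comp contDiff_snd
  have h2 : ContDiff ℝ ∞ fun p : ℝ × V => β ⟪e, p.2⟫ := hβ.comp h1
  exact hF.comp (contDiff_snd.sub ((contDiff_fst.mul h2).smul contDiff_const))

/-- The derivative in horizontal directions. -/
private theorem Straight_fd {F : V → ℝ} (hF : ContDiff ℝ ∞ F) (e : V) {β : ℝ → ℝ}
    (hβ : ContDiff ℝ ∞ β) (t : ℝ) (x v : V) (hv : ⟪e, v⟫ = 0) :
    fderiv ℝ (fun p : ℝ × V => F (p.2 - (p.1 * β ⟪e, p.2⟫) • e)) (t, x) (0, v) =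
      fderiv ℝ F (x - (t * β ⟪e, x⟫) • e) v := by
  have h1 := (Straight_smooth hF e hβ).differentiable (by simp)
  have h2 := hF.differentiable (by simp)
  rw [← (h1 (t, x)).lineDeriv_eq_fderiv, ← (h2 _).lineDeriv_eq_fderiv]
  unfold lineDeriv
  congr 1
  funext s
  have h3 : ((t, x) : ℝ × V) + s • ((0 : ℝ), v) = (t, x + s • v) := by
    ext <;> simp
  rw [h3]
  simp only
  rw [inner_add_right, real_inner_smul_right, hv, mul_zero, add_zero]
  congr 1
  abel

private theorem Straight_fd1 {F : V → ℝ} (hF : ContDiff ℝ ∞ F) (e : V) {β : ℝ → ℝ}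
    (hβ : ContDiff ℝ ∞ β) (x v : V) (hv : ⟪e, v⟫ = 0) :
    fderiv ℝ (fun y => F (y - (β ⟪e, y⟫) • e)) x v = fderiv ℝ F (x - (β ⟪e, x⟫) • e) v := by
  have h1 := Straight_fd hF e hβ 1 x v hv
  rw [one_mul] at h1
  rw [← h1]
  have h2 : HasFDerivAt (fun y : V => ((1 : ℝ), y))
      ((0 : V →L[ℝ] ℝ).prod (ContinuousLinearMap.id ℝ V)) x :=
    (hasFDerivAt_const (1 : ℝ) x).prodMk (hasFDerivAt_id x)
  have h3 := ((Straight_smooth hF e hβ).differentiable (by simp) (1, x)).hasFDerivAt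
  have h4 := HasFDerivAt.comp (f := fun y : V => ((1 : ℝ), y)) x h3 h2
  have h5 : ((fun p : ℝ × V => F (p.2 - (p.1 * β ⟪e, p.2⟫) • e)) ∘ fun y : V => ((1 : ℝ), y)) =
      fun y => F (y - (β ⟪e, y⟫) • e) := by
    funext y
    simp
  rw [h5] at h4
  rw [h4.fderiv]
  simp

variable [FiniteDimensional ℝ V]

private theorem Straight_inner {F : V → ℝ} (x v : V) : ⟪gradient F x, v⟫ = fderiv ℝ F x v := by
  rw [gradient, InnerProductSpace.toDual_symm_apply]

/-- A horizontal descent vector at a point where the gradient is not vertical. -/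
private theorem Straight_vec {F : V → ℝ} {e : V} (he : ‖e‖ = 1) {x : V}
    (hx : ∀ l : ℝ, gradient F x ≠ l • e) : ∃ v, ⟪e, v⟫ = 0 ∧ fderiv ℝ F x v < 0 := by
  obtain ⟨g, hg⟩ : ∃ g, g = gradient F x := ⟨_, rfl⟩
  obtain ⟨v, hv⟩ : ∃ v, v = ⟪e, g⟫ • e - g := ⟨_, rfl⟩
  have he2 : ⟪e, e⟫ = 1 := by rw [real_inner_self_eq_norm_sq, he]; norm_num
  have hev : ⟪e, v⟫ = 0 := by
    rw [hv, inner_sub_right, real_inner_smul_right, he2]
    ring
  refine ⟨v, hev, ?_⟩
  have hv0 : v ≠ 0 := by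
    intro h0
    apply hx ⟪e, g⟫
    rw [← hg]
    rw [hv, sub_eq_zero] at h0
    exact h0.symm
  have h1 : g = ⟪e, g⟫ • e - v := by rw [hv]; abel
  rw [← Straight_inner, ← hg, h1, inner_sub_left, real_inner_smul_left, hev, mul_zero, zero_sub,
    real_inner_self_eq_norm_sq]
  have : 0 < ‖v‖ := norm_pos_iff.2 hv0
  have : 0 < ‖v‖ ^ 2 := by positivity
  linarith

private theorem Straight_nongrad {F : V → ℝ} {e : V} {x v : V} (hv : ⟪e, v⟫ = 0)
    (h : fderiv ℝ F x v < 0) (l : ℝ) : gradient F x ≠ l • e := by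
  intro h1
  rw [← Straight_inner, h1, real_inner_smul_left, hv, mul_zero] at h
  exact lt_irrefl _ h

/-- Near a level without horizontal tangent planes there are none either. -/
private theorem Straight_near {F : V → ℝ} (hF : ContDiff ℝ ∞ F)
    (hb : Bornology.IsBounded {x | F x = 0}) {e : V} (he : ‖e‖ = 1) {c δ : ℝ} (hδ : 0 < δ)
    (hc : ∀ x, F x = 0 → ⟪e, x⟫ = c → ∀ l : ℝ, gradient F x ≠ l • e) :
    ∃ η : ℝ, 0 < η ∧ η < δ ∧
      ∀ x, F x = 0 → |⟪e, x⟫ - c| ≤ η → ∀ l : ℝ, gradient F x ≠ l • e := by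
  have : ProperSpace V := FiniteDimensional.proper ℝ V
  have hFg : Continuous fun x => fderiv ℝ F x := hF.continuous_fderiv (by simp)
  have hgr : Continuous fun x => gradient F x := by
    unfold gradient
    exact (InnerProductSpace.toDual ℝ V).symm.continuous.comp hFg
  have hih : Continuous fun x : V => ⟪e, x⟫ := by fun_prop
  obtain ⟨P, hP⟩ : ∃ P : V → V, P = fun x => gradient F x - ⟪e, gradient F x⟫ • e := ⟨_, rfl⟩
  have hPc : Continuous P := by
    rw [hP]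
    exact hgr.sub ((hih.comp hgr).smul continuous_const)
  have hPl : ∀ x (l : ℝ), gradient F x = l • e → P x = 0 := by
    intro x l h
    have he2 : ⟪e, e⟫ = 1 := by rw [real_inner_self_eq_norm_sq, he]; norm_num
    rw [hP]
    simp only
    rw [h, real_inner_smul_right, he2, mul_one, sub_self]
  obtain ⟨K, hK⟩ : ∃ K : Set V, K = {x | F x = 0} ∩ {x | P x = 0} := ⟨_, rfl⟩
  have hKc : IsCompact K := by
    rw [hK]
    refine Metric.isCompact_of_isClosed_isBounded ?_ (hb.subset inter_subset_left)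
    exact (isClosed_eq hF.continuous continuous_const).inter (isClosed_eq hPc continuous_const)
  have hKf : IsClosed ((fun x : V => ⟪e, x⟫) '' K) := (hKc.image hih).isClosed
  have hcK : c ∉ (fun x : V => ⟪e, x⟫) '' K := by
    rintro ⟨x, hx, hxc⟩
    rw [hK] at hx
    apply hc x hx.1 hxc ⟪e, gradient F x⟫
    have h1 : P x = 0 := hx.2
    rw [hP] at h1
    exact sub_eq_zero.1 h1
  obtain ⟨ε, hε, hball⟩ := Metric.isOpen_iff.1 hKf.isOpen_compl c hcK
  refine ⟨min (ε / 2) (δ / 2), by positivity, (min_le_right _ _).trans_lt (by linarith), ?_⟩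
  intro x hx hxc l hl
  have h1 : (fun x : V => ⟪e, x⟫) x ∈ ((fun x : V => ⟪e, x⟫) '' K)ᶜ := by
    apply hball
    rw [Metric.mem_ball, Real.dist_eq]
    exact (hxc.trans (min_le_left _ _)).trans_lt (by linarith)
  apply h1
  refine ⟨x, ?_, rfl⟩
  rw [hK]
  exact ⟨hx, hPl x l hl⟩

/-- **Straightening** of a smooth hypersurface near a height where it has no horizontal tangent
planes. -/
theorem straighten {F : V → ℝ} (hF : ContDiff ℝ ∞ F)
    (hb : Bornology.IsBounded {x | F x = 0}) (hr : ∀ x, F x = 0 → gradient F x ≠ 0)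
    {e : V} (he : ‖e‖ = 1) {c δ : ℝ} (hδ : 0 < δ)
    (hc : ∀ x, F x = 0 → ⟪e, x⟫ = c → ∀ l : ℝ, gradient F x ≠ l • e) :
    ∃ (F' : V → ℝ) (Φ : V → V) (a : ℝ), 0 < a ∧ a < δ ∧ ContDiff ℝ ∞ F' ∧ Hom F F' ∧
      Bornology.IsBounded {x | F' x = 0} ∧ (∀ x, F' x = 0 → gradient F' x ≠ 0) ∧
      (∀ x, F' x = F (Φ x)) ∧ (∀ x, ‖Φ x - x‖ ≤ δ) ∧
      (∀ x, δ ≤ |⟪e, x⟫ - c| → F' =ᶠ[𝓝 x] F) ∧
      (∀ x, ⟪e, x⟫ = c → F' x = F x) ∧
      (∀ x, |⟪e, x⟫ - c| ≤ a → F' x = F (x - (⟪e, x⟫ - c) • e)) ∧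
      (∀ x, |⟪e, x⟫ - c| ≤ a → F x = 0 → ∀ l : ℝ, gradient F x ≠ l • e) ∧
      (∀ x, |⟪e, x⟫ - c| ≤ a → F' x = 0 → ∀ l : ℝ, gradient F' x ≠ l • e) ∧
      (∀ x (l : ℝ), F' x = 0 → gradient F' x = l • e → F' =ᶠ[𝓝 x] F) ∧
      (∀ x (l : ℝ), F x = 0 → gradient F x = l • e → F' =ᶠ[𝓝 x] F) := by
  obtain ⟨η, hη, hηδ, hcη⟩ := Straight_near hF hb he hδ hc
  have hih : Continuous fun x : V => ⟪e, x⟫ := by fun_prop
  have he2 : ⟪e, e⟫ = 1 := by rw [real_inner_self_eq_norm_sq, he]; norm_num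
  let b : ContDiffBump c := ⟨η / 2, η, by positivity, by linarith⟩
  obtain ⟨β, hβd⟩ : ∃ β : ℝ → ℝ, β = fun s => b s * (s - c) := ⟨_, rfl⟩
  have hβ : ContDiff ℝ ∞ β := by
    rw [hβd]
    exact b.contDiff.mul (contDiff_id.sub contDiff_const)
  have hb0 : ∀ s, 0 ≤ b s := fun s => b.nonneg
  have hb1 : ∀ s, b s ≤ 1 := fun s => b.le_one
  have hβ1 : ∀ s, |s - c| ≤ η / 2 → β s = s - c := by
    intro s hs
    have h1 : b s = 1 := b.one_of_mem_closedBall (by
      rw [Metric.mem_closedBall, Real.dist_eq]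
      exact hs)
    rw [hβd]
    simp only
    rw [h1, one_mul]
  have hβ2 : ∀ s, η ≤ |s - c| → β s = 0 := by
    intro s hs
    have h1 : b s = 0 := b.zero_of_le_dist (by
      rw [Real.dist_eq]
      exact hs)
    rw [hβd]
    simp only
    rw [h1, zero_mul]
  have hβ3 : ∀ s, |β s| ≤ η := by
    intro s
    rcases le_or_gt η |s - c| with h | h
    · rw [hβ2 s h, abs_zero]
      exact hη.le
    · rw [hβd]
      simp only
      rw [abs_mul, abs_of_nonneg (hb0 s)]
      calc b s * |s - c| ≤ 1 * |s - c| := by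
            apply mul_le_mul_of_nonneg_right (hb1 s) (abs_nonneg _)
        _ ≤ η := by linarith
  -- the height of the displaced point
  have hht : ∀ (t : ℝ) (x : V), ⟪e, x - (t * β ⟪e, x⟫) • e⟫ = ⟪e, x⟫ - t * β ⟪e, x⟫ := by
    intro t x
    rw [inner_sub_right, real_inner_smul_right, he2, mul_one]
  have hin : ∀ t : ℝ, 0 ≤ t → t ≤ 1 → ∀ s, |s - c| ≤ η → |s - t * β s - c| ≤ η := by
    intro t ht0 ht1 s hs
    have e1 : s - t * β s - c = (1 - t * b s) * (s - c) := by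
      rw [hβd]
      simp only
      ring
    have h2 : 0 ≤ t * b s := mul_nonneg ht0 (hb0 s)
    have h3 : t * b s ≤ 1 := by
      calc t * b s ≤ 1 * 1 := mul_le_mul ht1 (hb1 s) (hb0 s) zero_le_one
        _ = 1 := one_mul 1
    rw [e1, abs_mul, abs_of_nonneg (by linarith)]
    calc (1 - t * b s) * |s - c| ≤ 1 * |s - c| := by
          apply mul_le_mul_of_nonneg_right (by linarith) (abs_nonneg _)
      _ ≤ η := by linarith
  -- the germ outside
  have hev : ∀ (t : ℝ) (x : V), η < |⟪e, x⟫ - c| →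
      (fun y => F (y - (t * β ⟪e, y⟫) • e)) =ᶠ[𝓝 x] F := by
    intro t x hx
    have h1 : ∀ᶠ y in 𝓝 x, η < |⟪e, y⟫ - c| := by
      have h2 : Continuous fun y : V => |⟪e, y⟫ - c| := (hih.sub continuous_const).abs
      exact (h2.tendsto x).eventually_const_lt hx
    filter_upwards [h1] with y hy
    rw [hβ2 _ hy.le, mul_zero, zero_smul, sub_zero]
  -- descent vectors
  have hdes : ∀ t : ℝ, 0 ≤ t → t ≤ 1 → ∀ x, F (x - (t * β ⟪e, x⟫) • e) = 0 → |⟪e, x⟫ - c| ≤ η →
      ∃ v, ⟪e, v⟫ = 0 ∧ fderiv ℝ F (x - (t * β ⟪e, x⟫) • e) v < 0 := by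
    intro t ht0 ht1 x hx hxc
    refine Straight_vec he (hcη _ hx ?_)
    rw [hht]
    exact hin t ht0 ht1 _ hxc
  obtain ⟨F', hF'⟩ : ∃ F' : V → ℝ, F' = fun x => F (x - (β ⟪e, x⟫) • e) := ⟨_, rfl⟩
  have hF's : ContDiff ℝ ∞ F' := by
    rw [hF']
    have h1 : ContDiff ℝ ∞ fun x : V => ⟪e, x⟫ := (innerSL ℝ e).contDiff
    exact hF.comp (contDiff_id.sub ((hβ.comp h1).smul contDiff_const))
  have hev' : ∀ x : V, η < |⟪e, x⟫ - c| → F' =ᶠ[𝓝 x] F := by
    intro x hx
    have h1 := hev 1 x hx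
    simp only [one_mul] at h1
    rw [hF']
    exact h1
  have hng : ∀ x, F' x = 0 → |⟪e, x⟫ - c| ≤ η → ∀ l : ℝ, gradient F' x ≠ l • e := by
    intro x hx hxc
    obtain ⟨v, hv, h1⟩ := hdes 1 zero_le_one le_rfl x (by
      rw [one_mul]
      rw [hF'] at hx
      exact hx) hxc
    rw [one_mul, ← Straight_fd1 hF e hβ x v hv] at h1
    intro l
    rw [hF']
    exact Straight_nongrad hv h1 l
  have hbdd : ∃ R : ℝ, ∀ x, F x = 0 → ‖x‖ ≤ R := hb.exists_norm_le
  obtain ⟨R, hR⟩ := hbdd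
  have hsh : ∀ (t : ℝ) (x : V), 0 ≤ t → t ≤ 1 → ‖(t * β ⟪e, x⟫) • e‖ ≤ η := by
    intro t x h0 h1
    rw [norm_smul, he, mul_one, Real.norm_eq_abs, abs_mul, abs_of_nonneg h0]
    calc t * |β ⟪e, x⟫| ≤ 1 * |β ⟪e, x⟫| := mul_le_mul_of_nonneg_right h1 (abs_nonneg _)
      _ ≤ η := by
        rw [one_mul]
        exact hβ3 _
  have hR' : ∀ t : ℝ, 0 ≤ t → t ≤ 1 → ∀ x, F (x - (t * β ⟪e, x⟫) • e) = 0 → ‖x‖ ≤ R + η := by
    intro t h0 h1 x hx
    have h2 := hR _ hx
    have h3 := norm_add_le (x - (t * β ⟪e, x⟫) • e) ((t * β ⟪e, x⟫) • e)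
    rw [sub_add_cancel] at h3
    linarith [hsh t x h0 h1]
  refine ⟨F', fun x => x - (β ⟪e, x⟫) • e, η / 2, by positivity, by linarith, hF's, ?_, ?_, ?_,
    ?_, ?_, ?_, ?_, ?_, ?_, ?_, ?_, ?_⟩
  · -- the homotopy
    refine ⟨fun t x => F (x - (t * β ⟪e, x⟫) • e), (Straight_smooth hF e hβ).continuous, ?_, ?_,
      ⟨R + η, fun t ht x hx => hR' t ht.1 ht.2 x hx⟩, ?_⟩
    · funext x
      simp
    · rw [hF']
      funext x
      simp
    · intro t ht x hx
      rcases le_or_gt |⟪e, x⟫ - c| η with h | h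
      · obtain ⟨v, hv, h1⟩ := hdes t ht.1 ht.2 x hx h
        refine ⟨v, Desc.mono (desc_smooth (G := fun p : ℝ × V => F (p.2 - (p.1 * β ⟪e, p.2⟫) • e))
          ((Straight_smooth hF e hβ).contDiffAt.of_le (by simp)) ?_) nhdsWithin_le_nhds⟩
        rw [Straight_fd hF e hβ t x v hv]
        exact h1
      · have h0 : F x = 0 := by
          have h1 := (hev t x h).eq_of_nhds
          rw [← h1]
          exact hx
        have h1 : ∃ v, fderiv ℝ F x v < 0 := by
          refine ⟨-gradient F x, ?_⟩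
          rw [← Straight_inner, inner_neg_right, real_inner_self_eq_norm_sq]
          have : 0 < ‖gradient F x‖ := norm_pos_iff.2 (hr x h0)
          have : 0 < ‖gradient F x‖ ^ 2 := by positivity
          linarith
        obtain ⟨v, hv⟩ := h1
        have h2 : Desc1 F x v := desc1_smooth (hF.contDiffAt.of_le (by simp)) hv
        refine ⟨v, Desc.congr (h2.const (𝓝[Icc 0 1] t)) ?_⟩
        have h3 : ∀ᶠ y in 𝓝 x, η < |⟪e, y⟫ - c| := by
          have h2 : Continuous fun y : V => |⟪e, y⟫ - c| := (hih.sub continuous_const).abs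
          exact (h2.tendsto x).eventually_const_lt h
        filter_upwards [(tendsto_snd (f := 𝓝[Icc 0 1] t) (g := 𝓝 x)).eventually h3] with p hp
        rw [hβ2 _ hp.le, mul_zero, zero_smul, sub_zero]
  · refine (Metric.isBounded_closedBall (x := (0 : V)) (r := R + η)).subset fun x hx => ?_
    rw [Metric.mem_closedBall, dist_zero_right]
    refine hR' 1 zero_le_one le_rfl x ?_
    rw [one_mul]
    have hx' : F' x = 0 := hx
    rw [hF'] at hx'
    exact hx'
  · intro x hx h0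
    rcases le_or_gt |⟪e, x⟫ - c| η with h | h
    · apply hng x hx h 0
      rw [h0, zero_smul]
    · have h1 := hev' x h
      have h2 : F x = 0 := by rw [← h1.eq_of_nhds]; exact hx
      apply hr x h2
      have h3 : fderiv ℝ F' x = fderiv ℝ F x := h1.fderiv_eq
      rw [← h0]
      unfold gradient
      rw [h3]
  · intro x
    rw [hF']
  · intro x
    have h1 := hsh 1 x zero_le_one le_rfl
    rw [one_mul] at h1
    rw [sub_sub_cancel_left, norm_neg]
    linarith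
  · intro x hx
    exact hev' x (by linarith)
  · intro x hx
    rw [hF']
    simp only
    rw [hβ1 _ (by rw [hx, sub_self, abs_zero]; positivity), hx, sub_self, zero_smul, sub_zero]
  · intro x hx
    rw [hF']
    simp only
    rw [hβ1 _ hx]
  · intro x hx hx0
    exact hcη x hx0 (by linarith)
  · intro x hx hx0
    exact hng x hx0 (by linarith)
  · intro x l hx hl
    rcases le_or_gt |⟪e, x⟫ - c| η with h | h
    · exact absurd hl (hng x hx h l)
    · exact hev' x h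
  · intro x l hx hl
    rcases le_or_gt |⟪e, x⟫ - c| η with h | h
    · exact absurd hl (hcη x hx h l)
    · exact hev' x h

end Pool.Schoen
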