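import Pool.Agent.H.MP_6c077c_gt.Al.Cls
import Pool.Agent.H.MP_6c077c_gt.Al.Planar
import Pool.Agent.H.MP_6c077c_gt.Al.SCutC
import Pool.Agent.H.MP_6c077c_gt.Ix.MollC
import Pool.Agent.H.MP_6c077c_gt.IxB.FlipIdx
import Pool.Agent.H.MP_6c077c_gt.Al.Straight
import Pool.Agent.H.MP_6c077c_gt.Al.Normal
import Pool.Agent.H.MP_6c077c_gt.Al.Neck
import Pool.Agent.H.MP_6c077c_gt.helper58.InnerBall

/-! Alexander's theorem: a disc in a level is brought into normal form. -/

set_option autoImplicit false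

namespace Pool.Schoen

open Filter Set
open scoped Topology RealInnerProductSpace ContDiff

namespace Cy

section one

variable {V : Type*} [NormedAddCommGroup V] [InnerProductSpace ℝ V] [FiniteDimensional ℝ V]

/-- The class of the induction: `L` are the levels where the hypersurface is cut, `S` the markers. -/
structure ACls (f : V → ℝ) (e : V) (L : Set ℝ) (S : Finset V) : Prop where
  smooth : ContDiff ℝ ∞ f
  bdd : Bornology.IsBounded {x | f x = 0}
  reg : ∀ x, f x = 0 → gradient f x ≠ 0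
  conn : IsConnected {x | f x ≤ 0}
  conn' : IsConnected {x | 0 ≤ f x}
  lift : LiftS {x | f x ≤ 0} ∨ LiftS {x | 0 ≤ f x}
  crit : ∀ x, Crit f e x → ⟪e, x⟫ ∉ L ∧ ∃ k, Idx f e x k
  sep : ∀ x y, Crit f e x → Crit f e y → Idx f e x 1 → Idx f e y 1 → x ≠ y →
    ∃ c ∈ L, (⟪e, x⟫ < c ∧ c < ⟪e, y⟫) ∨ (⟪e, y⟫ < c ∧ c < ⟪e, x⟫)
  mark : Mark f e L S

variable {f : V → ℝ} {e : V} {L : Set ℝ} {S : Finset V}

omit [FiniteDimensional ℝ V] in
theorem Rd.neg (h : Rd f) : Rd fun x => -f x := by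
  rcases h with h | h
  · right
    have h1 : (fun x => - -f x) = f := by
      funext x
      exact neg_neg _
    rw [h1]
    exact h
  · exact Or.inl h

omit [FiniteDimensional ℝ V] in
theorem rd_neg : (Rd fun x => -f x) ↔ Rd f := by
  constructor
  · intro h
    have h1 : (fun x => - -f x) = f := by
      funext x
      exact neg_neg _
    have h2 := Rd.neg h
    rwa [h1] at h2
  · exact Rd.neg

omit [FiniteDimensional ℝ V] in
theorem Rd.of_hom {g : V → ℝ} (h : Hom f g) (hg : Rd g) : Rd f := by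
  rcases hg with hg | hg
  · exact Or.inl (h.trans hg)
  · exact Or.inr (h.neg.trans hg)

omit [FiniteDimensional ℝ V] in
theorem Crit.congr' {g : V → ℝ} {x : V} (h : f =ᶠ[𝓝 x] g) (hf : Crit f e x) : Crit g e x := by
  refine ⟨by rw [← h.self_of_nhds, hf.1], fun w hw => ?_⟩
  rw [← h.fderiv_eq]
  exact hf.2 w hw

omit [FiniteDimensional ℝ V] in
theorem crit_neg {x : V} : Crit (fun y => -f y) e x ↔ Crit f e x := by
  have h1 : fderiv ℝ (fun y => -f y) x = -fderiv ℝ f x := fderiv_fun_neg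
  unfold Crit
  rw [neg_eq_zero, h1]
  refine and_congr_right fun _ => forall_congr' fun w => imp_congr_right fun _ => ?_
  rw [_root_.neg_apply, neg_eq_zero]

/-- The index of the opposite function. -/
theorem idx_neg (hn : Module.finrank ℝ V = 3) (he : ‖e‖ = 1) (hf : ContDiff ℝ ∞ f) {x : V} {k : ℕ}
    (h : Idx f e x k) :
    Idx (fun y => -f y) e x (2 - k) := by
  obtain ⟨N, P, hs, hk⟩ := h
  have h1 : fderiv ℝ (fderiv ℝ (fun y => -f y)) x = -fderiv ℝ (fderiv ℝ f) x := by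
    have h2 : fderiv ℝ (fun y => -f y) = fun y => -fderiv ℝ f y := by
      funext y
      exact fderiv_fun_neg
    rw [h2]
    exact fderiv_fun_neg
  have h3 := hs.finrank he
  refine ⟨P, N, ⟨hs.hP, hs.hN, fun a ha b hb => ?_, fun w hw => ?_, fun a ha b hb => ?_,
    fun a ha ha0 => ?_, fun b hb hb0 => ?_⟩, by omega⟩
  · rw [real_inner_comm]
    exact hs.orth b hb a ha
  · obtain ⟨a, ha, b, hb, hab⟩ := hs.span w hw
    exact ⟨b, hb, a, ha, by rw [hab, add_comm]⟩
  · rw [h1, _root_.neg_apply, _root_.neg_apply, ixHess_symm hf, hs.diag b hb a ha, neg_zero]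
  · rw [h1]
    have := hs.pos a ha ha0
    simp only [_root_.neg_apply]
    linarith
  · rw [h1]
    have := hs.neg b hb hb0
    simp only [_root_.neg_apply]
    linarith

/-- The class is symmetric in the two sides. -/
theorem ACls.neg (hn : Module.finrank ℝ V = 3) (he : ‖e‖ = 1) (h : ACls f e L S) :
    ACls (fun x => -f x) e L S := by
  have s1 : {x | -f x ≤ 0} = {x | 0 ≤ f x} := by
    ext x
    exact neg_nonpos (a := f x)
  have s2 : {x | 0 ≤ -f x} = {x | f x ≤ 0} := by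
    ext x
    exact neg_nonneg (a := f x)
  have hg : ∀ x, gradient (fun y => -f y) x = -gradient f x := by
    intro x
    have h1 : fderiv ℝ (fun y => -f y) x = -fderiv ℝ f x := fderiv_fun_neg
    unfold gradient
    rw [h1, map_neg]
  have hone : ∀ x, Idx (fun y => -f y) e x 1 → Idx f e x 1 := by
    intro x hx
    have h1 := idx_neg hn he h.smooth.neg hx
    have h2 : (fun x => - -f x) = f := by
      funext x
      exact neg_neg _
    rwa [h2] at h1
  refine ⟨h.smooth.neg, ?_, ?_, ?_, ?_, ?_, ?_, ?_, h.mark.neg⟩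
  · have h1 : {x | -f x = 0} = {x | f x = 0} := by
      ext x
      exact neg_eq_zero (a := f x)
    rw [h1]
    exact h.bdd
  · intro x hx h1
    rw [hg, neg_eq_zero] at h1
    exact h.reg x (neg_eq_zero.1 hx) h1
  · rw [s1]
    exact h.conn'
  · rw [s2]
    exact h.conn
  · rw [s1, s2]
    exact h.lift.symm
  · intro x hx
    obtain ⟨h1, k, hk⟩ := h.crit x (crit_neg.1 hx)
    exact ⟨h1, _, idx_neg hn he h.smooth hk⟩
  · intro x y hx hy h1 h2 hxy
    exact h.sep x y (crit_neg.1 hx) (crit_neg.1 hy) (hone x h1) (hone y h2) hxy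

theorem ACls.good (h : ACls f e L S) : Good f := by
  refine good_of_regular h.smooth h.bdd fun x hx h1 => h.reg x hx ?_
  rw [gradient, h1, map_zero]


end one

section two

variable {V : Type*} [NormedAddCommGroup V] [InnerProductSpace ℝ V]

/-- The topology of the two sides; the sides may be unbounded. -/
structure Sides (f : V → ℝ) : Prop where
  body : IsConnected {x | f x ≤ 0}
  out : IsConnected {x | 0 ≤ f x}
  lift : LiftS {x | f x ≤ 0} ∨ LiftS {x | 0 ≤ f x}

variable {f g : V → ℝ} {e : V} {L : Set ℝ} {S : Finset V}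

/-- A diffeomorphism which carries the signs. -/
theorem Sides.map (h : Sides f) {Φ Ψ : V → V} (hΦ : Dif Φ Ψ) (h1 : ∀ x, g x ≤ 0 ↔ f (Φ x) ≤ 0)
    (h2 : ∀ x, g x = 0 ↔ f (Φ x) = 0) : Sides g := by
  have h3 : {x | g x ≤ 0} = {x | Φ x ∈ {y | f y ≤ 0}} := by
    ext x
    exact h1 x
  have h4 : {x | 0 ≤ g x} = {x | Φ x ∈ {y | 0 ≤ f y}} := by
    ext x
    show 0 ≤ g x ↔ 0 ≤ f (Φ x)
    constructor
    · intro hx
      rcases hx.eq_or_lt with h0 | h0
      · exact ((h2 x).1 h0.symm).ge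
      · exact (not_le.1 fun hc => absurd ((h1 x).2 hc) (not_le.2 h0)).le
    · intro hx
      rcases hx.eq_or_lt with h0 | h0
      · exact ((h2 x).2 h0.symm).ge
      · exact (not_le.1 fun hc => absurd ((h1 x).1 hc) (not_le.2 h0)).le
  refine ⟨?_, ?_, ?_⟩
  · rw [h3]
    exact hΦ.isConnected h.body
  · rw [h4]
    exact hΦ.isConnected h.out
  · rw [h3, h4]
    exact h.lift.imp hΦ.liftS hΦ.liftS

variable [FiniteDimensional ℝ V]

/-- Invariance of the sides under homotopy. -/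
theorem Sides.hom (h : Sides f) (hfg : Hom f g) (hf : ContDiff ℝ ∞ f) (hg : ContDiff ℝ ∞ g) :
    Sides g := by
  obtain ⟨φ, ψ, h1, h2, h3, h4, -, h6, h7⟩ := hfg.carries hf hg
  have hD : Dif ψ φ := ⟨h2, h1, h4, h3⟩
  refine h.map hD (fun x => ?_) (fun x => ?_)
  · constructor
    · intro hx
      have h8 : x ∈ φ '' {x | f x ≤ 0} := by
        rw [h7]
        exact hx
      obtain ⟨y, hy, rfl⟩ := h8
      rw [h3]
      exact hy
    · intro hx
      have h8 : x ∈ {x | g x ≤ 0} := by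
        rw [← h7]
        exact ⟨ψ x, hx, h4 x⟩
      exact h8
  · constructor
    · intro hx
      have h8 : x ∈ φ '' {x | f x = 0} := by
        rw [h6]
        exact hx
      obtain ⟨y, hy, rfl⟩ := h8
      rw [h3]
      exact hy
    · intro hx
      have h8 : x ∈ {x | g x = 0} := by
        rw [← h6]
        exact ⟨ψ x, hx, h4 x⟩
      exact h8

omit [FiniteDimensional ℝ V] in
theorem ACls.sides [FiniteDimensional ℝ V] (h : ACls f e L S) : Sides f := ⟨h.conn, h.conn', h.lift⟩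

theorem rd_comp_dif {Φ Ψ : V → V} (h : Dif Φ Ψ) : Rd (fun x => f (Φ x)) ↔ Rd f := by
  unfold Rd
  rw [isBall_comp_dif h, isBall_comp_dif h (f := fun x => -f x)]

theorem crit_iff_grad (he : ‖e‖ = 1) (x : V) :
    Crit f e x ↔ f x = 0 ∧ ∃ l : ℝ, gradient f x = l • e := by
  rw [crit_iff_horG he]
  refine and_congr Iff.rfl ⟨fun h => ⟨⟪gradient f x, e⟫, ?_⟩, ?_⟩
  · rw [horG, sub_eq_zero] at h
    exact h
  · rintro ⟨l, hl⟩
    rw [horG, hl, real_inner_smul_left, real_inner_self_eq_norm_sq, he]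
    module

/-- The index is determined. -/
theorem Idx.unique {x : V} {j k : ℕ} (h : Idx f e x j) (h' : Idx f e x k) : j = k := by
  have key : ∀ {j k : ℕ}, Idx f e x j → Idx f e x k → j ≤ k := by
    rintro j k ⟨N, P, hs, rfl⟩ ⟨N', P', hs', rfl⟩
    by_contra hlt
    push Not at hlt
    -- the projection of `N` to `N'` along `P'` has a kernel
    have h1 : ∃ a ∈ N, a ≠ 0 ∧ N'.starProjection a = 0 := by
      by_contra hcon
      push Not at hcon
      have hinj : Function.Injective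
          ((N'.starProjection : V →ₗ[ℝ] V).domRestrict N) := by
        refine (injective_iff_map_eq_zero _).2 fun a ha => ?_
        by_contra h0
        exact hcon a a.2 (fun h => h0 (Subtype.ext h)) ha
      have h2 := LinearMap.finrank_range_of_inj hinj
      have h3 : ((N'.starProjection : V →ₗ[ℝ] V).domRestrict N).range ≤ N' := by
        rintro y ⟨a, rfl⟩
        exact N'.starProjection_apply_mem _
      have h4 := Submodule.finrank_mono h3
      omega
    obtain ⟨a, ha, ha0, ha1⟩ := h1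
    have h2 := (hs'.proj a (hs.hN a ha)).2
    rw [ha1, sub_zero] at h2
    have h3 := hs'.pos a h2 ha0
    have h4 := hs.neg a ha ha0
    linarith
  exact le_antisymm (key h h') (key h' h)

/-- Invariance under a homotopy to a function with the same germs at the horizontal zeros and the
same zeros at the levels. -/
theorem ACls.hom (h : ACls f e L S) (hfg : Hom f g) (hg : ContDiff ℝ ∞ g)
    (hc : ∀ x, Crit g e x → g =ᶠ[𝓝 x] f) (hz : ∀ x, ⟪e, x⟫ ∈ L → (g x = 0 ↔ f x = 0)) :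
    ACls g e L S where
  smooth := hg
  bdd := hfg.good_right.bdd
  reg x hx h0 := by
    refine hfg.good_right.regular hg x hx ?_
    rw [gradient, LinearIsometryEquiv.map_eq_zero_iff] at h0
    exact h0
  conn := (h.sides.hom hfg h.smooth hg).body
  conn' := (h.sides.hom hfg h.smooth hg).out
  lift := (h.sides.hom hfg h.smooth hg).lift
  crit x hx := by
    obtain ⟨h1, k, hk⟩ := h.crit x (Crit.congr' (hc x hx) hx)
    exact ⟨h1, k, hk.congr' (hc x hx).symm⟩
  sep x y hx hy h1 h2 hxy :=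
    h.sep x y (Crit.congr' (hc x hx) hx) (Crit.congr' (hc y hy) hy) (h1.congr' (hc x hx))
      (h2.congr' (hc y hy)) hxy
  mark := h.mark.congr hz

/-- Invariance under diffeomorphisms which preserve the height. -/
theorem ACls.comp_dif [DecidableEq V] (he : ‖e‖ = 1) (h : ACls f e L S) {Φ Ψ : V → V}
    (hΦ : Dif Φ Ψ) (hh : ∀ x, ⟪e, Φ x⟫ = ⟪e, x⟫) :
    ACls (fun x => f (Φ x)) e L (S.image Ψ) := by
  have hh' : ∀ y, ⟪e, Ψ y⟫ = ⟪e, y⟫ := fun y => by rw [← hh (Ψ y), hΦ.right]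
  have hcr : ∀ x, Crit (fun y => f (Φ y)) e x ↔ Crit f e (Φ x) := by
    intro x
    rw [crit_iff_grad he, crit_iff_grad he]
    refine and_congr Iff.rfl (exists_congr fun l => ?_)
    exact gradient_comp_height h.smooth hΦ hh x l
  have hs : ContDiff ℝ ∞ fun x => f (Φ x) := h.smooth.comp hΦ.smooth
  have hid : ∀ x, Crit (fun y => f (Φ y)) e x → ∀ k, Idx (fun y => f (Φ y)) e x k →
      Idx f e (Φ x) k := by
    intro x hx k hk
    obtain ⟨-, l, hl⟩ := (crit_iff_grad he x).1 hx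
    have h1 := idx_comp_height hs hΦ.symm hh' (Φ x) l (k := k) (by
      simp only [hΦ.left]
      exact hl) (by simpa only [hΦ.left] using hk)
    simpa only [hΦ.right] using h1
  have hsd := h.sides.map (g := fun x => f (Φ x)) hΦ (fun x => Iff.rfl) (fun x => Iff.rfl)
  refine ⟨hs, hΦ.bounded h.bdd, fun x hx => hΦ.reg h.smooth (h.reg _ hx), hsd.body, hsd.out,
    hsd.lift, fun x hx => ?_, fun x y hx hy h1 h2 hxy => ?_,
    h.mark.transport hΦ.symm.continuous hΦ.left hΦ.right hh⟩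
  · obtain ⟨h1, k, hk⟩ := h.crit _ ((hcr x).1 hx)
    obtain ⟨-, l, hl⟩ := (crit_iff_grad he _).1 ((hcr x).1 hx)
    refine ⟨?_, k, idx_comp_height h.smooth hΦ hh x l hl hk⟩
    rw [← hh]
    exact h1
  · have h3 := h.sep _ _ ((hcr x).1 hx) ((hcr y).1 hy) (hid x hx 1 h1) (hid y hy 1 h2)
      (fun h4 => hxy (by rw [← hΦ.left x, h4, hΦ.left]))
    simpa only [hh] using h3


end two

section three

variable {V : Type*} [NormedAddCommGroup V] [InnerProductSpace ℝ V] [FiniteDimensional ℝ V]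

omit [FiniteDimensional ℝ V] in
theorem Cyl_hpr {e : V} (he : ‖e‖ = 1) (x : V) :
    ((hpr e x : (ℝ ∙ e)ᗮ) : V) = x - ⟪e, x⟫ • e := by
  have h1 := hpr_add he x
  rw [eq_sub_iff_add_eq]
  exact h1

theorem Cyl_orth {e : V} (he : ‖e‖ = 1) (c : ℝ) (x : V) :
    ‖orth e (x - c • e)‖ = ‖hpr e x‖ := by
  have h1 : orth e (x - c • e) = ((hpr e x : (ℝ ∙ e)ᗮ) : V) := by
    rw [Cyl_hpr he]
    unfold orth
    rw [inner_sub_right, real_inner_smul_right, real_inner_self_eq_norm_sq, he]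
    module
  rw [h1]
  rfl

/-- Levels are isolated. -/
theorem Cyl_gap {L : Set ℝ} (hL : L.Finite) (c : ℝ) :
    ∃ δ : ℝ, 0 < δ ∧ ∀ c' ∈ L, c' ≠ c → δ ≤ |c' - c| := by
  have h1 : ∀ᶠ d : ℝ in 𝓝[>] 0, ∀ c' ∈ L, c' ≠ c → d ≤ |c' - c| := by
    rw [eventually_all_finite hL]
    intro p _
    by_cases hpc : p = c
    · exact Eventually.of_forall fun d h => absurd hpc h
    · have h2 : 0 < |p - c| := abs_pos.2 (sub_ne_zero.2 hpc)
      filter_upwards [Ioo_mem_nhdsGT h2] with d hd _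
      exact hd.2.le
  obtain ⟨d, h2, h3⟩ := (h1.and self_mem_nhdsWithin).exists
  exact ⟨d, h3, h2⟩

/-- At a level with zeros there is a straight neck, after an admissible change of the function. -/
theorem al_cyl (hn : Module.finrank ℝ V = 3) {e : V} (he : ‖e‖ = 1) {L : Set ℝ} (hL : L.Finite)
    {f : V → ℝ} {S : Finset V} (h : ACls f e L S) {c : ℝ} (hc : c ∈ L)
    (hz : ∃ x, f x = 0 ∧ ⟪e, x⟫ = c) :
    ∃ (F : V → ℝ) (S' : Finset V) (ζ R : ℝ), ACls F e L S' ∧ S'.card ≤ S.card ∧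
      (Rd F → Rd f) ∧ CylN F e (c • e) ζ R ∧ ∀ c' ∈ L, c' ≠ c → ζ ≤ |c' - c| := by
  classical
  have he0 : e ≠ 0 := by
    intro h0
    rw [h0, norm_zero] at he
    exact zero_ne_one he
  have : Fact (Module.finrank ℝ V = 2 + 1) := ⟨hn⟩
  have hfr : Module.finrank ℝ (ℝ ∙ e)ᗮ = 2 := Submodule.finrank_orthogonal_span_singleton he0
  obtain ⟨δ, hδ, hLδ⟩ := Cyl_gap hL c
  -- straightening
  have hcr : ∀ x, f x = 0 → ⟪e, x⟫ = c → ∀ l : ℝ, gradient f x ≠ l • e := by
    intro x hx hxc l hl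
    have h1 := (h.crit x ((crit_iff_grad he x).2 ⟨hx, l, hl⟩)).1
    rw [hxc] at h1
    exact h1 hc
  obtain ⟨F1, Φ1, a, ha, haδ, hF1, hH1, hb1, hr1, -, -, hfar, hlev, hstr, -, hno, hgerm, -⟩ :=
    straighten h.smooth h.bdd h.reg he hδ hcr
  have hA1 : ACls F1 e L S := by
    refine h.hom hH1 hF1 (fun x hx => ?_) (fun x hx => ?_)
    · obtain ⟨h1, l, hl⟩ := (crit_iff_grad he x).1 hx
      exact hgerm x l h1 hl
    · by_cases hxc : ⟪e, x⟫ = c
      · rw [hlev x hxc]
      · rw [(hfar x (hLδ _ hx hxc)).self_of_nhds]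
  -- the slice
  obtain ⟨g, hg⟩ : ∃ g, g = slc F1 e c := ⟨_, rfl⟩
  have hgs : ContDiff ℝ ∞ g := by
    rw [hg]
    exact slc_smooth hF1 e c
  have hgb : Bornology.IsBounded {y | g y = 0} := by
    obtain ⟨R, hR⟩ := hb1.exists_norm_le
    rw [isBounded_iff_forall_norm_le]
    refine ⟨R, fun y hy => ?_⟩
    have h1 := hR ((y : V) + c • e) (by rw [hg] at hy; exact hy)
    have h2 := norm_hpr_le e ((y : V) + c • e)
    rw [hpr_coe he] at h2
    exact h2.trans h1
  have hno1 : ∀ x, F1 x = 0 → ⟪e, x⟫ = c → ∀ l : ℝ, gradient F1 x ≠ l • e := fun x hx hxc =>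
    hno x (by rw [hxc, sub_self, abs_zero]; exact ha.le) hx
  have hgr : ∀ y, g y = 0 → gradient g y ≠ 0 := by
    rw [hg]
    exact slc_reg hF1 he hno1
  have hgF : ∀ x, |⟪e, x⟫ - c| ≤ a → F1 x = g (hpr e x) := by
    intro x hx
    have h1 : ⟪e, x - (⟪e, x⟫ - c) • e⟫ = c := by
      rw [inner_sub_right, real_inner_smul_right, real_inner_self_eq_norm_sq, he]
      ring
    have h2 : hpr e (x - (⟪e, x⟫ - c) • e) = hpr e x := by
      apply Subtype.ext
      rw [Cyl_hpr he, Cyl_hpr he, h1]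
      module
    rw [hstr x hx, ← hlev _ h1, ← hpr_slc (f := F1) he h1, h2, hg]
  have hgn : ∃ y, g y = 0 := by
    obtain ⟨x, hx, hxc⟩ := hz
    refine ⟨hpr e x, ?_⟩
    rw [hg, hpr_slc he hxc, hlev x hxc, hx]
  obtain ⟨s, hs, K, W, k, -, -, -, -, -, -, -, hD, hk0, hkg, -⟩ :=
    exists_innermost_ball hfr hgs hgb hgr hgn
  have hs0 : s ≠ 0 := by rcases hs with h | h <;> rw [h] <;> norm_num
  have hsgr : ∀ (P : Type _) [NormedAddCommGroup P] [InnerProductSpace ℝ P] [CompleteSpace P]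
      (u : P → ℝ) (y : P), gradient (fun z => s * u z) y = s • gradient u y := by
    intro P _ _ _ u y
    have h1 : (fun z => s * u z) = fun z => s • u z := rfl
    have h2 : fderiv ℝ (fun z => s • u z) y = s • fderiv ℝ u y := by
      have h3 : (fun z => s • u z) = s • u := rfl
      rw [h3, fderiv_const_smul_field]
      rfl
    unfold gradient
    rw [h1, h2, map_smul]
  -- the planar normal form
  obtain ⟨φ, ψ, d₀, hφ, -, hd₀, -, hle, heq, hfd⟩ := planar_normal hfr (fun w => s * g w)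
    (contDiff_const.mul hgs) (fun w hw => by
      have hw' : g w = 0 := (mul_eq_zero.1 hw).resolve_left hs0
      rw [hsgr]
      exact smul_ne_zero hs0 (hgr w hw')) k hD
    (fun w hw => by
      have h1 : k w = s * g w := (hkg w ((hk0 w).1 hw)).self_of_nhds
      rw [← h1]
      exact hw) (fun w hw => hkg w ((hk0 w).1 hw.le))
  -- transport
  have hA2 : ACls (fun x => s * F1 x) e L S := by
    rcases hs with h1 | h1
    · rw [h1]
      simpa only [one_mul] using hA1
    · rw [h1]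
      have h2 := hA1.neg hn he
      simpa only [neg_one_mul] using h2
  have hΦ : Dif (extH e φ) (extH e ψ) := hφ.extH he
  have hΦh : ∀ x, ⟪e, extH e φ x⟫ = ⟪e, x⟫ := extH_height he φ
  have hA3 := hA2.comp_dif he hΦ hΦh
  obtain ⟨f2, hf2⟩ : ∃ f2, f2 = fun x => s * F1 (extH e φ x) := ⟨_, rfl⟩
  rw [← hf2] at hA3
  have hf2g : ∀ x, |⟪e, x⟫ - c| < a → f2 x = s * g (φ (hpr e x)) := by
    intro x hx
    rw [hf2]
    show s * F1 (extH e φ x) = s * g (φ (hpr e x))
    rw [hgF (extH e φ x) (by rw [hΦh]; exact hx.le), extH_hpr he]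
  have hgφ : ContDiff ℝ ∞ fun w => s * g (φ w) := contDiff_const.mul (hgs.comp hφ.smooth)
  obtain ⟨F3, d, hd, -, hF3, hH3, -, heq3, hgr3, hgerm3, -, hcyl⟩ :=
    normal_form hA3.smooth hA3.good hgφ ha hd₀ hf2g hle heq hfd
  have hno2 : ∀ x, |⟪e, x⟫ - c| < a → f2 x = 0 → ∀ l : ℝ, gradient f2 x ≠ l • e := by
    intro x hx hx0 l hl
    have hx0' : F1 (extH e φ x) = 0 := by
      rw [hf2] at hx0
      exact (mul_eq_zero.1 hx0).resolve_left hs0
    rw [hf2] at hl
    have h1 := (gradient_comp_height (contDiff_const.mul hF1) hΦ hΦh x l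
      (F := fun y => s * F1 y)).1 hl
    rw [hsgr] at h1
    refine hno (extH e φ x) (by rw [hΦh]; exact hx.le) hx0' (s⁻¹ * l) ?_
    rw [mul_smul, ← h1, smul_smul, inv_mul_cancel₀ hs0, one_smul]
  have hA4 : ACls F3 e L (S.image (extH e ψ)) := by
    refine hA3.hom hH3 hF3 (fun x hx => ?_) (fun x _ => heq3 x)
    obtain ⟨h1, l, hl⟩ := (crit_iff_grad he x).1 hx
    have h2 : f2 x = 0 := (heq3 x).1 h1
    obtain ⟨μ, hμ, h3⟩ := hgr3 x h2
    refine hgerm3 x (Or.inl ?_)
    by_contra hlt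
    push Not at hlt
    refine hno2 x hlt h2 (μ⁻¹ * l) ?_
    rw [mul_smul, ← hl, h3, smul_smul, inv_mul_cancel₀ hμ.ne', one_smul]
  have hec : ⟪e, c • e⟫ = c := by
    rw [real_inner_smul_right, real_inner_self_eq_norm_sq, he]
    ring
  refine ⟨F3, _, a / 2, 1 + d, hA4, Finset.card_image_le, fun hR => ?_, ?_,
    fun c' hc' hne => ?_⟩
  · have h1 : Rd f2 := Rd.of_hom hH3 hR
    rw [hf2] at h1
    have h2 : Rd (fun x => s * F1 x) := (rd_comp_dif hΦ (f := fun x => s * F1 x)).1 h1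
    have h3 : Rd F1 := by
      rcases hs with h4 | h4
      · rw [h4] at h2
        simpa only [one_mul] using h2
      · rw [h4] at h2
        simp only [neg_one_mul] at h2
        exact rd_neg.1 h2
    exact Rd.of_hom hH1 h3
  · refine ⟨he, by linarith, by linarith, fun x h1 h2 => ?_⟩
    rw [Cyl_orth he] at h2 ⊢
    rw [inner_sub_right, hec] at h1
    exact hcyl x h2.le h1
  · have := hLδ c' hc' hne
    linarith


end three

end Cy

variable {V : Type*} [NormedAddCommGroup V] [InnerProductSpace ℝ V] [FiniteDimensional ℝ V]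

/-- PROOF. Straightening at the level `c`, the innermost disc of the slice, the planar
diffeomorphism, the normal form (`Cy.al_cyl`). -/
theorem step_normal (hV : Module.finrank ℝ V = 3) {f : V → ℝ} {e : V} (he : ‖e‖ = 1)
    {L : Finset ℝ} {S : Finset V} (hm : Mo f e) (hl : Lev f e L S) (ht : TopE f) {c : ℝ}
    (hc : c ∈ L) (hne : ∃ x, f x = 0 ∧ ⟪e, x⟫ = c) :
    ∃ (G : V → ℝ) (ζ R : ℝ) (S' : Finset V), (Rd G → Rd f) ∧ S'.card ≤ S.card ∧ Mo G e ∧
      Lev G e L S' ∧ TopE G ∧ CylN G e (c • e) ζ R ∧ ∀ c' ∈ L, c' ≠ c → ζ ≤ |c' - c| := by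
  have h : Cy.ACls f e (L : Set ℝ) S :=
    ⟨hm.smooth, hm.bdd, hm.reg, ht.conn, ht.out, ht.lift,
      fun x hx => ⟨fun h => hl.reg x hx (Finset.mem_coe.1 h), hm.nd x hx⟩,
      fun x y hx hy h1 h2 hxy => by
        obtain ⟨c, h3, h4⟩ := hl.sep x y hx hy h1 h2 hxy
        exact ⟨c, Finset.mem_coe.2 h3, h4⟩, hl.mark⟩
  obtain ⟨G, S', ζ, R, hG, hS, hR, hk, hsep⟩ :=
    Cy.al_cyl hV he L.finite_toSet h (Finset.mem_coe.2 hc) hne
  refine ⟨G, ζ, R, S', hR, hS, ⟨hG.smooth, hG.bdd, hG.reg, fun x hx => (hG.crit x hx).2⟩,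
    ⟨fun x hx h => (hG.crit x hx).1 (Finset.mem_coe.2 h), fun x y hx hy h1 h2 hxy => ?_, hG.mark⟩,
    ⟨hG.conn, hG.conn', hG.lift⟩, hk, fun c' hc' => hsep c' (Finset.mem_coe.2 hc')⟩
  obtain ⟨c, h3, h4⟩ := hG.sep x y hx hy h1 h2 hxy
  exact ⟨c, Finset.mem_coe.1 h3, h4⟩

end Pool.Schoen
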