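import Pool.Agent.H.MP_6c077c_gt.Al.Cls2
import Pool.Agent.H.MP_6c077c_gt.Al.Planar

/-! Alexander's theorem: transport of the class by a diffeomorphism of the horizontal plane. -/

set_option autoImplicit false

namespace Pool.Schoen

open Filter Set
open scoped Topology RealInnerProductSpace ContDiff

variable {V : Type*} [NormedAddCommGroup V] [InnerProductSpace ℝ V] [FiniteDimensional ℝ V]

/-- Critical points correspond under a diffeomorphism preserving the height. -/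
theorem crit_comp_dif {e : V} (he : ‖e‖ = 1) {Φ Ψ : V → V} (h : Dif Φ Ψ)
    (hh : ∀ x, ⟪e, Φ x⟫ = ⟪e, x⟫) {f : V → ℝ} (hf : ContDiff ℝ ∞ f) {x : V}
    (hx : Crit (fun y => f (Φ y)) e x) :
    Crit f e (Φ x) ∧ ∃ c : ℝ, gradient f (Φ x) = c • e := by
  obtain ⟨c, hc⟩ := hx.vert he
  have h1 := (gradient_comp_height hf h hh x c).1 hc
  exact ⟨crit_of_vert hx.1 h1, c, h1⟩

/-- PROOF. `Dif.extH`, `extH_height`; `Dif.bounded`, `Dif.reg`; `Crit` is preserved (`Crit.vert`,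
`crit_of_vert`, `gradient_comp_height`), `idx_comp_height` (for the inverse `extH e ψ` in `Lev.sep`),
`Mark.transport`, `Finset.card_image_le`. -/
theorem transport {e : V} (he : ‖e‖ = 1) {φ ψ : (ℝ ∙ e)ᗮ → (ℝ ∙ e)ᗮ} (h : Dif φ ψ) {f : V → ℝ}
    {L : Finset ℝ} {S : Finset V} (hm : Mo f e) (hl : Lev f e L S) :
    Mo (fun x => f (extH e φ x)) e ∧
      ∃ S' : Finset V, S'.card ≤ S.card ∧ Lev (fun x => f (extH e φ x)) e L S' := by
  classical
  obtain ⟨Φ, hΦ⟩ : ∃ Φ, Φ = extH e φ := ⟨_, rfl⟩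
  obtain ⟨Ψ, hΨ⟩ : ∃ Ψ, Ψ = extH e ψ := ⟨_, rfl⟩
  have hd : Dif Φ Ψ := by
    rw [hΦ, hΨ]
    exact h.extH he
  have hh : ∀ x, ⟪e, Φ x⟫ = ⟪e, x⟫ := fun x => by
    rw [hΦ]
    exact extH_height he φ x
  have hh' : ∀ x, ⟪e, Ψ x⟫ = ⟪e, x⟫ := fun x => by
    rw [hΨ]
    exact extH_height he ψ x
  rw [← hΦ]
  have hcr : ∀ x, Crit (fun y => f (Φ y)) e x →
      Crit f e (Φ x) ∧ ∃ c : ℝ, gradient f (Φ x) = c • e :=
    fun x hx => crit_comp_dif he hd hh hm.smooth hx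
  refine ⟨⟨hm.smooth.comp hd.smooth, hd.bounded hm.bdd, fun x hx => hd.reg hm.smooth (hm.reg _ hx),
    fun x hx => ?_⟩, S.image Ψ, Finset.card_image_le, ⟨fun x hx => ?_, fun x y hx hy hx1 hy1 hxy => ?_,
    ?_⟩⟩
  · obtain ⟨h1, c, hc⟩ := hcr x hx
    obtain ⟨k, hk⟩ := hm.nd _ h1
    exact ⟨k, idx_comp_height hm.smooth hd hh x c hc hk⟩
  · rw [← hh x]
    exact hl.reg _ (hcr x hx).1
  · have key : ∀ z, Crit (fun y => f (Φ y)) e z → Idx (fun y => f (Φ y)) e z 1 →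
        Idx f e (Φ z) 1 := by
      intro z hz hz1
      obtain ⟨c, hc⟩ := hz.vert he
      have h1 := idx_comp_height (F := fun y => f (Φ y)) (hm.smooth.comp hd.smooth) hd.symm hh'
        (Φ z) c (by rw [hd.left]; exact hc) (k := 1) (by rw [hd.left]; exact hz1)
      simp only [hd.right] at h1
      exact h1
    obtain ⟨c, hc, h2⟩ := hl.sep (Φ x) (Φ y) (hcr x hx).1 (hcr y hy).1 (key x hx hx1)
      (key y hy hy1) (fun h3 => hxy (by rw [← hd.left x, h3, hd.left y]))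
    rw [hh, hh] at h2
    exact ⟨c, hc, h2⟩
  · exact hl.mark.transport hd.symm.continuous hd.left hd.right hh

end Pool.Schoen
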